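import Pool.Agent.RTX.FGood

/-!
# RTS7/Bat: batches of forbidden windows

The fast checker of `RTX` traverses the trie of the forbidden windows of one root; the codes of the windows (path in base two, first step
most significant, leading digit 1) are compared with a list `F` packed in slots of 64 bits.
-/

set_option autoImplicit false

namespace Pool.Agent.RTX

/-- The code of a reversed path. -/
def encG : List Bool → ℕ
  | [] => 1
  | c :: gr => 2 * encG gr + c.toNat

/-- The window of the root `π` with the reversed path `gr` forces a power. -/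
def Lf (A : Par) (π : List ℕ) (gr : List Bool) : Prop :=
  ∀ (u : ℕ → ℕ) (𝒮 : Sys A.d u), 𝒮.R 0 = rows0 A.d π → Fol 𝒮.c 0 gr.reverse → 𝒮.fb A 0

/-- Short stack entry. -/
def entS (T B c : ℕ) : ℕ := Nat.add (Nat.mul (nat_lit 2) (Nat.add (Nat.shiftLeft T (nat_lit 24)) B)) c

/-- Auxiliary. -/
noncomputable def fulT (X T B : ℕ) : ℕ :=
  ifB (Nat.beq (Nat.mod X (nat_lit 2)) (nat_lit 1))
    (entF T B (nat_lit 1) (gF' (Nat.mod B (nat_lit 8))) (Nat.add (Nat.mod T (nat_lit 8)) (nat_lit 1)))
    (entF T B (nat_lit 0) (gF' (Nat.mod T (nat_lit 8))) (Nat.add (Nat.mod B (nat_lit 8)) (nat_lit 9)))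

/-- Stack entry from a short one. -/
noncomputable def fulS (X : ℕ) : ℕ :=
  fz (Nat.shiftRight X (nat_lit 25)) fun T => fz (Nat.mod (Nat.shiftRight X (nat_lit 1)) (nat_lit 16777216)) fun B => fulT X T B

/-- Stack from a stack of short entries. -/
noncomputable def expS : List ℕ → List ℕ := List.rec (motive := fun _ => List ℕ) [] (fun X _ ih => fulS X :: ih)

/-- Forbidden window, with a stack of short entries. -/
noncomputable def leafS (D : RF) (st : List ℕ) (T B c : ℕ) : ℕ :=
  fz (Nat.div c (nat_lit 8796093022208)) fun c' => fz (Nat.mod c (nat_lit 8796093022208)) fun q =>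
    fz (Nat.mod q (nat_lit 32)) fun n =>
    fz (tabW D.w n st) fun W =>
    fz (rowF n st (Nat.add (Nat.shiftLeft T (nat_lit 24)) B)) fun RS =>
    fz (zF D.d W T B (Nat.mod (Nat.div q (nat_lit 32)) (nat_lit 8))
        (Nat.mul (nat_lit 3) (Nat.mod (Nat.div q (nat_lit 256)) (nat_lit 32)))
        (Nat.mul (nat_lit 3) (Nat.mod (Nat.div q (nat_lit 8192)) (nat_lit 32))))
      (l2 D (expS (drpF n st)) c' RS q)

/-- The second child of a node. -/
noncomputable def nb2 (D : RF) (ih : List ℕ → ℕ → ℕ → ℕ → ℕ → ℕ → (ℕ → ℕ → ℕ) → ℕ) (st : List ℕ) (T B p j : ℕ)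
    (k : ℕ → ℕ → ℕ) (c F : ℕ) : ℕ :=
  fz (Nat.add (Nat.mul (nat_lit 2) p) (nat_lit 1)) fun p' =>
    fz (entS T B (nat_lit 1)) fun X =>
      insF D.d (Nat.mod B (nat_lit 8)) j T fun T' => ih (X :: st) T' B p' c F k

/-- The first child of a node. -/
noncomputable def nb1 (D : RF) (ih : List ℕ → ℕ → ℕ → ℕ → ℕ → ℕ → (ℕ → ℕ → ℕ) → ℕ) (st : List ℕ) (T B p j : ℕ)
    (k : ℕ → ℕ → ℕ) (c F : ℕ) : ℕ :=
  fz (Nat.mul (nat_lit 2) p) fun p' =>
    fz (entS T B (nat_lit 0)) fun X =>
      insF D.d (Nat.mod T (nat_lit 8)) j B fun B' => ih (X :: st) T B' p' c F k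

/-- Traversal of the coded trie: tags `0` node with two children (with two positions of 3 bits), `1` forbidden window, `2`, `3` only the first, second child (with one
position). -/
noncomputable def runB (D : RF) (n : ℕ) : List ℕ → ℕ → ℕ → ℕ → ℕ → ℕ → (ℕ → ℕ → ℕ) → ℕ :=
  Nat.rec (motive := fun _ => List ℕ → ℕ → ℕ → ℕ → ℕ → ℕ → (ℕ → ℕ → ℕ) → ℕ) (fun _ _ _ _ _ _ _ => nat_lit 0)
    (fun _ ih st T B p c F k => fz (Nat.div c (nat_lit 4)) fun c' =>
      Nat.rec (motive := fun _ => ℕ)
        (fz (Nat.div c' (nat_lit 64)) fun c'' =>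
          nb1 D ih st T B p (Nat.mod c' (nat_lit 8))
            (fun c1 F1 => nb2 D ih st T B p (Nat.mod (Nat.div c' (nat_lit 8)) (nat_lit 8)) k c1 F1) c'' F)
        (fun t _ => Nat.rec (motive := fun _ => ℕ)
          (bndN (leafS D st T B c') fun c1 =>
            ifB (Nat.beq (Nat.mod F (nat_lit 18446744073709551616)) p)
              (fz (Nat.div F (nat_lit 18446744073709551616)) fun F' => k c1 F') (nat_lit 0))
          (fun t _ => fz (Nat.div c' (nat_lit 8)) fun c'' => Nat.rec (motive := fun _ => ℕ)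
            (nb1 D ih st T B p (Nat.mod c' (nat_lit 8)) k c'' F)
            (fun _ _ => nb2 D ih st T B p (Nat.mod c' (nat_lit 8)) k c'' F) t) t)
        (Nat.mod c (nat_lit 4))) n

/-- Short stack entry of a step of type `c` from the rows `R`. -/
def entT (c : Bool) (R : Rows) : ℕ := entS (encR R.top 0) (encR R.bot 0) c.toNat

/-- Stack of short entries of the reversed path `gr` from the rows `rt`. -/
def stkS (rt : Rows) : List Bool → List ℕ
  | [] => []
  | c :: gr => entT c (runR gr.reverse rt) :: stkS rt gr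

/-- Check of a batch: subtrie with code `c` at the end of the reversed path `gr` from the root `π`, windows `F`. -/
noncomputable def batOK (A : Par) (π : List ℕ) (gr : List Bool) (c F : ℕ) : Bool :=
  Nat.beq (mkD A π fun D => frc (fun st =>
    fz (encR (runR gr.reverse (rows0 A.d π)).top 0) fun T => fz (encR (runR gr.reverse (rows0 A.d π)).bot 0) fun B =>
      fz (encG gr) fun p => runB D (64 - gr.length) st T B p c F fun _ F' => ifB (Nat.beq F' (nat_lit 0)) (nat_lit 1) (nat_lit 0))
    (stkS (rows0 A.d π) gr).reverse []) 1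

theorem encG_pos : ∀ gr : List Bool, 0 < encG gr
  | [] => Nat.one_pos
  | c :: gr => by
    have h := encG_pos gr
    unfold encG
    omega

theorem encG_nil : encG [] = 1 := rfl

theorem encG_cons (c : Bool) (gr : List Bool) : encG (c :: gr) = 2 * encG gr + c.toNat := rfl

theorem encG_inj : ∀ {g h : List Bool}, encG g = encG h → g = h
  | [], [], _ => rfl
  | [], c :: h, e => by
    have h1 := encG_pos h
    rw [encG_nil, encG_cons] at e
    omega
  | c :: g, [], e => by
    have h1 := encG_pos g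
    rw [encG_nil, encG_cons] at e
    omega
  | c :: g, c' :: h, e => by
    rw [encG_cons, encG_cons] at e
    have hc : c.toNat ≤ 1 := Bool.toNat_le c
    have hc' : c'.toNat ≤ 1 := Bool.toNat_le c'
    have h1 : encG g = encG h := by omega
    have h2 : c.toNat = c'.toNat := by omega
    rw [encG_inj h1]
    cases c <;> cases c' <;> simp_all

/-- `F'` is what remains of `F` after some slots with the property `X`. -/
inductive Cn (X : ℕ → Prop) : ℕ → ℕ → Prop
  | refl (F : ℕ) : Cn X F F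
  | step (F F' : ℕ) (h : X (F % 18446744073709551616)) (h' : Cn X (F / 18446744073709551616) F') : Cn X F F'

theorem Cn.trans {X : ℕ → Prop} {F G H : ℕ} (h : Cn X F G) (h' : Cn X G H) : Cn X F H := by
  induction h with
  | refl F => exact h'
  | step F F' hx _ ih => exact Cn.step _ _ hx (ih h')

theorem Cn.slot {X : ℕ → Prop} {F : ℕ} (h : Cn X F 0) :
    ∀ e, (F >>> (64 * e)) % 18446744073709551616 ≠ 0 → X ((F >>> (64 * e)) % 18446744073709551616) := by
  obtain ⟨G, hG⟩ : ∃ G, G = 0 := ⟨0, rfl⟩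
  rw [← hG] at h
  induction h with
  | refl F =>
    intro e he
    rw [hG] at he
    simp at he
  | step F F' hx _ ih =>
    intro e he
    cases e with
    | zero => simpa using hx
    | succ e =>
      have h1 : F >>> (64 * (e + 1)) = (F / 18446744073709551616) >>> (64 * e) := by
        rw [show 64 * (e + 1) = 64 + 64 * e by ring, Nat.shiftRight_add, Nat.shiftRight_eq_div_pow F 64]
      rw [h1] at he ⊢
      exact ih hG e he

theorem stW2_congr {X X' : ℕ} (h : X.mod 2 = X'.mod 2) (ha : aX X = aX X') (hb : bX X = bX X') (W u v : ℕ) :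
    stW2 X W u v = stW2 X' W u v := by
  unfold stW2
  rw [ha, hb, h]

theorem stW1_congr {X X' : ℕ} (h : X.mod 2 = X'.mod 2) (ha : aX X = aX X') (hb : bX X = bX X') (W u : ℕ) :
    stW1 X W u = stW1 X' W u := by
  unfold stW1
  rw [fz_eq, fz_eq, hb, stW2_congr h ha hb]

theorem stW_congr {X X' : ℕ} (h : X.mod 2 = X'.mod 2) (ha : aX X = aX X') (hb : bX X = bX X') (W : ℕ) :
    stW X W = stW X' W := by
  unfold stW
  rw [fz_eq, fz_eq, ha, stW1_congr h ha hb]

theorem fulS_eq (X : ℕ) : ∃ H, fulS X = H * 18446744073709551616 + X := by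
  have h : fulS X = fulT X (X >>> 25) (X >>> 1 % 16777216) := by
    unfold fulS
    rw [fz_eq, fz_eq]
    rfl
  have e : ∀ (T B c h s : ℕ), 2 * (T <<< 24 + B) + c = X → ∃ H, entF T B c h s = H * 18446744073709551616 + X := by
    intro T B c h s hX
    refine ⟨h <<< 12 + 128 * s, ?_⟩
    rw [entF_eq, hX, Nat.shiftLeft_eq _ 64]
  rw [h]
  unfold fulT
  rw [ifB_eq]
  have h1 : X >>> 25 = X / 33554432 := by rw [Nat.shiftRight_eq_div_pow]
  have h2 : X >>> 1 = X / 2 := by rw [Nat.shiftRight_eq_div_pow]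
  have h3 : (X / 33554432) <<< 24 = X / 33554432 * 16777216 := by rw [Nat.shiftLeft_eq]
  rw [h1, h2]
  split
  · next hc =>
    apply e
    rw [Nat.beq_eq] at hc
    change X % 2 = 1 at hc
    rw [h3]
    omega
  · next hc =>
    apply e
    rw [Nat.beq_eq] at hc
    change ¬ X % 2 = 1 at hc
    rw [h3]
    omega

theorem fulS_low (X : ℕ) : fulS X % 2 = X % 2 ∧ aX (fulS X) = aX X ∧ bX (fulS X) = bX X ∧
    (fulS X >>> 1) % 281474976710656 = (X >>> 1) % 281474976710656 := by
  obtain ⟨H, hH⟩ := fulS_eq X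
  rw [hH]
  have ea : ∀ Y, aX Y = Y / 33554432 % 8 := by
    intro Y
    show (Y >>> 25) % 8 = _
    rw [Nat.shiftRight_eq_div_pow]
  have eb : ∀ Y, bX Y = Y / 2 % 8 := by
    intro Y
    show (Y >>> 1) % 8 = _
    rw [Nat.shiftRight_eq_div_pow]
  rw [ea, ea, eb, eb, Nat.shiftRight_eq_div_pow, Nat.shiftRight_eq_div_pow, pow_one]
  refine ⟨by omega, by omega, by omega, by omega⟩

theorem tabW_exp (w : ℕ) : ∀ (n : ℕ) (st : List ℕ), tabW w n (expS st) = tabW w n st
  | 0, _ => rfl
  | n + 1, [] => rfl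
  | n + 1, X :: st => by
    have h1 : tabW w (n + 1) (expS (X :: st)) = fz (tabW w n (expS st)) (stW (fulS X)) := rfl
    have h2 : tabW w (n + 1) (X :: st) = fz (tabW w n st) (stW X) := rfl
    obtain ⟨e1, e2, e3, -⟩ := fulS_low X
    rw [h1, h2, fz_eq, fz_eq, tabW_exp w n st, stW_congr e1 e2 e3]

theorem rowF_exp : ∀ (n : ℕ) (st : List ℕ) (r : ℕ), rowF n (expS st) r = rowF n st r
  | 0, _, _ => rfl
  | n + 1, [], _ => rfl
  | n + 1, X :: st, r => by
    have h1 : rowF (n + 1) (expS (X :: st)) r = rowF n (expS st) ((fulS X >>> 1) % 281474976710656) := rfl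
    have h2 : rowF (n + 1) (X :: st) r = rowF n st ((X >>> 1) % 281474976710656) := rfl
    rw [h1, h2, (fulS_low X).2.2.2, rowF_exp n st]

theorem drpF_exp : ∀ (n : ℕ) (st : List ℕ), expS (drpF n st) = drpF n (expS st)
  | 0, _ => rfl
  | n + 1, [] => rfl
  | n + 1, X :: st => by
    have h1 : drpF (n + 1) (expS (X :: st)) = drpF n (expS st) := rfl
    have h2 : drpF (n + 1) (X :: st) = drpF n st := rfl
    rw [h1, h2, drpF_exp n st]

theorem leafS_eq (D : RF) (st : List ℕ) (T B c : ℕ) : leafS D st T B c = leafF D (expS st) T B c := by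
  unfold leafS leafF l0 l1
  simp only [fz_eq]
  have e := tabW_exp D.w
  have e' := rowF_exp
  have e2 := drpF_exp
  show fz _ _ = fz _ _
  rw [fz_eq, fz_eq, tabW_exp, rowF_exp, drpF_exp]

theorem fulS_entT {d : ℕ} (hd : d ≤ 8) {R : Rows} (h : RI d R) (c : Bool) : fulS (entT c R) = entR c R := by
  obtain ⟨h5, h6⟩ := enc24 hd h
  obtain ⟨-, -, -, -, ea, eb⟩ := pkR_spec hd h
  have h0 : ∀ X, fulS X = fulT X (X >>> 25) (X >>> 1 % 16777216) := by
    intro X
    unfold fulS
    rw [fz_eq, fz_eq]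
    rfl
  have h1 : entT c R = 2 * ((encR R.top 0) <<< 24 + encR R.bot 0) + c.toNat := rfl
  have h2 : entT c R >>> 25 = encR R.top 0 := by
    rw [h1, Nat.shiftRight_eq_div_pow, Nat.shiftLeft_eq]
    have := Bool.toNat_le c
    omega
  have h3 : entT c R >>> 1 % 16777216 = encR R.bot 0 := by
    rw [h1, Nat.shiftRight_eq_div_pow, Nat.shiftLeft_eq]
    have := Bool.toNat_le c
    omega
  have h4 : (entT c R).mod 2 = c.toNat := by
    show entT c R % 2 = _
    rw [h1]
    have := Bool.toNat_le c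
    omega
  rw [h0, h2, h3]
  unfold fulT entR
  rw [h4]
  have ea' : (encR R.top 0).mod 8 = R.a := ea
  have eb' : (encR R.bot 0).mod 8 = R.b := eb
  rw [ea', eb']
  cases c <;> rfl

theorem expS_stk {A : Par} (hA : ParOK A) {π : List ℕ} (hr : RI A.d (rows0 A.d π)) :
    ∀ gr : List Bool, expS (stkS (rows0 A.d π) gr) = stkF (rows0 A.d π) gr
  | [] => rfl
  | c :: gr => by
    have h : expS (stkS (rows0 A.d π) (c :: gr)) = fulS (entT c (runR gr.reverse (rows0 A.d π))) ::
      expS (stkS (rows0 A.d π) gr) := rfl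
    rw [h, fulS_entT hA.d8 (ri_run hr _), expS_stk hA hr gr]
    rfl

theorem runB_zero (D : RF) (st : List ℕ) (T B p c F : ℕ) (k : ℕ → ℕ → ℕ) : runB D 0 st T B p c F k = 0 := rfl

theorem runB_succ (D : RF) (n : ℕ) (st : List ℕ) (T B p c F : ℕ) (k : ℕ → ℕ → ℕ) :
    runB D (n + 1) st T B p c F k =
      match c % 4 with
      | 0 => nb1 D (runB D n) st T B p (c / 4 % 8) (fun c1 F1 => nb2 D (runB D n) st T B p (c / 4 / 8 % 8) k c1 F1)
          (c / 4 / 64) F
      | 1 => bndN (leafS D st T B (c / 4)) fun c1 =>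
          if F % 18446744073709551616 = p then k c1 (F / 18446744073709551616) else 0
      | 2 => nb1 D (runB D n) st T B p (c / 4 % 8) k (c / 4 / 8) F
      | _ + 3 => nb2 D (runB D n) st T B p (c / 4 % 8) k (c / 4 / 8) F := by
  have h : runB D (n + 1) st T B p c F k = fz (c / 4) fun c' =>
      Nat.rec (motive := fun _ => ℕ)
        (fz (c' / 64) fun c'' => nb1 D (runB D n) st T B p (c' % 8)
            (fun c1 F1 => nb2 D (runB D n) st T B p (c' / 8 % 8) k c1 F1) c'' F)
        (fun t _ => Nat.rec (motive := fun _ => ℕ)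
          (bndN (leafS D st T B c') fun c1 =>
            ifB (Nat.beq (F % 18446744073709551616) p)
              (fz (F / 18446744073709551616) fun F' => k c1 F') 0)
          (fun t _ => fz (c' / 8) fun c'' => Nat.rec (motive := fun _ => ℕ)
            (nb1 D (runB D n) st T B p (c' % 8) k c'' F)
            (fun _ _ => nb2 D (runB D n) st T B p (c' % 8) k c'' F) t) t)
        (c % 4) := rfl
  rw [h, fz_eq]
  simp only [fz_eq, ifB_eq, Nat.beq_eq]
  generalize c % 4 = t
  match t with
  | 0 => rfl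
  | 1 => rfl
  | 2 => rfl
  | t + 3 => rfl

theorem nb2_eq (D : RF) (ih : List ℕ → ℕ → ℕ → ℕ → ℕ → ℕ → (ℕ → ℕ → ℕ) → ℕ) (st : List ℕ) (T B p j : ℕ)
    (k : ℕ → ℕ → ℕ) (c F : ℕ) : nb2 D ih st T B p j k c F =
    insF D.d (B % 8) j T fun T' => ih (entS T B 1 :: st) T' B (2 * p + 1) c F k := by
  unfold nb2
  rw [fz_eq, fz_eq]
  rfl

theorem nb1_eq (D : RF) (ih : List ℕ → ℕ → ℕ → ℕ → ℕ → ℕ → (ℕ → ℕ → ℕ) → ℕ) (st : List ℕ) (T B p j : ℕ)
    (k : ℕ → ℕ → ℕ) (c F : ℕ) : nb1 D ih st T B p j k c F =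
    insF D.d (T % 8) j B fun B' => ih (entS T B 0 :: st) T B' (2 * p) c F k := by
  unfold nb1
  rw [fz_eq, fz_eq]
  rfl

theorem batOK_eq (A : Par) (π : List ℕ) (gr : List Bool) (c F : ℕ) :
    batOK A π gr c F = true ↔
      runB (mkRF A π) (64 - gr.length) (stkS (rows0 A.d π) gr)
        (encR (runR gr.reverse (rows0 A.d π)).top 0) (encR (runR gr.reverse (rows0 A.d π)).bot 0) (encG gr) c F
        (fun _ F' => if F' = 0 then 1 else 0) = 1 := by
  unfold batOK
  rw [Nat.beq_eq, mkD_eq, frc_eq]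
  simp only [fz_eq, ifB_eq, Nat.beq_eq]

theorem runB_ok {A : Par} (hA : ParOK A) {π : List ℕ} (hr : RI A.d (rows0 A.d π)) :
    ∀ (n : ℕ) (gr : List Bool) (c F m : ℕ) (k : ℕ → ℕ → ℕ), gr.length + n ≤ 64 →
      runB (mkRF A π) n (stkS (rows0 A.d π) gr)
        (encR (runR gr.reverse (rows0 A.d π)).top 0) (encR (runR gr.reverse (rows0 A.d π)).bot 0) (encG gr) c F k = m + 1 →
      ∃ c' F', k c' F' = m + 1 ∧ Cn (fun w => ∀ gr, encG gr = w → Lf A π gr) F F' := by
  intro n
  induction n with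
  | zero =>
    intro gr c F m k _ h
    rw [runB_zero] at h
    omega
  | succ n ih =>
    intro gr c F m k hl h
    set rt := rows0 A.d π with hrt
    set Rg := runR gr.reverse rt with hRg
    have hRgi : RI A.d Rg := ri_run hr _
    obtain ⟨l8t, l8b⟩ := ri_l8 hA.d8 hRgi
    obtain ⟨-, -, -, -, ea, eb⟩ := pkR_spec hA.d8 hRgi
    have eD : (mkRF A π).d = A.d := rfl
    have k1 : ∀ (j c F m : ℕ) (k : ℕ → ℕ → ℕ), nb1 (mkRF A π) (runB (mkRF A π) n) (stkS rt gr) (encR Rg.top 0)
        (encR Rg.bot 0) (encG gr) j k c F = m + 1 →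
        ∃ c' F', k c' F' = m + 1 ∧ Cn (fun w => ∀ gr, encG gr = w → Lf A π gr) F F' := by
      intro j c F m k h
      rw [nb1_eq, ea, eD] at h
      have h1 := insF_enc (ri_len hRgi).2 (ri_nd_bot hRgi) l8b h
      have e1 : runR (false :: gr).reverse rt = step false Rg := by
        rw [List.reverse_cons, runR_app]
        rfl
      have e2 : encG (false :: gr) = 2 * encG gr := by simp [encG]
      exact ih (false :: gr) c F m k (by simp only [List.length_cons]; omega) (by rw [e1, e2]; exact h1)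
    have k2 : ∀ (j c F m : ℕ) (k : ℕ → ℕ → ℕ), nb2 (mkRF A π) (runB (mkRF A π) n) (stkS rt gr) (encR Rg.top 0)
        (encR Rg.bot 0) (encG gr) j k c F = m + 1 →
        ∃ c' F', k c' F' = m + 1 ∧ Cn (fun w => ∀ gr, encG gr = w → Lf A π gr) F F' := by
      intro j c F m k h
      rw [nb2_eq, eb, eD] at h
      have h5 := insF_enc (ri_len hRgi).1 (ri_nd_top hRgi) l8t h
      have e3 : runR (true :: gr).reverse rt = step true Rg := by
        rw [List.reverse_cons, runR_app]
        rfl
      have e4 : encG (true :: gr) = 2 * encG gr + 1 := by simp [encG]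
      exact ih (true :: gr) c F m k (by simp only [List.length_cons]; omega) (by rw [e3, e4]; exact h5)
    rw [runB_succ] at h
    generalize c % 4 = t at h
    match t, h with
    | 0, h =>
      simp only at h
      obtain ⟨c1, F1, h3, h4⟩ := k1 _ _ _ _ _ h
      obtain ⟨c2, F2, h6, h7⟩ := k2 _ _ _ _ _ h3
      exact ⟨c2, F2, h6, h4.trans h7⟩
    | 1, h =>
      simp only at h
      rw [leafS_eq, expS_stk hA hr] at h
      generalize hx : leafF (mkRF A π) (stkF rt gr) (encR Rg.top 0) (encR Rg.bot 0) (c / 4) = x at h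
      cases x with
      | zero => rw [bndN_zero] at h; omega
      | succ c1 =>
        rw [bndN_succ] at h
        obtain ⟨pt, ur, ul, ys, hL⟩ := leafF_ok hA hr (by omega) hx
        by_cases hF : F % 18446744073709551616 = encG gr
        · rw [if_pos hF] at h
          refine ⟨c1, F / 18446744073709551616, h, Cn.step _ _ ?_ (Cn.refl _)⟩
          rw [hF]
          intro gr' hgr'
          have e := encG_inj hgr'
          subst e
          intro u 𝒮 hR hf
          rw [← hR] at hL
          exact leaf2_sound A hA.Q0 𝒮 hf hL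
        · rw [if_neg hF] at h
          omega
    | 2, h => exact k1 _ _ _ _ _ h
    | t + 3, h => exact k2 _ _ _ _ _ h

theorem bat_ok {A : Par} (hA : ParOK A) {π : List ℕ} {gr : List Bool} {c F : ℕ} (h : batOK A π gr c F = true) :
    ∀ e, (F >>> (64 * e)) % 18446744073709551616 ≠ 0 →
      ∀ g, encG g = (F >>> (64 * e)) % 18446744073709551616 → Lf A π g := by
  intro e he g hg u 𝒮 hR hf
  have hr : RI A.d (rows0 A.d π) := hR ▸ 𝒮.ri 0
  rw [batOK_eq] at h
  by_cases hgr : gr.length ≤ 64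
  · obtain ⟨c', F', h1, h2⟩ := runB_ok hA hr (64 - gr.length) gr c F 0 _ (by omega) h
    have h3 : F' = 0 := by
      by_contra hc
      rw [if_neg hc] at h1
      omega
    rw [h3] at h2
    exact h2.slot e he g hg u 𝒮 hR hf
  · have e : 64 - gr.length = 0 := by omega
    rw [e, runB_zero] at h
    omega

end Pool.Agent.RTX
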