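import Pool.Agent.RTS7.Elm
import Pool.Agent.RTX.Dich2

/-!
# RTS7/Cls: classes of vertices
-/

set_option autoImplicit false

namespace Pool.Agent.RTX

/-- Tables of a class: number of vertices, the two successors, the two predecessors, the vertices. -/
structure Cls where
  N : ℕ
  X0 : ℕ
  X1 : ℕ
  Y0 : ℕ
  Y1 : ℕ
  VT : ℕ

/-- Vertices of the window with the code `p`. -/
noncomputable def runS (X0 X1 p : ℕ) (n : ℕ) : ℕ → ℕ :=
  Nat.rec (motive := fun _ => ℕ → ℕ) (fun S => S)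
    (fun n ih S => gz (Nat.add (Nat.mul (nat_lit 1024) S)
      (tb (ifB (Nat.beq (Nat.mod (Nat.shiftRight p n) (nat_lit 2)) (nat_lit 0)) X0 X1) (Nat.mod S (nat_lit 1024)))) ih) n

/-- The tree `s` shows that the window `(i, p)` of length `m` eventually does not occur. -/
noncomputable def subOK (C : Cls) (FT : Tre) (HL : List (ℕ × ℕ)) (k i p m s : ℕ) : Bool :=
  Nat.beq (gz C.X0 fun X0 => gz C.X1 fun X1 => gz C.Y0 fun Y0 => gz C.Y1 fun Y1 => gz (runS X0 X1 p m i) fun S =>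
    ifB (Nat.beq (Nat.shiftRight p m) (nat_lit 1)) (elm X0 X1 Y0 Y1 FT HL k (nat_lit 128) S p m s) (nat_lit 0)) (nat_lit 1)

/-- Auxiliary. -/
noncomputable def rngF (X0 X1 Y0 Y1 : ℕ) (FT : Tre) (n : ℕ) : ℕ → ℕ → ℕ :=
  Nat.rec (motive := fun _ => ℕ → ℕ → ℕ) (fun _ _ => nat_lit 1)
    (fun _ ih k s => bndN (elm X0 X1 Y0 Y1 FT [] k (nat_lit 128) k (nat_lit 1) (nat_lit 0) s) fun s' =>
      gz (Nat.add k (nat_lit 1)) fun k' => ih k' s') n

/-- The `n` vertices from `k` on are eliminated. -/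
noncomputable def rngOK (C : Cls) (FT : Tre) (k n s : ℕ) : Bool :=
  Nat.beq (gz C.X0 fun X0 => gz C.X1 fun X1 => gz C.Y0 fun Y0 => gz C.Y1 fun Y1 =>
    rngF X0 X1 Y0 Y1 FT n k s) (nat_lit 1)

/-- The windows of the tree of pieces eventually do not occur. -/
def TD (FT : Tre) (v : ℕ → ℕ) (c : ℕ → Bool) : Prop :=
  ∀ q e, Dd v c (slP (FT.get q) 0) (slP (FT.get q) (e + 1))

/-- Path in the class. -/
def CP (C : Cls) (v : ℕ → ℕ) (c : ℕ → Bool) : Prop := Pth C.X0 C.X1 C.Y0 C.Y1 v c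

/-- The vertex `k` can be eliminated. -/
def RD (C : Cls) (FT : Tre) (k : ℕ) : Prop :=
  ∀ v c, CP C v c → TD FT v c → (∀ j < k, Dv v j) → Dv v k

/-- The windows of the list can be eliminated. -/
def HD (C : Cls) (FT : Tre) (k : ℕ) (HL : List (ℕ × ℕ)) : Prop :=
  ∀ v c, CP C v c → TD FT v c → (∀ j < k, Dv v j) → ∀ x ∈ HL, Dd v c x.1 x.2

/-- The vertices less than `n` can be eliminated. -/
def RA (C : Cls) (FT : Tre) (n : ℕ) : Prop := ∀ k < n, RD C FT k

theorem runS_ok {X0 X1 Y0 Y1 : ℕ} {v : ℕ → ℕ} {c : ℕ → Bool} (hP : Pth X0 X1 Y0 Y1 v c) (t m : ℕ) :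
    ∀ n, n ≤ m → runS X0 X1 (cd c t m) n (vs v t (m - n)) = vs v t m
  | 0, _ => rfl
  | n + 1, h => by
    have ih := runS_ok hP t m n (by omega)
    obtain ⟨a, rfl⟩ : ∃ a, m = a + 1 + n := ⟨m - (n + 1), by omega⟩
    have e1 : a + 1 + n - (n + 1) = a := by omega
    have e2 : a + 1 + n - n = a + 1 := by omega
    rw [e1]
    rw [e2] at ih
    have h1 : cd c t (a + 1 + n) >>> n = cd c t (a + 1) := cd_shr c t (a + 1) n
    have h2 : vs v t a % 1024 = v (t + a) := by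
      have h3 := vs_tb hP.lt t a 0
      rw [Nat.add_zero, tb_eq, pow_zero, Nat.div_one] at h3
      exact h3
    have h4 : runS X0 X1 (cd c t (a + 1 + n)) (n + 1) (vs v t a) = runS X0 X1 (cd c t (a + 1 + n)) n
      (1024 * vs v t a + tb (ifB (Nat.beq (cd c t (a + 1 + n) >>> n % 2) 0) X0 X1) (vs v t a % 1024)) := rfl
    rw [h4, h1, h2, ifB_eq]
    have h5 : (if Nat.beq (cd c t (a + 1) % 2) 0 = true then X0 else X1) = bif c (t + a) then X1 else X0 := by
      rw [cd, Nat.mul_add_mod]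
      cases c (t + a) <;> rfl
    rw [h5, ← hP.x (t + a), Nat.add_assoc t a 1]
    exact ih

theorem sub_ok {C : Cls} {FT : Tre} {HL : List (ℕ × ℕ)} {k i p m s : ℕ} (h : subOK C FT HL k i p m s = true)
    {v : ℕ → ℕ} {c : ℕ → Bool} (hP : CP C v c) (hT : TD FT v c) (hk : ∀ j < k, Dv v j)
    (hH : ∀ x ∈ HL, Dd v c x.1 x.2) : Dd v c i p := by
  have h1 : Nat.beq (ifB (Nat.beq (p >>> m) 1) (elm C.X0 C.X1 C.Y0 C.Y1 FT HL k 128 (runS C.X0 C.X1 p m i) p m s) 0) 1
    = true := h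
  have h2 := Nat.eq_of_beq_eq_true h1
  rw [ifB_eq] at h2
  by_cases hb : Nat.beq (p >>> m) 1 = true
  · rw [if_pos hb] at h2
    obtain ⟨T, hT'⟩ := elm_ok hP hT hH hk _ _ _ _ _ _ h2
    refine ⟨T, fun t ht n hv hc => ?_⟩
    have h3 := Nat.eq_of_beq_eq_true hb
    have h4 := cd_lt c t n
    rw [hc] at h4
    have hnm : n = m := by
      rw [Nat.shiftRight_eq_div_pow] at h3
      have h5 : 2 ^ m ≤ p := by
        by_contra hcon
        rw [Nat.div_eq_of_lt (by omega)] at h3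
        omega
      have h6 : p < 2 ^ (m + 1) := by
        have h7 := Nat.lt_mul_div_succ p (b := 2 ^ m) (by positivity)
        rw [h3] at h7
        rw [pow_succ]
        omega
      have h7 : 2 ^ n < 2 ^ (m + 1) := lt_of_le_of_lt h4.1 h6
      have h8 : 2 ^ m < 2 ^ (n + 1) := lt_of_le_of_lt h5 h4.2
      have h9 := (Nat.pow_lt_pow_iff_right (by norm_num : 1 < 2)).1 h7
      have h10 := (Nat.pow_lt_pow_iff_right (by norm_num : 1 < 2)).1 h8
      omega
    subst hnm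
    have h5 := runS_ok hP t n n le_rfl
    rw [hc, Nat.sub_self] at h5
    have h6 : vs v t 0 = i := hv
    rw [h6] at h5
    exact hT' t ht h5.symm hc
  · rw [if_neg hb] at h2
    omega

theorem hd_nil {C : Cls} {FT : Tre} {k : ℕ} : HD C FT k [] := by
  intro v c _ _ _ x hx
  simp at hx

theorem hd_cons {C : Cls} {FT : Tre} {k : ℕ} {HL : List (ℕ × ℕ)} (h : HD C FT k HL) {i p m s : ℕ}
    (e : subOK C FT HL k i p m s = true) : HD C FT k ((i, p) :: HL) := by
  intro v c hP hT hk x hx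
  rcases List.mem_cons.1 hx with rfl | hx
  · exact sub_ok e hP hT hk (h v c hP hT hk)
  · exact h v c hP hT hk x hx

theorem dv_of {v : ℕ → ℕ} {c : ℕ → Bool} {i : ℕ} (h : Dd v c i 1) : Dv v i := by
  obtain ⟨T, hT⟩ := h
  exact ⟨T, fun t ht hv => hT t ht 0 hv rfl⟩

theorem rd_of {C : Cls} {FT : Tre} {k : ℕ} {HL : List (ℕ × ℕ)} (h : HD C FT k HL) {s : ℕ}
    (e : subOK C FT HL k k 1 0 s = true) : RD C FT k := by
  intro v c hP hT hk
  exact dv_of (sub_ok e hP hT hk (h v c hP hT hk))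

theorem rng_ok {C : Cls} {FT : Tre} : ∀ (n k s : ℕ), rngF C.X0 C.X1 C.Y0 C.Y1 FT n k s = 1 →
    ∀ j, k ≤ j → j < k + n → RD C FT j
  | 0, k, s, _, j, h1, h2 => by omega
  | n + 1, k, s, h, j, h1, h2 => by
    have h3 : bndN (elm C.X0 C.X1 C.Y0 C.Y1 FT [] k 128 k 1 0 s) (fun s' => rngF C.X0 C.X1 C.Y0 C.Y1 FT n (k + 1) s') =
      1 := h
    generalize he : elm C.X0 C.X1 C.Y0 C.Y1 FT [] k 128 k 1 0 s = r at h3
    cases r with
    | zero => rw [bndN_zero] at h3; omega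
    | succ r =>
      rw [bndN_succ] at h3
      rcases Nat.eq_or_lt_of_le h1 with rfl | h4
      · intro v c hP hT hk
        obtain ⟨T, hT'⟩ := elm_ok hP hT (HL := []) (by simp) hk _ _ _ _ _ _ he
        exact ⟨T, fun t ht hv => hT' t ht hv rfl⟩
      · exact rng_ok n (k + 1) r h3 j h4 (by omega)

theorem ra_zero {C : Cls} {FT : Tre} : RA C FT 0 := by
  intro k hk
  omega

theorem ra_succ {C : Cls} {FT : Tre} {n : ℕ} (h : RA C FT n) (h' : RD C FT n) : RA C FT (n + 1) := by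
  intro k hk
  rcases Nat.lt_succ_iff_lt_or_eq.1 hk with h1 | rfl
  · exact h k h1
  · exact h'

theorem ra_rng {C : Cls} {FT : Tre} {k n s : ℕ} (h : RA C FT k) (e : rngOK C FT k n s = true) :
    RA C FT (k + n) := by
  intro j hj
  by_cases h1 : j < k
  · exact h j h1
  · exact rng_ok n k s (Nat.eq_of_beq_eq_true e) j (by omega) hj

theorem ra_dv {C : Cls} {FT : Tre} {n : ℕ} (h : RA C FT n) {v : ℕ → ℕ} {c : ℕ → Bool} (hP : CP C v c)
    (hT : TD FT v c) : ∀ k < n, Dv v k := by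
  intro k
  induction k using Nat.strong_induction_on with
  | _ k ih =>
    intro hk
    exact h k hk v c hP hT fun j hj => ih j hj (by omega)

theorem no_path {C : Cls} {FT : Tre} {n : ℕ} (h : RA C FT n) {v : ℕ → ℕ} {c : ℕ → Bool} (hP : CP C v c)
    (hT : TD FT v c) (hv : ∀ t, v t < n) : False := by
  have h1 := ra_dv h hP hT
  have h2 : ∀ m ≤ n, ∃ T, ∀ t, T ≤ t → ∀ k < m, v t ≠ k := by
    intro m
    induction m with
    | zero => exact fun _ => ⟨0, fun t _ k hk => by omega⟩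
    | succ m ih =>
      intro hm
      obtain ⟨T, hT1⟩ := ih (by omega)
      obtain ⟨T', hT2⟩ := h1 m (by omega)
      refine ⟨max T T', fun t ht k hk => ?_⟩
      rcases Nat.lt_succ_iff_lt_or_eq.1 hk with h3 | rfl
      · exact hT1 t (le_trans (le_max_left _ _) ht) k h3
      · exact hT2 t (le_trans (le_max_right _ _) ht)
  obtain ⟨T, hT1⟩ := h2 n le_rfl
  exact hT1 T le_rfl (v T) (hv T) rfl

/-- Check of one vertex. -/
noncomputable def cls1 (d : ℕ) (C : Cls) (i : ℕ) : Bool :=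
  eqL (canon (step false (rows0 d (vxL d C.VT i)))) (vxL d C.VT (tb C.X0 i)) &&
  eqL (canon (step true (rows0 d (vxL d C.VT i)))) (vxL d C.VT (tb C.X1 i)) &&
  Nat.blt (tb C.X0 i) C.N && Nat.blt (tb C.X1 i) C.N &&
  Nat.beq (tb C.Y0 (tb C.X0 i)) i && Nat.beq (tb C.Y1 (tb C.X1 i)) i

/-- Check of the tables. -/
noncomputable def clsOK (d : ℕ) (C : Cls) : Bool :=
  Nat.ble C.N 1024 && Nat.rec (motive := fun _ => Bool) true (fun i ih => ifB (cls1 d C i) ih false) C.N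

theorem cls_one {d : ℕ} {C : Cls} (h : clsOK d C = true) : C.N ≤ 1024 ∧ ∀ i < C.N, cls1 d C i = true := by
  unfold clsOK at h
  rw [Bool.and_eq_true, Nat.ble_eq] at h
  refine ⟨h.1, ?_⟩
  have key : ∀ n, Nat.rec (motive := fun _ => Bool) true (fun i ih => ifB (cls1 d C i) ih false) n = true →
      ∀ i < n, cls1 d C i = true := by
    intro n
    induction n with
    | zero => intro _ i hi; omega
    | succ n ih =>
      intro h1 i hi
      have h2 : ifB (cls1 d C n) (Nat.rec (motive := fun _ => Bool) true (fun i ih => ifB (cls1 d C i) ih false) n) false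
        = true := h1
      rw [ifB_eq] at h2
      by_cases h3 : cls1 d C n = true
      · rw [if_pos h3] at h2
        rcases Nat.lt_succ_iff_lt_or_eq.1 hi with h4 | rfl
        · exact ih h2 i h4
        · exact h3
      · rw [if_neg h3] at h2
        exact absurd h2 (by decide)
  exact key _ h.2

theorem sys_pth {d : ℕ} {C : Cls} (h : clsOK d C = true) {u : ℕ → ℕ} (𝒮 : Sys d u) {i0 : ℕ} (hi : i0 < C.N)
    (h0 : canon (𝒮.R 0) = vxL d C.VT i0) :
    ∃ v : ℕ → ℕ, CP C v 𝒮.c ∧ (∀ t, v t < C.N) ∧ ∀ t, canon (𝒮.R t) = vxL d C.VT (v t) := by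
  obtain ⟨hN, h1⟩ := cls_one h
  let v : ℕ → ℕ := fun t => Nat.rec i0 (fun t x => tb (bif 𝒮.c t then C.X1 else C.X0) x) t
  have hv0 : v 0 = i0 := rfl
  have hv1 : ∀ t, v (t + 1) = tb (bif 𝒮.c t then C.X1 else C.X0) (v t) := fun _ => rfl
  have hlt : ∀ t, v t < C.N := by
    intro t
    induction t with
    | zero => exact hi
    | succ t ih =>
      have h2 := h1 _ ih
      unfold cls1 at h2
      simp only [Bool.and_eq_true] at h2
      rw [hv1]
      cases 𝒮.c t with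
      | false => exact Nat.le_of_ble_eq_true h2.1.1.1.2
      | true => exact Nat.le_of_ble_eq_true h2.1.1.2
  refine ⟨v, ⟨fun t => lt_of_lt_of_le (hlt t) hN, hv1, fun t => ?_⟩, hlt, fun t => ?_⟩
  · have h2 := h1 _ (hlt t)
    unfold cls1 at h2
    simp only [Bool.and_eq_true] at h2
    rw [hv1]
    cases 𝒮.c t with
    | false => exact (Nat.eq_of_beq_eq_true h2.1.2).symm
    | true => exact (Nat.eq_of_beq_eq_true h2.2).symm
  · induction t with
    | zero => exact h0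
    | succ t ih =>
      obtain ⟨𝒯, hT0, hc, hcan, -⟩ := exists_canon (𝒮.shift t)
      have hc0 : 𝒯.c 0 = 𝒮.c t := by rw [hc]; rfl
      have h3 : 𝒯.R 0 = rows0 d (canon (𝒮.R t)) := hT0
      have h4 : canon (𝒯.R 1) = canon (𝒮.R (t + 1)) := hcan 1
      have h5 : 𝒯.R 1 = step (𝒯.c 0) (𝒯.R 0) := 𝒯.hR 0
      have h6 := h1 _ (hlt t)
      unfold cls1 at h6
      simp only [Bool.and_eq_true, eqL_iff] at h6
      rw [← h4, h5, h3, ih, hc0, hv1]
      cases 𝒮.c t with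
      | false => exact h6.1.1.1.1.1
      | true => exact h6.1.1.1.1.2

theorem cd_enc (c : ℕ → Bool) (t : ℕ) : ∀ n, encG (pth c t n).reverse = cd c t n
  | 0 => rfl
  | n + 1 => by
    have h : pth c t (n + 1) = pth c t n ++ [c (t + n)] := by
      unfold pth
      rw [List.range_succ, List.map_append]
      rfl
    rw [h, List.reverse_append, List.reverse_singleton, List.singleton_append, encG_cons, cd_enc c t n, cd]

theorem td_of {A : Par} {C : Cls} {FT : Tre} (hFT : FT.All (PceOK A C.VT)) {u : ℕ → ℕ} (𝒮 : Sys A.d u) {v : ℕ → ℕ}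
    (hv : ∀ t, canon (𝒮.R t) = vxL A.d C.VT (v t)) {t0 : ℕ} (hno : ∀ t, t0 ≤ t → ¬ 𝒮.fb A t) : TD FT v 𝒮.c := by
  intro q e
  refine ⟨t0, fun t ht n hi hc => hno t ht ?_⟩
  have h1 := Tre.get_all hFT q e (pth 𝒮.c t n).reverse (by rw [cd_enc, hc])
  obtain ⟨𝒯, hT0, hcT, -, hhigh⟩ := exists_canon (𝒮.shift t)
  have h2 : 𝒯.R 0 = rows0 A.d (vxL A.d C.VT (slP (FT.get q) 0)) := by
    rw [hT0]
    show rows0 A.d (canon (𝒮.R t)) = _
    rw [hv, hi]
  have h3 : Fol 𝒯.c 0 (pth 𝒮.c t n).reverse.reverse := by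
    rw [List.reverse_reverse, hcT]
    intro j hj
    have h4 := (fol_pth 𝒮.c t n).1 j hj
    show 𝒮.c (t + (0 + j)) = _
    rw [Nat.zero_add]
    exact h4
  have h5 := h1 u 𝒯 h2 h3
  intro m hm
  exact h5 m ((hhigh 0 m).2 hm)

/-- In a class whose vertices can all be eliminated there are powers at infinitely many levels. -/
theorem cls_dead {A : Par} {C : Cls} (hC : clsOK A.d C = true) {FT : Tre} (hFT : FT.All (PceOK A C.VT))
    (hR : RA C FT C.N) {u : ℕ → ℕ} (𝒮 : Sys A.d u) {i : ℕ} (hi : i < C.N)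
    (h0 : canon (𝒮.R 0) = vxL A.d C.VT i) : ∀ t0, ∃ t, t0 ≤ t ∧ 𝒮.fb A t := by
  by_contra hcon
  push Not at hcon
  obtain ⟨t0, ht0⟩ := hcon
  obtain ⟨v, hP, hlt, hv⟩ := sys_pth hC 𝒮 hi h0
  exact no_path hR hP (td_of hFT 𝒮 hv ht0) hlt

/-- Every system that starts in the class has powers at infinitely many levels. -/
def ClsD (A : Par) (C : Cls) : Prop :=
  ∀ (u : ℕ → ℕ) (𝒮 : Sys A.d u) (i : ℕ), i < C.N → canon (𝒮.R 0) = vxL A.d C.VT i → ∀ t0, ∃ t, t0 ≤ t ∧ 𝒮.fb A t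

theorem clsD_of {A : Par} {C : Cls} (hC : clsOK A.d C = true) {FT : Tre} (hFT : FT.All (PceOK A C.VT))
    (hR : RA C FT C.N) : ClsD A C := fun _ 𝒮 _ hi h0 => cls_dead hC hFT hR 𝒮 hi h0

end Pool.Agent.RTX
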