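import Pool.Agent.RTS7.Gld
import Pool.Agent.RTS.Two
import Pool.Agent.RTX.FinL

/-!
# RTS7/CovD: covering of the irreducible permutations
-/

set_option autoImplicit false

namespace Pool.Agent.RTX

open Pool.Agent.Helper44.IET Pool.Agent.Helper28.IET3

/-- Search tree. -/
inductive BT
  | lf
  | nd (l : BT) (k v : ℕ) (r : BT)

/-- Value of the key `k` (`0`: none). -/
noncomputable def BT.find (k : ℕ) (t : BT) : ℕ :=
  BT.rec (motive := fun _ => ℕ) (nat_lit 0)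
    (fun _ k' v _ a b => ifB (Nat.beq k k') v (ifB (Nat.ble k k') a b)) t

/-- The vertex `π` is the vertex `(w - 1) % 1024` of the class `(w - 1) / 1024`. -/
noncomputable def isV (d : ℕ) (L : List Cls) (π : List ℕ) (w : ℕ) : Bool :=
  Nat.blt 0 w && Nat.blt ((w - 1) / 1024) L.length &&
    Nat.blt ((w - 1) % 1024) (L.getD ((w - 1) / 1024) ⟨0, 0, 0, 0, 0, 0⟩).N &&
    eqL (vxL d (L.getD ((w - 1) / 1024) ⟨0, 0, 0, 0, 0, 0⟩).VT ((w - 1) % 1024)) π

/-- The vertex is in one of the classes. -/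
noncomputable def inCl (d : ℕ) (L : List Cls) (t : BT) (π : List ℕ) : Bool := isV d L π (t.find (encR π 0))

/-- All irreducible permutations are in the classes. -/
noncomputable def cov7OK (d : ℕ) (L : List Cls) (t : BT) : Bool :=
  (List.permutations' (List.range d)).all fun π => inCl d L t π || redB d π

theorem cov_gen {d : ℕ} {f : List ℕ → Bool}
    (h : ((List.permutations' (List.range d)).all fun π => f π || redB d π) = true) {R : Rows} (hR : RI d R) :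
    f (canon R) = true := by
  have hc : covOK d ((List.permutations' (List.range d)).filter f) = true := by
    unfold covOK
    rw [List.all_eq_true] at h ⊢
    intro π hπ
    have h1 := h π hπ
    rw [Bool.or_eq_true] at h1 ⊢
    rcases h1 with h1 | h1
    · exact Or.inl ((memL_iff _ _).2 (List.mem_filter.2 ⟨hπ, h1⟩))
    · exact Or.inr h1
  exact (List.mem_filter.1 ((memL_iff _ _).1 (cov_mem hc hR))).2

theorem cov7_mem {d : ℕ} {L : List Cls} {t : BT} (h : cov7OK d L t = true) {R : Rows} (hR : RI d R) :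
    ∃ C ∈ L, ∃ i, i < C.N ∧ canon R = vxL d C.VT i := by
  have h1 : inCl d L t (canon R) = true := cov_gen h hR
  unfold inCl isV at h1
  simp only [Bool.and_eq_true, eqL_iff] at h1
  obtain ⟨⟨⟨-, h2⟩, h3⟩, h4⟩ := h1
  have h2' : (t.find (encR (canon R) 0) - 1) / 1024 < L.length := Nat.le_of_ble_eq_true h2
  refine ⟨L.getD ((t.find (encR (canon R) 0) - 1) / 1024) ⟨0, 0, 0, 0, 0, 0⟩, ?_, _, Nat.le_of_ble_eq_true h3, h4.symm⟩
  rw [List.getD_eq_getElem _ _ h2']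
  exact List.getElem_mem h2'

/-- The lower bound. -/
theorem low_cod {A : Par} {L : List Cls} {t : BT} (hc : cov7OK A.d L t = true) (hL : ∀ C ∈ L, ClsG A C) {D : Gd}
    {n : ℕ} (hg : goldOK A D n = true) (hQ : 0 < A.Q) (hc3 : 3 ≤ D.c) (hA : 0 < D.A) {lam κ : ℝ}
    (hl : lam ^ 2 - D.c * lam + 1 = 0) (hl1 : 1 < lam) (hκ1 : κ ≤ 1 + (A.P : ℝ) / A.Q)
    (hκ2 : κ ≤ 1 + (lam + D.B) / D.A) (hd : 2 ≤ A.d) {u : ℕ → Fin A.d} (hu : u ∈ Codings A.d) :
    (κ : EReal) ≤ critExp u ∧ (κ : EReal) ≤ asympCritExp u := by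
  obtain ⟨E, hi, hK', hcod⟩ := hu
  obtain ⟨𝒮⟩ := sys_ex hd hi hK' hcod
  refine crit_of_runs u κ fun ε hε m => ?_
  obtain ⟨C, hC, i, hiN, h0⟩ := cov7_mem hc (𝒮.ri 0)
  have h1 : ∃ i p l : ℕ, 0 < p ∧ m ≤ p ∧ HasPower (fun j => (u j : ℕ)) i p l ∧ (κ - ε) * p ≤ l := by
    rcases hL C hC _ 𝒮 i hiN h0 with h | ⟨t0, h⟩
    · exact fb_case hQ hκ1 𝒮 h ε hε m
    · exact gold_case hg hc3 hA hl hl1 hκ2 𝒮 h ε hε m
  obtain ⟨i, p, l, hp, hm, hpow, hl⟩ := h1
  exact ⟨i, p, l, hp, hm, fun j hj => Fin.ext (hpow j hj), hl⟩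

end Pool.Agent.RTX
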