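import Pool.Agent.RTX.FGood

/-!
# RTS7: parameters for `d = 7`

Threshold `34/49 = 0.69388 > (1 + √10)/6 = 0.69371`; one golden loop, of length 34.
-/

set_option autoImplicit false

namespace Pool.Agent.RTX

/-- Parameters. -/
def par7 : Par := ⟨7, 34, 49, 10000000, [2, 3, 4, 5, 6, 0, 1],
  [false, true, false, true, false, true, false, false, true, false, false, true, false, true, false, true,
   false, true, false, true, false, true, false, true, true, false, true, true, false, true, false, true, false,
   true]⟩

theorem par7_ok : ParOK par7 where
  d2 := by decide
  d8 := by decide
  P0 := by decide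
  P1 := by decide
  Q0 := by decide
  Q1 := by decide
  K0 := by decide

end Pool.Agent.RTX
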