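import Pool.Agent.RTS7.Cls
import Pool.Agent.RTS7.Par7

/-!
# RTS7: class of the permutation 1305264, tables
-/

set_option autoImplicit false
set_option maxRecDepth 100000

namespace Pool.Agent.RTX

/-- The tables of the class. -/
def c1305264 : Cls := ⟨63, 0x3e0b83c0983a0b038088360a834090320a0300003d0ec390dc350cc310bc2d0ac2909c2508c2107c170741306c15064110781c06818058140480903c0c0340e0040b02808018070080500c0404020, 0x200f42d0ec250e42b0dc210d4290cc230c4270bc3e0f03a0e0360d0320c02e0b02a0a026090220001e0581c0481a0501807c1d06c1905c1504c110280e02c0f0340c0140901c08018040080300410, 0x3e0b83c0b43a0b0380ac360a8340a4320a03009c3d09839094350903108c3b08833084370800007c170741606c15064140781306812070110600103c0c0340e0280904008018070100200c0502c2f, 0x2e0f42d0ec2c0e42b0dc2a0d4290cc280c4270bc260f0250e0240d0230c0220e8210c8200d83e05c1e0581c0541a0501804c1d048190441b040000300e02c0a0340f0200601c0502404008030041f,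
  0x1c9c169c98931a83a6641bd0d0abc60531742a5cc12ce036acc1932a0baa605bd0156bc0a93029da0a731b931253906ee30294bc12b983255816ee0549414f19720dca704a5c0b7282b172e093941c5394618a72d18a72614a744c537a0a557842a60e954398a1714e4a314ddc2152878a12e29b9462839714139717a054d78286609d2ee0a194278b942c539462b3829ab310ab98854b83354c199950ccab06684e620a72e⟩

/-- piece -/
def pc1305264_0 : ℕ := 0x7f00000000000000400000000000000000

/-- piece -/
def pc1305264_1 : ℕ := 0x30000000000000001

/-- piece -/
def pc1305264_2 : ℕ := 0x70000000000000002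

/-- piece -/
def pc1305264_3 : ℕ := 0x20000000000000003

/-- piece -/
def pc1305264_4 : ℕ := 0x30000000000000004

/-- piece -/
def pc1305264_5 : ℕ := 0x80000000000000005

/-- piece -/
def pc1305264_6 : ℕ := 0x40000000000000006

/-- piece -/
def pc1305264_7 : ℕ := 0x30000000000000007

/-- piece -/
def pc1305264_8 : ℕ := 0x20000000000000008

/-- piece -/
def pc1305264_9 : ℕ := 0x1f00000000000000200000000000000009

/-- piece -/
def pc1305264_10 : ℕ := 0xf000000000000000a

/-- piece -/
def pc1305264_11 : ℕ := 0x700000000000009f4000000000000000b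

/-- piece -/
def pc1305264_12 : ℕ := 0x4000000000000000c

/-- piece -/
def pc1305264_13 : ℕ := 0x2000000000000000d

/-- piece -/
def pc1305264_14 : ℕ := 0x3000000000000000e

/-- piece -/
def pc1305264_15 : ℕ := 0x2000000000000000f

/-- piece -/
def pc1305264_16 : ℕ := 0x7f0000000000000010

/-- piece -/
def pc1305264_17 : ℕ := 0x100000000000000011

/-- piece -/
def pc1305264_18 : ℕ := 0xf0000000000000012

/-- piece -/
def pc1305264_19 : ℕ := 0x80000000000000013

/-- piece -/
def pc1305264_20 : ℕ := 0x70000000000000014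

/-- piece -/
def pc1305264_21 : ℕ := 0x40000000000000015

/-- piece -/
def pc1305264_22 : ℕ := 0x70000000000000016

/-- piece -/
def pc1305264_23 : ℕ := 0x40000000000000017

/-- piece -/
def pc1305264_24 : ℕ := 0x30000000000000018

/-- piece -/
def pc1305264_25 : ℕ := 0x20000000000000019

/-- piece -/
def pc1305264_26 : ℕ := 0x3000000000000001a

/-- piece -/
def pc1305264_27 : ℕ := 0x2000000000000001b

/-- piece -/
def pc1305264_28 : ℕ := 0x3000000000000001c

/-- piece -/
def pc1305264_29 : ℕ := 0x2000000000000001d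

/-- piece -/
def pc1305264_30 : ℕ := 0x3000000000000001e

/-- piece -/
def pc1305264_31 : ℕ := 0x2000000000000001f

/-- piece -/
def pc1305264_32 : ℕ := 0x3f00000000000000400000000000000020

/-- piece -/
def pc1305264_33 : ℕ := 0x1f0000000000000021

/-- piece -/
def pc1305264_34 : ℕ := 0x3f0000000000000f820000000000000022

/-- piece -/
def pc1305264_35 : ℕ := 0xf0000000000000023

/-- piece -/
def pc1305264_36 : ℕ := 0x80000000000000024

/-- piece -/
def pc1305264_37 : ℕ := 0xf0000000000000025

/-- piece -/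
def pc1305264_38 : ℕ := 0xf0600000000000000080000000000000026

/-- piece -/
def pc1305264_39 : ℕ := 0x70000000000000027

/-- piece -/
def pc1305264_40 : ℕ := 0x40000000000000028

/-- piece -/
def pc1305264_41 : ℕ := 0x70000000000000029

/-- piece -/
def pc1305264_42 : ℕ := 0x4000000000000002a

/-- piece -/
def pc1305264_43 : ℕ := 0x70000000000000010000000000000002b

/-- piece -/
def pc1305264_44 : ℕ := 0x4000000000000002c

/-- piece -/
def pc1305264_45 : ℕ := 0x7000000000000002d

/-- piece -/
def pc1305264_46 : ℕ := 0xe0e0000000000000004000000000000002e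

/-- piece -/
def pc1305264_47 : ℕ := 0x3000000000000002f

/-- piece -/
def pc1305264_48 : ℕ := 0x20000000000000030

/-- piece -/
def pc1305264_49 : ℕ := 0x30000000000000031

/-- piece -/
def pc1305264_50 : ℕ := 0x20000000000000032

/-- piece -/
def pc1305264_51 : ℕ := 0x30000000000000033

/-- piece -/
def pc1305264_52 : ℕ := 0x20000000000000034

/-- piece -/
def pc1305264_53 : ℕ := 0x30000000000000035

/-- piece -/
def pc1305264_54 : ℕ := 0x20000000000000036

/-- piece -/
def pc1305264_55 : ℕ := 0x30000000000000037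

/-- piece -/
def pc1305264_56 : ℕ := 0x20000000000000038

/-- piece -/
def pc1305264_57 : ℕ := 0x30000000000000039

/-- piece -/
def pc1305264_58 : ℕ := 0x2000000000000003a

/-- piece -/
def pc1305264_59 : ℕ := 0x3000000000000003b

/-- piece -/
def pc1305264_60 : ℕ := 0x2000000000000003c

/-- piece -/
def pc1305264_61 : ℕ := 0x3000000000000003d

/-- piece -/
def pc1305264_62 : ℕ := 0xc1e0000000000000002000000000000003e

/-- part of the table of windows -/
def fc1305264 : Tre := .nd (.nd (.nd (.nd (.nd (.nd (.lf pc1305264_0) (.lf pc1305264_32)) (.nd (.lf pc1305264_16) (.lf pc1305264_48))) (.nd (.nd (.lf pc1305264_8) (.lf pc1305264_40)) (.nd (.lf pc1305264_24) (.lf pc1305264_56)))) (.nd (.nd (.nd (.lf pc1305264_4) (.lf pc1305264_36)) (.nd (.lf pc1305264_20) (.lf pc1305264_52))) (.nd (.nd (.lf pc1305264_12) (.lf pc1305264_44)) (.nd (.lf pc1305264_28) (.lf pc1305264_60))))) (.nd (.nd (.nd (.nd (.lf pc1305264_2) (.lf pc1305264_34)) (.nd (.lf pc1305264_18) (.lf pc1305264_50))) (.nd (.nd (.lf pc1305264_10)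 (.lf pc1305264_42)) (.nd (.lf pc1305264_26) (.lf pc1305264_58)))) (.nd (.nd (.nd (.lf pc1305264_6) (.lf pc1305264_38)) (.nd (.lf pc1305264_22) (.lf pc1305264_54))) (.nd (.nd (.lf pc1305264_14) (.lf pc1305264_46)) (.nd (.lf pc1305264_30) (.lf pc1305264_62)))))) (.nd (.nd (.nd (.nd (.nd (.lf pc1305264_1) (.lf pc1305264_33)) (.nd (.lf pc1305264_17) (.lf pc1305264_49))) (.nd (.nd (.lf pc1305264_9) (.lf pc1305264_41)) (.nd (.lf pc1305264_25) (.lf pc1305264_57)))) (.nd (.nd (.nd (.lf pc1305264_5) (.lf pc1305264_37)) (.nd (.lf pc1305264_21) (.lf pc1305264_53))) (.nd (.nd (.lf pc1305264_13) (.lf pc1305264_45)) (.nd (.lf pc1305264_29) (.lf pc1305264_61))))) (.nd (.nd (.nd (.nd (.lf pc1305264_3) (.lf pc1305264_35)) (.nd (.lf pc1305264_19) (.lf pc1305264_51))) (.nd (.nd (.lf pc1305264_11) (.lf pc1305264_43)) (.nd (.lf pc1305264_27) (.lf pc1305264_59)))) (.nd (.nd (.nd (.lf pc1305264_7) (.lf pc1305264_39)) (.nd (.lf pc1305264_23) (.lf pc1305264_55))) (.nd (.nd (.lf pc1305264_15) (.lf pc1305264_47)) (.lf pc1305264_31)))))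

end Pool.Agent.RTX
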