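import Pool.Agent.RTS7.Cls
import Pool.Agent.RTS7.Par7

/-!
# RTS7: class of the permutation 1543260, tables
-/

set_option autoImplicit false
set_option maxRecDepth 100000

namespace Pool.Agent.RTX

/-- The tables of the class. -/
def c1543260 : Cls := ⟨37, 0x23064210881b0501e02c1c0582405c1a06020054110401f0481303c0e01c04024080281d034060300500c0000402, 0x220782408c210801d07c1a0701b0641402c16060130541203c10044170380d030060080801c0a014010240301000, 0x1a09021088160481e0201c0801808c170641b0541f040110501303c0e01c050740902c0a034060100c00c0000402, 0x22084240801f074230781b0681c064150381604c180501203c100440d0300b05c0600c0801c0a014010080901000,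
  0x10529e14a73418a744c53a1dc540a5c58c9ca4172e4f08557462a38295a94e0c9c14e29c1750f1516621aa518b5706650a62e50b17560cc982a59c9894dc83865c132e5194a0bc9ca0e541732a720e4c0baa9982729c137a0353b818a634275e062⟩

/-- piece -/
def pc1543260_0 : ℕ := 0x30000000000000000

/-- piece -/
def pc1543260_1 : ℕ := 0x20000000000000001

/-- piece -/
def pc1543260_2 : ℕ := 0x40000000000000002

/-- piece -/
def pc1543260_3 : ℕ := 0x20000000000000003

/-- piece -/
def pc1543260_4 : ℕ := 0x70000000000000004

/-- piece -/
def pc1543260_5 : ℕ := 0x30000000000000005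

/-- piece -/
def pc1543260_6 : ℕ := 0x20000000000000006

/-- piece -/
def pc1543260_7 : ℕ := 0x30000000000000007

/-- piece -/
def pc1543260_8 : ℕ := 0x30000000000000008

/-- piece -/
def pc1543260_9 : ℕ := 0xf0000000000000009

/-- piece -/
def pc1543260_10 : ℕ := 0x7000000000000000a

/-- piece -/
def pc1543260_11 : ℕ := 0x3f0000000000000020000000000000000b

/-- piece -/
def pc1543260_12 : ℕ := 0x8000000000000000c

/-- piece -/
def pc1543260_13 : ℕ := 0x4000000000000000d

/-- piece -/
def pc1543260_14 : ℕ := 0x2000000000000000e

/-- piece -/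
def pc1543260_15 : ℕ := 0x2000000000000000f

/-- piece -/
def pc1543260_16 : ℕ := 0x30000000000000010

/-- piece -/
def pc1543260_17 : ℕ := 0x70000000000000011

/-- piece -/
def pc1543260_18 : ℕ := 0x30000000000000012

/-- piece -/
def pc1543260_19 : ℕ := 0x40000000000000013

/-- piece -/
def pc1543260_20 : ℕ := 0x1f0000000000000782000000000000047d0000000000000014

/-- piece -/
def pc1543260_21 : ℕ := 0x20000000000000015

/-- piece -/
def pc1543260_22 : ℕ := 0x30000000000000016

/-- piece -/
def pc1543260_23 : ℕ := 0x3f00000000000010de00000000000000400000000000000017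

/-- piece -/
def pc1543260_24 : ℕ := 0x1f00000000000006390000000000000c7100000000000000400000000000000018

/-- piece -/
def pc1543260_25 : ℕ := 0x300000000000010770000000000000019

/-- piece -/
def pc1543260_26 : ℕ := 0xf0000000000000199000000000000033100000000000019840000000000000040000000000000001a

/-- piece -/
def pc1543260_27 : ℕ := 0xf00000000000003840000000000000382000000000000027d000000000000027b000000000000001b

/-- piece -/
def pc1543260_28 : ℕ := 0x2000000000000001c

/-- piece -/
def pc1543260_29 : ℕ := 0x7f0000000000001f210000000000000020000000000000001d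

/-- piece -/
def pc1543260_30 : ℕ := 0x1f880000000000001f840000000000000002000000000000001e

/-- piece -/
def pc1543260_31 : ℕ := 0x7f0000000000000b8e00000000000005c60000000000000010000000000000001f

/-- piece -/
def pc1543260_32 : ℕ := 0x7f000000000000167b00000000000002ce000000000000016600000000000000080000000000000020

/-- piece -/
def pc1543260_33 : ℕ := 0x7f000000000000057d000000000000057b0000000000000577000000000000005600000000000000040000000000000021

/-- piece -/
def pc1543260_34 : ℕ := 0x18800000000000001840000000000000182000000000000017d000000000000017b000000000000017700000000000000040000000000000022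

/-- piece -/
def pc1543260_35 : ℕ := 0x7f00000000000000400000000000000023

/-- piece -/
def pc1543260_36 : ℕ := 0x7000000000000006900000000000006880000000000000684000000000000068200000000000000400000000000000024

/-- part of the table of windows -/
def fc1543260 : Tre := .nd (.nd (.nd (.nd (.nd (.nd (.lf pc1543260_0) (.lf pc1543260_32)) (.lf pc1543260_16)) (.nd (.lf pc1543260_8) (.lf pc1543260_24))) (.nd (.nd (.nd (.lf pc1543260_4) (.lf pc1543260_36)) (.lf pc1543260_20)) (.nd (.lf pc1543260_12) (.lf pc1543260_28)))) (.nd (.nd (.nd (.nd (.lf pc1543260_2) (.lf pc1543260_34)) (.lf pc1543260_18)) (.nd (.lf pc1543260_10) (.lf pc1543260_26))) (.nd (.nd (.lf pc1543260_6) (.lf pc1543260_22)) (.nd (.lf pc1543260_14) (.lf pc1543260_30))))) (.nd (.nd (.nd (.nd (.nd (.lf pc1543260_1) (.lf pc1543260_33)) (.lf pc1543260_17)) (.nd (.lf pc1543260_9) (.lf pc1543260_25))) (.nd (.nd (.lf pc1543260_5) (.lf pc1543260_21)) (.nd (.lf pc1543260_13) (.lf pc1543260_29)))) (.nd (.nd (.nd (.nd (.lf pc1543260_3) (.lf pc1543260_35)) (.lf pc1543260_19)) (.nd (.lf pc1543260_11) (.lf pc1543260_27)))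 (.nd (.nd (.lf pc1543260_7) (.lf pc1543260_23)) (.nd (.lf pc1543260_15) (.lf pc1543260_31)))))

end Pool.Agent.RTX
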