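import Pool.Agent.RTS7.D_1305264

/-!
# RTS7: class of the permutation 1305264, elimination
-/

set_option autoImplicit false
set_option linter.defProp false
set_option maxRecDepth 100000

namespace Pool.Agent.RTX

def ec1305264_0 : rngOK c1305264 fc1305264 0 63
    0x3e00c80007a0190000f00320001d80640003a00c8000720190000e00320001b80640003600c80006a0190000d00320001980640003200c8000620190000c00320001780640003e05020001e8280002e0900000168480003c0500000ec14080000e81408000720a0000b0240004056120000e014000037050200003605020001a8280002a090000014848000340500000cc14080000c81408000620a0000a024000004e120000c01400002f050200003e0500000f4140001704802000168480003c05020001d828000260d000000250d0000740a00001c8280002c090200202b090000700a00001b828020000360500000d41400015048020001484800034050200019828000240d000000230d0000640a000018828000280902000027090000600a0000178280200003702c0003e0500000f4140001704800000b4240001e0280000760a0000983400000094340001d0280000720a0000b024000005622009000084030000cc230000a42b0000d033200012036490000d41b0000a813240003602c90080885400010888000360500000d4140001504800000a4240001a0280000660a000090340000008c34000190280000620a0000a024000004e120000c01400002f0500000000ec230000b42b0000f033200013036490000f41b0000b813240003e02c900007c0320000f00640001d00c80003801900006c0320000d00640001900c80003001900007c14080003c0a00005c24000002c120000741400001c050200001b05020000d02800015090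00000a04800019050000060140800007c1400001e0500002e120080002c120000741408000380a00004c3400000048340000d8280000340a0000542408000050240000c8280000300a0080000600b000050130000641b2000090360000d0660000a85648000361190000440324920000780640000e00c80001a01900003c14080001c0a000030240004016120000341400000141a00003c1400000e0500001812040040161200003414010480001001900001c0320000381600003006480401222000020140000070500000c120010000100320000180640000200c0000302c8000041200000c140000040500000a1a00800002018000020a00007c1400001e0500002e1200000160900003a0a00000e028000130d000000120d0000360a00000d0280001509000000a0480001905000006014000088880000200b06c0000d08c8000141180001c1d80001819920000785640000900c900800020320080001300000443008080540001f02800007a0a0000b824000005a120000f01400003b0500004c1a0000004a1a0000e8140000390500005812000000b2d004800042220000d81400003505000054120000029090000680a000019828000240d000000230d0000640a00001882800028090000013848000300500000bc14000000c800000000602b000050330000643b2000090760000d0a60000a896480003621900004423249000070230000582b00007433200009836490000781b00005c13240001f02c80005e0580004e098000600d900008c1b0000c4330000a02b240003208c8000421180006621800052258000682990000903b2480006a1d80005419920001b0564020001900003e0a00101f16800405c5a0010131680000445a0000100c80000762580005a298000782d9000098432480007a2180005c1d920001f06640000000c9249 = true := by decide +kernel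

end Pool.Agent.RTX
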