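import Pool.Agent.RTS7.D_1543260

/-!
# RTS7: class of the permutation 1543260, elimination
-/

set_option autoImplicit false
set_option linter.defProp false
set_option maxRecDepth 100000

namespace Pool.Agent.RTX

def ec1543260_0 : rngOK c1543260 fc1543260 0 37
    0x1240a02409020000220902480003c0a00200e8c80001e0500050108160501207604010948000210902480003c15920000000e00640001c05004920400d006040100360301101640a02410c0602100c8100342580c040019000070532490000783324920000e01648040320a040201902c0202304c0001e0ec9240801a0d0000380a000a02409004048520000118c80000002106c9020068340000e028000009064002480002c0180002c0a02006c130000702320100c8660100f006480002c2980403401800040259240402400c0002110c90200880b0000681b249240002000c820000a80640241240601800c0601f08c0001614c0201b04c90100880b2050120860201080640801a12c0402006c8000382990180605301007c1b240001516c800032019249000078332490000541401000048032000090280401406c80002a15900806433010078032000090b60100c0360000f8a64920000b0a60200d03600010096490180900300008443240a02202c0401b04c0001c14c80003011924920000f8064020000800600008028000130902000088480000f05000003c032000070064901005c030100742b0000485b0000446300003c6b20000a036490000585300006c13240202202c814048218040421190200684b0080802320000e0a640601814c0201f08c8000203580002631920000a8b640200b1500402e6204920000f066490000381400040008049000020030000201401005846480001c19900806433008074c4000058a80000242d8000223180001e3590100602300007c5324900005853018068230000804b24810048118000422192060110160300d8260000e0a640201406c000101ac0001318c90000545b20000b856492480003a01904900001c0300001c14000068481000028240000302800000c019000014032000028280000c0d0040000300c8000121a00000c140100001024000008280000020190000000300000014000010481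 = true := by decide +kernel

end Pool.Agent.RTX
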