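import Pool.Agent.RTS7.Pce

/-!
# RTS7/Elm: elimination of vertices

A path in a graph with `1024` vertices at most: `v` are the vertices, `c` the types of the steps.  Known: windows that eventually do not occur (a tree `FT` of pieces, see
`Pce`), and vertices `< k` that eventually do not occur.  A stream of codes describes a tree of extensions of a window, to the right and to the left, whose leaves are
windows with a known forbidden factor, or have an end of rank `< k`.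
-/

set_option autoImplicit false

namespace Pool.Agent.RTX

/-- Force the evaluation of `n`. -/
noncomputable def gz (n : ℕ) (f : ℕ → ℕ) : ℕ := bndN (Nat.add n (nat_lit 1)) f

theorem gz_eq (n : ℕ) (f : ℕ → ℕ) : gz n f = f n := rfl

/-- Binary tree of numbers. -/
inductive Tre
  | lf (n : ℕ)
  | nd (l r : Tre)

/-- Entry number `q`. -/
noncomputable def Tre.get (t : Tre) : ℕ → ℕ :=
  Tre.rec (motive := fun _ => ℕ → ℕ) (fun n _ => n)
    (fun _ _ a b q => gz (Nat.div q (nat_lit 2)) fun q' =>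
      ifB (Nat.beq (Nat.mod q (nat_lit 2)) (nat_lit 0)) (a q') (b q')) t

/-- All the entries have the property. -/
def Tre.All (X : ℕ → Prop) : Tre → Prop
  | .lf n => X n
  | .nd l r => l.All X ∧ r.All X

theorem Tre.all_lf {X : ℕ → Prop} {n : ℕ} (h : X n) : (Tre.lf n).All X := h

theorem Tre.all_nd {X : ℕ → Prop} {l r : Tre} (h : l.All X) (h' : r.All X) : (Tre.nd l r).All X := ⟨h, h'⟩

theorem Tre.all_mono {X Y : ℕ → Prop} (hXY : ∀ n, X n → Y n) : ∀ {t : Tre}, t.All X → t.All Y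
  | .lf n, h => hXY n h
  | .nd _ _, h => ⟨Tre.all_mono hXY h.1, Tre.all_mono hXY h.2⟩

theorem Tre.get_all {X : ℕ → Prop} : ∀ {t : Tre}, t.All X → ∀ q, X (t.get q)
  | .lf n, h, _ => h
  | .nd l r, h, q => by
    have e : (Tre.nd l r).get q = gz (q / 2) fun q' => ifB (Nat.beq (q % 2) 0) (l.get q') (r.get q') := rfl
    rw [e, gz_eq, ifB_eq]
    split
    · exact Tre.get_all h.1 _
    · exact Tre.get_all h.2 _

/-- Entry `i` of a table with slots of 10 bits. -/
def tb (X i : ℕ) : ℕ := Nat.mod (Nat.shiftRight X (Nat.mul (nat_lit 10) i)) (nat_lit 1024)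

/-- Leaf: forbidden factor at the right end. -/
noncomputable def elR (FT : Tre) (S p m c : ℕ) : ℕ :=
  gz (Nat.mod c (nat_lit 64)) fun n => gz (Nat.mod (Nat.div c (nat_lit 64)) (nat_lit 8192)) fun q => gz (FT.get q) fun P =>
    ifB (Nat.ble n m)
      (ifB (Nat.beq (Nat.mod P (nat_lit 18446744073709551616)) (tb S n))
        (gz (Nat.shiftLeft (nat_lit 1) n) fun b =>
          ifB (Nat.beq (Nat.mod (Nat.shiftRight P (Nat.mul (nat_lit 64)
              (Nat.add (Nat.mod (Nat.div c (nat_lit 524288)) (nat_lit 512)) (nat_lit 1)))) (nat_lit 18446744073709551616))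
            (Nat.add (Nat.mod p b) b))
          (Nat.add (Nat.div c (nat_lit 268435456)) (nat_lit 1)) (nat_lit 0)) (nat_lit 0)) (nat_lit 0)

/-- Leaf: forbidden factor at the left end. -/
noncomputable def elL (FT : Tre) (S p m c : ℕ) : ℕ :=
  gz (Nat.mod c (nat_lit 128)) fun r => gz (Nat.mod (Nat.div c (nat_lit 128)) (nat_lit 8192)) fun q => gz (FT.get q) fun P =>
    ifB (Nat.ble r m)
      (ifB (Nat.beq (Nat.mod P (nat_lit 18446744073709551616)) (tb S m))
        (ifB (Nat.beq (Nat.mod (Nat.shiftRight P (Nat.mul (nat_lit 64)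
              (Nat.add (Nat.mod (Nat.div c (nat_lit 1048576)) (nat_lit 512)) (nat_lit 1)))) (nat_lit 18446744073709551616))
            (Nat.shiftRight p r))
          (Nat.add (Nat.div c (nat_lit 536870912)) (nat_lit 1)) (nat_lit 0)) (nat_lit 0)) (nat_lit 0)

/-- The entry `h` of the list is `(i, p)`. -/
noncomputable def hypF (i p : ℕ) (L : List (ℕ × ℕ)) : ℕ → Bool :=
  List.rec (motive := fun _ => ℕ → Bool) (fun _ => false)
    (fun x _ ih h => Nat.rec (motive := fun _ => Bool) (ifB (Nat.beq x.1 i) (Nat.beq x.2 p) false) (fun h' _ => ih h') h) L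

/-- Leaf: window of the list `HL`. -/
noncomputable def elH (HL : List (ℕ × ℕ)) (S p m c : ℕ) : ℕ :=
  ifB (hypF (tb S m) p HL (Nat.mod c (nat_lit 256))) (Nat.add (Nat.div c (nat_lit 256)) (nat_lit 1)) (nat_lit 0)

/-- Extensions to the right. -/
noncomputable def ndR (X0 X1 k : ℕ) (ih : ℕ → ℕ → ℕ → ℕ → ℕ) (S p m c : ℕ) : ℕ :=
  gz (Nat.mod S (nat_lit 1024)) fun i => gz (Nat.add m (nat_lit 1)) fun m' =>
    bndN (gz (tb X0 i) fun j => ifB (Nat.ble k j)
      (gz (Nat.add (Nat.mul (nat_lit 1024) S) j) fun S' => gz (Nat.mul (nat_lit 2) p) fun p' => ih S' p' m' c)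
      (Nat.add c (nat_lit 1))) fun c1 =>
    gz (tb X1 i) fun j => ifB (Nat.ble k j)
      (gz (Nat.add (Nat.mul (nat_lit 1024) S) j) fun S' => gz (Nat.add (Nat.mul (nat_lit 2) p) (nat_lit 1)) fun p' =>
        ih S' p' m' c1)
      (Nat.add c1 (nat_lit 1))

/-- Extensions to the left. -/
noncomputable def ndL (Y0 Y1 k : ℕ) (ih : ℕ → ℕ → ℕ → ℕ → ℕ) (S p m c : ℕ) : ℕ :=
  gz (tb S m) fun i => gz (Nat.add m (nat_lit 1)) fun m' =>
    bndN (gz (tb Y0 i) fun j => ifB (Nat.ble k j)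
      (gz (Nat.add S (Nat.shiftLeft j (Nat.mul (nat_lit 10) m'))) fun S' =>
        gz (Nat.add p (Nat.shiftLeft (nat_lit 1) m)) fun p' => ih S' p' m' c)
      (Nat.add c (nat_lit 1))) fun c1 =>
    gz (tb Y1 i) fun j => ifB (Nat.ble k j)
      (gz (Nat.add S (Nat.shiftLeft j (Nat.mul (nat_lit 10) m'))) fun S' =>
        gz (Nat.add p (Nat.shiftLeft (nat_lit 1) m')) fun p' => ih S' p' m' c1)
      (Nat.add c1 (nat_lit 1))

/-- Check of a tree of extensions: `S` vertices of the window (the last one in the lowest slot), `p` code of the window, `m` length, `c` stream; the result is `0` or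
one more than the rest of the stream.  Tags: `0` extensions to the right, `1` to the left, `2`, `3` forbidden factor at the right, left end, `4` window of the list. -/
noncomputable def elm (X0 X1 Y0 Y1 : ℕ) (FT : Tre) (HL : List (ℕ × ℕ)) (k n : ℕ) : ℕ → ℕ → ℕ → ℕ → ℕ :=
  Nat.rec (motive := fun _ => ℕ → ℕ → ℕ → ℕ → ℕ) (fun _ _ _ _ => nat_lit 0)
    (fun _ ih S p m c => gz (Nat.div c (nat_lit 8)) fun c' =>
      Nat.rec (motive := fun _ => ℕ) (ndR X0 X1 k ih S p m c')
        (fun t _ => Nat.rec (motive := fun _ => ℕ) (ndL Y0 Y1 k ih S p m c')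
          (fun t _ => Nat.rec (motive := fun _ => ℕ) (elR FT S p m c')
            (fun t _ => Nat.rec (motive := fun _ => ℕ) (elL FT S p m c')
              (fun _ _ => elH HL S p m c') t) t) t)
        (Nat.mod c (nat_lit 8))) n

/-- Code of the path of length `n` from time `t`. -/
def cd (c : ℕ → Bool) (t : ℕ) : ℕ → ℕ
  | 0 => 1
  | n + 1 => 2 * cd c t n + (c (t + n)).toNat

/-- Packed vertices from time `t` to time `t + m`. -/
def vs (v : ℕ → ℕ) (t : ℕ) : ℕ → ℕ
  | 0 => v t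
  | m + 1 => 1024 * vs v t m + v (t + (m + 1))

/-- The window with the code `p` at the vertex `i` eventually does not occur. -/
def Dd (v : ℕ → ℕ) (c : ℕ → Bool) (i p : ℕ) : Prop := ∃ T, ∀ t, T ≤ t → ∀ n, v t = i → cd c t n ≠ p

/-- The vertex `i` eventually does not occur. -/
def Dv (v : ℕ → ℕ) (i : ℕ) : Prop := ∃ T, ∀ t, T ≤ t → v t ≠ i

/-- The window with the vertices `S` and the code `p` eventually does not occur. -/
def De (v : ℕ → ℕ) (c : ℕ → Bool) (S p m : ℕ) : Prop := ∃ T, ∀ t, T ≤ t → vs v t m = S → cd c t m ≠ p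

/-- A path. -/
structure Pth (X0 X1 Y0 Y1 : ℕ) (v : ℕ → ℕ) (c : ℕ → Bool) : Prop where
  lt : ∀ t, v t < 1024
  x : ∀ t, v (t + 1) = tb (bif c t then X1 else X0) (v t)
  y : ∀ t, v t = tb (bif c t then Y1 else Y0) (v (t + 1))

theorem cd_lt (c : ℕ → Bool) (t : ℕ) : ∀ n, 2 ^ n ≤ cd c t n ∧ cd c t n < 2 ^ (n + 1)
  | 0 => by simp [cd]
  | n + 1 => by
    have h := cd_lt c t n
    have h1 := Bool.toNat_le (c (t + n))
    rw [cd, pow_succ, pow_succ 2 (n + 1)]
    omega

theorem cd_add (c : ℕ → Bool) (t a : ℕ) : ∀ n, cd c t (a + n) + 2 ^ n = 2 ^ n * cd c t a + cd c (t + a) n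
  | 0 => by simp [cd, Nat.add_comm]
  | n + 1 => by
    have h := cd_add c t a n
    have h1 : cd c t (a + (n + 1)) = 2 * cd c t (a + n) + (c (t + (a + n))).toNat := rfl
    have h2 : cd c (t + a) (n + 1) = 2 * cd c (t + a) n + (c (t + a + n)).toNat := rfl
    rw [h1, h2, ← Nat.add_assoc t a n]
    have h3 : 2 ^ (n + 1) * cd c t a = 2 * (2 ^ n * cd c t a) := by ring
    rw [h3, pow_succ]
    omega

theorem cd_shr (c : ℕ → Bool) (t a n : ℕ) : cd c t (a + n) >>> n = cd c t a := by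
  have h := cd_add c t a n
  have h1 := cd_lt c (t + a) n
  rw [pow_succ] at h1
  have h2 : 0 < 2 ^ n := Nat.pos_of_ne_zero (by positivity)
  rw [Nat.shiftRight_eq_div_pow]
  apply Nat.div_eq_of_lt_le
  · rw [Nat.mul_comm]; omega
  · rw [Nat.succ_mul, Nat.mul_comm]; omega

theorem cd_mod (c : ℕ → Bool) (t a n : ℕ) : cd c t (a + n) % 2 ^ n + 2 ^ n = cd c (t + a) n := by
  have h := cd_add c t a n
  have h1 := cd_lt c (t + a) n
  rw [pow_succ] at h1
  have h2 : cd c t (a + n) = (cd c (t + a) n - 2 ^ n) + 2 ^ n * cd c t a := by omega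
  rw [h2, Nat.add_mul_mod_self_left, Nat.mod_eq_of_lt (by omega)]
  omega

theorem cd_left (c : ℕ → Bool) (t m : ℕ) : cd c t (m + 1) = cd c (t + 1) m + 2 ^ m * (1 + (c t).toNat) := by
  have h := cd_add c t 1 m
  have h1 : cd c t 1 = 2 * 1 + (c t).toNat := rfl
  rw [Nat.add_comm m 1]
  rw [h1] at h
  have h2 : 2 ^ m * (2 * 1 + (c t).toNat) = 2 ^ m * (1 + (c t).toNat) + 2 ^ m := by ring
  omega

theorem vs_lt {v : ℕ → ℕ} (hv : ∀ t, v t < 1024) (t : ℕ) : ∀ m, vs v t m < 1024 ^ (m + 1)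
  | 0 => by simpa [vs] using hv t
  | m + 1 => by
    have h := vs_lt hv t m
    have h1 := hv (t + (m + 1))
    rw [vs, pow_succ]
    omega

theorem vs_add {v : ℕ → ℕ} (t a : ℕ) : ∀ n, vs v t (a + (n + 1)) = 1024 ^ (n + 1) * vs v t a + vs v (t + a + 1) n
  | 0 => by
    show 1024 * vs v t a + v (t + (a + 1)) = _
    simp [vs, Nat.add_assoc]
  | n + 1 => by
    have h := vs_add (v := v) t a n
    have h1 : vs v t (a + (n + 1 + 1)) = 1024 * vs v t (a + (n + 1)) + v (t + (a + (n + 1) + 1)) := rfl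
    have h2 : vs v (t + a + 1) (n + 1) = 1024 * vs v (t + a + 1) n + v (t + a + 1 + (n + 1)) := rfl
    rw [h1, h2, h, show t + (a + (n + 1) + 1) = t + a + 1 + (n + 1) by ring]
    ring

theorem tb_eq (X i : ℕ) : tb X i = X / 1024 ^ i % 1024 := by
  show (X >>> (10 * i)) % 1024 = _
  rw [Nat.shiftRight_eq_div_pow, pow_mul]
  norm_num

theorem vs_tb {v : ℕ → ℕ} (hv : ∀ t, v t < 1024) (t a n : ℕ) : tb (vs v t (a + n)) n = v (t + a) := by
  have h0 : vs v t a % 1024 = v (t + a) := by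
    cases a with
    | zero => simpa [vs] using Nat.mod_eq_of_lt (hv t)
    | succ a =>
      rw [vs, Nat.mul_add_mod, Nat.mod_eq_of_lt (hv _)]
  rw [tb_eq]
  cases n with
  | zero => simpa using h0
  | succ n =>
    have h1 := vs_lt hv (t + a + 1) n
    rw [vs_add, Nat.mul_add_div (by positivity), Nat.div_eq_of_lt h1, Nat.add_zero, h0]

theorem vs_left {v : ℕ → ℕ} (t : ℕ) : ∀ m, vs v t (m + 1) = vs v (t + 1) m + v t * 1024 ^ (m + 1)
  | 0 => by
    show 1024 * v t + v (t + 1) = v (t + 1) + v t * 1024 ^ 1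
    ring
  | m + 1 => by
    have h := vs_left (v := v) t m
    have h1 : vs v t (m + 1 + 1) = 1024 * vs v t (m + 1) + v (t + (m + 1 + 1)) := rfl
    have h2 : vs v (t + 1) (m + 1) = 1024 * vs v (t + 1) m + v (t + 1 + (m + 1)) := rfl
    rw [h1, h2, h, show t + (m + 1 + 1) = t + 1 + (m + 1) by ring]
    ring

section
variable {X0 X1 Y0 Y1 : ℕ} {v : ℕ → ℕ} {c : ℕ → Bool}

theorem de_right (hP : Pth X0 X1 Y0 Y1 v c) {S p m : ℕ}
    (h0 : Dv v (tb X0 (S % 1024)) ∨ De v c (1024 * S + tb X0 (S % 1024)) (2 * p) (m + 1))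
    (h1 : Dv v (tb X1 (S % 1024)) ∨ De v c (1024 * S + tb X1 (S % 1024)) (2 * p + 1) (m + 1)) : De v c S p m := by
  have key : ∀ (b : Bool), (Dv v (tb (bif b then X1 else X0) (S % 1024)) ∨
      De v c (1024 * S + tb (bif b then X1 else X0) (S % 1024)) (2 * p + b.toNat) (m + 1)) →
      ∃ T, ∀ t, T ≤ t → vs v t m = S → c (t + m) = b → cd c t m ≠ p := by
    intro b h
    have h2 : ∀ t, vs v t m = S → v (t + m) = S % 1024 := by
      intro t ht
      have h3 := vs_tb hP.lt t m 0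
      rw [Nat.add_zero, ht, tb_eq, pow_zero, Nat.div_one] at h3
      exact h3.symm
    rcases h with ⟨T, hT⟩ | ⟨T, hT⟩
    · refine ⟨T, fun t ht hS hb _ => ?_⟩
      have h4 := hP.x (t + m)
      rw [hb, h2 t hS] at h4
      exact hT (t + m + 1) (by omega) h4
    · refine ⟨T, fun t ht hS hb hp => ?_⟩
      have h4 := hP.x (t + m)
      rw [hb, h2 t hS] at h4
      refine hT t ht ?_ ?_
      · rw [vs, hS, ← Nat.add_assoc, h4]
      · rw [cd, hp, hb]
  obtain ⟨T0, hT0⟩ := key false h0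
  obtain ⟨T1, hT1⟩ := key true h1
  refine ⟨max T0 T1, fun t ht hS => ?_⟩
  cases hb : c (t + m) with
  | false => exact hT0 t (le_trans (le_max_left _ _) ht) hS hb
  | true => exact hT1 t (le_trans (le_max_right _ _) ht) hS hb

theorem de_left (hP : Pth X0 X1 Y0 Y1 v c) {S p m : ℕ}
    (h0 : Dv v (tb Y0 (tb S m)) ∨ De v c (S + tb Y0 (tb S m) <<< (10 * (m + 1))) (p + 1 <<< m) (m + 1))
    (h1 : Dv v (tb Y1 (tb S m)) ∨ De v c (S + tb Y1 (tb S m) <<< (10 * (m + 1))) (p + 1 <<< (m + 1)) (m + 1)) :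
    De v c S p m := by
  have key : ∀ (b : Bool), (Dv v (tb (bif b then Y1 else Y0) (tb S m)) ∨
      De v c (S + tb (bif b then Y1 else Y0) (tb S m) <<< (10 * (m + 1))) (p + 2 ^ m * (1 + b.toNat)) (m + 1)) →
      ∃ T, ∀ t, T ≤ t → vs v (t + 1) m = S → c t = b → cd c (t + 1) m ≠ p := by
    intro b h
    have h2 : ∀ t, vs v (t + 1) m = S → v (t + 1) = tb S m := by
      intro t ht
      have h3 := vs_tb hP.lt (t + 1) 0 m
      rw [Nat.zero_add, ht, Nat.add_zero] at h3
      exact h3.symm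
    rcases h with ⟨T, hT⟩ | ⟨T, hT⟩
    · refine ⟨T, fun t ht hS hb _ => ?_⟩
      have h4 := hP.y t
      rw [hb, h2 t hS] at h4
      exact hT t ht h4
    · refine ⟨T, fun t ht hS hb hp => ?_⟩
      have h4 := hP.y t
      rw [hb, h2 t hS] at h4
      refine hT t ht ?_ ?_
      · rw [vs_left, hS, h4, Nat.shiftLeft_eq, pow_mul]
        norm_num
      · rw [cd_left, hp, hb]
  obtain ⟨T0, hT0⟩ := key false (by simpa [Nat.shiftLeft_eq, Nat.mul_one] using h0)
  obtain ⟨T1, hT1⟩ := key true (by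
    have e : p + 1 <<< (m + 1) = p + 2 ^ m * (1 + true.toNat) := by
      rw [Nat.shiftLeft_eq, pow_succ, Bool.toNat_true]
      ring
    rw [e] at h1
    exact h1)
  refine ⟨max T0 T1 + 1, fun t ht hS => ?_⟩
  obtain ⟨s, rfl⟩ : ∃ s, t = s + 1 := ⟨t - 1, by omega⟩
  cases hb : c s with
  | false => exact hT0 s (by omega) hS hb
  | true => exact hT1 s (by omega) hS hb

theorem de_leafR (hP : Pth X0 X1 Y0 Y1 v c) {S p m n i w : ℕ} (h : Dd v c i w) (hn : n ≤ m) (hi : i = tb S n)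
    (hw : w = p % (1 <<< n) + 1 <<< n) : De v c S p m := by
  obtain ⟨T, hT⟩ := h
  refine ⟨T, fun t ht hS hp => ?_⟩
  obtain ⟨a, rfl⟩ : ∃ a, m = a + n := ⟨m - n, by omega⟩
  have h1 := vs_tb hP.lt t a n
  rw [hS] at h1
  have h2 := cd_mod c t a n
  rw [hp, ← Nat.one_shiftLeft] at h2
  exact hT (t + a) (by omega) n (by rw [← h1, hi]) (by rw [← h2, hw])

theorem de_leafL (hP : Pth X0 X1 Y0 Y1 v c) {S p m r i w : ℕ} (h : Dd v c i w) (hn : r ≤ m) (hi : i = tb S m)
    (hw : w = p >>> r) : De v c S p m := by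
  obtain ⟨T, hT⟩ := h
  refine ⟨T, fun t ht hS hp => ?_⟩
  obtain ⟨a, rfl⟩ : ∃ a, m = a + r := ⟨m - r, by omega⟩
  have h1 := vs_tb hP.lt t 0 (a + r)
  rw [Nat.zero_add, hS, Nat.add_zero] at h1
  have h2 := cd_shr c t a r
  rw [hp] at h2
  exact hT t ht a (by rw [← h1, hi]) (by rw [← h2, hw])

theorem hypF_mem {i p : ℕ} : ∀ {L : List (ℕ × ℕ)} {h : ℕ}, hypF i p L h = true → (i, p) ∈ L
  | [], h, e => by
    have e' : hypF i p [] h = false := rfl
    rw [e'] at e
    exact absurd e (by decide)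
  | x :: L, 0, e => by
    have e' : hypF i p (x :: L) 0 = ifB (Nat.beq x.1 i) (Nat.beq x.2 p) false := rfl
    rw [e', ifB_eq] at e
    simp only [Nat.beq_eq] at e
    by_cases h1 : x.1 = i
    · rw [if_pos h1] at e
      have h2 : x.2 = p := Nat.eq_of_beq_eq_true e
      subst h1 h2
      exact List.mem_cons_self
    · rw [if_neg h1] at e
      exact absurd e (by decide)
  | x :: L, h + 1, e => by
    have e' : hypF i p (x :: L) (h + 1) = hypF i p L h := rfl
    rw [e'] at e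
    exact List.mem_cons_of_mem _ (hypF_mem e)

theorem elm_zero (X0 X1 Y0 Y1 : ℕ) (FT : Tre) (HL : List (ℕ × ℕ)) (k S p m c : ℕ) :
    elm X0 X1 Y0 Y1 FT HL k 0 S p m c = 0 := rfl

theorem elm_succ (X0 X1 Y0 Y1 : ℕ) (FT : Tre) (HL : List (ℕ × ℕ)) (k n S p m c : ℕ) :
    elm X0 X1 Y0 Y1 FT HL k (n + 1) S p m c =
      match c % 8 with
      | 0 => ndR X0 X1 k (elm X0 X1 Y0 Y1 FT HL k n) S p m (c / 8)
      | 1 => ndL Y0 Y1 k (elm X0 X1 Y0 Y1 FT HL k n) S p m (c / 8)
      | 2 => elR FT S p m (c / 8)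
      | 3 => elL FT S p m (c / 8)
      | _ + 4 => elH HL S p m (c / 8) := by
  have h : elm X0 X1 Y0 Y1 FT HL k (n + 1) S p m c = gz (c / 8) fun c' =>
      Nat.rec (motive := fun _ => ℕ) (ndR X0 X1 k (elm X0 X1 Y0 Y1 FT HL k n) S p m c')
        (fun t _ => Nat.rec (motive := fun _ => ℕ) (ndL Y0 Y1 k (elm X0 X1 Y0 Y1 FT HL k n) S p m c')
          (fun t _ => Nat.rec (motive := fun _ => ℕ) (elR FT S p m c')
            (fun t _ => Nat.rec (motive := fun _ => ℕ) (elL FT S p m c')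
              (fun _ _ => elH HL S p m c') t) t) t)
        (c % 8) := rfl
  rw [h, gz_eq]
  generalize c % 8 = t
  match t with
  | 0 => rfl
  | 1 => rfl
  | 2 => rfl
  | 3 => rfl
  | t + 4 => rfl

private theorem elm_bnd {r m : ℕ} {f : ℕ → ℕ} (h : bndN r f = m + 1) : ∃ x, r = x + 1 ∧ f x = m + 1 := by
  cases r with
  | zero => rw [bndN_zero] at h; omega
  | succ x => exact ⟨x, rfl, by rw [bndN_succ] at h; exact h⟩

private theorem elm_if {b : Bool} {x m : ℕ} (h : ifB b x 0 = m + 1) : b = true ∧ x = m + 1 := by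
  rw [ifB_eq] at h
  by_cases hb : b = true
  · rw [if_pos hb] at h
    exact ⟨hb, h⟩
  · rw [if_neg hb] at h
    omega

theorem elm_ok (hP : Pth X0 X1 Y0 Y1 v c) {FT : Tre} {HL : List (ℕ × ℕ)} {k : ℕ}
    (hT : ∀ q e, Dd v c (slP (FT.get q) 0) (slP (FT.get q) (e + 1))) (hH : ∀ x ∈ HL, Dd v c x.1 x.2)
    (hk : ∀ j < k, Dv v j) :
    ∀ n S p m s x, elm X0 X1 Y0 Y1 FT HL k n S p m s = x + 1 → De v c S p m := by
  intro n
  induction n with
  | zero =>
    intro S p m s x h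
    rw [elm_zero] at h
    omega
  | succ n ih =>
    intro S p m s x h
    rw [elm_succ] at h
    have hch : ∀ j s' y S' p' m', ifB (Nat.ble k j) (elm X0 X1 Y0 Y1 FT HL k n S' p' m' s') (s' + 1) = y + 1 →
        Dv v j ∨ De v c S' p' m' := by
      intro j s' y S' p' m' h1
      rw [ifB_eq] at h1
      by_cases hb : Nat.ble k j = true
      · rw [if_pos hb] at h1
        exact Or.inr (ih _ _ _ _ _ h1)
      · left
        refine hk j ?_
        rw [Nat.ble_eq] at hb
        omega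
    generalize s % 8 = t at h
    match t, h with
    | 0, h =>
      have h1 : bndN (ifB (Nat.ble k (tb X0 (S % 1024)))
          (elm X0 X1 Y0 Y1 FT HL k n (1024 * S + tb X0 (S % 1024)) (2 * p) (m + 1) (s / 8)) (s / 8 + 1)) (fun c1 =>
          ifB (Nat.ble k (tb X1 (S % 1024)))
          (elm X0 X1 Y0 Y1 FT HL k n (1024 * S + tb X1 (S % 1024)) (2 * p + 1) (m + 1) c1) (c1 + 1)) = x + 1 := h
      obtain ⟨y, h2, h3⟩ := elm_bnd h1
      exact de_right hP (hch _ _ _ _ _ _ h2) (hch _ _ _ _ _ _ h3)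
    | 1, h =>
      have h1 : bndN (ifB (Nat.ble k (tb Y0 (tb S m)))
          (elm X0 X1 Y0 Y1 FT HL k n (S + tb Y0 (tb S m) <<< (10 * (m + 1))) (p + 1 <<< m) (m + 1) (s / 8))
          (s / 8 + 1)) (fun c1 =>
          ifB (Nat.ble k (tb Y1 (tb S m)))
          (elm X0 X1 Y0 Y1 FT HL k n (S + tb Y1 (tb S m) <<< (10 * (m + 1))) (p + 1 <<< (m + 1)) (m + 1) c1)
          (c1 + 1)) = x + 1 := h
      obtain ⟨y, h2, h3⟩ := elm_bnd h1
      exact de_left hP (hch _ _ _ _ _ _ h2) (hch _ _ _ _ _ _ h3)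
    | 2, h =>
      have h1 : ifB (Nat.ble (s / 8 % 64) m)
        (ifB (Nat.beq (FT.get (s / 8 / 64 % 8192) % 18446744073709551616) (tb S (s / 8 % 64)))
          (ifB (Nat.beq (FT.get (s / 8 / 64 % 8192) >>> (64 * (s / 8 / 524288 % 512 + 1)) % 18446744073709551616)
            (p % (1 <<< (s / 8 % 64)) + 1 <<< (s / 8 % 64))) (s / 8 / 268435456 + 1) 0) 0) 0 = x + 1 := h
      obtain ⟨a1, h1⟩ := elm_if h1
      obtain ⟨a2, h1⟩ := elm_if h1
      obtain ⟨a3, -⟩ := elm_if h1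
      rw [Nat.ble_eq] at a1
      have a2' := Nat.eq_of_beq_eq_true a2
      have a3' := Nat.eq_of_beq_eq_true a3
      refine de_leafR hP (hT (s / 8 / 64 % 8192) (s / 8 / 524288 % 512)) a1 ?_ a3'
      rw [← a2']
      show FT.get (s / 8 / 64 % 8192) >>> (64 * 0) % 18446744073709551616 = _
      rw [Nat.mul_zero, Nat.shiftRight_zero]
    | 3, h =>
      have h1 : ifB (Nat.ble (s / 8 % 128) m)
        (ifB (Nat.beq (FT.get (s / 8 / 128 % 8192) % 18446744073709551616) (tb S m))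
          (ifB (Nat.beq (FT.get (s / 8 / 128 % 8192) >>> (64 * (s / 8 / 1048576 % 512 + 1)) % 18446744073709551616)
            (p >>> (s / 8 % 128))) (s / 8 / 536870912 + 1) 0) 0) 0 = x + 1 := h
      obtain ⟨a1, h1⟩ := elm_if h1
      obtain ⟨a2, h1⟩ := elm_if h1
      obtain ⟨a3, -⟩ := elm_if h1
      rw [Nat.ble_eq] at a1
      have a2' := Nat.eq_of_beq_eq_true a2
      have a3' := Nat.eq_of_beq_eq_true a3
      refine de_leafL hP (hT (s / 8 / 128 % 8192) (s / 8 / 1048576 % 512)) a1 ?_ a3'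
      rw [← a2']
      show FT.get (s / 8 / 128 % 8192) >>> (64 * 0) % 18446744073709551616 = _
      rw [Nat.mul_zero, Nat.shiftRight_zero]
    | t + 4, h =>
      have h1 : ifB (hypF (tb S m) p HL (s / 8 % 256)) (s / 8 / 256 + 1) 0 = x + 1 := h
      obtain ⟨a1, -⟩ := elm_if h1
      exact de_leafL hP (hH _ (hypF_mem a1)) (Nat.zero_le m) rfl (Nat.shiftRight_zero (n := p)).symm

end

end Pool.Agent.RTX
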