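import Pool.Agent.RTS.Two
import Pool.Agent.RTS7.Par7

/-!
# RTS7: the golden data
-/

set_option autoImplicit false
set_option maxRecDepth 100000

namespace Pool.Agent.RTX

/-- golden data -/
def gd7 : Gd := ⟨par7.gp, ⟨0, 7, 1, 0, 3, 7, 4⟩, 20, 38, 36, -13, [(2, 24), (3, 24), (4, 12), (5, 12)], []⟩

theorem gd7_ok : goldOK par7 gd7 1 = true := by decide +kernel

end Pool.Agent.RTX
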