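import Pool.Agent.RTS7.Gld
import Pool.Agent.RTS7.W_1234560_0
import Pool.Agent.RTS7.W_1234560_1
import Pool.Agent.RTS7.W_1234560_2
import Pool.Agent.RTS7.W_1234560_3
import Pool.Agent.RTS7.W_1234560_4
import Pool.Agent.RTS7.W_1234560_5
import Pool.Agent.RTS7.W_1234560_6
import Pool.Agent.RTS7.W_1234560_7
import Pool.Agent.RTS7.W_1234560_8
import Pool.Agent.RTS7.W_1234560_9
import Pool.Agent.RTS7.W_1234560_10
import Pool.Agent.RTS7.W_1234560_11
import Pool.Agent.RTS7.W_1234560_12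
import Pool.Agent.RTS7.W_1234560_13
import Pool.Agent.RTS7.W_1234560_14
import Pool.Agent.RTS7.W_1234560_15
import Pool.Agent.RTS7.W_1234560_16
import Pool.Agent.RTS7.E_1234560_0
import Pool.Agent.RTS7.E_1234560_1
import Pool.Agent.RTS7.E_1234560_2
import Pool.Agent.RTS7.E_1234560_3
import Pool.Agent.RTS7.E_1234560_4

/-!
# RTS7: class of the permutation 1234560
-/

set_option autoImplicit false
set_option maxRecDepth 100000

namespace Pool.Agent.RTX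

theorem afc12345600000 : Tre.All (PceOK par7 c1234560.VT) fc12345600000 := Tre.all_nd (Tre.all_nd (Tre.all_nd (Tre.all_nd (Tre.all_nd (Tre.all_nd (Tre.all_lf (batP_ok par7_ok wc1234560_0)) (Tre.all_lf (batP_ok par7_ok wc1234560_512))) (Tre.all_lf (batP_ok par7_ok wc1234560_256))) (Tre.all_nd (Tre.all_nd (Tre.all_lf (batP_ok par7_ok wc1234560_128)) (Tre.all_lf (batP_ok par7_ok wc1234560_640))) (Tre.all_lf (batP_ok par7_ok wc1234560_384)))) (Tre.all_nd (Tre.all_nd (Tre.all_nd (Tre.all_lf (batP_ok par7_ok wc1234560_64)) (Tre.all_lf (batP_ok par7_ok wc1234560_576))) (Tre.all_lf (batP_ok par7_ok wc1234560_320))) (Tre.all_nd (Tre.all_nd (Tre.all_lf (batP_ok par7_ok wc1234560_192)) (Tre.all_lf (batP_ok par7_ok wc1234560_704))) (Tre.all_lf (batP_ok par7_ok wc1234560_448))))) (Tre.all_nd (Tre.all_nd (Tre.all_nd (Tre.all_nd (Tre.all_lf (batP_ok par7_ok wc1234560_32)) (Tre.all_lf (batP_ok par7_ok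 wc1234560_544))) (Tre.all_lf (batP_ok par7_ok wc1234560_288))) (Tre.all_nd (Tre.all_nd (Tre.all_lf (batP_ok par7_ok wc1234560_160)) (Tre.all_lf (batP_ok par7_ok wc1234560_672))) (Tre.all_lf (batP_ok par7_ok wc1234560_416)))) (Tre.all_nd (Tre.all_nd (Tre.all_nd (Tre.all_lf (batP_ok par7_ok wc1234560_96)) (Tre.all_lf (batP_ok par7_ok wc1234560_608))) (Tre.all_lf (batP_ok par7_ok wc1234560_352))) (Tre.all_nd (Tre.all_lf (batP_ok par7_ok wc1234560_224)) (Tre.all_lf (batP_ok par7_ok wc1234560_480)))))) (Tre.all_nd (Tre.all_nd (Tre.all_nd (Tre.all_nd (Tre.all_nd (Tre.all_lf (batP_ok par7_ok wc1234560_16)) (Tre.all_lf (batP_ok par7_ok wc1234560_528))) (Tre.all_lf (batP_ok par7_ok wc1234560_272))) (Tre.all_nd (Tre.all_nd (Tre.all_lf (batP_ok par7_ok wc1234560_144)) (Tre.all_lf (batP_ok par7_ok wc1234560_656))) (Tre.all_lf (batP_ok par7_ok wc1234560_400)))) (Tre.all_nd (Tre.all_nd (Tre.all_nd (Tre.all_lf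 (batP_ok par7_ok wc1234560_80)) (Tre.all_lf (batP_ok par7_ok wc1234560_592))) (Tre.all_lf (batP_ok par7_ok wc1234560_336))) (Tre.all_nd (Tre.all_lf (batP_ok par7_ok wc1234560_208)) (Tre.all_lf (batP_ok par7_ok wc1234560_464))))) (Tre.all_nd (Tre.all_nd (Tre.all_nd (Tre.all_nd (Tre.all_lf (batP_ok par7_ok wc1234560_48)) (Tre.all_lf (batP_ok par7_ok wc1234560_560))) (Tre.all_lf (batP_ok par7_ok wc1234560_304))) (Tre.all_nd (Tre.all_nd (Tre.all_lf (batP_ok par7_ok wc1234560_176)) (Tre.all_lf (batP_ok par7_ok wc1234560_688))) (Tre.all_lf (batP_ok par7_ok wc1234560_432)))) (Tre.all_nd (Tre.all_nd (Tre.all_nd (Tre.all_lf (batP_ok par7_ok wc1234560_112)) (Tre.all_lf (batP_ok par7_ok wc1234560_624))) (Tre.all_lf (batP_ok par7_ok wc1234560_368))) (Tre.all_nd (Tre.all_lf (batP_ok par7_ok wc1234560_240)) (Tre.all_lf (batP_ok par7_ok wc1234560_496))))))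

theorem afc12345600001 : Tre.All (PceOK par7 c1234560.VT) fc12345600001 := Tre.all_nd (Tre.all_nd (Tre.all_nd (Tre.all_nd (Tre.all_nd (Tre.all_nd (Tre.all_lf (batP_ok par7_ok wc1234560_8)) (Tre.all_lf (batP_ok par7_ok wc1234560_520))) (Tre.all_lf (batP_ok par7_ok wc1234560_264))) (Tre.all_nd (Tre.all_nd (Tre.all_lf (batP_ok par7_ok wc1234560_136)) (Tre.all_lf (batP_ok par7_ok wc1234560_648))) (Tre.all_lf (batP_ok par7_ok wc1234560_392)))) (Tre.all_nd (Tre.all_nd (Tre.all_nd (Tre.all_lf (batP_ok par7_ok wc1234560_72)) (Tre.all_lf (batP_ok par7_ok wc1234560_584))) (Tre.all_lf (batP_ok par7_ok wc1234560_328))) (Tre.all_nd (Tre.all_lf (batP_ok par7_ok wc1234560_200)) (Tre.all_lf (batP_ok par7_ok wc1234560_456))))) (Tre.all_nd (Tre.all_nd (Tre.all_nd (Tre.all_nd (Tre.all_lf (batP_ok par7_ok wc1234560_40)) (Tre.all_lf (batP_ok par7_ok wc1234560_552))) (Tre.all_lf (batP_ok par7_ok wc1234560_296)))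 (Tre.all_nd (Tre.all_nd (Tre.all_lf (batP_ok par7_ok wc1234560_168)) (Tre.all_lf (batP_ok par7_ok wc1234560_680))) (Tre.all_lf (batP_ok par7_ok wc1234560_424)))) (Tre.all_nd (Tre.all_nd (Tre.all_nd (Tre.all_lf (batP_ok par7_ok wc1234560_104)) (Tre.all_lf (batP_ok par7_ok wc1234560_616))) (Tre.all_lf (batP_ok par7_ok wc1234560_360))) (Tre.all_nd (Tre.all_lf (batP_ok par7_ok wc1234560_232)) (Tre.all_lf (batP_ok par7_ok wc1234560_488)))))) (Tre.all_nd (Tre.all_nd (Tre.all_nd (Tre.all_nd (Tre.all_nd (Tre.all_lf (batP_ok par7_ok wc1234560_24)) (Tre.all_lf (batP_ok par7_ok wc1234560_536))) (Tre.all_lf (batP_ok par7_ok wc1234560_280))) (Tre.all_nd (Tre.all_nd (Tre.all_lf (batP_ok par7_ok wc1234560_152)) (Tre.all_lf (batP_ok par7_ok wc1234560_664))) (Tre.all_lf (batP_ok par7_ok wc1234560_408)))) (Tre.all_nd (Tre.all_nd (Tre.all_nd (Tre.all_lf (batP_ok par7_ok wc1234560_88)) (Tre.all_lf (batP_ok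 par7_ok wc1234560_600))) (Tre.all_lf (batP_ok par7_ok wc1234560_344))) (Tre.all_nd (Tre.all_lf (batP_ok par7_ok wc1234560_216)) (Tre.all_lf (batP_ok par7_ok wc1234560_472))))) (Tre.all_nd (Tre.all_nd (Tre.all_nd (Tre.all_nd (Tre.all_lf (batP_ok par7_ok wc1234560_56)) (Tre.all_lf (batP_ok par7_ok wc1234560_568))) (Tre.all_lf (batP_ok par7_ok wc1234560_312))) (Tre.all_nd (Tre.all_nd (Tre.all_lf (batP_ok par7_ok wc1234560_184)) (Tre.all_lf (batP_ok par7_ok wc1234560_696))) (Tre.all_lf (batP_ok par7_ok wc1234560_440)))) (Tre.all_nd (Tre.all_nd (Tre.all_nd (Tre.all_lf (batP_ok par7_ok wc1234560_120)) (Tre.all_lf (batP_ok par7_ok wc1234560_632))) (Tre.all_lf (batP_ok par7_ok wc1234560_376))) (Tre.all_nd (Tre.all_lf (batP_ok par7_ok wc1234560_248)) (Tre.all_lf (batP_ok par7_ok wc1234560_504))))))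

theorem afc1234560000 : Tre.All (PceOK par7 c1234560.VT) fc1234560000 := Tre.all_nd afc12345600000 afc12345600001

theorem afc12345600010 : Tre.All (PceOK par7 c1234560.VT) fc12345600010 := Tre.all_nd (Tre.all_nd (Tre.all_nd (Tre.all_nd (Tre.all_nd (Tre.all_nd (Tre.all_lf (batP_ok par7_ok wc1234560_4)) (Tre.all_lf (batP_ok par7_ok wc1234560_516))) (Tre.all_lf (batP_ok par7_ok wc1234560_260))) (Tre.all_nd (Tre.all_nd (Tre.all_lf (batP_ok par7_ok wc1234560_132)) (Tre.all_lf (batP_ok par7_ok wc1234560_644))) (Tre.all_lf (batP_ok par7_ok wc1234560_388)))) (Tre.all_nd (Tre.all_nd (Tre.all_nd (Tre.all_lf (batP_ok par7_ok wc1234560_68)) (Tre.all_lf (batP_ok par7_ok wc1234560_580))) (Tre.all_lf (batP_ok par7_ok wc1234560_324))) (Tre.all_nd (Tre.all_lf (batP_ok par7_ok wc1234560_196)) (Tre.all_lf (batP_ok par7_ok wc1234560_452))))) (Tre.all_nd (Tre.all_nd (Tre.all_nd (Tre.all_nd (Tre.all_lf (batP_ok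 par7_ok wc1234560_36)) (Tre.all_lf (batP_ok par7_ok wc1234560_548))) (Tre.all_lf (batP_ok par7_ok wc1234560_292))) (Tre.all_nd (Tre.all_nd (Tre.all_lf (batP_ok par7_ok wc1234560_164)) (Tre.all_lf (batP_ok par7_ok wc1234560_676))) (Tre.all_lf (batP_ok par7_ok wc1234560_420)))) (Tre.all_nd (Tre.all_nd (Tre.all_nd (Tre.all_lf (batP_ok par7_ok wc1234560_100)) (Tre.all_lf (batP_ok par7_ok wc1234560_612))) (Tre.all_lf (batP_ok par7_ok wc1234560_356))) (Tre.all_nd (Tre.all_lf (batP_ok par7_ok wc1234560_228)) (Tre.all_lf (batP_ok par7_ok wc1234560_484)))))) (Tre.all_nd (Tre.all_nd (Tre.all_nd (Tre.all_nd (Tre.all_nd (Tre.all_lf (batP_ok par7_ok wc1234560_20)) (Tre.all_lf (batP_ok par7_ok wc1234560_532))) (Tre.all_lf (batP_ok par7_ok wc1234560_276))) (Tre.all_nd (Tre.all_nd (Tre.all_lf (batP_ok par7_ok wc1234560_148)) (Tre.all_lf (batP_ok par7_ok wc1234560_660))) (Tre.all_lf (batP_ok par7_ok wc1234560_404))))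 (Tre.all_nd (Tre.all_nd (Tre.all_nd (Tre.all_lf (batP_ok par7_ok wc1234560_84)) (Tre.all_lf (batP_ok par7_ok wc1234560_596))) (Tre.all_lf (batP_ok par7_ok wc1234560_340))) (Tre.all_nd (Tre.all_lf (batP_ok par7_ok wc1234560_212)) (Tre.all_lf (batP_ok par7_ok wc1234560_468))))) (Tre.all_nd (Tre.all_nd (Tre.all_nd (Tre.all_nd (Tre.all_lf (batP_ok par7_ok wc1234560_52)) (Tre.all_lf (batP_ok par7_ok wc1234560_564))) (Tre.all_lf (batP_ok par7_ok wc1234560_308))) (Tre.all_nd (Tre.all_nd (Tre.all_lf (batP_ok par7_ok wc1234560_180)) (Tre.all_lf (batP_ok par7_ok wc1234560_692))) (Tre.all_lf (batP_ok par7_ok wc1234560_436)))) (Tre.all_nd (Tre.all_nd (Tre.all_nd (Tre.all_lf (batP_ok par7_ok wc1234560_116)) (Tre.all_lf (batP_ok par7_ok wc1234560_628))) (Tre.all_lf (batP_ok par7_ok wc1234560_372))) (Tre.all_nd (Tre.all_lf (batP_ok par7_ok wc1234560_244)) (Tre.all_lf (batP_ok par7_ok wc1234560_500))))))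

theorem afc12345600011 : Tre.All (PceOK par7 c1234560.VT) fc12345600011 := Tre.all_nd (Tre.all_nd (Tre.all_nd (Tre.all_nd (Tre.all_nd (Tre.all_nd (Tre.all_lf (batP_ok par7_ok wc1234560_12)) (Tre.all_lf (batP_ok par7_ok wc1234560_524))) (Tre.all_lf (batP_ok par7_ok wc1234560_268))) (Tre.all_nd (Tre.all_nd (Tre.all_lf (batP_ok par7_ok wc1234560_140)) (Tre.all_lf (batP_ok par7_ok wc1234560_652))) (Tre.all_lf (batP_ok par7_ok wc1234560_396)))) (Tre.all_nd (Tre.all_nd (Tre.all_nd (Tre.all_lf (batP_ok par7_ok wc1234560_76)) (Tre.all_lf (batP_ok par7_ok wc1234560_588))) (Tre.all_lf (batP_ok par7_ok wc1234560_332))) (Tre.all_nd (Tre.all_lf (batP_ok par7_ok wc1234560_204)) (Tre.all_lf (batP_ok par7_ok wc1234560_460))))) (Tre.all_nd (Tre.all_nd (Tre.all_nd (Tre.all_nd (Tre.all_lf (batP_ok par7_ok wc1234560_44)) (Tre.all_lf (batP_ok par7_ok wc1234560_556))) (Tre.all_lf (batP_ok par7_ok wc1234560_300)))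 (Tre.all_nd (Tre.all_nd (Tre.all_lf (batP_ok par7_ok wc1234560_172)) (Tre.all_lf (batP_ok par7_ok wc1234560_684))) (Tre.all_lf (batP_ok par7_ok wc1234560_428)))) (Tre.all_nd (Tre.all_nd (Tre.all_nd (Tre.all_lf (batP_ok par7_ok wc1234560_108)) (Tre.all_lf (batP_ok par7_ok wc1234560_620))) (Tre.all_lf (batP_ok par7_ok wc1234560_364))) (Tre.all_nd (Tre.all_lf (batP_ok par7_ok wc1234560_236)) (Tre.all_lf (batP_ok par7_ok wc1234560_492)))))) (Tre.all_nd (Tre.all_nd (Tre.all_nd (Tre.all_nd (Tre.all_nd (Tre.all_lf (batP_ok par7_ok wc1234560_28)) (Tre.all_lf (batP_ok par7_ok wc1234560_540))) (Tre.all_lf (batP_ok par7_ok wc1234560_284))) (Tre.all_nd (Tre.all_nd (Tre.all_lf (batP_ok par7_ok wc1234560_156)) (Tre.all_lf (batP_ok par7_ok wc1234560_668))) (Tre.all_lf (batP_ok par7_ok wc1234560_412)))) (Tre.all_nd (Tre.all_nd (Tre.all_nd (Tre.all_lf (batP_ok par7_ok wc1234560_92)) (Tre.all_lf (batP_ok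 par7_ok wc1234560_604))) (Tre.all_lf (batP_ok par7_ok wc1234560_348))) (Tre.all_nd (Tre.all_lf (batP_ok par7_ok wc1234560_220)) (Tre.all_lf (batP_ok par7_ok wc1234560_476))))) (Tre.all_nd (Tre.all_nd (Tre.all_nd (Tre.all_nd (Tre.all_lf (batP_ok par7_ok wc1234560_60)) (Tre.all_lf (batP_ok par7_ok wc1234560_572))) (Tre.all_lf (batP_ok par7_ok wc1234560_316))) (Tre.all_nd (Tre.all_nd (Tre.all_lf (batP_ok par7_ok wc1234560_188)) (Tre.all_lf (batP_ok par7_ok wc1234560_700))) (Tre.all_lf (batP_ok par7_ok wc1234560_444)))) (Tre.all_nd (Tre.all_nd (Tre.all_nd (Tre.all_lf (batP_ok par7_ok wc1234560_124)) (Tre.all_lf (batP_ok par7_ok wc1234560_636))) (Tre.all_lf (batP_ok par7_ok wc1234560_380))) (Tre.all_nd (Tre.all_lf (batP_ok par7_ok wc1234560_252)) (Tre.all_lf (batP_ok par7_ok wc1234560_508))))))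

theorem afc1234560001 : Tre.All (PceOK par7 c1234560.VT) fc1234560001 := Tre.all_nd afc12345600010 afc12345600011

theorem afc123456000 : Tre.All (PceOK par7 c1234560.VT) fc123456000 := Tre.all_nd afc1234560000 afc1234560001

theorem afc12345600100 : Tre.All (PceOK par7 c1234560.VT) fc12345600100 := Tre.all_nd (Tre.all_nd (Tre.all_nd (Tre.all_nd (Tre.all_nd (Tre.all_nd (Tre.all_lf (batP_ok par7_ok wc1234560_2)) (Tre.all_lf (batP_ok par7_ok wc1234560_514))) (Tre.all_lf (batP_ok par7_ok wc1234560_258))) (Tre.all_nd (Tre.all_nd (Tre.all_lf (batP_ok par7_ok wc1234560_130)) (Tre.all_lf (batP_ok par7_ok wc1234560_642))) (Tre.all_lf (batP_ok par7_ok wc1234560_386)))) (Tre.all_nd (Tre.all_nd (Tre.all_nd (Tre.all_lf (batP_ok par7_ok wc1234560_66)) (Tre.all_lf (batP_ok par7_ok wc1234560_578))) (Tre.all_lf (batP_ok par7_ok wc1234560_322))) (Tre.all_nd (Tre.all_lf (batP_ok par7_ok wc1234560_194))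 (Tre.all_lf (batP_ok par7_ok wc1234560_450))))) (Tre.all_nd (Tre.all_nd (Tre.all_nd (Tre.all_nd (Tre.all_lf (batP_ok par7_ok wc1234560_34)) (Tre.all_lf (batP_ok par7_ok wc1234560_546))) (Tre.all_lf (batP_ok par7_ok wc1234560_290))) (Tre.all_nd (Tre.all_nd (Tre.all_lf (batP_ok par7_ok wc1234560_162)) (Tre.all_lf (batP_ok par7_ok wc1234560_674))) (Tre.all_lf (batP_ok par7_ok wc1234560_418)))) (Tre.all_nd (Tre.all_nd (Tre.all_nd (Tre.all_lf (batP_ok par7_ok wc1234560_98)) (Tre.all_lf (batP_ok par7_ok wc1234560_610))) (Tre.all_lf (batP_ok par7_ok wc1234560_354))) (Tre.all_nd (Tre.all_lf (batP_ok par7_ok wc1234560_226)) (Tre.all_lf (batP_ok par7_ok wc1234560_482)))))) (Tre.all_nd (Tre.all_nd (Tre.all_nd (Tre.all_nd (Tre.all_nd (Tre.all_lf (batP_ok par7_ok wc1234560_18)) (Tre.all_lf (batP_ok par7_ok wc1234560_530))) (Tre.all_lf (batP_ok par7_ok wc1234560_274))) (Tre.all_nd (Tre.all_nd (Tre.all_lf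 (batP_ok par7_ok wc1234560_146)) (Tre.all_lf (batP_ok par7_ok wc1234560_658))) (Tre.all_lf (batP_ok par7_ok wc1234560_402)))) (Tre.all_nd (Tre.all_nd (Tre.all_nd (Tre.all_lf (batP_ok par7_ok wc1234560_82)) (Tre.all_lf (batP_ok par7_ok wc1234560_594))) (Tre.all_lf (batP_ok par7_ok wc1234560_338))) (Tre.all_nd (Tre.all_lf (batP_ok par7_ok wc1234560_210)) (Tre.all_lf (batP_ok par7_ok wc1234560_466))))) (Tre.all_nd (Tre.all_nd (Tre.all_nd (Tre.all_nd (Tre.all_lf (batP_ok par7_ok wc1234560_50)) (Tre.all_lf (batP_ok par7_ok wc1234560_562))) (Tre.all_lf (batP_ok par7_ok wc1234560_306))) (Tre.all_nd (Tre.all_nd (Tre.all_lf (batP_ok par7_ok wc1234560_178)) (Tre.all_lf (batP_ok par7_ok wc1234560_690))) (Tre.all_lf (batP_ok par7_ok wc1234560_434)))) (Tre.all_nd (Tre.all_nd (Tre.all_nd (Tre.all_lf (batP_ok par7_ok wc1234560_114)) (Tre.all_lf (batP_ok par7_ok wc1234560_626))) (Tre.all_lf (batP_ok par7_ok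 wc1234560_370))) (Tre.all_nd (Tre.all_lf (batP_ok par7_ok wc1234560_242)) (Tre.all_lf (batP_ok par7_ok wc1234560_498))))))

theorem afc12345600101 : Tre.All (PceOK par7 c1234560.VT) fc12345600101 := Tre.all_nd (Tre.all_nd (Tre.all_nd (Tre.all_nd (Tre.all_nd (Tre.all_nd (Tre.all_lf (batP_ok par7_ok wc1234560_10)) (Tre.all_lf (batP_ok par7_ok wc1234560_522))) (Tre.all_lf (batP_ok par7_ok wc1234560_266))) (Tre.all_nd (Tre.all_nd (Tre.all_lf (batP_ok par7_ok wc1234560_138)) (Tre.all_lf (batP_ok par7_ok wc1234560_650))) (Tre.all_lf (batP_ok par7_ok wc1234560_394)))) (Tre.all_nd (Tre.all_nd (Tre.all_nd (Tre.all_lf (batP_ok par7_ok wc1234560_74)) (Tre.all_lf (batP_ok par7_ok wc1234560_586))) (Tre.all_lf (batP_ok par7_ok wc1234560_330))) (Tre.all_nd (Tre.all_lf (batP_ok par7_ok wc1234560_202)) (Tre.all_lf (batP_ok par7_ok wc1234560_458))))) (Tre.all_nd (Tre.all_nd (Tre.all_nd (Tre.all_nd (Tre.all_lf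 (batP_ok par7_ok wc1234560_42)) (Tre.all_lf (batP_ok par7_ok wc1234560_554))) (Tre.all_lf (batP_ok par7_ok wc1234560_298))) (Tre.all_nd (Tre.all_nd (Tre.all_lf (batP_ok par7_ok wc1234560_170)) (Tre.all_lf (batP_ok par7_ok wc1234560_682))) (Tre.all_lf (batP_ok par7_ok wc1234560_426)))) (Tre.all_nd (Tre.all_nd (Tre.all_nd (Tre.all_lf (batP_ok par7_ok wc1234560_106)) (Tre.all_lf (batP_ok par7_ok wc1234560_618))) (Tre.all_lf (batP_ok par7_ok wc1234560_362))) (Tre.all_nd (Tre.all_lf (batP_ok par7_ok wc1234560_234)) (Tre.all_lf (batP_ok par7_ok wc1234560_490)))))) (Tre.all_nd (Tre.all_nd (Tre.all_nd (Tre.all_nd (Tre.all_nd (Tre.all_lf (batP_ok par7_ok wc1234560_26)) (Tre.all_lf (batP_ok par7_ok wc1234560_538))) (Tre.all_lf (batP_ok par7_ok wc1234560_282))) (Tre.all_nd (Tre.all_nd (Tre.all_lf (batP_ok par7_ok wc1234560_154)) (Tre.all_lf (batP_ok par7_ok wc1234560_666))) (Tre.all_lf (batP_ok par7_ok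 wc1234560_410)))) (Tre.all_nd (Tre.all_nd (Tre.all_nd (Tre.all_lf (batP_ok par7_ok wc1234560_90)) (Tre.all_lf (batP_ok par7_ok wc1234560_602))) (Tre.all_lf (batP_ok par7_ok wc1234560_346))) (Tre.all_nd (Tre.all_lf (batP_ok par7_ok wc1234560_218)) (Tre.all_lf (batP_ok par7_ok wc1234560_474))))) (Tre.all_nd (Tre.all_nd (Tre.all_nd (Tre.all_nd (Tre.all_lf (batP_ok par7_ok wc1234560_58)) (Tre.all_lf (batP_ok par7_ok wc1234560_570))) (Tre.all_lf (batP_ok par7_ok wc1234560_314))) (Tre.all_nd (Tre.all_nd (Tre.all_lf (batP_ok par7_ok wc1234560_186)) (Tre.all_lf (batP_ok par7_ok wc1234560_698))) (Tre.all_lf (batP_ok par7_ok wc1234560_442)))) (Tre.all_nd (Tre.all_nd (Tre.all_nd (Tre.all_lf (batP_ok par7_ok wc1234560_122)) (Tre.all_lf (batP_ok par7_ok wc1234560_634))) (Tre.all_lf (batP_ok par7_ok wc1234560_378))) (Tre.all_nd (Tre.all_lf (batP_ok par7_ok wc1234560_250)) (Tre.all_lf (batP_ok par7_ok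 wc1234560_506))))))

theorem afc1234560010 : Tre.All (PceOK par7 c1234560.VT) fc1234560010 := Tre.all_nd afc12345600100 afc12345600101

theorem afc12345600110 : Tre.All (PceOK par7 c1234560.VT) fc12345600110 := Tre.all_nd (Tre.all_nd (Tre.all_nd (Tre.all_nd (Tre.all_nd (Tre.all_nd (Tre.all_lf (batP_ok par7_ok wc1234560_6)) (Tre.all_lf (batP_ok par7_ok wc1234560_518))) (Tre.all_lf (batP_ok par7_ok wc1234560_262))) (Tre.all_nd (Tre.all_nd (Tre.all_lf (batP_ok par7_ok wc1234560_134)) (Tre.all_lf (batP_ok par7_ok wc1234560_646))) (Tre.all_lf (batP_ok par7_ok wc1234560_390)))) (Tre.all_nd (Tre.all_nd (Tre.all_nd (Tre.all_lf (batP_ok par7_ok wc1234560_70)) (Tre.all_lf (batP_ok par7_ok wc1234560_582))) (Tre.all_lf (batP_ok par7_ok wc1234560_326))) (Tre.all_nd (Tre.all_lf (batP_ok par7_ok wc1234560_198)) (Tre.all_lf (batP_ok par7_ok wc1234560_454))))) (Tre.all_nd (Tre.all_nd (Tre.all_nd (Tre.all_nd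 (Tre.all_lf (batP_ok par7_ok wc1234560_38)) (Tre.all_lf (batP_ok par7_ok wc1234560_550))) (Tre.all_lf (batP_ok par7_ok wc1234560_294))) (Tre.all_nd (Tre.all_nd (Tre.all_lf (batP_ok par7_ok wc1234560_166)) (Tre.all_lf (batP_ok par7_ok wc1234560_678))) (Tre.all_lf (batP_ok par7_ok wc1234560_422)))) (Tre.all_nd (Tre.all_nd (Tre.all_nd (Tre.all_lf (batP_ok par7_ok wc1234560_102)) (Tre.all_lf (batP_ok par7_ok wc1234560_614))) (Tre.all_lf (batP_ok par7_ok wc1234560_358))) (Tre.all_nd (Tre.all_lf (batP_ok par7_ok wc1234560_230)) (Tre.all_lf (batP_ok par7_ok wc1234560_486)))))) (Tre.all_nd (Tre.all_nd (Tre.all_nd (Tre.all_nd (Tre.all_nd (Tre.all_lf (batP_ok par7_ok wc1234560_22)) (Tre.all_lf (batP_ok par7_ok wc1234560_534))) (Tre.all_lf (batP_ok par7_ok wc1234560_278))) (Tre.all_nd (Tre.all_nd (Tre.all_lf (batP_ok par7_ok wc1234560_150)) (Tre.all_lf (batP_ok par7_ok wc1234560_662))) (Tre.all_lf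 (batP_ok par7_ok wc1234560_406)))) (Tre.all_nd (Tre.all_nd (Tre.all_nd (Tre.all_lf (batP_ok par7_ok wc1234560_86)) (Tre.all_lf (batP_ok par7_ok wc1234560_598))) (Tre.all_lf (batP_ok par7_ok wc1234560_342))) (Tre.all_nd (Tre.all_lf (batP_ok par7_ok wc1234560_214)) (Tre.all_lf (batP_ok par7_ok wc1234560_470))))) (Tre.all_nd (Tre.all_nd (Tre.all_nd (Tre.all_nd (Tre.all_lf (batP_ok par7_ok wc1234560_54)) (Tre.all_lf (batP_ok par7_ok wc1234560_566))) (Tre.all_lf (batP_ok par7_ok wc1234560_310))) (Tre.all_nd (Tre.all_nd (Tre.all_lf (batP_ok par7_ok wc1234560_182)) (Tre.all_lf (batP_ok par7_ok wc1234560_694))) (Tre.all_lf (batP_ok par7_ok wc1234560_438)))) (Tre.all_nd (Tre.all_nd (Tre.all_nd (Tre.all_lf (batP_ok par7_ok wc1234560_118)) (Tre.all_lf (batP_ok par7_ok wc1234560_630))) (Tre.all_lf (batP_ok par7_ok wc1234560_374))) (Tre.all_nd (Tre.all_lf (batP_ok par7_ok wc1234560_246)) (Tre.all_lf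 (batP_ok par7_ok wc1234560_502))))))

theorem afc12345600111 : Tre.All (PceOK par7 c1234560.VT) fc12345600111 := Tre.all_nd (Tre.all_nd (Tre.all_nd (Tre.all_nd (Tre.all_nd (Tre.all_nd (Tre.all_lf (batP_ok par7_ok wc1234560_14)) (Tre.all_lf (batP_ok par7_ok wc1234560_526))) (Tre.all_lf (batP_ok par7_ok wc1234560_270))) (Tre.all_nd (Tre.all_nd (Tre.all_lf (batP_ok par7_ok wc1234560_142)) (Tre.all_lf (batP_ok par7_ok wc1234560_654))) (Tre.all_lf (batP_ok par7_ok wc1234560_398)))) (Tre.all_nd (Tre.all_nd (Tre.all_nd (Tre.all_lf (batP_ok par7_ok wc1234560_78)) (Tre.all_lf (batP_ok par7_ok wc1234560_590))) (Tre.all_lf (batP_ok par7_ok wc1234560_334))) (Tre.all_nd (Tre.all_lf (batP_ok par7_ok wc1234560_206)) (Tre.all_lf (batP_ok par7_ok wc1234560_462))))) (Tre.all_nd (Tre.all_nd (Tre.all_nd (Tre.all_nd (Tre.all_lf (batP_ok par7_ok wc1234560_46)) (Tre.all_lf (batP_ok par7_ok wc1234560_558))) (Tre.all_lf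 (batP_ok par7_ok wc1234560_302))) (Tre.all_nd (Tre.all_nd (Tre.all_lf (batP_ok par7_ok wc1234560_174)) (Tre.all_lf (batP_ok par7_ok wc1234560_686))) (Tre.all_lf (batP_ok par7_ok wc1234560_430)))) (Tre.all_nd (Tre.all_nd (Tre.all_nd (Tre.all_lf (batP_ok par7_ok wc1234560_110)) (Tre.all_lf (batP_ok par7_ok wc1234560_622))) (Tre.all_lf (batP_ok par7_ok wc1234560_366))) (Tre.all_nd (Tre.all_lf (batP_ok par7_ok wc1234560_238)) (Tre.all_lf (batP_ok par7_ok wc1234560_494)))))) (Tre.all_nd (Tre.all_nd (Tre.all_nd (Tre.all_nd (Tre.all_nd (Tre.all_lf (batP_ok par7_ok wc1234560_30)) (Tre.all_lf (batP_ok par7_ok wc1234560_542))) (Tre.all_lf (batP_ok par7_ok wc1234560_286))) (Tre.all_nd (Tre.all_nd (Tre.all_lf (batP_ok par7_ok wc1234560_158)) (Tre.all_lf (batP_ok par7_ok wc1234560_670))) (Tre.all_lf (batP_ok par7_ok wc1234560_414)))) (Tre.all_nd (Tre.all_nd (Tre.all_nd (Tre.all_lf (batP_ok par7_ok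 wc1234560_94)) (Tre.all_lf (batP_ok par7_ok wc1234560_606))) (Tre.all_lf (batP_ok par7_ok wc1234560_350))) (Tre.all_nd (Tre.all_lf (batP_ok par7_ok wc1234560_222)) (Tre.all_lf (batP_ok par7_ok wc1234560_478))))) (Tre.all_nd (Tre.all_nd (Tre.all_nd (Tre.all_nd (Tre.all_lf (batP_ok par7_ok wc1234560_62)) (Tre.all_lf (batP_ok par7_ok wc1234560_574))) (Tre.all_lf (batP_ok par7_ok wc1234560_318))) (Tre.all_nd (Tre.all_nd (Tre.all_lf (batP_ok par7_ok wc1234560_190)) (Tre.all_lf (batP_ok par7_ok wc1234560_702))) (Tre.all_lf (batP_ok par7_ok wc1234560_446)))) (Tre.all_nd (Tre.all_nd (Tre.all_nd (Tre.all_lf (batP_ok par7_ok wc1234560_126)) (Tre.all_lf (batP_ok par7_ok wc1234560_638))) (Tre.all_lf (batP_ok par7_ok wc1234560_382))) (Tre.all_nd (Tre.all_lf (batP_ok par7_ok wc1234560_254)) (Tre.all_lf (batP_ok par7_ok wc1234560_510))))))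

theorem afc1234560011 : Tre.All (PceOK par7 c1234560.VT) fc1234560011 := Tre.all_nd afc12345600110 afc12345600111

theorem afc123456001 : Tre.All (PceOK par7 c1234560.VT) fc123456001 := Tre.all_nd afc1234560010 afc1234560011

theorem afc12345600 : Tre.All (PceOK par7 c1234560.VT) fc12345600 := Tre.all_nd afc123456000 afc123456001

theorem afc12345601000 : Tre.All (PceOK par7 c1234560.VT) fc12345601000 := Tre.all_nd (Tre.all_nd (Tre.all_nd (Tre.all_nd (Tre.all_nd (Tre.all_nd (Tre.all_lf (batP_ok par7_ok wc1234560_1)) (Tre.all_lf (batP_ok par7_ok wc1234560_513))) (Tre.all_lf (batP_ok par7_ok wc1234560_257))) (Tre.all_nd (Tre.all_nd (Tre.all_lf (batP_ok par7_ok wc1234560_129)) (Tre.all_lf (batP_ok par7_ok wc1234560_641))) (Tre.all_lf (batP_ok par7_ok wc1234560_385)))) (Tre.all_nd (Tre.all_nd (Tre.all_nd (Tre.all_lf (batP_ok par7_ok wc1234560_65)) (Tre.all_lf (batP_ok par7_ok wc1234560_577)))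 (Tre.all_lf (batP_ok par7_ok wc1234560_321))) (Tre.all_nd (Tre.all_lf (batP_ok par7_ok wc1234560_193)) (Tre.all_lf (batP_ok par7_ok wc1234560_449))))) (Tre.all_nd (Tre.all_nd (Tre.all_nd (Tre.all_nd (Tre.all_lf (batP_ok par7_ok wc1234560_33)) (Tre.all_lf (batP_ok par7_ok wc1234560_545))) (Tre.all_lf (batP_ok par7_ok wc1234560_289))) (Tre.all_nd (Tre.all_nd (Tre.all_lf (batP_ok par7_ok wc1234560_161)) (Tre.all_lf (batP_ok par7_ok wc1234560_673))) (Tre.all_lf (batP_ok par7_ok wc1234560_417)))) (Tre.all_nd (Tre.all_nd (Tre.all_nd (Tre.all_lf (batP_ok par7_ok wc1234560_97)) (Tre.all_lf (batP_ok par7_ok wc1234560_609))) (Tre.all_lf (batP_ok par7_ok wc1234560_353))) (Tre.all_nd (Tre.all_lf (batP_ok par7_ok wc1234560_225)) (Tre.all_lf (batP_ok par7_ok wc1234560_481)))))) (Tre.all_nd (Tre.all_nd (Tre.all_nd (Tre.all_nd (Tre.all_nd (Tre.all_lf (batP_ok par7_ok wc1234560_17)) (Tre.all_lf (batP_ok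 par7_ok wc1234560_529))) (Tre.all_lf (batP_ok par7_ok wc1234560_273))) (Tre.all_nd (Tre.all_nd (Tre.all_lf (batP_ok par7_ok wc1234560_145)) (Tre.all_lf (batP_ok par7_ok wc1234560_657))) (Tre.all_lf (batP_ok par7_ok wc1234560_401)))) (Tre.all_nd (Tre.all_nd (Tre.all_nd (Tre.all_lf (batP_ok par7_ok wc1234560_81)) (Tre.all_lf (batP_ok par7_ok wc1234560_593))) (Tre.all_lf (batP_ok par7_ok wc1234560_337))) (Tre.all_nd (Tre.all_lf (batP_ok par7_ok wc1234560_209)) (Tre.all_lf (batP_ok par7_ok wc1234560_465))))) (Tre.all_nd (Tre.all_nd (Tre.all_nd (Tre.all_nd (Tre.all_lf (batP_ok par7_ok wc1234560_49)) (Tre.all_lf (batP_ok par7_ok wc1234560_561))) (Tre.all_lf (batP_ok par7_ok wc1234560_305))) (Tre.all_nd (Tre.all_nd (Tre.all_lf (batP_ok par7_ok wc1234560_177)) (Tre.all_lf (batP_ok par7_ok wc1234560_689))) (Tre.all_lf (batP_ok par7_ok wc1234560_433)))) (Tre.all_nd (Tre.all_nd (Tre.all_nd (Tre.all_lf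 (batP_ok par7_ok wc1234560_113)) (Tre.all_lf (batP_ok par7_ok wc1234560_625))) (Tre.all_lf (batP_ok par7_ok wc1234560_369))) (Tre.all_nd (Tre.all_lf (batP_ok par7_ok wc1234560_241)) (Tre.all_lf (batP_ok par7_ok wc1234560_497))))))

theorem afc12345601001 : Tre.All (PceOK par7 c1234560.VT) fc12345601001 := Tre.all_nd (Tre.all_nd (Tre.all_nd (Tre.all_nd (Tre.all_nd (Tre.all_nd (Tre.all_lf (batP_ok par7_ok wc1234560_9)) (Tre.all_lf (batP_ok par7_ok wc1234560_521))) (Tre.all_lf (batP_ok par7_ok wc1234560_265))) (Tre.all_nd (Tre.all_nd (Tre.all_lf (batP_ok par7_ok wc1234560_137)) (Tre.all_lf (batP_ok par7_ok wc1234560_649))) (Tre.all_lf (batP_ok par7_ok wc1234560_393)))) (Tre.all_nd (Tre.all_nd (Tre.all_nd (Tre.all_lf (batP_ok par7_ok wc1234560_73)) (Tre.all_lf (batP_ok par7_ok wc1234560_585))) (Tre.all_lf (batP_ok par7_ok wc1234560_329))) (Tre.all_nd (Tre.all_lf (batP_ok par7_ok wc1234560_201))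 (Tre.all_lf (batP_ok par7_ok wc1234560_457))))) (Tre.all_nd (Tre.all_nd (Tre.all_nd (Tre.all_nd (Tre.all_lf (batP_ok par7_ok wc1234560_41)) (Tre.all_lf (batP_ok par7_ok wc1234560_553))) (Tre.all_lf (batP_ok par7_ok wc1234560_297))) (Tre.all_nd (Tre.all_nd (Tre.all_lf (batP_ok par7_ok wc1234560_169)) (Tre.all_lf (batP_ok par7_ok wc1234560_681))) (Tre.all_lf (batP_ok par7_ok wc1234560_425)))) (Tre.all_nd (Tre.all_nd (Tre.all_nd (Tre.all_lf (batP_ok par7_ok wc1234560_105)) (Tre.all_lf (batP_ok par7_ok wc1234560_617))) (Tre.all_lf (batP_ok par7_ok wc1234560_361))) (Tre.all_nd (Tre.all_lf (batP_ok par7_ok wc1234560_233)) (Tre.all_lf (batP_ok par7_ok wc1234560_489)))))) (Tre.all_nd (Tre.all_nd (Tre.all_nd (Tre.all_nd (Tre.all_nd (Tre.all_lf (batP_ok par7_ok wc1234560_25)) (Tre.all_lf (batP_ok par7_ok wc1234560_537))) (Tre.all_lf (batP_ok par7_ok wc1234560_281))) (Tre.all_nd (Tre.all_nd (Tre.all_lf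 (batP_ok par7_ok wc1234560_153)) (Tre.all_lf (batP_ok par7_ok wc1234560_665))) (Tre.all_lf (batP_ok par7_ok wc1234560_409)))) (Tre.all_nd (Tre.all_nd (Tre.all_nd (Tre.all_lf (batP_ok par7_ok wc1234560_89)) (Tre.all_lf (batP_ok par7_ok wc1234560_601))) (Tre.all_lf (batP_ok par7_ok wc1234560_345))) (Tre.all_nd (Tre.all_lf (batP_ok par7_ok wc1234560_217)) (Tre.all_lf (batP_ok par7_ok wc1234560_473))))) (Tre.all_nd (Tre.all_nd (Tre.all_nd (Tre.all_nd (Tre.all_lf (batP_ok par7_ok wc1234560_57)) (Tre.all_lf (batP_ok par7_ok wc1234560_569))) (Tre.all_lf (batP_ok par7_ok wc1234560_313))) (Tre.all_nd (Tre.all_nd (Tre.all_lf (batP_ok par7_ok wc1234560_185)) (Tre.all_lf (batP_ok par7_ok wc1234560_697))) (Tre.all_lf (batP_ok par7_ok wc1234560_441)))) (Tre.all_nd (Tre.all_nd (Tre.all_nd (Tre.all_lf (batP_ok par7_ok wc1234560_121)) (Tre.all_lf (batP_ok par7_ok wc1234560_633))) (Tre.all_lf (batP_ok par7_ok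 wc1234560_377))) (Tre.all_nd (Tre.all_lf (batP_ok par7_ok wc1234560_249)) (Tre.all_lf (batP_ok par7_ok wc1234560_505))))))

theorem afc1234560100 : Tre.All (PceOK par7 c1234560.VT) fc1234560100 := Tre.all_nd afc12345601000 afc12345601001

theorem afc12345601010 : Tre.All (PceOK par7 c1234560.VT) fc12345601010 := Tre.all_nd (Tre.all_nd (Tre.all_nd (Tre.all_nd (Tre.all_nd (Tre.all_nd (Tre.all_lf (batP_ok par7_ok wc1234560_5)) (Tre.all_lf (batP_ok par7_ok wc1234560_517))) (Tre.all_lf (batP_ok par7_ok wc1234560_261))) (Tre.all_nd (Tre.all_nd (Tre.all_lf (batP_ok par7_ok wc1234560_133)) (Tre.all_lf (batP_ok par7_ok wc1234560_645))) (Tre.all_lf (batP_ok par7_ok wc1234560_389)))) (Tre.all_nd (Tre.all_nd (Tre.all_nd (Tre.all_lf (batP_ok par7_ok wc1234560_69)) (Tre.all_lf (batP_ok par7_ok wc1234560_581))) (Tre.all_lf (batP_ok par7_ok wc1234560_325))) (Tre.all_nd (Tre.all_lf (batP_ok par7_ok wc1234560_197))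 (Tre.all_lf (batP_ok par7_ok wc1234560_453))))) (Tre.all_nd (Tre.all_nd (Tre.all_nd (Tre.all_nd (Tre.all_lf (batP_ok par7_ok wc1234560_37)) (Tre.all_lf (batP_ok par7_ok wc1234560_549))) (Tre.all_lf (batP_ok par7_ok wc1234560_293))) (Tre.all_nd (Tre.all_nd (Tre.all_lf (batP_ok par7_ok wc1234560_165)) (Tre.all_lf (batP_ok par7_ok wc1234560_677))) (Tre.all_lf (batP_ok par7_ok wc1234560_421)))) (Tre.all_nd (Tre.all_nd (Tre.all_nd (Tre.all_lf (batP_ok par7_ok wc1234560_101)) (Tre.all_lf (batP_ok par7_ok wc1234560_613))) (Tre.all_lf (batP_ok par7_ok wc1234560_357))) (Tre.all_nd (Tre.all_lf (batP_ok par7_ok wc1234560_229)) (Tre.all_lf (batP_ok par7_ok wc1234560_485)))))) (Tre.all_nd (Tre.all_nd (Tre.all_nd (Tre.all_nd (Tre.all_nd (Tre.all_lf (batP_ok par7_ok wc1234560_21)) (Tre.all_lf (batP_ok par7_ok wc1234560_533))) (Tre.all_lf (batP_ok par7_ok wc1234560_277))) (Tre.all_nd (Tre.all_nd (Tre.all_lf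 (batP_ok par7_ok wc1234560_149)) (Tre.all_lf (batP_ok par7_ok wc1234560_661))) (Tre.all_lf (batP_ok par7_ok wc1234560_405)))) (Tre.all_nd (Tre.all_nd (Tre.all_nd (Tre.all_lf (batP_ok par7_ok wc1234560_85)) (Tre.all_lf (batP_ok par7_ok wc1234560_597))) (Tre.all_lf (batP_ok par7_ok wc1234560_341))) (Tre.all_nd (Tre.all_lf (batP_ok par7_ok wc1234560_213)) (Tre.all_lf (batP_ok par7_ok wc1234560_469))))) (Tre.all_nd (Tre.all_nd (Tre.all_nd (Tre.all_nd (Tre.all_lf (batP_ok par7_ok wc1234560_53)) (Tre.all_lf (batP_ok par7_ok wc1234560_565))) (Tre.all_lf (batP_ok par7_ok wc1234560_309))) (Tre.all_nd (Tre.all_nd (Tre.all_lf (batP_ok par7_ok wc1234560_181)) (Tre.all_lf (batP_ok par7_ok wc1234560_693))) (Tre.all_lf (batP_ok par7_ok wc1234560_437)))) (Tre.all_nd (Tre.all_nd (Tre.all_nd (Tre.all_lf (batP_ok par7_ok wc1234560_117)) (Tre.all_lf (batP_ok par7_ok wc1234560_629))) (Tre.all_lf (batP_ok par7_ok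 wc1234560_373))) (Tre.all_nd (Tre.all_lf (batP_ok par7_ok wc1234560_245)) (Tre.all_lf (batP_ok par7_ok wc1234560_501))))))

theorem afc12345601011 : Tre.All (PceOK par7 c1234560.VT) fc12345601011 := Tre.all_nd (Tre.all_nd (Tre.all_nd (Tre.all_nd (Tre.all_nd (Tre.all_nd (Tre.all_lf (batP_ok par7_ok wc1234560_13)) (Tre.all_lf (batP_ok par7_ok wc1234560_525))) (Tre.all_lf (batP_ok par7_ok wc1234560_269))) (Tre.all_nd (Tre.all_nd (Tre.all_lf (batP_ok par7_ok wc1234560_141)) (Tre.all_lf (batP_ok par7_ok wc1234560_653))) (Tre.all_lf (batP_ok par7_ok wc1234560_397)))) (Tre.all_nd (Tre.all_nd (Tre.all_nd (Tre.all_lf (batP_ok par7_ok wc1234560_77)) (Tre.all_lf (batP_ok par7_ok wc1234560_589))) (Tre.all_lf (batP_ok par7_ok wc1234560_333))) (Tre.all_nd (Tre.all_lf (batP_ok par7_ok wc1234560_205)) (Tre.all_lf (batP_ok par7_ok wc1234560_461))))) (Tre.all_nd (Tre.all_nd (Tre.all_nd (Tre.all_nd (Tre.all_lf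 (batP_ok par7_ok wc1234560_45)) (Tre.all_lf (batP_ok par7_ok wc1234560_557))) (Tre.all_lf (batP_ok par7_ok wc1234560_301))) (Tre.all_nd (Tre.all_nd (Tre.all_lf (batP_ok par7_ok wc1234560_173)) (Tre.all_lf (batP_ok par7_ok wc1234560_685))) (Tre.all_lf (batP_ok par7_ok wc1234560_429)))) (Tre.all_nd (Tre.all_nd (Tre.all_nd (Tre.all_lf (batP_ok par7_ok wc1234560_109)) (Tre.all_lf (batP_ok par7_ok wc1234560_621))) (Tre.all_lf (batP_ok par7_ok wc1234560_365))) (Tre.all_nd (Tre.all_lf (batP_ok par7_ok wc1234560_237)) (Tre.all_lf (batP_ok par7_ok wc1234560_493)))))) (Tre.all_nd (Tre.all_nd (Tre.all_nd (Tre.all_nd (Tre.all_nd (Tre.all_lf (batP_ok par7_ok wc1234560_29)) (Tre.all_lf (batP_ok par7_ok wc1234560_541))) (Tre.all_lf (batP_ok par7_ok wc1234560_285))) (Tre.all_nd (Tre.all_nd (Tre.all_lf (batP_ok par7_ok wc1234560_157)) (Tre.all_lf (batP_ok par7_ok wc1234560_669))) (Tre.all_lf (batP_ok par7_ok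 wc1234560_413)))) (Tre.all_nd (Tre.all_nd (Tre.all_nd (Tre.all_lf (batP_ok par7_ok wc1234560_93)) (Tre.all_lf (batP_ok par7_ok wc1234560_605))) (Tre.all_lf (batP_ok par7_ok wc1234560_349))) (Tre.all_nd (Tre.all_lf (batP_ok par7_ok wc1234560_221)) (Tre.all_lf (batP_ok par7_ok wc1234560_477))))) (Tre.all_nd (Tre.all_nd (Tre.all_nd (Tre.all_nd (Tre.all_lf (batP_ok par7_ok wc1234560_61)) (Tre.all_lf (batP_ok par7_ok wc1234560_573))) (Tre.all_lf (batP_ok par7_ok wc1234560_317))) (Tre.all_nd (Tre.all_nd (Tre.all_lf (batP_ok par7_ok wc1234560_189)) (Tre.all_lf (batP_ok par7_ok wc1234560_701))) (Tre.all_lf (batP_ok par7_ok wc1234560_445)))) (Tre.all_nd (Tre.all_nd (Tre.all_nd (Tre.all_lf (batP_ok par7_ok wc1234560_125)) (Tre.all_lf (batP_ok par7_ok wc1234560_637))) (Tre.all_lf (batP_ok par7_ok wc1234560_381))) (Tre.all_nd (Tre.all_lf (batP_ok par7_ok wc1234560_253)) (Tre.all_lf (batP_ok par7_ok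 wc1234560_509))))))

theorem afc1234560101 : Tre.All (PceOK par7 c1234560.VT) fc1234560101 := Tre.all_nd afc12345601010 afc12345601011

theorem afc123456010 : Tre.All (PceOK par7 c1234560.VT) fc123456010 := Tre.all_nd afc1234560100 afc1234560101

theorem afc12345601100 : Tre.All (PceOK par7 c1234560.VT) fc12345601100 := Tre.all_nd (Tre.all_nd (Tre.all_nd (Tre.all_nd (Tre.all_nd (Tre.all_nd (Tre.all_lf (batP_ok par7_ok wc1234560_3)) (Tre.all_lf (batP_ok par7_ok wc1234560_515))) (Tre.all_lf (batP_ok par7_ok wc1234560_259))) (Tre.all_nd (Tre.all_nd (Tre.all_lf (batP_ok par7_ok wc1234560_131)) (Tre.all_lf (batP_ok par7_ok wc1234560_643))) (Tre.all_lf (batP_ok par7_ok wc1234560_387)))) (Tre.all_nd (Tre.all_nd (Tre.all_nd (Tre.all_lf (batP_ok par7_ok wc1234560_67)) (Tre.all_lf (batP_ok par7_ok wc1234560_579))) (Tre.all_lf (batP_ok par7_ok wc1234560_323))) (Tre.all_nd (Tre.all_lf (batP_ok par7_ok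 wc1234560_195)) (Tre.all_lf (batP_ok par7_ok wc1234560_451))))) (Tre.all_nd (Tre.all_nd (Tre.all_nd (Tre.all_nd (Tre.all_lf (batP_ok par7_ok wc1234560_35)) (Tre.all_lf (batP_ok par7_ok wc1234560_547))) (Tre.all_lf (batP_ok par7_ok wc1234560_291))) (Tre.all_nd (Tre.all_nd (Tre.all_lf (batP_ok par7_ok wc1234560_163)) (Tre.all_lf (batP_ok par7_ok wc1234560_675))) (Tre.all_lf (batP_ok par7_ok wc1234560_419)))) (Tre.all_nd (Tre.all_nd (Tre.all_nd (Tre.all_lf (batP_ok par7_ok wc1234560_99)) (Tre.all_lf (batP_ok par7_ok wc1234560_611))) (Tre.all_lf (batP_ok par7_ok wc1234560_355))) (Tre.all_nd (Tre.all_lf (batP_ok par7_ok wc1234560_227)) (Tre.all_lf (batP_ok par7_ok wc1234560_483)))))) (Tre.all_nd (Tre.all_nd (Tre.all_nd (Tre.all_nd (Tre.all_nd (Tre.all_lf (batP_ok par7_ok wc1234560_19)) (Tre.all_lf (batP_ok par7_ok wc1234560_531))) (Tre.all_lf (batP_ok par7_ok wc1234560_275))) (Tre.all_nd (Tre.all_nd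 (Tre.all_lf (batP_ok par7_ok wc1234560_147)) (Tre.all_lf (batP_ok par7_ok wc1234560_659))) (Tre.all_lf (batP_ok par7_ok wc1234560_403)))) (Tre.all_nd (Tre.all_nd (Tre.all_nd (Tre.all_lf (batP_ok par7_ok wc1234560_83)) (Tre.all_lf (batP_ok par7_ok wc1234560_595))) (Tre.all_lf (batP_ok par7_ok wc1234560_339))) (Tre.all_nd (Tre.all_lf (batP_ok par7_ok wc1234560_211)) (Tre.all_lf (batP_ok par7_ok wc1234560_467))))) (Tre.all_nd (Tre.all_nd (Tre.all_nd (Tre.all_nd (Tre.all_lf (batP_ok par7_ok wc1234560_51)) (Tre.all_lf (batP_ok par7_ok wc1234560_563))) (Tre.all_lf (batP_ok par7_ok wc1234560_307))) (Tre.all_nd (Tre.all_nd (Tre.all_lf (batP_ok par7_ok wc1234560_179)) (Tre.all_lf (batP_ok par7_ok wc1234560_691))) (Tre.all_lf (batP_ok par7_ok wc1234560_435)))) (Tre.all_nd (Tre.all_nd (Tre.all_nd (Tre.all_lf (batP_ok par7_ok wc1234560_115)) (Tre.all_lf (batP_ok par7_ok wc1234560_627))) (Tre.all_lf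 (batP_ok par7_ok wc1234560_371))) (Tre.all_nd (Tre.all_lf (batP_ok par7_ok wc1234560_243)) (Tre.all_lf (batP_ok par7_ok wc1234560_499))))))

theorem afc12345601101 : Tre.All (PceOK par7 c1234560.VT) fc12345601101 := Tre.all_nd (Tre.all_nd (Tre.all_nd (Tre.all_nd (Tre.all_nd (Tre.all_nd (Tre.all_lf (batP_ok par7_ok wc1234560_11)) (Tre.all_lf (batP_ok par7_ok wc1234560_523))) (Tre.all_lf (batP_ok par7_ok wc1234560_267))) (Tre.all_nd (Tre.all_nd (Tre.all_lf (batP_ok par7_ok wc1234560_139)) (Tre.all_lf (batP_ok par7_ok wc1234560_651))) (Tre.all_lf (batP_ok par7_ok wc1234560_395)))) (Tre.all_nd (Tre.all_nd (Tre.all_nd (Tre.all_lf (batP_ok par7_ok wc1234560_75)) (Tre.all_lf (batP_ok par7_ok wc1234560_587))) (Tre.all_lf (batP_ok par7_ok wc1234560_331))) (Tre.all_nd (Tre.all_lf (batP_ok par7_ok wc1234560_203)) (Tre.all_lf (batP_ok par7_ok wc1234560_459))))) (Tre.all_nd (Tre.all_nd (Tre.all_nd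 (Tre.all_nd (Tre.all_lf (batP_ok par7_ok wc1234560_43)) (Tre.all_lf (batP_ok par7_ok wc1234560_555))) (Tre.all_lf (batP_ok par7_ok wc1234560_299))) (Tre.all_nd (Tre.all_nd (Tre.all_lf (batP_ok par7_ok wc1234560_171)) (Tre.all_lf (batP_ok par7_ok wc1234560_683))) (Tre.all_lf (batP_ok par7_ok wc1234560_427)))) (Tre.all_nd (Tre.all_nd (Tre.all_nd (Tre.all_lf (batP_ok par7_ok wc1234560_107)) (Tre.all_lf (batP_ok par7_ok wc1234560_619))) (Tre.all_lf (batP_ok par7_ok wc1234560_363))) (Tre.all_nd (Tre.all_lf (batP_ok par7_ok wc1234560_235)) (Tre.all_lf (batP_ok par7_ok wc1234560_491)))))) (Tre.all_nd (Tre.all_nd (Tre.all_nd (Tre.all_nd (Tre.all_nd (Tre.all_lf (batP_ok par7_ok wc1234560_27)) (Tre.all_lf (batP_ok par7_ok wc1234560_539))) (Tre.all_lf (batP_ok par7_ok wc1234560_283))) (Tre.all_nd (Tre.all_nd (Tre.all_lf (batP_ok par7_ok wc1234560_155)) (Tre.all_lf (batP_ok par7_ok wc1234560_667)))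 (Tre.all_lf (batP_ok par7_ok wc1234560_411)))) (Tre.all_nd (Tre.all_nd (Tre.all_nd (Tre.all_lf (batP_ok par7_ok wc1234560_91)) (Tre.all_lf (batP_ok par7_ok wc1234560_603))) (Tre.all_lf (batP_ok par7_ok wc1234560_347))) (Tre.all_nd (Tre.all_lf (batP_ok par7_ok wc1234560_219)) (Tre.all_lf (batP_ok par7_ok wc1234560_475))))) (Tre.all_nd (Tre.all_nd (Tre.all_nd (Tre.all_nd (Tre.all_lf (batP_ok par7_ok wc1234560_59)) (Tre.all_lf (batP_ok par7_ok wc1234560_571))) (Tre.all_lf (batP_ok par7_ok wc1234560_315))) (Tre.all_nd (Tre.all_nd (Tre.all_lf (batP_ok par7_ok wc1234560_187)) (Tre.all_lf (batP_ok par7_ok wc1234560_699))) (Tre.all_lf (batP_ok par7_ok wc1234560_443)))) (Tre.all_nd (Tre.all_nd (Tre.all_nd (Tre.all_lf (batP_ok par7_ok wc1234560_123)) (Tre.all_lf (batP_ok par7_ok wc1234560_635))) (Tre.all_lf (batP_ok par7_ok wc1234560_379))) (Tre.all_nd (Tre.all_lf (batP_ok par7_ok wc1234560_251))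 (Tre.all_lf (batP_ok par7_ok wc1234560_507))))))

theorem afc1234560110 : Tre.All (PceOK par7 c1234560.VT) fc1234560110 := Tre.all_nd afc12345601100 afc12345601101

theorem afc12345601110 : Tre.All (PceOK par7 c1234560.VT) fc12345601110 := Tre.all_nd (Tre.all_nd (Tre.all_nd (Tre.all_nd (Tre.all_nd (Tre.all_nd (Tre.all_lf (batP_ok par7_ok wc1234560_7)) (Tre.all_lf (batP_ok par7_ok wc1234560_519))) (Tre.all_lf (batP_ok par7_ok wc1234560_263))) (Tre.all_nd (Tre.all_nd (Tre.all_lf (batP_ok par7_ok wc1234560_135)) (Tre.all_lf (batP_ok par7_ok wc1234560_647))) (Tre.all_lf (batP_ok par7_ok wc1234560_391)))) (Tre.all_nd (Tre.all_nd (Tre.all_nd (Tre.all_lf (batP_ok par7_ok wc1234560_71)) (Tre.all_lf (batP_ok par7_ok wc1234560_583))) (Tre.all_lf (batP_ok par7_ok wc1234560_327))) (Tre.all_nd (Tre.all_lf (batP_ok par7_ok wc1234560_199)) (Tre.all_lf (batP_ok par7_ok wc1234560_455))))) (Tre.all_nd (Tre.all_nd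 (Tre.all_nd (Tre.all_nd (Tre.all_lf (batP_ok par7_ok wc1234560_39)) (Tre.all_lf (batP_ok par7_ok wc1234560_551))) (Tre.all_lf (batP_ok par7_ok wc1234560_295))) (Tre.all_nd (Tre.all_nd (Tre.all_lf (batP_ok par7_ok wc1234560_167)) (Tre.all_lf (batP_ok par7_ok wc1234560_679))) (Tre.all_lf (batP_ok par7_ok wc1234560_423)))) (Tre.all_nd (Tre.all_nd (Tre.all_nd (Tre.all_lf (batP_ok par7_ok wc1234560_103)) (Tre.all_lf (batP_ok par7_ok wc1234560_615))) (Tre.all_lf (batP_ok par7_ok wc1234560_359))) (Tre.all_nd (Tre.all_lf (batP_ok par7_ok wc1234560_231)) (Tre.all_lf (batP_ok par7_ok wc1234560_487)))))) (Tre.all_nd (Tre.all_nd (Tre.all_nd (Tre.all_nd (Tre.all_nd (Tre.all_lf (batP_ok par7_ok wc1234560_23)) (Tre.all_lf (batP_ok par7_ok wc1234560_535))) (Tre.all_lf (batP_ok par7_ok wc1234560_279))) (Tre.all_nd (Tre.all_nd (Tre.all_lf (batP_ok par7_ok wc1234560_151)) (Tre.all_lf (batP_ok par7_ok wc1234560_663)))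 (Tre.all_lf (batP_ok par7_ok wc1234560_407)))) (Tre.all_nd (Tre.all_nd (Tre.all_nd (Tre.all_lf (batP_ok par7_ok wc1234560_87)) (Tre.all_lf (batP_ok par7_ok wc1234560_599))) (Tre.all_lf (batP_ok par7_ok wc1234560_343))) (Tre.all_nd (Tre.all_lf (batP_ok par7_ok wc1234560_215)) (Tre.all_lf (batP_ok par7_ok wc1234560_471))))) (Tre.all_nd (Tre.all_nd (Tre.all_nd (Tre.all_nd (Tre.all_lf (batP_ok par7_ok wc1234560_55)) (Tre.all_lf (batP_ok par7_ok wc1234560_567))) (Tre.all_lf (batP_ok par7_ok wc1234560_311))) (Tre.all_nd (Tre.all_nd (Tre.all_lf (batP_ok par7_ok wc1234560_183)) (Tre.all_lf (batP_ok par7_ok wc1234560_695))) (Tre.all_lf (batP_ok par7_ok wc1234560_439)))) (Tre.all_nd (Tre.all_nd (Tre.all_nd (Tre.all_lf (batP_ok par7_ok wc1234560_119)) (Tre.all_lf (batP_ok par7_ok wc1234560_631))) (Tre.all_lf (batP_ok par7_ok wc1234560_375))) (Tre.all_nd (Tre.all_lf (batP_ok par7_ok wc1234560_247))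 (Tre.all_lf (batP_ok par7_ok wc1234560_503))))))

theorem afc12345601111 : Tre.All (PceOK par7 c1234560.VT) fc12345601111 := Tre.all_nd (Tre.all_nd (Tre.all_nd (Tre.all_nd (Tre.all_nd (Tre.all_nd (Tre.all_lf (batP_ok par7_ok wc1234560_15)) (Tre.all_lf (batP_ok par7_ok wc1234560_527))) (Tre.all_lf (batP_ok par7_ok wc1234560_271))) (Tre.all_nd (Tre.all_nd (Tre.all_lf (batP_ok par7_ok wc1234560_143)) (Tre.all_lf (batP_ok par7_ok wc1234560_655))) (Tre.all_lf (batP_ok par7_ok wc1234560_399)))) (Tre.all_nd (Tre.all_nd (Tre.all_nd (Tre.all_lf (batP_ok par7_ok wc1234560_79)) (Tre.all_lf (batP_ok par7_ok wc1234560_591))) (Tre.all_lf (batP_ok par7_ok wc1234560_335))) (Tre.all_nd (Tre.all_lf (batP_ok par7_ok wc1234560_207)) (Tre.all_lf (batP_ok par7_ok wc1234560_463))))) (Tre.all_nd (Tre.all_nd (Tre.all_nd (Tre.all_nd (Tre.all_lf (batP_ok par7_ok wc1234560_47)) (Tre.all_lf (batP_ok par7_ok wc1234560_559)))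 (Tre.all_lf (batP_ok par7_ok wc1234560_303))) (Tre.all_nd (Tre.all_nd (Tre.all_lf (batP_ok par7_ok wc1234560_175)) (Tre.all_lf (batP_ok par7_ok wc1234560_687))) (Tre.all_lf (batP_ok par7_ok wc1234560_431)))) (Tre.all_nd (Tre.all_nd (Tre.all_nd (Tre.all_lf (batP_ok par7_ok wc1234560_111)) (Tre.all_lf (batP_ok par7_ok wc1234560_623))) (Tre.all_lf (batP_ok par7_ok wc1234560_367))) (Tre.all_nd (Tre.all_lf (batP_ok par7_ok wc1234560_239)) (Tre.all_lf (batP_ok par7_ok wc1234560_495)))))) (Tre.all_nd (Tre.all_nd (Tre.all_nd (Tre.all_nd (Tre.all_nd (Tre.all_lf (batP_ok par7_ok wc1234560_31)) (Tre.all_lf (batP_ok par7_ok wc1234560_543))) (Tre.all_lf (batP_ok par7_ok wc1234560_287))) (Tre.all_nd (Tre.all_nd (Tre.all_lf (batP_ok par7_ok wc1234560_159)) (Tre.all_lf (batP_ok par7_ok wc1234560_671))) (Tre.all_lf (batP_ok par7_ok wc1234560_415)))) (Tre.all_nd (Tre.all_nd (Tre.all_nd (Tre.all_lf (batP_ok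 par7_ok wc1234560_95)) (Tre.all_lf (batP_ok par7_ok wc1234560_607))) (Tre.all_lf (batP_ok par7_ok wc1234560_351))) (Tre.all_nd (Tre.all_lf (batP_ok par7_ok wc1234560_223)) (Tre.all_lf (batP_ok par7_ok wc1234560_479))))) (Tre.all_nd (Tre.all_nd (Tre.all_nd (Tre.all_nd (Tre.all_lf (batP_ok par7_ok wc1234560_63)) (Tre.all_lf (batP_ok par7_ok wc1234560_575))) (Tre.all_lf (batP_ok par7_ok wc1234560_319))) (Tre.all_nd (Tre.all_nd (Tre.all_lf (batP_ok par7_ok wc1234560_191)) (Tre.all_lf (batP_ok par7_ok wc1234560_703))) (Tre.all_lf (batP_ok par7_ok wc1234560_447)))) (Tre.all_nd (Tre.all_nd (Tre.all_nd (Tre.all_lf (batP_ok par7_ok wc1234560_127)) (Tre.all_lf (batP_ok par7_ok wc1234560_639))) (Tre.all_lf (batP_ok par7_ok wc1234560_383))) (Tre.all_nd (Tre.all_lf (batP_ok par7_ok wc1234560_255)) (Tre.all_lf (batP_ok par7_ok wc1234560_511))))))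

theorem afc1234560111 : Tre.All (PceOK par7 c1234560.VT) fc1234560111 := Tre.all_nd afc12345601110 afc12345601111

theorem afc123456011 : Tre.All (PceOK par7 c1234560.VT) fc123456011 := Tre.all_nd afc1234560110 afc1234560111

theorem afc12345601 : Tre.All (PceOK par7 c1234560.VT) fc12345601 := Tre.all_nd afc123456010 afc123456011

theorem afc1234560 : Tre.All (PceOK par7 c1234560.VT) fc1234560 := Tre.all_nd afc12345600 afc12345601

theorem rac1234560_0 : RA c1234560 hc1234560 0 := ra_zero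

theorem hdc1234560_0_0 : HD c1234560 hc1234560 0 [(10, 0x93d)] := hd_cons hd_nil ec1234560_0_0

theorem hdc1234560_0_1 : HD c1234560 hc1234560 0 [(17, 0x33c), (10, 0x93d)] := hd_cons hdc1234560_0_0 ec1234560_0_1

theorem hdc1234560_0_2 : HD c1234560 hc1234560 0 [(17, 0x19f), (17, 0x33c), (10, 0x93d)] := hd_cons hdc1234560_0_1 ec1234560_0_2

theorem hdc1234560_0_3 : HD c1234560 hc1234560 0 [(19, 0x4e), (17, 0x19f), (17, 0x33c), (10, 0x93d)] := hd_cons hdc1234560_0_2 ec1234560_0_3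

theorem hdc1234560_0_4 : HD c1234560 hc1234560 0 [(13, 0x14bc), (19, 0x4e), (17, 0x19f), (17, 0x33c), (10, 0x93d)] := hd_cons hdc1234560_0_3 ec1234560_0_4

theorem hdc1234560_0_5 : HD c1234560 hc1234560 0 [(13, 0x52f9), (13, 0x14bc), (19, 0x4e), (17, 0x19f), (17, 0x33c), (10, 0x93d)] := hd_cons hdc1234560_0_4 ec1234560_0_5

theorem hdc1234560_0_6 : HD c1234560 hc1234560 0 [(13, 0xa5e), (13, 0x52f9), (13, 0x14bc), (19, 0x4e), (17, 0x19f), (17, 0x33c), (10, 0x93d)] := hd_cons hdc1234560_0_5 ec1234560_0_6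

theorem hdc1234560_0_7 : HD c1234560 hc1234560 0 [(13, 0x52e), (13, 0xa5e), (13, 0x52f9), (13, 0x14bc), (19, 0x4e), (17, 0x19f), (17, 0x33c), (10, 0x93d)] := hd_cons hdc1234560_0_6 ec1234560_0_7

theorem hdc1234560_0_8 : HD c1234560 hc1234560 0 [(13, 0x14b), (13, 0x52e), (13, 0xa5e), (13, 0x52f9), (13, 0x14bc), (19, 0x4e), (17, 0x19f), (17, 0x33c), (10, 0x93d)] := hd_cons hdc1234560_0_7 ec1234560_0_8

theorem hdc1234560_0_9 : HD c1234560 hc1234560 0 [(10, 0x8b), (13, 0x14b), (13, 0x52e), (13, 0xa5e), (13, 0x52f9), (13, 0x14bc), (19, 0x4e), (17, 0x19f), (17, 0x33c), (10, 0x93d)] := hd_cons hdc1234560_0_8 ec1234560_0_9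

theorem hdc1234560_0_10 : HD c1234560 hc1234560 0 [(13, 0x4af), (10, 0x8b), (13, 0x14b), (13, 0x52e), (13, 0xa5e), (13, 0x52f9), (13, 0x14bc), (19, 0x4e), (17, 0x19f), (17, 0x33c), (10, 0x93d)] := hd_cons hdc1234560_0_9 ec1234560_0_10

theorem hdc1234560_0_11 : HD c1234560 hc1234560 0 [(4, 0x2ab), (13, 0x4af), (10, 0x8b), (13, 0x14b), (13, 0x52e), (13, 0xa5e), (13, 0x52f9), (13, 0x14bc), (19, 0x4e), (17, 0x19f), (17, 0x33c), (10, 0x93d)] := hd_cons hdc1234560_0_10 ec1234560_0_11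

theorem hdc1234560_0_12 : HD c1234560 hc1234560 0 [(16, 0xab), (4, 0x2ab), (13, 0x4af), (10, 0x8b), (13, 0x14b), (13, 0x52e), (13, 0xa5e), (13, 0x52f9), (13, 0x14bc), (19, 0x4e), (17, 0x19f), (17, 0x33c), (10, 0x93d)] := hd_cons hdc1234560_0_11 ec1234560_0_12

theorem hdc1234560_0_13 : HD c1234560 hc1234560 0 [(15, 0x6b), (16, 0xab), (4, 0x2ab), (13, 0x4af), (10, 0x8b), (13, 0x14b), (13, 0x52e), (13, 0xa5e), (13, 0x52f9), (13, 0x14bc), (19, 0x4e), (17, 0x19f), (17, 0x33c), (10, 0x93d)] := hd_cons hdc1234560_0_12 ec1234560_0_13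

theorem hdc1234560_0_14 : HD c1234560 hc1234560 0 [(20, 0x2db), (15, 0x6b), (16, 0xab), (4, 0x2ab), (13, 0x4af), (10, 0x8b), (13, 0x14b), (13, 0x52e), (13, 0xa5e), (13, 0x52f9), (13, 0x14bc), (19, 0x4e), (17, 0x19f), (17, 0x33c), (10, 0x93d)] := hd_cons hdc1234560_0_13 ec1234560_0_14

theorem hdc1234560_0_15 : HD c1234560 hc1234560 0 [(8, 0x15b), (20, 0x2db), (15, 0x6b), (16, 0xab), (4, 0x2ab), (13, 0x4af), (10, 0x8b), (13, 0x14b), (13, 0x52e), (13, 0xa5e), (13, 0x52f9), (13, 0x14bc), (19, 0x4e), (17, 0x19f), (17, 0x33c), (10, 0x93d)] := hd_cons hdc1234560_0_14 ec1234560_0_15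

theorem hdc1234560_0_16 : HD c1234560 hc1234560 0 [(16, 0x9b), (8, 0x15b), (20, 0x2db), (15, 0x6b), (16, 0xab), (4, 0x2ab), (13, 0x4af), (10, 0x8b), (13, 0x14b), (13, 0x52e), (13, 0xa5e), (13, 0x52f9), (13, 0x14bc), (19, 0x4e), (17, 0x19f), (17, 0x33c), (10, 0x93d)] := hd_cons hdc1234560_0_15 ec1234560_0_16

theorem hdc1234560_0_17 : HD c1234560 hc1234560 0 [(14, 0x3b), (16, 0x9b), (8, 0x15b), (20, 0x2db), (15, 0x6b), (16, 0xab), (4, 0x2ab), (13, 0x4af), (10, 0x8b), (13, 0x14b), (13, 0x52e), (13, 0xa5e), (13, 0x52f9), (13, 0x14bc), (19, 0x4e), (17, 0x19f), (17, 0x33c), (10, 0x93d)] := hd_cons hdc1234560_0_16 ec1234560_0_17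

theorem hdc1234560_0_18 : HD c1234560 hc1234560 0 [(19, 0x9), (14, 0x3b), (16, 0x9b), (8, 0x15b), (20, 0x2db), (15, 0x6b), (16, 0xab), (4, 0x2ab), (13, 0x4af), (10, 0x8b), (13, 0x14b), (13, 0x52e), (13, 0xa5e), (13, 0x52f9), (13, 0x14bc), (19, 0x4e), (17, 0x19f), (17, 0x33c), (10, 0x93d)] := hd_cons hdc1234560_0_17 ec1234560_0_18

theorem hdc1234560_0_19 : HD c1234560 hc1234560 0 [(15, 0x15e), (19, 0x9), (14, 0x3b), (16, 0x9b), (8, 0x15b), (20, 0x2db), (15, 0x6b), (16, 0xab), (4, 0x2ab), (13, 0x4af), (10, 0x8b), (13, 0x14b), (13, 0x52e), (13, 0xa5e), (13, 0x52f9), (13, 0x14bc), (19, 0x4e), (17, 0x19f), (17, 0x33c), (10, 0x93d)] := hd_cons hdc1234560_0_18 ec1234560_0_19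

theorem hdc1234560_0_20 : HD c1234560 hc1234560 0 [(5, 0x2f), (15, 0x15e), (19, 0x9), (14, 0x3b), (16, 0x9b), (8, 0x15b), (20, 0x2db), (15, 0x6b), (16, 0xab), (4, 0x2ab), (13, 0x4af), (10, 0x8b), (13, 0x14b), (13, 0x52e), (13, 0xa5e), (13, 0x52f9), (13, 0x14bc), (19, 0x4e), (17, 0x19f), (17, 0x33c), (10, 0x93d)] := hd_cons hdc1234560_0_19 ec1234560_0_20

theorem hdc1234560_0_21 : HD c1234560 hc1234560 0 [(6, 0x5), (5, 0x2f), (15, 0x15e), (19, 0x9), (14, 0x3b), (16, 0x9b), (8, 0x15b), (20, 0x2db), (15, 0x6b), (16, 0xab), (4, 0x2ab), (13, 0x4af), (10, 0x8b), (13, 0x14b), (13, 0x52e), (13, 0xa5e), (13, 0x52f9), (13, 0x14bc), (19, 0x4e), (17, 0x19f), (17, 0x33c), (10, 0x93d)] := hd_cons hdc1234560_0_20 ec1234560_0_21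

theorem rdc1234560_0 : RD c1234560 hc1234560 0 := rd_of hdc1234560_0_21 ec1234560_0_22

theorem rac1234560_1 : RA c1234560 hc1234560 1 := ra_succ rac1234560_0 rdc1234560_0

theorem hdc1234560_1_0 : HD c1234560 hc1234560 1 [(5, 0x61)] := hd_cons hd_nil ec1234560_1_0

theorem hdc1234560_1_1 : HD c1234560 hc1234560 1 [(13, 0x248), (5, 0x61)] := hd_cons hdc1234560_1_0 ec1234560_1_1

theorem hdc1234560_1_2 : HD c1234560 hc1234560 1 [(16, 0x148), (13, 0x248), (5, 0x61)] := hd_cons hdc1234560_1_1 ec1234560_1_2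

theorem hdc1234560_1_3 : HD c1234560 hc1234560 1 [(17, 0x48), (16, 0x148), (13, 0x248), (5, 0x61)] := hd_cons hdc1234560_1_2 ec1234560_1_3

theorem hdc1234560_1_4 : HD c1234560 hc1234560 1 [(19, 0x1d4), (17, 0x48), (16, 0x148), (13, 0x248), (5, 0x61)] := hd_cons hdc1234560_1_3 ec1234560_1_4

theorem hdc1234560_1_5 : HD c1234560 hc1234560 1 [(12, 0xd4), (19, 0x1d4), (17, 0x48), (16, 0x148), (13, 0x248), (5, 0x61)] := hd_cons hdc1234560_1_4 ec1234560_1_5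

theorem hdc1234560_1_6 : HD c1234560 hc1234560 1 [(4, 0x12d0), (12, 0xd4), (19, 0x1d4), (17, 0x48), (16, 0x148), (13, 0x248), (5, 0x61)] := hd_cons hdc1234560_1_5 ec1234560_1_6

theorem hdc1234560_1_7 : HD c1234560 hc1234560 1 [(20, 0xad0), (4, 0x12d0), (12, 0xd4), (19, 0x1d4), (17, 0x48), (16, 0x148), (13, 0x248), (5, 0x61)] := hd_cons hdc1234560_1_6 ec1234560_1_7

theorem hdc1234560_1_8 : HD c1234560 hc1234560 1 [(19, 0x1b4), (20, 0xad0), (4, 0x12d0), (12, 0xd4), (19, 0x1d4), (17, 0x48), (16, 0x148), (13, 0x248), (5, 0x61)] := hd_cons hdc1234560_1_7 ec1234560_1_8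

theorem hdc1234560_1_9 : HD c1234560 hc1234560 1 [(7, 0xf4), (19, 0x1b4), (20, 0xad0), (4, 0x12d0), (12, 0xd4), (19, 0x1d4), (17, 0x48), (16, 0x148), (13, 0x248), (5, 0x61)] := hd_cons hdc1234560_1_8 ec1234560_1_9

theorem hdc1234560_1_10 : HD c1234560 hc1234560 1 [(15, 0x54), (7, 0xf4), (19, 0x1b4), (20, 0xad0), (4, 0x12d0), (12, 0xd4), (19, 0x1d4), (17, 0x48), (16, 0x148), (13, 0x248), (5, 0x61)] := hd_cons hdc1234560_1_9 ec1234560_1_10

theorem hdc1234560_1_11 : HD c1234560 hc1234560 1 [(19, 0x6b0), (15, 0x54), (7, 0xf4), (19, 0x1b4), (20, 0xad0), (4, 0x12d0), (12, 0xd4), (19, 0x1d4), (17, 0x48), (16, 0x148), (13, 0x248), (5, 0x61)] := hd_cons hdc1234560_1_10 ec1234560_1_11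

theorem hdc1234560_1_12 : HD c1234560 hc1234560 1 [(6, 0xf61), (19, 0x6b0), (15, 0x54), (7, 0xf4), (19, 0x1b4), (20, 0xad0), (4, 0x12d0), (12, 0xd4), (19, 0x1d4), (17, 0x48), (16, 0x148), (13, 0x248), (5, 0x61)] := hd_cons hdc1234560_1_11 ec1234560_1_12

theorem hdc1234560_1_13 : HD c1234560 hc1234560 1 [(11, 0xd8), (6, 0xf61), (19, 0x6b0), (15, 0x54), (7, 0xf4), (19, 0x1b4), (20, 0xad0), (4, 0x12d0), (12, 0xd4), (19, 0x1d4), (17, 0x48), (16, 0x148), (13, 0x248), (5, 0x61)] := hd_cons hdc1234560_1_12 ec1234560_1_13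

theorem hdc1234560_1_14 : HD c1234560 hc1234560 1 [(5, 0x5), (11, 0xd8), (6, 0xf61), (19, 0x6b0), (15, 0x54), (7, 0xf4), (19, 0x1b4), (20, 0xad0), (4, 0x12d0), (12, 0xd4), (19, 0x1d4), (17, 0x48), (16, 0x148), (13, 0x248), (5, 0x61)] := hd_cons hdc1234560_1_13 ec1234560_1_14

theorem hdc1234560_1_15 : HD c1234560 hc1234560 1 [(6, 0x2), (5, 0x5), (11, 0xd8), (6, 0xf61), (19, 0x6b0), (15, 0x54), (7, 0xf4), (19, 0x1b4), (20, 0xad0), (4, 0x12d0), (12, 0xd4), (19, 0x1d4), (17, 0x48), (16, 0x148), (13, 0x248), (5, 0x61)] := hd_cons hdc1234560_1_14 ec1234560_1_15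

theorem rdc1234560_1 : RD c1234560 hc1234560 1 := rd_of hdc1234560_1_15 ec1234560_1_16

theorem rac1234560_2 : RA c1234560 hc1234560 2 := ra_succ rac1234560_1 rdc1234560_1

theorem rac1234560_3 : RA c1234560 hc1234560 3 := ra_rng rac1234560_2 ec1234560_2

theorem hdc1234560_3_0 : HD c1234560 hc1234560 3 [(18, 0xca)] := hd_cons hd_nil ec1234560_3_0

theorem hdc1234560_3_1 : HD c1234560 hc1234560 3 [(17, 0x6a), (18, 0xca)] := hd_cons hdc1234560_3_0 ec1234560_3_1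

theorem hdc1234560_3_2 : HD c1234560 hc1234560 3 [(18, 0x9a), (17, 0x6a), (18, 0xca)] := hd_cons hdc1234560_3_1 ec1234560_3_2

theorem hdc1234560_3_3 : HD c1234560 hc1234560 3 [(5, 0x3a), (18, 0x9a), (17, 0x6a), (18, 0xca)] := hd_cons hdc1234560_3_2 ec1234560_3_3

theorem hdc1234560_3_4 : HD c1234560 hc1234560 3 [(19, 0x159), (5, 0x3a), (18, 0x9a), (17, 0x6a), (18, 0xca)] := hd_cons hdc1234560_3_3 ec1234560_3_4

theorem hdc1234560_3_5 : HD c1234560 hc1234560 3 [(5, 0x1d9), (19, 0x159), (5, 0x3a), (18, 0x9a), (17, 0x6a), (18, 0xca)] := hd_cons hdc1234560_3_4 ec1234560_3_5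

theorem hdc1234560_3_6 : HD c1234560 hc1234560 3 [(6, 0x1b4dc), (5, 0x1d9), (19, 0x159), (5, 0x3a), (18, 0x9a), (17, 0x6a), (18, 0xca)] := hd_cons hdc1234560_3_5 ec1234560_3_6

theorem hdc1234560_3_7 : HD c1234560 hc1234560 3 [(6, 0x6d36), (6, 0x1b4dc), (5, 0x1d9), (19, 0x159), (5, 0x3a), (18, 0x9a), (17, 0x6a), (18, 0xca)] := hd_cons hdc1234560_3_6 ec1234560_3_7

theorem hdc1234560_3_8 : HD c1234560 hc1234560 3 [(6, 0x6d56), (6, 0x6d36), (6, 0x1b4dc), (5, 0x1d9), (19, 0x159), (5, 0x3a), (18, 0x9a), (17, 0x6a), (18, 0xca)] := hd_cons hdc1234560_3_7 ec1234560_3_8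

theorem hdc1234560_3_9 : HD c1234560 hc1234560 3 [(19, 0x2b56), (6, 0x6d56), (6, 0x6d36), (6, 0x1b4dc), (5, 0x1d9), (19, 0x159), (5, 0x3a), (18, 0x9a), (17, 0x6a), (18, 0xca)] := hd_cons hdc1234560_3_8 ec1234560_3_9

theorem hdc1234560_3_10 : HD c1234560 hc1234560 3 [(5, 0x1dab), (19, 0x2b56), (6, 0x6d56), (6, 0x6d36), (6, 0x1b4dc), (5, 0x1d9), (19, 0x159), (5, 0x3a), (18, 0x9a), (17, 0x6a), (18, 0xca)] := hd_cons hdc1234560_3_9 ec1234560_3_10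

theorem hdc1234560_3_11 : HD c1234560 hc1234560 3 [(6, 0xdaa), (5, 0x1dab), (19, 0x2b56), (6, 0x6d56), (6, 0x6d36), (6, 0x1b4dc), (5, 0x1d9), (19, 0x159), (5, 0x3a), (18, 0x9a), (17, 0x6a), (18, 0xca)] := hd_cons hdc1234560_3_10 ec1234560_3_11

theorem hdc1234560_3_12 : HD c1234560 hc1234560 3 [(6, 0xdad), (6, 0xdaa), (5, 0x1dab), (19, 0x2b56), (6, 0x6d56), (6, 0x6d36), (6, 0x1b4dc), (5, 0x1d9), (19, 0x159), (5, 0x3a), (18, 0x9a), (17, 0x6a), (18, 0xca)] := hd_cons hdc1234560_3_11 ec1234560_3_12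

theorem hdc1234560_3_13 : HD c1234560 hc1234560 3 [(6, 0x1b5), (6, 0xdad), (6, 0xdaa), (5, 0x1dab), (19, 0x2b56), (6, 0x6d56), (6, 0x6d36), (6, 0x1b4dc), (5, 0x1d9), (19, 0x159), (5, 0x3a), (18, 0x9a), (17, 0x6a), (18, 0xca)] := hd_cons hdc1234560_3_12 ec1234560_3_13

theorem hdc1234560_3_14 : HD c1234560 hc1234560 3 [(6, 0xdb3), (6, 0x1b5), (6, 0xdad), (6, 0xdaa), (5, 0x1dab), (19, 0x2b56), (6, 0x6d56), (6, 0x6d36), (6, 0x1b4dc), (5, 0x1d9), (19, 0x159), (5, 0x3a), (18, 0x9a), (17, 0x6a), (18, 0xca)] := hd_cons hdc1234560_3_13 ec1234560_3_14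

theorem hdc1234560_3_15 : HD c1234560 hc1234560 3 [(20, 0x96d), (6, 0xdb3), (6, 0x1b5), (6, 0xdad), (6, 0xdaa), (5, 0x1dab), (19, 0x2b56), (6, 0x6d56), (6, 0x6d36), (6, 0x1b4dc), (5, 0x1d9), (19, 0x159), (5, 0x3a), (18, 0x9a), (17, 0x6a), (18, 0xca)] := hd_cons hdc1234560_3_14 ec1234560_3_15

theorem hdc1234560_3_16 : HD c1234560 hc1234560 3 [(6, 0x36d), (20, 0x96d), (6, 0xdb3), (6, 0x1b5), (6, 0xdad), (6, 0xdaa), (5, 0x1dab), (19, 0x2b56), (6, 0x6d56), (6, 0x6d36), (6, 0x1b4dc), (5, 0x1d9), (19, 0x159), (5, 0x3a), (18, 0x9a), (17, 0x6a), (18, 0xca)] := hd_cons hdc1234560_3_15 ec1234560_3_16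

theorem hdc1234560_3_17 : HD c1234560 hc1234560 3 [(6, 0xda), (6, 0x36d), (20, 0x96d), (6, 0xdb3), (6, 0x1b5), (6, 0xdad), (6, 0xdaa), (5, 0x1dab), (19, 0x2b56), (6, 0x6d56), (6, 0x6d36), (6, 0x1b4dc), (5, 0x1d9), (19, 0x159), (5, 0x3a), (18, 0x9a), (17, 0x6a), (18, 0xca)] := hd_cons hdc1234560_3_16 ec1234560_3_17

theorem hdc1234560_3_18 : HD c1234560 hc1234560 3 [(5, 0x771), (6, 0xda), (6, 0x36d), (20, 0x96d), (6, 0xdb3), (6, 0x1b5), (6, 0xdad), (6, 0xdaa), (5, 0x1dab), (19, 0x2b56), (6, 0x6d56), (6, 0x6d36), (6, 0x1b4dc), (5, 0x1d9), (19, 0x159), (5, 0x3a), (18, 0x9a), (17, 0x6a), (18, 0xca)] := hd_cons hdc1234560_3_17 ec1234560_3_18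

theorem hdc1234560_3_19 : HD c1234560 hc1234560 3 [(6, 0x6e4e), (5, 0x771), (6, 0xda), (6, 0x36d), (20, 0x96d), (6, 0xdb3), (6, 0x1b5), (6, 0xdad), (6, 0xdaa), (5, 0x1dab), (19, 0x2b56), (6, 0x6d56), (6, 0x6d36), (6, 0x1b4dc), (5, 0x1d9), (19, 0x159), (5, 0x3a), (18, 0x9a), (17, 0x6a), (18, 0xca)] := hd_cons hdc1234560_3_18 ec1234560_3_19

theorem hdc1234560_3_20 : HD c1234560 hc1234560 3 [(6, 0x6e5), (6, 0x6e4e), (5, 0x771), (6, 0xda), (6, 0x36d), (20, 0x96d), (6, 0xdb3), (6, 0x1b5), (6, 0xdad), (6, 0xdaa), (5, 0x1dab), (19, 0x2b56), (6, 0x6d56), (6, 0x6d36), (6, 0x1b4dc), (5, 0x1d9), (19, 0x159), (5, 0x3a), (18, 0x9a), (17, 0x6a), (18, 0xca)] := hd_cons hdc1234560_3_19 ec1234560_3_20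

theorem hdc1234560_3_21 : HD c1234560 hc1234560 3 [(6, 0xdd17), (6, 0x6e5), (6, 0x6e4e), (5, 0x771), (6, 0xda), (6, 0x36d), (20, 0x96d), (6, 0xdb3), (6, 0x1b5), (6, 0xdad), (6, 0xdaa), (5, 0x1dab), (19, 0x2b56), (6, 0x6d56), (6, 0x6d36), (6, 0x1b4dc), (5, 0x1d9), (19, 0x159), (5, 0x3a), (18, 0x9a), (17, 0x6a), (18, 0xca)] := hd_cons hdc1234560_3_20 ec1234560_3_21

theorem hdc1234560_3_22 : HD c1234560 hc1234560 3 [(6, 0x1ba2), (6, 0xdd17), (6, 0x6e5), (6, 0x6e4e), (5, 0x771), (6, 0xda), (6, 0x36d), (20, 0x96d), (6, 0xdb3), (6, 0x1b5), (6, 0xdad), (6, 0xdaa), (5, 0x1dab), (19, 0x2b56), (6, 0x6d56), (6, 0x6d36), (6, 0x1b4dc), (5, 0x1d9), (19, 0x159), (5, 0x3a), (18, 0x9a), (17, 0x6a), (18, 0xca)] := hd_cons hdc1234560_3_21 ec1234560_3_22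

theorem hdc1234560_3_23 : HD c1234560 hc1234560 3 [(6, 0x374a), (6, 0x1ba2), (6, 0xdd17), (6, 0x6e5), (6, 0x6e4e), (5, 0x771), (6, 0xda), (6, 0x36d), (20, 0x96d), (6, 0xdb3), (6, 0x1b5), (6, 0xdad), (6, 0xdaa), (5, 0x1dab), (19, 0x2b56), (6, 0x6d56), (6, 0x6d36), (6, 0x1b4dc), (5, 0x1d9), (19, 0x159), (5, 0x3a), (18, 0x9a), (17, 0x6a), (18, 0xca)] := hd_cons hdc1234560_3_22 ec1234560_3_23

theorem hdc1234560_3_24 : HD c1234560 hc1234560 3 [(6, 0x1ba5), (6, 0x374a), (6, 0x1ba2), (6, 0xdd17), (6, 0x6e5), (6, 0x6e4e), (5, 0x771), (6, 0xda), (6, 0x36d), (20, 0x96d), (6, 0xdb3), (6, 0x1b5), (6, 0xdad), (6, 0xdaa), (5, 0x1dab), (19, 0x2b56), (6, 0x6d56), (6, 0x6d36), (6, 0x1b4dc), (5, 0x1d9), (19, 0x159), (5, 0x3a), (18, 0x9a), (17, 0x6a), (18, 0xca)] := hd_cons hdc1234560_3_23 ec1234560_3_24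

theorem hdc1234560_3_25 : HD c1234560 hc1234560 3 [(6, 0x6e9), (6, 0x1ba5), (6, 0x374a), (6, 0x1ba2), (6, 0xdd17), (6, 0x6e5), (6, 0x6e4e), (5, 0x771), (6, 0xda), (6, 0x36d), (20, 0x96d), (6, 0xdb3), (6, 0x1b5), (6, 0xdad), (6, 0xdaa), (5, 0x1dab), (19, 0x2b56), (6, 0x6d56), (6, 0x6d36), (6, 0x1b4dc), (5, 0x1d9), (19, 0x159), (5, 0x3a), (18, 0x9a), (17, 0x6a), (18, 0xca)] := hd_cons hdc1234560_3_24 ec1234560_3_25

theorem hdc1234560_3_26 : HD c1234560 hc1234560 3 [(6, 0x374), (6, 0x6e9), (6, 0x1ba5), (6, 0x374a), (6, 0x1ba2), (6, 0xdd17), (6, 0x6e5), (6, 0x6e4e), (5, 0x771), (6, 0xda), (6, 0x36d), (20, 0x96d), (6, 0xdb3), (6, 0x1b5), (6, 0xdad), (6, 0xdaa), (5, 0x1dab), (19, 0x2b56), (6, 0x6d56), (6, 0x6d36), (6, 0x1b4dc), (5, 0x1d9), (19, 0x159), (5, 0x3a), (18, 0x9a), (17, 0x6a), (18, 0xca)] := hd_cons hdc1234560_3_25 ec1234560_3_26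

theorem hdc1234560_3_27 : HD c1234560 hc1234560 3 [(6, 0xdc), (6, 0x374), (6, 0x6e9), (6, 0x1ba5), (6, 0x374a), (6, 0x1ba2), (6, 0xdd17), (6, 0x6e5), (6, 0x6e4e), (5, 0x771), (6, 0xda), (6, 0x36d), (20, 0x96d), (6, 0xdb3), (6, 0x1b5), (6, 0xdad), (6, 0xdaa), (5, 0x1dab), (19, 0x2b56), (6, 0x6d56), (6, 0x6d36), (6, 0x1b4dc), (5, 0x1d9), (19, 0x159), (5, 0x3a), (18, 0x9a), (17, 0x6a), (18, 0xca)] := hd_cons hdc1234560_3_26 ec1234560_3_27

theorem hdc1234560_3_28 : HD c1234560 hc1234560 3 [(6, 0x36), (6, 0xdc), (6, 0x374), (6, 0x6e9), (6, 0x1ba5), (6, 0x374a), (6, 0x1ba2), (6, 0xdd17), (6, 0x6e5), (6, 0x6e4e), (5, 0x771), (6, 0xda), (6, 0x36d), (20, 0x96d), (6, 0xdb3), (6, 0x1b5), (6, 0xdad), (6, 0xdaa), (5, 0x1dab), (19, 0x2b56), (6, 0x6d56), (6, 0x6d36), (6, 0x1b4dc), (5, 0x1d9), (19, 0x159), (5, 0x3a), (18, 0x9a), (17, 0x6a), (18, 0xca)] := hd_cons hdc1234560_3_27 ec1234560_3_28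

theorem rdc1234560_3 : RD c1234560 hc1234560 3 := rd_of hdc1234560_3_28 ec1234560_3_29

theorem rac1234560_4 : RA c1234560 hc1234560 4 := ra_succ rac1234560_3 rdc1234560_3

theorem hdc1234560_4_0 : HD c1234560 hc1234560 4 [(9, 0x146)] := hd_cons hd_nil ec1234560_4_0

theorem hdc1234560_4_1 : HD c1234560 hc1234560 4 [(9, 0x292), (9, 0x146)] := hd_cons hdc1234560_4_0 ec1234560_4_1

theorem hdc1234560_4_2 : HD c1234560 hc1234560 4 [(9, 0xa54), (9, 0x292), (9, 0x146)] := hd_cons hdc1234560_4_1 ec1234560_4_2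

theorem hdc1234560_4_3 : HD c1234560 hc1234560 4 [(9, 0x294), (9, 0xa54), (9, 0x292), (9, 0x146)] := hd_cons hdc1234560_4_2 ec1234560_4_3

theorem hdc1234560_4_4 : HD c1234560 hc1234560 4 [(9, 0x14b), (9, 0x294), (9, 0xa54), (9, 0x292), (9, 0x146)] := hd_cons hdc1234560_4_3 ec1234560_4_4

theorem hdc1234560_4_5 : HD c1234560 hc1234560 4 [(9, 0xa4), (9, 0x14b), (9, 0x294), (9, 0xa54), (9, 0x292), (9, 0x146)] := hd_cons hdc1234560_4_4 ec1234560_4_5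

theorem hdc1234560_4_6 : HD c1234560 hc1234560 4 [(9, 0x53), (9, 0xa4), (9, 0x14b), (9, 0x294), (9, 0xa54), (9, 0x292), (9, 0x146)] := hd_cons hdc1234560_4_5 ec1234560_4_6

theorem hdc1234560_4_7 : HD c1234560 hc1234560 4 [(9, 0x28), (9, 0x53), (9, 0xa4), (9, 0x14b), (9, 0x294), (9, 0xa54), (9, 0x292), (9, 0x146)] := hd_cons hdc1234560_4_6 ec1234560_4_7

theorem hdc1234560_4_8 : HD c1234560 hc1234560 4 [(13, 0x35), (9, 0x28), (9, 0x53), (9, 0xa4), (9, 0x14b), (9, 0x294), (9, 0xa54), (9, 0x292), (9, 0x146)] := hd_cons hdc1234560_4_7 ec1234560_4_8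

theorem hdc1234560_4_9 : HD c1234560 hc1234560 4 [(9, 0x15), (13, 0x35), (9, 0x28), (9, 0x53), (9, 0xa4), (9, 0x14b), (9, 0x294), (9, 0xa54), (9, 0x292), (9, 0x146)] := hd_cons hdc1234560_4_8 ec1234560_4_9

theorem rdc1234560_4 : RD c1234560 hc1234560 4 := rd_of hdc1234560_4_9 ec1234560_4_10

theorem rac1234560_5 : RA c1234560 hc1234560 5 := ra_succ rac1234560_4 rdc1234560_4

theorem hdc1234560_5_0 : HD c1234560 hc1234560 5 [(15, 0x6)] := hd_cons hd_nil ec1234560_5_0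

theorem hdc1234560_5_1 : HD c1234560 hc1234560 5 [(15, 0x5), (15, 0x6)] := hd_cons hdc1234560_5_0 ec1234560_5_1

theorem hdc1234560_5_2 : HD c1234560 hc1234560 5 [(14, 0x3), (15, 0x5), (15, 0x6)] := hd_cons hdc1234560_5_1 ec1234560_5_2

theorem rdc1234560_5 : RD c1234560 hc1234560 5 := rd_of hdc1234560_5_2 ec1234560_5_3

theorem rac1234560_6 : RA c1234560 hc1234560 6 := ra_succ rac1234560_5 rdc1234560_5

theorem hdc1234560_6_0 : HD c1234560 hc1234560 6 [(17, 0x36)] := hd_cons hd_nil ec1234560_6_0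

theorem hdc1234560_6_1 : HD c1234560 hc1234560 6 [(19, 0x17), (17, 0x36)] := hd_cons hdc1234560_6_0 ec1234560_6_1

theorem rdc1234560_6 : RD c1234560 hc1234560 6 := rd_of hdc1234560_6_1 ec1234560_6_2

theorem rac1234560_7 : RA c1234560 hc1234560 7 := ra_succ rac1234560_6 rdc1234560_6

theorem rac1234560_21 : RA c1234560 hc1234560 21 := ra_rng rac1234560_7 ec1234560_7

/-- the golden windows -/
def gwc1234560 : List (ℕ × ℕ) :=
  [(7, 0x5525556d5), (3, 0x6a4aaadaa), (8, 0x549555b55), (12, 0x692aab6aa), (15, 0x525556d55), (14, 0x64aaadaaa), (5, 0x49555b555), (9, 0x52aab6aaa), (10, 0x65556d554), (4, 0x4aaadaaa9), (20, 0x5555b5552), (19, 0x6aab6aaa4), (12, 0x5556d5549), (11, 0x6aadaaa92), (14, 0x555b55525), (13, 0x6ab6aaa4a), (9, 0x556d55495), (10, 0x6adaaa92a), (4, 0x55b555255), (20, 0x6b6aaa4aa), (16, 0x56d554955), (15, 0x6daaa92aa), (17, 0x5b5552555), (5, 0x76aaa4aaa), (6, 0x6d5549555),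 (7, 0x5aaa92aab), (3, 0x755525556), (8, 0x6aaa4aaad), (13, 0x55549555b), (16, 0x6aa92aab6), (18, 0x55525556d), (17, 0x6aa4aaada), (19, 0x5549555b5), (6, 0x6a92aab6a)]

theorem hsc1234560_0 : HD c1234560 fc1234560 0 [] := hd_nil

theorem hsc1234560_1 : HD c1234560 fc1234560 0 [(7, 0xaa4aaadab)] :=
  hd_cons0 hsc1234560_0 sc1234560_0

theorem hsc1234560_2 : HD c1234560 fc1234560 0 [(3, 0xd49555b54), (7, 0xaa4aaadab)] :=
  hd_cons0 hsc1234560_1 sc1234560_1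

theorem hsc1234560_3 : HD c1234560 fc1234560 0 [(8, 0xa92aab6ab), (3, 0xd49555b54), (7, 0xaa4aaadab)] :=
  hd_cons0 hsc1234560_2 sc1234560_2

theorem hsc1234560_4 : HD c1234560 fc1234560 0 [(12, 0xd25556d54), (8, 0xa92aab6ab), (3, 0xd49555b54), (7, 0xaa4aaadab)] :=
  hd_cons0 hsc1234560_3 sc1234560_3

theorem hsc1234560_5 : HD c1234560 fc1234560 0 [(15, 0xa4aaadaab), (12, 0xd25556d54), (8, 0xa92aab6ab), (3, 0xd49555b54), (7, 0xaa4aaadab)] :=
  hd_cons0 hsc1234560_4 sc1234560_4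

theorem hsc1234560_6 : HD c1234560 fc1234560 0 [(14, 0xc9555b554), (15, 0xa4aaadaab), (12, 0xd25556d54), (8, 0xa92aab6ab), (3, 0xd49555b54), (7, 0xaa4aaadab)] :=
  hd_cons0 hsc1234560_5 sc1234560_5

theorem hsc1234560_7 : HD c1234560 fc1234560 0 [(5, 0x92aab6aab), (14, 0xc9555b554), (15, 0xa4aaadaab), (12, 0xd25556d54), (8, 0xa92aab6ab), (3, 0xd49555b54), (7, 0xaa4aaadab)] :=
  hd_cons0 hsc1234560_6 sc1234560_6

theorem hsc1234560_8 : HD c1234560 fc1234560 0 [(9, 0xa5556d555), (5, 0x92aab6aab), (14, 0xc9555b554), (15, 0xa4aaadaab), (12, 0xd25556d54), (8, 0xa92aab6ab), (3, 0xd49555b54), (7, 0xaa4aaadab)] :=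
  hd_cons0 hsc1234560_7 sc1234560_7

theorem hsc1234560_9 : HD c1234560 fc1234560 0 [(10, 0xcaaadaaa8), (9, 0xa5556d555), (5, 0x92aab6aab), (14, 0xc9555b554), (15, 0xa4aaadaab), (12, 0xd25556d54), (8, 0xa92aab6ab), (3, 0xd49555b54), (7, 0xaa4aaadab)] :=
  hd_cons0 hsc1234560_8 sc1234560_8

theorem hsc1234560_10 : HD c1234560 fc1234560 0 [(4, 0x9555b5553), (10, 0xcaaadaaa8), (9, 0xa5556d555), (5, 0x92aab6aab), (14, 0xc9555b554), (15, 0xa4aaadaab), (12, 0xd25556d54), (8, 0xa92aab6ab), (3, 0xd49555b54), (7, 0xaa4aaadab)] :=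
  hd_cons0 hsc1234560_9 sc1234560_9

theorem hsc1234560_11 : HD c1234560 fc1234560 0 [(20, 0xaaab6aaa5), (4, 0x9555b5553), (10, 0xcaaadaaa8), (9, 0xa5556d555), (5, 0x92aab6aab), (14, 0xc9555b554), (15, 0xa4aaadaab), (12, 0xd25556d54), (8, 0xa92aab6ab), (3, 0xd49555b54), (7, 0xaa4aaadab)] :=
  hd_cons0 hsc1234560_10 sc1234560_10

theorem hsc1234560_12 : HD c1234560 fc1234560 0 [(19, 0xd556d5548), (20, 0xaaab6aaa5), (4, 0x9555b5553), (10, 0xcaaadaaa8), (9, 0xa5556d555), (5, 0x92aab6aab), (14, 0xc9555b554), (15, 0xa4aaadaab), (12, 0xd25556d54), (8, 0xa92aab6ab), (3, 0xd49555b54), (7, 0xaa4aaadab)] :=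
  hd_cons0 hsc1234560_11 sc1234560_11

theorem hsc1234560_13 : HD c1234560 fc1234560 0 [(12, 0xaaadaaa93), (19, 0xd556d5548), (20, 0xaaab6aaa5), (4, 0x9555b5553), (10, 0xcaaadaaa8), (9, 0xa5556d555), (5, 0x92aab6aab), (14, 0xc9555b554), (15, 0xa4aaadaab), (12, 0xd25556d54), (8, 0xa92aab6ab), (3, 0xd49555b54), (7, 0xaa4aaadab)] :=
  hd_cons0 hsc1234560_12 sc1234560_12

theorem hsc1234560_14 : HD c1234560 fc1234560 0 [(11, 0xd55b55524), (12, 0xaaadaaa93), (19, 0xd556d5548), (20, 0xaaab6aaa5), (4, 0x9555b5553), (10, 0xcaaadaaa8), (9, 0xa5556d555), (5, 0x92aab6aab), (14, 0xc9555b554), (15, 0xa4aaadaab), (12, 0xd25556d54), (8, 0xa92aab6ab), (3, 0xd49555b54), (7, 0xaa4aaadab)] :=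
  hd_cons0 hsc1234560_13 sc1234560_13

theorem hsc1234560_15 : HD c1234560 fc1234560 0 [(14, 0xaab6aaa4b), (11, 0xd55b55524), (12, 0xaaadaaa93), (19, 0xd556d5548), (20, 0xaaab6aaa5), (4, 0x9555b5553), (10, 0xcaaadaaa8), (9, 0xa5556d555), (5, 0x92aab6aab), (14, 0xc9555b554), (15, 0xa4aaadaab), (12, 0xd25556d54), (8, 0xa92aab6ab), (3, 0xd49555b54), (7, 0xaa4aaadab)] :=
  hd_cons0 hsc1234560_14 sc1234560_14

theorem hsc1234560_16 : HD c1234560 fc1234560 0 [(13, 0xd56d55494), (14, 0xaab6aaa4b), (11, 0xd55b55524), (12, 0xaaadaaa93), (19, 0xd556d5548), (20, 0xaaab6aaa5), (4, 0x9555b5553), (10, 0xcaaadaaa8), (9, 0xa5556d555), (5, 0x92aab6aab), (14, 0xc9555b554), (15, 0xa4aaadaab), (12, 0xd25556d54), (8, 0xa92aab6ab), (3, 0xd49555b54), (7, 0xaa4aaadab)] :=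
  hd_cons0 hsc1234560_15 sc1234560_15

theorem hsc1234560_17 : HD c1234560 fc1234560 0 [(9, 0xaadaaa92b), (13, 0xd56d55494), (14, 0xaab6aaa4b), (11, 0xd55b55524), (12, 0xaaadaaa93), (19, 0xd556d5548), (20, 0xaaab6aaa5), (4, 0x9555b5553), (10, 0xcaaadaaa8), (9, 0xa5556d555), (5, 0x92aab6aab), (14, 0xc9555b554), (15, 0xa4aaadaab), (12, 0xd25556d54), (8, 0xa92aab6ab), (3, 0xd49555b54), (7, 0xaa4aaadab)] :=
  hd_cons0 hsc1234560_16 sc1234560_16

theorem hsc1234560_18 : HD c1234560 fc1234560 0 [(10, 0xd5b555254), (9, 0xaadaaa92b), (13, 0xd56d55494), (14, 0xaab6aaa4b), (11, 0xd55b55524), (12, 0xaaadaaa93), (19, 0xd556d5548), (20, 0xaaab6aaa5), (4, 0x9555b5553), (10, 0xcaaadaaa8), (9, 0xa5556d555), (5, 0x92aab6aab), (14, 0xc9555b554), (15, 0xa4aaadaab), (12, 0xd25556d54), (8, 0xa92aab6ab), (3, 0xd49555b54), (7, 0xaa4aaadab)] :=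
  hd_cons0 hsc1234560_17 sc1234560_17

theorem hsc1234560_19 : HD c1234560 fc1234560 0 [(4, 0xab6aaa4ab), (10, 0xd5b555254), (9, 0xaadaaa92b), (13, 0xd56d55494), (14, 0xaab6aaa4b), (11, 0xd55b55524), (12, 0xaaadaaa93), (19, 0xd556d5548), (20, 0xaaab6aaa5), (4, 0x9555b5553), (10, 0xcaaadaaa8), (9, 0xa5556d555), (5, 0x92aab6aab), (14, 0xc9555b554), (15, 0xa4aaadaab), (12, 0xd25556d54), (8, 0xa92aab6ab), (3, 0xd49555b54), (7, 0xaa4aaadab)] :=
  hd_cons0 hsc1234560_18 sc1234560_18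

theorem hsc1234560_20 : HD c1234560 fc1234560 0 [(20, 0xd6d554954), (4, 0xab6aaa4ab), (10, 0xd5b555254), (9, 0xaadaaa92b), (13, 0xd56d55494), (14, 0xaab6aaa4b), (11, 0xd55b55524), (12, 0xaaadaaa93), (19, 0xd556d5548), (20, 0xaaab6aaa5), (4, 0x9555b5553), (10, 0xcaaadaaa8), (9, 0xa5556d555), (5, 0x92aab6aab), (14, 0xc9555b554), (15, 0xa4aaadaab), (12, 0xd25556d54), (8, 0xa92aab6ab), (3, 0xd49555b54), (7, 0xaa4aaadab)] :=
  hd_cons0 hsc1234560_19 sc1234560_19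

theorem hsc1234560_21 : HD c1234560 fc1234560 0 [(16, 0xadaaa92ab), (20, 0xd6d554954), (4, 0xab6aaa4ab), (10, 0xd5b555254), (9, 0xaadaaa92b), (13, 0xd56d55494), (14, 0xaab6aaa4b), (11, 0xd55b55524), (12, 0xaaadaaa93), (19, 0xd556d5548), (20, 0xaaab6aaa5), (4, 0x9555b5553), (10, 0xcaaadaaa8), (9, 0xa5556d555), (5, 0x92aab6aab), (14, 0xc9555b554), (15, 0xa4aaadaab), (12, 0xd25556d54), (8, 0xa92aab6ab), (3, 0xd49555b54), (7, 0xaa4aaadab)] :=
  hd_cons0 hsc1234560_20 sc1234560_20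

theorem hsc1234560_22 : HD c1234560 fc1234560 0 [(15, 0xdb5552554), (16, 0xadaaa92ab), (20, 0xd6d554954), (4, 0xab6aaa4ab), (10, 0xd5b555254), (9, 0xaadaaa92b), (13, 0xd56d55494), (14, 0xaab6aaa4b), (11, 0xd55b55524), (12, 0xaaadaaa93), (19, 0xd556d5548), (20, 0xaaab6aaa5), (4, 0x9555b5553), (10, 0xcaaadaaa8), (9, 0xa5556d555), (5, 0x92aab6aab), (14, 0xc9555b554), (15, 0xa4aaadaab), (12, 0xd25556d54), (8, 0xa92aab6ab), (3, 0xd49555b54), (7, 0xaa4aaadab)] :=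
  hd_cons0 hsc1234560_21 sc1234560_21

theorem hsc1234560_23 : HD c1234560 fc1234560 0 [(17, 0xb6aaa4aab), (15, 0xdb5552554), (16, 0xadaaa92ab), (20, 0xd6d554954), (4, 0xab6aaa4ab), (10, 0xd5b555254), (9, 0xaadaaa92b), (13, 0xd56d55494), (14, 0xaab6aaa4b), (11, 0xd55b55524), (12, 0xaaadaaa93), (19, 0xd556d5548), (20, 0xaaab6aaa5), (4, 0x9555b5553), (10, 0xcaaadaaa8), (9, 0xa5556d555), (5, 0x92aab6aab), (14, 0xc9555b554), (15, 0xa4aaadaab), (12, 0xd25556d54), (8, 0xa92aab6ab), (3, 0xd49555b54), (7, 0xaa4aaadab)] :=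
  hd_cons0 hsc1234560_22 sc1234560_22

theorem hsc1234560_24 : HD c1234560 fc1234560 0 [(5, 0xed5549554), (17, 0xb6aaa4aab), (15, 0xdb5552554), (16, 0xadaaa92ab), (20, 0xd6d554954), (4, 0xab6aaa4ab), (10, 0xd5b555254), (9, 0xaadaaa92b), (13, 0xd56d55494), (14, 0xaab6aaa4b), (11, 0xd55b55524), (12, 0xaaadaaa93), (19, 0xd556d5548), (20, 0xaaab6aaa5), (4, 0x9555b5553), (10, 0xcaaadaaa8), (9, 0xa5556d555), (5, 0x92aab6aab), (14, 0xc9555b554), (15, 0xa4aaadaab), (12, 0xd25556d54), (8, 0xa92aab6ab), (3, 0xd49555b54), (7, 0xaa4aaadab)] :=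
  hd_cons0 hsc1234560_23 sc1234560_23

theorem hsc1234560_25 : HD c1234560 fc1234560 0 [(6, 0xdaaa92aaa), (5, 0xed5549554), (17, 0xb6aaa4aab), (15, 0xdb5552554), (16, 0xadaaa92ab), (20, 0xd6d554954), (4, 0xab6aaa4ab), (10, 0xd5b555254), (9, 0xaadaaa92b), (13, 0xd56d55494), (14, 0xaab6aaa4b), (11, 0xd55b55524), (12, 0xaaadaaa93), (19, 0xd556d5548), (20, 0xaaab6aaa5), (4, 0x9555b5553), (10, 0xcaaadaaa8), (9, 0xa5556d555), (5, 0x92aab6aab), (14, 0xc9555b554), (15, 0xa4aaadaab), (12, 0xd25556d54), (8, 0xa92aab6ab), (3, 0xd49555b54), (7, 0xaa4aaadab)] :=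
  hd_cons0 hsc1234560_24 sc1234560_24

theorem hsc1234560_26 : HD c1234560 fc1234560 0 [(7, 0xb55525557), (6, 0xdaaa92aaa), (5, 0xed5549554), (17, 0xb6aaa4aab), (15, 0xdb5552554), (16, 0xadaaa92ab), (20, 0xd6d554954), (4, 0xab6aaa4ab), (10, 0xd5b555254), (9, 0xaadaaa92b), (13, 0xd56d55494), (14, 0xaab6aaa4b), (11, 0xd55b55524), (12, 0xaaadaaa93), (19, 0xd556d5548), (20, 0xaaab6aaa5), (4, 0x9555b5553), (10, 0xcaaadaaa8), (9, 0xa5556d555), (5, 0x92aab6aab), (14, 0xc9555b554), (15, 0xa4aaadaab), (12, 0xd25556d54), (8, 0xa92aab6ab), (3, 0xd49555b54), (7, 0xaa4aaadab)] :=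
  hd_cons0 hsc1234560_25 sc1234560_25

theorem hsc1234560_27 : HD c1234560 fc1234560 0 [(3, 0xeaaa4aaac), (7, 0xb55525557), (6, 0xdaaa92aaa), (5, 0xed5549554), (17, 0xb6aaa4aab), (15, 0xdb5552554), (16, 0xadaaa92ab), (20, 0xd6d554954), (4, 0xab6aaa4ab), (10, 0xd5b555254), (9, 0xaadaaa92b), (13, 0xd56d55494), (14, 0xaab6aaa4b), (11, 0xd55b55524), (12, 0xaaadaaa93), (19, 0xd556d5548), (20, 0xaaab6aaa5), (4, 0x9555b5553), (10, 0xcaaadaaa8), (9, 0xa5556d555), (5, 0x92aab6aab), (14, 0xc9555b554), (15, 0xa4aaadaab), (12, 0xd25556d54), (8, 0xa92aab6ab), (3, 0xd49555b54), (7, 0xaa4aaadab)] :=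
  hd_cons0 hsc1234560_26 sc1234560_26

theorem hsc1234560_28 : HD c1234560 fc1234560 0 [(8, 0xd5549555a), (3, 0xeaaa4aaac), (7, 0xb55525557), (6, 0xdaaa92aaa), (5, 0xed5549554), (17, 0xb6aaa4aab), (15, 0xdb5552554), (16, 0xadaaa92ab), (20, 0xd6d554954), (4, 0xab6aaa4ab), (10, 0xd5b555254), (9, 0xaadaaa92b), (13, 0xd56d55494), (14, 0xaab6aaa4b), (11, 0xd55b55524), (12, 0xaaadaaa93), (19, 0xd556d5548), (20, 0xaaab6aaa5), (4, 0x9555b5553), (10, 0xcaaadaaa8), (9, 0xa5556d555), (5, 0x92aab6aab), (14, 0xc9555b554), (15, 0xa4aaadaab), (12, 0xd25556d54), (8, 0xa92aab6ab), (3, 0xd49555b54), (7, 0xaa4aaadab)] :=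
  hd_cons0 hsc1234560_27 sc1234560_27

theorem hsc1234560_29 : HD c1234560 fc1234560 0 [(13, 0xaaa92aab7), (8, 0xd5549555a), (3, 0xeaaa4aaac), (7, 0xb55525557), (6, 0xdaaa92aaa), (5, 0xed5549554), (17, 0xb6aaa4aab), (15, 0xdb5552554), (16, 0xadaaa92ab), (20, 0xd6d554954), (4, 0xab6aaa4ab), (10, 0xd5b555254), (9, 0xaadaaa92b), (13, 0xd56d55494), (14, 0xaab6aaa4b), (11, 0xd55b55524), (12, 0xaaadaaa93), (19, 0xd556d5548), (20, 0xaaab6aaa5), (4, 0x9555b5553), (10, 0xcaaadaaa8), (9, 0xa5556d555), (5, 0x92aab6aab), (14, 0xc9555b554), (15, 0xa4aaadaab), (12, 0xd25556d54), (8, 0xa92aab6ab), (3, 0xd49555b54), (7, 0xaa4aaadab)] :=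
  hd_cons0 hsc1234560_28 sc1234560_28

theorem hsc1234560_30 : HD c1234560 fc1234560 0 [(16, 0xd5525556c), (13, 0xaaa92aab7), (8, 0xd5549555a), (3, 0xeaaa4aaac), (7, 0xb55525557), (6, 0xdaaa92aaa), (5, 0xed5549554), (17, 0xb6aaa4aab), (15, 0xdb5552554), (16, 0xadaaa92ab), (20, 0xd6d554954), (4, 0xab6aaa4ab), (10, 0xd5b555254), (9, 0xaadaaa92b), (13, 0xd56d55494), (14, 0xaab6aaa4b), (11, 0xd55b55524), (12, 0xaaadaaa93), (19, 0xd556d5548), (20, 0xaaab6aaa5), (4, 0x9555b5553), (10, 0xcaaadaaa8), (9, 0xa5556d555), (5, 0x92aab6aab), (14, 0xc9555b554), (15, 0xa4aaadaab), (12, 0xd25556d54), (8, 0xa92aab6ab), (3, 0xd49555b54), (7, 0xaa4aaadab)] :=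
  hd_cons0 hsc1234560_29 sc1234560_29

theorem hsc1234560_31 : HD c1234560 fc1234560 0 [(18, 0xaaa4aaadb), (16, 0xd5525556c), (13, 0xaaa92aab7), (8, 0xd5549555a), (3, 0xeaaa4aaac), (7, 0xb55525557), (6, 0xdaaa92aaa), (5, 0xed5549554), (17, 0xb6aaa4aab), (15, 0xdb5552554), (16, 0xadaaa92ab), (20, 0xd6d554954), (4, 0xab6aaa4ab), (10, 0xd5b555254), (9, 0xaadaaa92b), (13, 0xd56d55494), (14, 0xaab6aaa4b), (11, 0xd55b55524), (12, 0xaaadaaa93), (19, 0xd556d5548), (20, 0xaaab6aaa5), (4, 0x9555b5553), (10, 0xcaaadaaa8), (9, 0xa5556d555), (5, 0x92aab6aab), (14, 0xc9555b554), (15, 0xa4aaadaab), (12, 0xd25556d54), (8, 0xa92aab6ab), (3, 0xd49555b54), (7, 0xaa4aaadab)] :=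
  hd_cons0 hsc1234560_30 sc1234560_30

theorem hsc1234560_32 : HD c1234560 fc1234560 0 [(17, 0xd549555b4), (18, 0xaaa4aaadb), (16, 0xd5525556c), (13, 0xaaa92aab7), (8, 0xd5549555a), (3, 0xeaaa4aaac), (7, 0xb55525557), (6, 0xdaaa92aaa), (5, 0xed5549554), (17, 0xb6aaa4aab), (15, 0xdb5552554), (16, 0xadaaa92ab), (20, 0xd6d554954), (4, 0xab6aaa4ab), (10, 0xd5b555254), (9, 0xaadaaa92b), (13, 0xd56d55494), (14, 0xaab6aaa4b), (11, 0xd55b55524), (12, 0xaaadaaa93), (19, 0xd556d5548), (20, 0xaaab6aaa5), (4, 0x9555b5553), (10, 0xcaaadaaa8), (9, 0xa5556d555), (5, 0x92aab6aab), (14, 0xc9555b554), (15, 0xa4aaadaab), (12, 0xd25556d54), (8, 0xa92aab6ab), (3, 0xd49555b54), (7, 0xaa4aaadab)] :=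
  hd_cons0 hsc1234560_31 sc1234560_31

theorem hsc1234560_33 : HD c1234560 fc1234560 0 [(19, 0xaa92aab6b), (17, 0xd549555b4), (18, 0xaaa4aaadb), (16, 0xd5525556c), (13, 0xaaa92aab7), (8, 0xd5549555a), (3, 0xeaaa4aaac), (7, 0xb55525557), (6, 0xdaaa92aaa), (5, 0xed5549554), (17, 0xb6aaa4aab), (15, 0xdb5552554), (16, 0xadaaa92ab), (20, 0xd6d554954), (4, 0xab6aaa4ab), (10, 0xd5b555254), (9, 0xaadaaa92b), (13, 0xd56d55494), (14, 0xaab6aaa4b), (11, 0xd55b55524), (12, 0xaaadaaa93), (19, 0xd556d5548), (20, 0xaaab6aaa5), (4, 0x9555b5553), (10, 0xcaaadaaa8), (9, 0xa5556d555), (5, 0x92aab6aab), (14, 0xc9555b554), (15, 0xa4aaadaab), (12, 0xd25556d54), (8, 0xa92aab6ab), (3, 0xd49555b54), (7, 0xaa4aaadab)] :=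
  hd_cons0 hsc1234560_32 sc1234560_32

theorem hsc1234560_34 : HD c1234560 fc1234560 0 [(6, 0xd525556d4), (19, 0xaa92aab6b), (17, 0xd549555b4), (18, 0xaaa4aaadb), (16, 0xd5525556c), (13, 0xaaa92aab7), (8, 0xd5549555a), (3, 0xeaaa4aaac), (7, 0xb55525557), (6, 0xdaaa92aaa), (5, 0xed5549554), (17, 0xb6aaa4aab), (15, 0xdb5552554), (16, 0xadaaa92ab), (20, 0xd6d554954), (4, 0xab6aaa4ab), (10, 0xd5b555254), (9, 0xaadaaa92b), (13, 0xd56d55494), (14, 0xaab6aaa4b), (11, 0xd55b55524), (12, 0xaaadaaa93), (19, 0xd556d5548), (20, 0xaaab6aaa5), (4, 0x9555b5553), (10, 0xcaaadaaa8), (9, 0xa5556d555), (5, 0x92aab6aab), (14, 0xc9555b554), (15, 0xa4aaadaab), (12, 0xd25556d54), (8, 0xa92aab6ab), (3, 0xd49555b54), (7, 0xaa4aaadab)] :=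
  hd_cons0 hsc1234560_33 sc1234560_33

/-- the golden windows with a wrong step -/
def hlc1234560 : List (ℕ × ℕ) :=
  [(6, 0xd525556d4), (19, 0xaa92aab6b), (17, 0xd549555b4), (18, 0xaaa4aaadb), (16, 0xd5525556c), (13, 0xaaa92aab7), (8, 0xd5549555a), (3, 0xeaaa4aaac), (7, 0xb55525557), (6, 0xdaaa92aaa), (5, 0xed5549554), (17, 0xb6aaa4aab), (15, 0xdb5552554), (16, 0xadaaa92ab), (20, 0xd6d554954), (4, 0xab6aaa4ab), (10, 0xd5b555254), (9, 0xaadaaa92b), (13, 0xd56d55494), (14, 0xaab6aaa4b), (11, 0xd55b55524), (12, 0xaaadaaa93), (19, 0xd556d5548), (20, 0xaaab6aaa5), (4, 0x9555b5553), (10, 0xcaaadaaa8), (9, 0xa5556d555), (5, 0x92aab6aab), (14, 0xc9555b554), (15, 0xa4aaadaab), (12, 0xd25556d54), (8, 0xa92aab6ab), (3, 0xd49555b54), (7, 0xaa4aaadab)]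

theorem gtc1234560 : gtB gwc1234560 gc1234560 = true := by decide +kernel

theorem gnc1234560 : gnOK c1234560 par7.gp.length gwc1234560 hlc1234560 = true := by decide +kernel

theorem gvc1234560 : vxL par7.d c1234560.VT (gwc1234560.getD 0 (0, 0)).1 = par7.g0 := by decide +kernel

theorem gcc1234560 : (gwc1234560.getD 0 (0, 0)).2 = encG par7.gp.reverse := by decide +kernel

theorem kc1234560 : clsOK par7.d c1234560 = true := by decide +kernel

theorem gold_c1234560 : ClsG par7 c1234560 := fun _ 𝒮 _ hi h0 =>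
  cls_gold kc1234560 afc1234560 rac1234560_21 gtc1234560 hsc1234560_34 gnc1234560 (by decide) (by decide) gvc1234560 gcc1234560 𝒮 hi h0

end Pool.Agent.RTX
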