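import Pool.Agent.RTS7.W_1234605_0
import Pool.Agent.RTS7.W_1234605_1
import Pool.Agent.RTS7.W_1234605_2
import Pool.Agent.RTS7.W_1234605_3
import Pool.Agent.RTS7.W_1234605_4
import Pool.Agent.RTS7.W_1234605_5
import Pool.Agent.RTS7.W_1234605_6
import Pool.Agent.RTS7.W_1234605_7
import Pool.Agent.RTS7.W_1234605_8
import Pool.Agent.RTS7.W_1234605_9
import Pool.Agent.RTS7.W_1234605_10
import Pool.Agent.RTS7.W_1234605_11
import Pool.Agent.RTS7.W_1234605_12
import Pool.Agent.RTS7.E_1234605_0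
import Pool.Agent.RTS7.E_1234605_1
import Pool.Agent.RTS7.E_1234605_2
import Pool.Agent.RTS7.E_1234605_3

/-!
# RTS7: class of the permutation 1234605
-/

set_option autoImplicit false
set_option maxRecDepth 100000

namespace Pool.Agent.RTX

theorem afc1234605000 : Tre.All (PceOK par7 c1234605.VT) fc1234605000 := Tre.all_nd (Tre.all_nd (Tre.all_nd (Tre.all_nd (Tre.all_nd (Tre.all_nd (Tre.all_lf (batP_ok par7_ok wc1234605_0)) (Tre.all_lf (batP_ok par7_ok wc1234605_256))) (Tre.all_nd (Tre.all_lf (batP_ok par7_ok wc1234605_128)) (Tre.all_lf (batP_ok par7_ok wc1234605_384)))) (Tre.all_nd (Tre.all_nd (Tre.all_lf (batP_ok par7_ok wc1234605_64)) (Tre.all_lf (batP_ok par7_ok wc1234605_320))) (Tre.all_nd (Tre.all_lf (batP_ok par7_ok wc1234605_192)) (Tre.all_lf (batP_ok par7_ok wc1234605_448))))) (Tre.all_nd (Tre.all_nd (Tre.all_nd (Tre.all_lf (batP_ok par7_ok wc1234605_32)) (Tre.all_lf (batP_ok par7_ok wc1234605_288))) (Tre.all_nd (Tre.all_lf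 (batP_ok par7_ok wc1234605_160)) (Tre.all_lf (batP_ok par7_ok wc1234605_416)))) (Tre.all_nd (Tre.all_nd (Tre.all_lf (batP_ok par7_ok wc1234605_96)) (Tre.all_lf (batP_ok par7_ok wc1234605_352))) (Tre.all_nd (Tre.all_lf (batP_ok par7_ok wc1234605_224)) (Tre.all_lf (batP_ok par7_ok wc1234605_480)))))) (Tre.all_nd (Tre.all_nd (Tre.all_nd (Tre.all_nd (Tre.all_lf (batP_ok par7_ok wc1234605_16)) (Tre.all_lf (batP_ok par7_ok wc1234605_272))) (Tre.all_nd (Tre.all_lf (batP_ok par7_ok wc1234605_144)) (Tre.all_lf (batP_ok par7_ok wc1234605_400)))) (Tre.all_nd (Tre.all_nd (Tre.all_lf (batP_ok par7_ok wc1234605_80)) (Tre.all_lf (batP_ok par7_ok wc1234605_336))) (Tre.all_nd (Tre.all_lf (batP_ok par7_ok wc1234605_208)) (Tre.all_lf (batP_ok par7_ok wc1234605_464))))) (Tre.all_nd (Tre.all_nd (Tre.all_nd (Tre.all_lf (batP_ok par7_ok wc1234605_48)) (Tre.all_lf (batP_ok par7_ok wc1234605_304))) (Tre.all_nd (Tre.all_lf (batP_ok par7_ok wc1234605_176))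 (Tre.all_lf (batP_ok par7_ok wc1234605_432)))) (Tre.all_nd (Tre.all_nd (Tre.all_lf (batP_ok par7_ok wc1234605_112)) (Tre.all_lf (batP_ok par7_ok wc1234605_368))) (Tre.all_nd (Tre.all_lf (batP_ok par7_ok wc1234605_240)) (Tre.all_lf (batP_ok par7_ok wc1234605_496))))))) (Tre.all_nd (Tre.all_nd (Tre.all_nd (Tre.all_nd (Tre.all_nd (Tre.all_lf (batP_ok par7_ok wc1234605_8)) (Tre.all_lf (batP_ok par7_ok wc1234605_264))) (Tre.all_nd (Tre.all_lf (batP_ok par7_ok wc1234605_136)) (Tre.all_lf (batP_ok par7_ok wc1234605_392)))) (Tre.all_nd (Tre.all_nd (Tre.all_lf (batP_ok par7_ok wc1234605_72)) (Tre.all_lf (batP_ok par7_ok wc1234605_328))) (Tre.all_nd (Tre.all_lf (batP_ok par7_ok wc1234605_200)) (Tre.all_lf (batP_ok par7_ok wc1234605_456))))) (Tre.all_nd (Tre.all_nd (Tre.all_nd (Tre.all_lf (batP_ok par7_ok wc1234605_40)) (Tre.all_lf (batP_ok par7_ok wc1234605_296))) (Tre.all_nd (Tre.all_lf (batP_ok par7_ok wc1234605_168)) (Tre.all_lf (batP_ok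 par7_ok wc1234605_424)))) (Tre.all_nd (Tre.all_nd (Tre.all_lf (batP_ok par7_ok wc1234605_104)) (Tre.all_lf (batP_ok par7_ok wc1234605_360))) (Tre.all_nd (Tre.all_lf (batP_ok par7_ok wc1234605_232)) (Tre.all_lf (batP_ok par7_ok wc1234605_488)))))) (Tre.all_nd (Tre.all_nd (Tre.all_nd (Tre.all_nd (Tre.all_lf (batP_ok par7_ok wc1234605_24)) (Tre.all_lf (batP_ok par7_ok wc1234605_280))) (Tre.all_nd (Tre.all_lf (batP_ok par7_ok wc1234605_152)) (Tre.all_lf (batP_ok par7_ok wc1234605_408)))) (Tre.all_nd (Tre.all_nd (Tre.all_lf (batP_ok par7_ok wc1234605_88)) (Tre.all_lf (batP_ok par7_ok wc1234605_344))) (Tre.all_nd (Tre.all_lf (batP_ok par7_ok wc1234605_216)) (Tre.all_lf (batP_ok par7_ok wc1234605_472))))) (Tre.all_nd (Tre.all_nd (Tre.all_nd (Tre.all_lf (batP_ok par7_ok wc1234605_56)) (Tre.all_lf (batP_ok par7_ok wc1234605_312))) (Tre.all_nd (Tre.all_lf (batP_ok par7_ok wc1234605_184)) (Tre.all_lf (batP_ok par7_ok wc1234605_440)))) (Tre.all_nd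 (Tre.all_nd (Tre.all_lf (batP_ok par7_ok wc1234605_120)) (Tre.all_lf (batP_ok par7_ok wc1234605_376))) (Tre.all_lf (batP_ok par7_ok wc1234605_248))))))

theorem afc1234605001 : Tre.All (PceOK par7 c1234605.VT) fc1234605001 := Tre.all_nd (Tre.all_nd (Tre.all_nd (Tre.all_nd (Tre.all_nd (Tre.all_nd (Tre.all_lf (batP_ok par7_ok wc1234605_4)) (Tre.all_lf (batP_ok par7_ok wc1234605_260))) (Tre.all_nd (Tre.all_lf (batP_ok par7_ok wc1234605_132)) (Tre.all_lf (batP_ok par7_ok wc1234605_388)))) (Tre.all_nd (Tre.all_nd (Tre.all_lf (batP_ok par7_ok wc1234605_68)) (Tre.all_lf (batP_ok par7_ok wc1234605_324))) (Tre.all_nd (Tre.all_lf (batP_ok par7_ok wc1234605_196)) (Tre.all_lf (batP_ok par7_ok wc1234605_452))))) (Tre.all_nd (Tre.all_nd (Tre.all_nd (Tre.all_lf (batP_ok par7_ok wc1234605_36)) (Tre.all_lf (batP_ok par7_ok wc1234605_292))) (Tre.all_nd (Tre.all_lf (batP_ok par7_ok wc1234605_164)) (Tre.all_lf (batP_ok par7_ok wc1234605_420)))) (Tre.all_nd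 (Tre.all_nd (Tre.all_lf (batP_ok par7_ok wc1234605_100)) (Tre.all_lf (batP_ok par7_ok wc1234605_356))) (Tre.all_nd (Tre.all_lf (batP_ok par7_ok wc1234605_228)) (Tre.all_lf (batP_ok par7_ok wc1234605_484)))))) (Tre.all_nd (Tre.all_nd (Tre.all_nd (Tre.all_nd (Tre.all_lf (batP_ok par7_ok wc1234605_20)) (Tre.all_lf (batP_ok par7_ok wc1234605_276))) (Tre.all_nd (Tre.all_lf (batP_ok par7_ok wc1234605_148)) (Tre.all_lf (batP_ok par7_ok wc1234605_404)))) (Tre.all_nd (Tre.all_nd (Tre.all_lf (batP_ok par7_ok wc1234605_84)) (Tre.all_lf (batP_ok par7_ok wc1234605_340))) (Tre.all_nd (Tre.all_lf (batP_ok par7_ok wc1234605_212)) (Tre.all_lf (batP_ok par7_ok wc1234605_468))))) (Tre.all_nd (Tre.all_nd (Tre.all_nd (Tre.all_lf (batP_ok par7_ok wc1234605_52)) (Tre.all_lf (batP_ok par7_ok wc1234605_308))) (Tre.all_nd (Tre.all_lf (batP_ok par7_ok wc1234605_180)) (Tre.all_lf (batP_ok par7_ok wc1234605_436)))) (Tre.all_nd (Tre.all_nd (Tre.all_lf (batP_ok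 par7_ok wc1234605_116)) (Tre.all_lf (batP_ok par7_ok wc1234605_372))) (Tre.all_nd (Tre.all_lf (batP_ok par7_ok wc1234605_244)) (Tre.all_lf (batP_ok par7_ok wc1234605_500))))))) (Tre.all_nd (Tre.all_nd (Tre.all_nd (Tre.all_nd (Tre.all_nd (Tre.all_lf (batP_ok par7_ok wc1234605_12)) (Tre.all_lf (batP_ok par7_ok wc1234605_268))) (Tre.all_nd (Tre.all_lf (batP_ok par7_ok wc1234605_140)) (Tre.all_lf (batP_ok par7_ok wc1234605_396)))) (Tre.all_nd (Tre.all_nd (Tre.all_lf (batP_ok par7_ok wc1234605_76)) (Tre.all_lf (batP_ok par7_ok wc1234605_332))) (Tre.all_nd (Tre.all_lf (batP_ok par7_ok wc1234605_204)) (Tre.all_lf (batP_ok par7_ok wc1234605_460))))) (Tre.all_nd (Tre.all_nd (Tre.all_nd (Tre.all_lf (batP_ok par7_ok wc1234605_44)) (Tre.all_lf (batP_ok par7_ok wc1234605_300))) (Tre.all_nd (Tre.all_lf (batP_ok par7_ok wc1234605_172)) (Tre.all_lf (batP_ok par7_ok wc1234605_428)))) (Tre.all_nd (Tre.all_nd (Tre.all_lf (batP_ok par7_ok wc1234605_108))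 (Tre.all_lf (batP_ok par7_ok wc1234605_364))) (Tre.all_nd (Tre.all_lf (batP_ok par7_ok wc1234605_236)) (Tre.all_lf (batP_ok par7_ok wc1234605_492)))))) (Tre.all_nd (Tre.all_nd (Tre.all_nd (Tre.all_nd (Tre.all_lf (batP_ok par7_ok wc1234605_28)) (Tre.all_lf (batP_ok par7_ok wc1234605_284))) (Tre.all_nd (Tre.all_lf (batP_ok par7_ok wc1234605_156)) (Tre.all_lf (batP_ok par7_ok wc1234605_412)))) (Tre.all_nd (Tre.all_nd (Tre.all_lf (batP_ok par7_ok wc1234605_92)) (Tre.all_lf (batP_ok par7_ok wc1234605_348))) (Tre.all_nd (Tre.all_lf (batP_ok par7_ok wc1234605_220)) (Tre.all_lf (batP_ok par7_ok wc1234605_476))))) (Tre.all_nd (Tre.all_nd (Tre.all_nd (Tre.all_lf (batP_ok par7_ok wc1234605_60)) (Tre.all_lf (batP_ok par7_ok wc1234605_316))) (Tre.all_nd (Tre.all_lf (batP_ok par7_ok wc1234605_188)) (Tre.all_lf (batP_ok par7_ok wc1234605_444)))) (Tre.all_nd (Tre.all_nd (Tre.all_lf (batP_ok par7_ok wc1234605_124)) (Tre.all_lf (batP_ok par7_ok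 wc1234605_380))) (Tre.all_lf (batP_ok par7_ok wc1234605_252))))))

theorem afc123460500 : Tre.All (PceOK par7 c1234605.VT) fc123460500 := Tre.all_nd afc1234605000 afc1234605001

theorem afc1234605010 : Tre.All (PceOK par7 c1234605.VT) fc1234605010 := Tre.all_nd (Tre.all_nd (Tre.all_nd (Tre.all_nd (Tre.all_nd (Tre.all_nd (Tre.all_lf (batP_ok par7_ok wc1234605_2)) (Tre.all_lf (batP_ok par7_ok wc1234605_258))) (Tre.all_nd (Tre.all_lf (batP_ok par7_ok wc1234605_130)) (Tre.all_lf (batP_ok par7_ok wc1234605_386)))) (Tre.all_nd (Tre.all_nd (Tre.all_lf (batP_ok par7_ok wc1234605_66)) (Tre.all_lf (batP_ok par7_ok wc1234605_322))) (Tre.all_nd (Tre.all_lf (batP_ok par7_ok wc1234605_194)) (Tre.all_lf (batP_ok par7_ok wc1234605_450))))) (Tre.all_nd (Tre.all_nd (Tre.all_nd (Tre.all_lf (batP_ok par7_ok wc1234605_34)) (Tre.all_lf (batP_ok par7_ok wc1234605_290))) (Tre.all_nd (Tre.all_lf (batP_ok par7_ok wc1234605_162)) (Tre.all_lf (batP_ok par7_ok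 wc1234605_418)))) (Tre.all_nd (Tre.all_nd (Tre.all_lf (batP_ok par7_ok wc1234605_98)) (Tre.all_lf (batP_ok par7_ok wc1234605_354))) (Tre.all_nd (Tre.all_lf (batP_ok par7_ok wc1234605_226)) (Tre.all_lf (batP_ok par7_ok wc1234605_482)))))) (Tre.all_nd (Tre.all_nd (Tre.all_nd (Tre.all_nd (Tre.all_lf (batP_ok par7_ok wc1234605_18)) (Tre.all_lf (batP_ok par7_ok wc1234605_274))) (Tre.all_nd (Tre.all_lf (batP_ok par7_ok wc1234605_146)) (Tre.all_lf (batP_ok par7_ok wc1234605_402)))) (Tre.all_nd (Tre.all_nd (Tre.all_lf (batP_ok par7_ok wc1234605_82)) (Tre.all_lf (batP_ok par7_ok wc1234605_338))) (Tre.all_nd (Tre.all_lf (batP_ok par7_ok wc1234605_210)) (Tre.all_lf (batP_ok par7_ok wc1234605_466))))) (Tre.all_nd (Tre.all_nd (Tre.all_nd (Tre.all_lf (batP_ok par7_ok wc1234605_50)) (Tre.all_lf (batP_ok par7_ok wc1234605_306))) (Tre.all_nd (Tre.all_lf (batP_ok par7_ok wc1234605_178)) (Tre.all_lf (batP_ok par7_ok wc1234605_434)))) (Tre.all_nd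 (Tre.all_nd (Tre.all_lf (batP_ok par7_ok wc1234605_114)) (Tre.all_lf (batP_ok par7_ok wc1234605_370))) (Tre.all_nd (Tre.all_lf (batP_ok par7_ok wc1234605_242)) (Tre.all_lf (batP_ok par7_ok wc1234605_498))))))) (Tre.all_nd (Tre.all_nd (Tre.all_nd (Tre.all_nd (Tre.all_nd (Tre.all_lf (batP_ok par7_ok wc1234605_10)) (Tre.all_lf (batP_ok par7_ok wc1234605_266))) (Tre.all_nd (Tre.all_lf (batP_ok par7_ok wc1234605_138)) (Tre.all_lf (batP_ok par7_ok wc1234605_394)))) (Tre.all_nd (Tre.all_nd (Tre.all_lf (batP_ok par7_ok wc1234605_74)) (Tre.all_lf (batP_ok par7_ok wc1234605_330))) (Tre.all_nd (Tre.all_lf (batP_ok par7_ok wc1234605_202)) (Tre.all_lf (batP_ok par7_ok wc1234605_458))))) (Tre.all_nd (Tre.all_nd (Tre.all_nd (Tre.all_lf (batP_ok par7_ok wc1234605_42)) (Tre.all_lf (batP_ok par7_ok wc1234605_298))) (Tre.all_nd (Tre.all_lf (batP_ok par7_ok wc1234605_170)) (Tre.all_lf (batP_ok par7_ok wc1234605_426)))) (Tre.all_nd (Tre.all_nd (Tre.all_lf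 (batP_ok par7_ok wc1234605_106)) (Tre.all_lf (batP_ok par7_ok wc1234605_362))) (Tre.all_nd (Tre.all_lf (batP_ok par7_ok wc1234605_234)) (Tre.all_lf (batP_ok par7_ok wc1234605_490)))))) (Tre.all_nd (Tre.all_nd (Tre.all_nd (Tre.all_nd (Tre.all_lf (batP_ok par7_ok wc1234605_26)) (Tre.all_lf (batP_ok par7_ok wc1234605_282))) (Tre.all_nd (Tre.all_lf (batP_ok par7_ok wc1234605_154)) (Tre.all_lf (batP_ok par7_ok wc1234605_410)))) (Tre.all_nd (Tre.all_nd (Tre.all_lf (batP_ok par7_ok wc1234605_90)) (Tre.all_lf (batP_ok par7_ok wc1234605_346))) (Tre.all_nd (Tre.all_lf (batP_ok par7_ok wc1234605_218)) (Tre.all_lf (batP_ok par7_ok wc1234605_474))))) (Tre.all_nd (Tre.all_nd (Tre.all_nd (Tre.all_lf (batP_ok par7_ok wc1234605_58)) (Tre.all_lf (batP_ok par7_ok wc1234605_314))) (Tre.all_nd (Tre.all_lf (batP_ok par7_ok wc1234605_186)) (Tre.all_lf (batP_ok par7_ok wc1234605_442)))) (Tre.all_nd (Tre.all_nd (Tre.all_lf (batP_ok par7_ok wc1234605_122))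 (Tre.all_lf (batP_ok par7_ok wc1234605_378))) (Tre.all_lf (batP_ok par7_ok wc1234605_250))))))

theorem afc1234605011 : Tre.All (PceOK par7 c1234605.VT) fc1234605011 := Tre.all_nd (Tre.all_nd (Tre.all_nd (Tre.all_nd (Tre.all_nd (Tre.all_nd (Tre.all_lf (batP_ok par7_ok wc1234605_6)) (Tre.all_lf (batP_ok par7_ok wc1234605_262))) (Tre.all_nd (Tre.all_lf (batP_ok par7_ok wc1234605_134)) (Tre.all_lf (batP_ok par7_ok wc1234605_390)))) (Tre.all_nd (Tre.all_nd (Tre.all_lf (batP_ok par7_ok wc1234605_70)) (Tre.all_lf (batP_ok par7_ok wc1234605_326))) (Tre.all_nd (Tre.all_lf (batP_ok par7_ok wc1234605_198)) (Tre.all_lf (batP_ok par7_ok wc1234605_454))))) (Tre.all_nd (Tre.all_nd (Tre.all_nd (Tre.all_lf (batP_ok par7_ok wc1234605_38)) (Tre.all_lf (batP_ok par7_ok wc1234605_294))) (Tre.all_nd (Tre.all_lf (batP_ok par7_ok wc1234605_166)) (Tre.all_lf (batP_ok par7_ok wc1234605_422)))) (Tre.all_nd (Tre.all_nd (Tre.all_lf (batP_ok par7_ok wc1234605_102))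 (Tre.all_lf (batP_ok par7_ok wc1234605_358))) (Tre.all_nd (Tre.all_lf (batP_ok par7_ok wc1234605_230)) (Tre.all_lf (batP_ok par7_ok wc1234605_486)))))) (Tre.all_nd (Tre.all_nd (Tre.all_nd (Tre.all_nd (Tre.all_lf (batP_ok par7_ok wc1234605_22)) (Tre.all_lf (batP_ok par7_ok wc1234605_278))) (Tre.all_nd (Tre.all_lf (batP_ok par7_ok wc1234605_150)) (Tre.all_lf (batP_ok par7_ok wc1234605_406)))) (Tre.all_nd (Tre.all_nd (Tre.all_lf (batP_ok par7_ok wc1234605_86)) (Tre.all_lf (batP_ok par7_ok wc1234605_342))) (Tre.all_nd (Tre.all_lf (batP_ok par7_ok wc1234605_214)) (Tre.all_lf (batP_ok par7_ok wc1234605_470))))) (Tre.all_nd (Tre.all_nd (Tre.all_nd (Tre.all_lf (batP_ok par7_ok wc1234605_54)) (Tre.all_lf (batP_ok par7_ok wc1234605_310))) (Tre.all_nd (Tre.all_lf (batP_ok par7_ok wc1234605_182)) (Tre.all_lf (batP_ok par7_ok wc1234605_438)))) (Tre.all_nd (Tre.all_nd (Tre.all_lf (batP_ok par7_ok wc1234605_118)) (Tre.all_lf (batP_ok par7_ok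 wc1234605_374))) (Tre.all_lf (batP_ok par7_ok wc1234605_246)))))) (Tre.all_nd (Tre.all_nd (Tre.all_nd (Tre.all_nd (Tre.all_nd (Tre.all_lf (batP_ok par7_ok wc1234605_14)) (Tre.all_lf (batP_ok par7_ok wc1234605_270))) (Tre.all_nd (Tre.all_lf (batP_ok par7_ok wc1234605_142)) (Tre.all_lf (batP_ok par7_ok wc1234605_398)))) (Tre.all_nd (Tre.all_nd (Tre.all_lf (batP_ok par7_ok wc1234605_78)) (Tre.all_lf (batP_ok par7_ok wc1234605_334))) (Tre.all_nd (Tre.all_lf (batP_ok par7_ok wc1234605_206)) (Tre.all_lf (batP_ok par7_ok wc1234605_462))))) (Tre.all_nd (Tre.all_nd (Tre.all_nd (Tre.all_lf (batP_ok par7_ok wc1234605_46)) (Tre.all_lf (batP_ok par7_ok wc1234605_302))) (Tre.all_nd (Tre.all_lf (batP_ok par7_ok wc1234605_174)) (Tre.all_lf (batP_ok par7_ok wc1234605_430)))) (Tre.all_nd (Tre.all_nd (Tre.all_lf (batP_ok par7_ok wc1234605_110)) (Tre.all_lf (batP_ok par7_ok wc1234605_366))) (Tre.all_nd (Tre.all_lf (batP_ok par7_ok wc1234605_238))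 (Tre.all_lf (batP_ok par7_ok wc1234605_494)))))) (Tre.all_nd (Tre.all_nd (Tre.all_nd (Tre.all_nd (Tre.all_lf (batP_ok par7_ok wc1234605_30)) (Tre.all_lf (batP_ok par7_ok wc1234605_286))) (Tre.all_nd (Tre.all_lf (batP_ok par7_ok wc1234605_158)) (Tre.all_lf (batP_ok par7_ok wc1234605_414)))) (Tre.all_nd (Tre.all_nd (Tre.all_lf (batP_ok par7_ok wc1234605_94)) (Tre.all_lf (batP_ok par7_ok wc1234605_350))) (Tre.all_nd (Tre.all_lf (batP_ok par7_ok wc1234605_222)) (Tre.all_lf (batP_ok par7_ok wc1234605_478))))) (Tre.all_nd (Tre.all_nd (Tre.all_nd (Tre.all_lf (batP_ok par7_ok wc1234605_62)) (Tre.all_lf (batP_ok par7_ok wc1234605_318))) (Tre.all_nd (Tre.all_lf (batP_ok par7_ok wc1234605_190)) (Tre.all_lf (batP_ok par7_ok wc1234605_446)))) (Tre.all_nd (Tre.all_nd (Tre.all_lf (batP_ok par7_ok wc1234605_126)) (Tre.all_lf (batP_ok par7_ok wc1234605_382))) (Tre.all_lf (batP_ok par7_ok wc1234605_254))))))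

theorem afc123460501 : Tre.All (PceOK par7 c1234605.VT) fc123460501 := Tre.all_nd afc1234605010 afc1234605011

theorem afc12346050 : Tre.All (PceOK par7 c1234605.VT) fc12346050 := Tre.all_nd afc123460500 afc123460501

theorem afc1234605100 : Tre.All (PceOK par7 c1234605.VT) fc1234605100 := Tre.all_nd (Tre.all_nd (Tre.all_nd (Tre.all_nd (Tre.all_nd (Tre.all_nd (Tre.all_lf (batP_ok par7_ok wc1234605_1)) (Tre.all_lf (batP_ok par7_ok wc1234605_257))) (Tre.all_nd (Tre.all_lf (batP_ok par7_ok wc1234605_129)) (Tre.all_lf (batP_ok par7_ok wc1234605_385)))) (Tre.all_nd (Tre.all_nd (Tre.all_lf (batP_ok par7_ok wc1234605_65)) (Tre.all_lf (batP_ok par7_ok wc1234605_321))) (Tre.all_nd (Tre.all_lf (batP_ok par7_ok wc1234605_193)) (Tre.all_lf (batP_ok par7_ok wc1234605_449))))) (Tre.all_nd (Tre.all_nd (Tre.all_nd (Tre.all_lf (batP_ok par7_ok wc1234605_33)) (Tre.all_lf (batP_ok par7_ok wc1234605_289))) (Tre.all_nd (Tre.all_lf (batP_ok par7_ok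 wc1234605_161)) (Tre.all_lf (batP_ok par7_ok wc1234605_417)))) (Tre.all_nd (Tre.all_nd (Tre.all_lf (batP_ok par7_ok wc1234605_97)) (Tre.all_lf (batP_ok par7_ok wc1234605_353))) (Tre.all_nd (Tre.all_lf (batP_ok par7_ok wc1234605_225)) (Tre.all_lf (batP_ok par7_ok wc1234605_481)))))) (Tre.all_nd (Tre.all_nd (Tre.all_nd (Tre.all_nd (Tre.all_lf (batP_ok par7_ok wc1234605_17)) (Tre.all_lf (batP_ok par7_ok wc1234605_273))) (Tre.all_nd (Tre.all_lf (batP_ok par7_ok wc1234605_145)) (Tre.all_lf (batP_ok par7_ok wc1234605_401)))) (Tre.all_nd (Tre.all_nd (Tre.all_lf (batP_ok par7_ok wc1234605_81)) (Tre.all_lf (batP_ok par7_ok wc1234605_337))) (Tre.all_nd (Tre.all_lf (batP_ok par7_ok wc1234605_209)) (Tre.all_lf (batP_ok par7_ok wc1234605_465))))) (Tre.all_nd (Tre.all_nd (Tre.all_nd (Tre.all_lf (batP_ok par7_ok wc1234605_49)) (Tre.all_lf (batP_ok par7_ok wc1234605_305))) (Tre.all_nd (Tre.all_lf (batP_ok par7_ok wc1234605_177)) (Tre.all_lf (batP_ok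 par7_ok wc1234605_433)))) (Tre.all_nd (Tre.all_nd (Tre.all_lf (batP_ok par7_ok wc1234605_113)) (Tre.all_lf (batP_ok par7_ok wc1234605_369))) (Tre.all_nd (Tre.all_lf (batP_ok par7_ok wc1234605_241)) (Tre.all_lf (batP_ok par7_ok wc1234605_497))))))) (Tre.all_nd (Tre.all_nd (Tre.all_nd (Tre.all_nd (Tre.all_nd (Tre.all_lf (batP_ok par7_ok wc1234605_9)) (Tre.all_lf (batP_ok par7_ok wc1234605_265))) (Tre.all_nd (Tre.all_lf (batP_ok par7_ok wc1234605_137)) (Tre.all_lf (batP_ok par7_ok wc1234605_393)))) (Tre.all_nd (Tre.all_nd (Tre.all_lf (batP_ok par7_ok wc1234605_73)) (Tre.all_lf (batP_ok par7_ok wc1234605_329))) (Tre.all_nd (Tre.all_lf (batP_ok par7_ok wc1234605_201)) (Tre.all_lf (batP_ok par7_ok wc1234605_457))))) (Tre.all_nd (Tre.all_nd (Tre.all_nd (Tre.all_lf (batP_ok par7_ok wc1234605_41)) (Tre.all_lf (batP_ok par7_ok wc1234605_297))) (Tre.all_nd (Tre.all_lf (batP_ok par7_ok wc1234605_169)) (Tre.all_lf (batP_ok par7_ok wc1234605_425))))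 (Tre.all_nd (Tre.all_nd (Tre.all_lf (batP_ok par7_ok wc1234605_105)) (Tre.all_lf (batP_ok par7_ok wc1234605_361))) (Tre.all_nd (Tre.all_lf (batP_ok par7_ok wc1234605_233)) (Tre.all_lf (batP_ok par7_ok wc1234605_489)))))) (Tre.all_nd (Tre.all_nd (Tre.all_nd (Tre.all_nd (Tre.all_lf (batP_ok par7_ok wc1234605_25)) (Tre.all_lf (batP_ok par7_ok wc1234605_281))) (Tre.all_nd (Tre.all_lf (batP_ok par7_ok wc1234605_153)) (Tre.all_lf (batP_ok par7_ok wc1234605_409)))) (Tre.all_nd (Tre.all_nd (Tre.all_lf (batP_ok par7_ok wc1234605_89)) (Tre.all_lf (batP_ok par7_ok wc1234605_345))) (Tre.all_nd (Tre.all_lf (batP_ok par7_ok wc1234605_217)) (Tre.all_lf (batP_ok par7_ok wc1234605_473))))) (Tre.all_nd (Tre.all_nd (Tre.all_nd (Tre.all_lf (batP_ok par7_ok wc1234605_57)) (Tre.all_lf (batP_ok par7_ok wc1234605_313))) (Tre.all_nd (Tre.all_lf (batP_ok par7_ok wc1234605_185)) (Tre.all_lf (batP_ok par7_ok wc1234605_441)))) (Tre.all_nd (Tre.all_nd (Tre.all_lf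 (batP_ok par7_ok wc1234605_121)) (Tre.all_lf (batP_ok par7_ok wc1234605_377))) (Tre.all_lf (batP_ok par7_ok wc1234605_249))))))

theorem afc1234605101 : Tre.All (PceOK par7 c1234605.VT) fc1234605101 := Tre.all_nd (Tre.all_nd (Tre.all_nd (Tre.all_nd (Tre.all_nd (Tre.all_nd (Tre.all_lf (batP_ok par7_ok wc1234605_5)) (Tre.all_lf (batP_ok par7_ok wc1234605_261))) (Tre.all_nd (Tre.all_lf (batP_ok par7_ok wc1234605_133)) (Tre.all_lf (batP_ok par7_ok wc1234605_389)))) (Tre.all_nd (Tre.all_nd (Tre.all_lf (batP_ok par7_ok wc1234605_69)) (Tre.all_lf (batP_ok par7_ok wc1234605_325))) (Tre.all_nd (Tre.all_lf (batP_ok par7_ok wc1234605_197)) (Tre.all_lf (batP_ok par7_ok wc1234605_453))))) (Tre.all_nd (Tre.all_nd (Tre.all_nd (Tre.all_lf (batP_ok par7_ok wc1234605_37)) (Tre.all_lf (batP_ok par7_ok wc1234605_293))) (Tre.all_nd (Tre.all_lf (batP_ok par7_ok wc1234605_165)) (Tre.all_lf (batP_ok par7_ok wc1234605_421)))) (Tre.all_nd (Tre.all_nd (Tre.all_lf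 (batP_ok par7_ok wc1234605_101)) (Tre.all_lf (batP_ok par7_ok wc1234605_357))) (Tre.all_nd (Tre.all_lf (batP_ok par7_ok wc1234605_229)) (Tre.all_lf (batP_ok par7_ok wc1234605_485)))))) (Tre.all_nd (Tre.all_nd (Tre.all_nd (Tre.all_nd (Tre.all_lf (batP_ok par7_ok wc1234605_21)) (Tre.all_lf (batP_ok par7_ok wc1234605_277))) (Tre.all_nd (Tre.all_lf (batP_ok par7_ok wc1234605_149)) (Tre.all_lf (batP_ok par7_ok wc1234605_405)))) (Tre.all_nd (Tre.all_nd (Tre.all_lf (batP_ok par7_ok wc1234605_85)) (Tre.all_lf (batP_ok par7_ok wc1234605_341))) (Tre.all_nd (Tre.all_lf (batP_ok par7_ok wc1234605_213)) (Tre.all_lf (batP_ok par7_ok wc1234605_469))))) (Tre.all_nd (Tre.all_nd (Tre.all_nd (Tre.all_lf (batP_ok par7_ok wc1234605_53)) (Tre.all_lf (batP_ok par7_ok wc1234605_309))) (Tre.all_nd (Tre.all_lf (batP_ok par7_ok wc1234605_181)) (Tre.all_lf (batP_ok par7_ok wc1234605_437)))) (Tre.all_nd (Tre.all_nd (Tre.all_lf (batP_ok par7_ok wc1234605_117))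 (Tre.all_lf (batP_ok par7_ok wc1234605_373))) (Tre.all_nd (Tre.all_lf (batP_ok par7_ok wc1234605_245)) (Tre.all_lf (batP_ok par7_ok wc1234605_501))))))) (Tre.all_nd (Tre.all_nd (Tre.all_nd (Tre.all_nd (Tre.all_nd (Tre.all_lf (batP_ok par7_ok wc1234605_13)) (Tre.all_lf (batP_ok par7_ok wc1234605_269))) (Tre.all_nd (Tre.all_lf (batP_ok par7_ok wc1234605_141)) (Tre.all_lf (batP_ok par7_ok wc1234605_397)))) (Tre.all_nd (Tre.all_nd (Tre.all_lf (batP_ok par7_ok wc1234605_77)) (Tre.all_lf (batP_ok par7_ok wc1234605_333))) (Tre.all_nd (Tre.all_lf (batP_ok par7_ok wc1234605_205)) (Tre.all_lf (batP_ok par7_ok wc1234605_461))))) (Tre.all_nd (Tre.all_nd (Tre.all_nd (Tre.all_lf (batP_ok par7_ok wc1234605_45)) (Tre.all_lf (batP_ok par7_ok wc1234605_301))) (Tre.all_nd (Tre.all_lf (batP_ok par7_ok wc1234605_173)) (Tre.all_lf (batP_ok par7_ok wc1234605_429)))) (Tre.all_nd (Tre.all_nd (Tre.all_lf (batP_ok par7_ok wc1234605_109)) (Tre.all_lf (batP_ok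 par7_ok wc1234605_365))) (Tre.all_nd (Tre.all_lf (batP_ok par7_ok wc1234605_237)) (Tre.all_lf (batP_ok par7_ok wc1234605_493)))))) (Tre.all_nd (Tre.all_nd (Tre.all_nd (Tre.all_nd (Tre.all_lf (batP_ok par7_ok wc1234605_29)) (Tre.all_lf (batP_ok par7_ok wc1234605_285))) (Tre.all_nd (Tre.all_lf (batP_ok par7_ok wc1234605_157)) (Tre.all_lf (batP_ok par7_ok wc1234605_413)))) (Tre.all_nd (Tre.all_nd (Tre.all_lf (batP_ok par7_ok wc1234605_93)) (Tre.all_lf (batP_ok par7_ok wc1234605_349))) (Tre.all_nd (Tre.all_lf (batP_ok par7_ok wc1234605_221)) (Tre.all_lf (batP_ok par7_ok wc1234605_477))))) (Tre.all_nd (Tre.all_nd (Tre.all_nd (Tre.all_lf (batP_ok par7_ok wc1234605_61)) (Tre.all_lf (batP_ok par7_ok wc1234605_317))) (Tre.all_nd (Tre.all_lf (batP_ok par7_ok wc1234605_189)) (Tre.all_lf (batP_ok par7_ok wc1234605_445)))) (Tre.all_nd (Tre.all_nd (Tre.all_lf (batP_ok par7_ok wc1234605_125)) (Tre.all_lf (batP_ok par7_ok wc1234605_381))) (Tre.all_lf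 (batP_ok par7_ok wc1234605_253))))))

theorem afc123460510 : Tre.All (PceOK par7 c1234605.VT) fc123460510 := Tre.all_nd afc1234605100 afc1234605101

theorem afc1234605110 : Tre.All (PceOK par7 c1234605.VT) fc1234605110 := Tre.all_nd (Tre.all_nd (Tre.all_nd (Tre.all_nd (Tre.all_nd (Tre.all_nd (Tre.all_lf (batP_ok par7_ok wc1234605_3)) (Tre.all_lf (batP_ok par7_ok wc1234605_259))) (Tre.all_nd (Tre.all_lf (batP_ok par7_ok wc1234605_131)) (Tre.all_lf (batP_ok par7_ok wc1234605_387)))) (Tre.all_nd (Tre.all_nd (Tre.all_lf (batP_ok par7_ok wc1234605_67)) (Tre.all_lf (batP_ok par7_ok wc1234605_323))) (Tre.all_nd (Tre.all_lf (batP_ok par7_ok wc1234605_195)) (Tre.all_lf (batP_ok par7_ok wc1234605_451))))) (Tre.all_nd (Tre.all_nd (Tre.all_nd (Tre.all_lf (batP_ok par7_ok wc1234605_35)) (Tre.all_lf (batP_ok par7_ok wc1234605_291))) (Tre.all_nd (Tre.all_lf (batP_ok par7_ok wc1234605_163)) (Tre.all_lf (batP_ok par7_ok wc1234605_419)))) (Tre.all_nd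 (Tre.all_nd (Tre.all_lf (batP_ok par7_ok wc1234605_99)) (Tre.all_lf (batP_ok par7_ok wc1234605_355))) (Tre.all_nd (Tre.all_lf (batP_ok par7_ok wc1234605_227)) (Tre.all_lf (batP_ok par7_ok wc1234605_483)))))) (Tre.all_nd (Tre.all_nd (Tre.all_nd (Tre.all_nd (Tre.all_lf (batP_ok par7_ok wc1234605_19)) (Tre.all_lf (batP_ok par7_ok wc1234605_275))) (Tre.all_nd (Tre.all_lf (batP_ok par7_ok wc1234605_147)) (Tre.all_lf (batP_ok par7_ok wc1234605_403)))) (Tre.all_nd (Tre.all_nd (Tre.all_lf (batP_ok par7_ok wc1234605_83)) (Tre.all_lf (batP_ok par7_ok wc1234605_339))) (Tre.all_nd (Tre.all_lf (batP_ok par7_ok wc1234605_211)) (Tre.all_lf (batP_ok par7_ok wc1234605_467))))) (Tre.all_nd (Tre.all_nd (Tre.all_nd (Tre.all_lf (batP_ok par7_ok wc1234605_51)) (Tre.all_lf (batP_ok par7_ok wc1234605_307))) (Tre.all_nd (Tre.all_lf (batP_ok par7_ok wc1234605_179)) (Tre.all_lf (batP_ok par7_ok wc1234605_435)))) (Tre.all_nd (Tre.all_nd (Tre.all_lf (batP_ok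 par7_ok wc1234605_115)) (Tre.all_lf (batP_ok par7_ok wc1234605_371))) (Tre.all_nd (Tre.all_lf (batP_ok par7_ok wc1234605_243)) (Tre.all_lf (batP_ok par7_ok wc1234605_499))))))) (Tre.all_nd (Tre.all_nd (Tre.all_nd (Tre.all_nd (Tre.all_nd (Tre.all_lf (batP_ok par7_ok wc1234605_11)) (Tre.all_lf (batP_ok par7_ok wc1234605_267))) (Tre.all_nd (Tre.all_lf (batP_ok par7_ok wc1234605_139)) (Tre.all_lf (batP_ok par7_ok wc1234605_395)))) (Tre.all_nd (Tre.all_nd (Tre.all_lf (batP_ok par7_ok wc1234605_75)) (Tre.all_lf (batP_ok par7_ok wc1234605_331))) (Tre.all_nd (Tre.all_lf (batP_ok par7_ok wc1234605_203)) (Tre.all_lf (batP_ok par7_ok wc1234605_459))))) (Tre.all_nd (Tre.all_nd (Tre.all_nd (Tre.all_lf (batP_ok par7_ok wc1234605_43)) (Tre.all_lf (batP_ok par7_ok wc1234605_299))) (Tre.all_nd (Tre.all_lf (batP_ok par7_ok wc1234605_171)) (Tre.all_lf (batP_ok par7_ok wc1234605_427)))) (Tre.all_nd (Tre.all_nd (Tre.all_lf (batP_ok par7_ok wc1234605_107))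 (Tre.all_lf (batP_ok par7_ok wc1234605_363))) (Tre.all_nd (Tre.all_lf (batP_ok par7_ok wc1234605_235)) (Tre.all_lf (batP_ok par7_ok wc1234605_491)))))) (Tre.all_nd (Tre.all_nd (Tre.all_nd (Tre.all_nd (Tre.all_lf (batP_ok par7_ok wc1234605_27)) (Tre.all_lf (batP_ok par7_ok wc1234605_283))) (Tre.all_nd (Tre.all_lf (batP_ok par7_ok wc1234605_155)) (Tre.all_lf (batP_ok par7_ok wc1234605_411)))) (Tre.all_nd (Tre.all_nd (Tre.all_lf (batP_ok par7_ok wc1234605_91)) (Tre.all_lf (batP_ok par7_ok wc1234605_347))) (Tre.all_nd (Tre.all_lf (batP_ok par7_ok wc1234605_219)) (Tre.all_lf (batP_ok par7_ok wc1234605_475))))) (Tre.all_nd (Tre.all_nd (Tre.all_nd (Tre.all_lf (batP_ok par7_ok wc1234605_59)) (Tre.all_lf (batP_ok par7_ok wc1234605_315))) (Tre.all_nd (Tre.all_lf (batP_ok par7_ok wc1234605_187)) (Tre.all_lf (batP_ok par7_ok wc1234605_443)))) (Tre.all_nd (Tre.all_nd (Tre.all_lf (batP_ok par7_ok wc1234605_123)) (Tre.all_lf (batP_ok par7_ok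 wc1234605_379))) (Tre.all_lf (batP_ok par7_ok wc1234605_251))))))

theorem afc1234605111 : Tre.All (PceOK par7 c1234605.VT) fc1234605111 := Tre.all_nd (Tre.all_nd (Tre.all_nd (Tre.all_nd (Tre.all_nd (Tre.all_nd (Tre.all_lf (batP_ok par7_ok wc1234605_7)) (Tre.all_lf (batP_ok par7_ok wc1234605_263))) (Tre.all_nd (Tre.all_lf (batP_ok par7_ok wc1234605_135)) (Tre.all_lf (batP_ok par7_ok wc1234605_391)))) (Tre.all_nd (Tre.all_nd (Tre.all_lf (batP_ok par7_ok wc1234605_71)) (Tre.all_lf (batP_ok par7_ok wc1234605_327))) (Tre.all_nd (Tre.all_lf (batP_ok par7_ok wc1234605_199)) (Tre.all_lf (batP_ok par7_ok wc1234605_455))))) (Tre.all_nd (Tre.all_nd (Tre.all_nd (Tre.all_lf (batP_ok par7_ok wc1234605_39)) (Tre.all_lf (batP_ok par7_ok wc1234605_295))) (Tre.all_nd (Tre.all_lf (batP_ok par7_ok wc1234605_167)) (Tre.all_lf (batP_ok par7_ok wc1234605_423)))) (Tre.all_nd (Tre.all_nd (Tre.all_lf (batP_ok par7_ok wc1234605_103)) (Tre.all_lf (batP_ok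 par7_ok wc1234605_359))) (Tre.all_nd (Tre.all_lf (batP_ok par7_ok wc1234605_231)) (Tre.all_lf (batP_ok par7_ok wc1234605_487)))))) (Tre.all_nd (Tre.all_nd (Tre.all_nd (Tre.all_nd (Tre.all_lf (batP_ok par7_ok wc1234605_23)) (Tre.all_lf (batP_ok par7_ok wc1234605_279))) (Tre.all_nd (Tre.all_lf (batP_ok par7_ok wc1234605_151)) (Tre.all_lf (batP_ok par7_ok wc1234605_407)))) (Tre.all_nd (Tre.all_nd (Tre.all_lf (batP_ok par7_ok wc1234605_87)) (Tre.all_lf (batP_ok par7_ok wc1234605_343))) (Tre.all_nd (Tre.all_lf (batP_ok par7_ok wc1234605_215)) (Tre.all_lf (batP_ok par7_ok wc1234605_471))))) (Tre.all_nd (Tre.all_nd (Tre.all_nd (Tre.all_lf (batP_ok par7_ok wc1234605_55)) (Tre.all_lf (batP_ok par7_ok wc1234605_311))) (Tre.all_nd (Tre.all_lf (batP_ok par7_ok wc1234605_183)) (Tre.all_lf (batP_ok par7_ok wc1234605_439)))) (Tre.all_nd (Tre.all_nd (Tre.all_lf (batP_ok par7_ok wc1234605_119)) (Tre.all_lf (batP_ok par7_ok wc1234605_375))) (Tre.all_lf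 (batP_ok par7_ok wc1234605_247)))))) (Tre.all_nd (Tre.all_nd (Tre.all_nd (Tre.all_nd (Tre.all_nd (Tre.all_lf (batP_ok par7_ok wc1234605_15)) (Tre.all_lf (batP_ok par7_ok wc1234605_271))) (Tre.all_nd (Tre.all_lf (batP_ok par7_ok wc1234605_143)) (Tre.all_lf (batP_ok par7_ok wc1234605_399)))) (Tre.all_nd (Tre.all_nd (Tre.all_lf (batP_ok par7_ok wc1234605_79)) (Tre.all_lf (batP_ok par7_ok wc1234605_335))) (Tre.all_nd (Tre.all_lf (batP_ok par7_ok wc1234605_207)) (Tre.all_lf (batP_ok par7_ok wc1234605_463))))) (Tre.all_nd (Tre.all_nd (Tre.all_nd (Tre.all_lf (batP_ok par7_ok wc1234605_47)) (Tre.all_lf (batP_ok par7_ok wc1234605_303))) (Tre.all_nd (Tre.all_lf (batP_ok par7_ok wc1234605_175)) (Tre.all_lf (batP_ok par7_ok wc1234605_431)))) (Tre.all_nd (Tre.all_nd (Tre.all_lf (batP_ok par7_ok wc1234605_111)) (Tre.all_lf (batP_ok par7_ok wc1234605_367))) (Tre.all_nd (Tre.all_lf (batP_ok par7_ok wc1234605_239)) (Tre.all_lf (batP_ok par7_ok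 wc1234605_495)))))) (Tre.all_nd (Tre.all_nd (Tre.all_nd (Tre.all_nd (Tre.all_lf (batP_ok par7_ok wc1234605_31)) (Tre.all_lf (batP_ok par7_ok wc1234605_287))) (Tre.all_nd (Tre.all_lf (batP_ok par7_ok wc1234605_159)) (Tre.all_lf (batP_ok par7_ok wc1234605_415)))) (Tre.all_nd (Tre.all_nd (Tre.all_lf (batP_ok par7_ok wc1234605_95)) (Tre.all_lf (batP_ok par7_ok wc1234605_351))) (Tre.all_nd (Tre.all_lf (batP_ok par7_ok wc1234605_223)) (Tre.all_lf (batP_ok par7_ok wc1234605_479))))) (Tre.all_nd (Tre.all_nd (Tre.all_nd (Tre.all_lf (batP_ok par7_ok wc1234605_63)) (Tre.all_lf (batP_ok par7_ok wc1234605_319))) (Tre.all_nd (Tre.all_lf (batP_ok par7_ok wc1234605_191)) (Tre.all_lf (batP_ok par7_ok wc1234605_447)))) (Tre.all_nd (Tre.all_nd (Tre.all_lf (batP_ok par7_ok wc1234605_127)) (Tre.all_lf (batP_ok par7_ok wc1234605_383))) (Tre.all_lf (batP_ok par7_ok wc1234605_255))))))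

theorem afc123460511 : Tre.All (PceOK par7 c1234605.VT) fc123460511 := Tre.all_nd afc1234605110 afc1234605111

theorem afc12346051 : Tre.All (PceOK par7 c1234605.VT) fc12346051 := Tre.all_nd afc123460510 afc123460511

theorem afc1234605 : Tre.All (PceOK par7 c1234605.VT) fc1234605 := Tre.all_nd afc12346050 afc12346051

theorem rac1234605_0 : RA c1234605 fc1234605 0 := ra_zero

theorem rac1234605_14 : RA c1234605 fc1234605 14 := ra_rng rac1234605_0 ec1234605_0

theorem rac1234605_20 : RA c1234605 fc1234605 20 := ra_rng rac1234605_14 ec1234605_14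

theorem hdc1234605_20_0 : HD c1234605 fc1234605 20 [(131, 0x18)] := hd_cons hd_nil ec1234605_20_0

theorem rdc1234605_20 : RD c1234605 fc1234605 20 := rd_of hdc1234605_20_0 ec1234605_20_1

theorem rac1234605_21 : RA c1234605 fc1234605 21 := ra_succ rac1234605_20 rdc1234605_20

theorem rac1234605_22 : RA c1234605 fc1234605 22 := ra_rng rac1234605_21 ec1234605_21

theorem hdc1234605_22_0 : HD c1234605 fc1234605 22 [(221, 0x17)] := hd_cons hd_nil ec1234605_22_0

theorem rdc1234605_22 : RD c1234605 fc1234605 22 := rd_of hdc1234605_22_0 ec1234605_22_1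

theorem rac1234605_23 : RA c1234605 fc1234605 23 := ra_succ rac1234605_22 rdc1234605_22

theorem rac1234605_24 : RA c1234605 fc1234605 24 := ra_rng rac1234605_23 ec1234605_23

theorem hdc1234605_24_0 : HD c1234605 fc1234605 24 [(29, 0x9)] := hd_cons hd_nil ec1234605_24_0

theorem rdc1234605_24 : RD c1234605 fc1234605 24 := rd_of hdc1234605_24_0 ec1234605_24_1

theorem rac1234605_25 : RA c1234605 fc1234605 25 := ra_succ rac1234605_24 rdc1234605_24

theorem rac1234605_26 : RA c1234605 fc1234605 26 := ra_rng rac1234605_25 ec1234605_25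

theorem hdc1234605_26_0 : HD c1234605 fc1234605 26 [(129, 0xd)] := hd_cons hd_nil ec1234605_26_0

theorem rdc1234605_26 : RD c1234605 fc1234605 26 := rd_of hdc1234605_26_0 ec1234605_26_1

theorem rac1234605_27 : RA c1234605 fc1234605 27 := ra_succ rac1234605_26 rdc1234605_26

theorem rac1234605_29 : RA c1234605 fc1234605 29 := ra_rng rac1234605_27 ec1234605_27

theorem hdc1234605_29_0 : HD c1234605 fc1234605 29 [(29, 0xe)] := hd_cons hd_nil ec1234605_29_0

theorem rdc1234605_29 : RD c1234605 fc1234605 29 := rd_of hdc1234605_29_0 ec1234605_29_1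

theorem rac1234605_30 : RA c1234605 fc1234605 30 := ra_succ rac1234605_29 rdc1234605_29

theorem rac1234605_32 : RA c1234605 fc1234605 32 := ra_rng rac1234605_30 ec1234605_30

theorem rac1234605_33 : RA c1234605 fc1234605 33 := ra_rng rac1234605_32 ec1234605_32

theorem rac1234605_35 : RA c1234605 fc1234605 35 := ra_rng rac1234605_33 ec1234605_33

theorem hdc1234605_35_0 : HD c1234605 fc1234605 35 [(195, 0x2e)] := hd_cons hd_nil ec1234605_35_0

theorem rdc1234605_35 : RD c1234605 fc1234605 35 := rd_of hdc1234605_35_0 ec1234605_35_1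

theorem rac1234605_36 : RA c1234605 fc1234605 36 := ra_succ rac1234605_35 rdc1234605_35

theorem rac1234605_38 : RA c1234605 fc1234605 38 := ra_rng rac1234605_36 ec1234605_36

theorem hdc1234605_38_0 : HD c1234605 fc1234605 38 [(176, 0x5d)] := hd_cons hd_nil ec1234605_38_0

theorem hdc1234605_38_1 : HD c1234605 fc1234605 38 [(90, 0x15), (176, 0x5d)] := hd_cons hdc1234605_38_0 ec1234605_38_1

theorem rdc1234605_38 : RD c1234605 fc1234605 38 := rd_of hdc1234605_38_1 ec1234605_38_2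

theorem rac1234605_39 : RA c1234605 fc1234605 39 := ra_succ rac1234605_38 rdc1234605_38

theorem hdc1234605_39_0 : HD c1234605 fc1234605 39 [(58, 0x72)] := hd_cons hd_nil ec1234605_39_0

theorem hdc1234605_39_1 : HD c1234605 fc1234605 39 [(129, 0x32), (58, 0x72)] := hd_cons hdc1234605_39_0 ec1234605_39_1

theorem rdc1234605_39 : RD c1234605 fc1234605 39 := rd_of hdc1234605_39_1 ec1234605_39_2

theorem rac1234605_40 : RA c1234605 fc1234605 40 := ra_succ rac1234605_39 rdc1234605_39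

theorem hdc1234605_40_0 : HD c1234605 fc1234605 40 [(90, 0x5)] := hd_cons hd_nil ec1234605_40_0

theorem rdc1234605_40 : RD c1234605 fc1234605 40 := rd_of hdc1234605_40_0 ec1234605_40_1

theorem rac1234605_41 : RA c1234605 fc1234605 41 := ra_succ rac1234605_40 rdc1234605_40

theorem hdc1234605_41_0 : HD c1234605 fc1234605 41 [(96, 0x97)] := hd_cons hd_nil ec1234605_41_0

theorem hdc1234605_41_1 : HD c1234605 fc1234605 41 [(48, 0x1a), (96, 0x97)] := hd_cons hdc1234605_41_0 ec1234605_41_1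

theorem rdc1234605_41 : RD c1234605 fc1234605 41 := rd_of hdc1234605_41_1 ec1234605_41_2

theorem rac1234605_42 : RA c1234605 fc1234605 42 := ra_succ rac1234605_41 rdc1234605_41

theorem rac1234605_43 : RA c1234605 fc1234605 43 := ra_rng rac1234605_42 ec1234605_42

theorem rac1234605_47 : RA c1234605 fc1234605 47 := ra_rng rac1234605_43 ec1234605_43

theorem rac1234605_48 : RA c1234605 fc1234605 48 := ra_rng rac1234605_47 ec1234605_47

theorem rac1234605_53 : RA c1234605 fc1234605 53 := ra_rng rac1234605_48 ec1234605_48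

theorem rac1234605_57 : RA c1234605 fc1234605 57 := ra_rng rac1234605_53 ec1234605_53

theorem rac1234605_59 : RA c1234605 fc1234605 59 := ra_rng rac1234605_57 ec1234605_57

theorem rac1234605_61 : RA c1234605 fc1234605 61 := ra_rng rac1234605_59 ec1234605_59

theorem hdc1234605_61_0 : HD c1234605 fc1234605 61 [(61, 0x8)] := hd_cons hd_nil ec1234605_61_0

theorem rdc1234605_61 : RD c1234605 fc1234605 61 := rd_of hdc1234605_61_0 ec1234605_61_1

theorem rac1234605_62 : RA c1234605 fc1234605 62 := ra_succ rac1234605_61 rdc1234605_61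

theorem rac1234605_64 : RA c1234605 fc1234605 64 := ra_rng rac1234605_62 ec1234605_62

theorem hdc1234605_64_0 : HD c1234605 fc1234605 64 [(70, 0x12)] := hd_cons hd_nil ec1234605_64_0

theorem rdc1234605_64 : RD c1234605 fc1234605 64 := rd_of hdc1234605_64_0 ec1234605_64_1

theorem rac1234605_65 : RA c1234605 fc1234605 65 := ra_succ rac1234605_64 rdc1234605_64

theorem rac1234605_66 : RA c1234605 fc1234605 66 := ra_rng rac1234605_65 ec1234605_65

theorem rac1234605_67 : RA c1234605 fc1234605 67 := ra_rng rac1234605_66 ec1234605_66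

theorem hdc1234605_67_0 : HD c1234605 fc1234605 67 [(112, 0x6)] := hd_cons hd_nil ec1234605_67_0

theorem rdc1234605_67 : RD c1234605 fc1234605 67 := rd_of hdc1234605_67_0 ec1234605_67_1

theorem rac1234605_68 : RA c1234605 fc1234605 68 := ra_succ rac1234605_67 rdc1234605_67

theorem rac1234605_70 : RA c1234605 fc1234605 70 := ra_rng rac1234605_68 ec1234605_68

theorem rac1234605_74 : RA c1234605 fc1234605 74 := ra_rng rac1234605_70 ec1234605_70

theorem rac1234605_75 : RA c1234605 fc1234605 75 := ra_rng rac1234605_74 ec1234605_74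

theorem rac1234605_81 : RA c1234605 fc1234605 81 := ra_rng rac1234605_75 ec1234605_75

theorem rac1234605_82 : RA c1234605 fc1234605 82 := ra_rng rac1234605_81 ec1234605_81

theorem rac1234605_87 : RA c1234605 fc1234605 87 := ra_rng rac1234605_82 ec1234605_82

theorem rac1234605_92 : RA c1234605 fc1234605 92 := ra_rng rac1234605_87 ec1234605_87

theorem rac1234605_109 : RA c1234605 fc1234605 109 := ra_rng rac1234605_92 ec1234605_92

theorem hdc1234605_109_0 : HD c1234605 fc1234605 109 [(158, 0x6)] := hd_cons hd_nil ec1234605_109_0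

theorem rdc1234605_109 : RD c1234605 fc1234605 109 := rd_of hdc1234605_109_0 ec1234605_109_1

theorem rac1234605_110 : RA c1234605 fc1234605 110 := ra_succ rac1234605_109 rdc1234605_109

theorem hdc1234605_110_0 : HD c1234605 fc1234605 110 [(116, 0xf)] := hd_cons hd_nil ec1234605_110_0

theorem rdc1234605_110 : RD c1234605 fc1234605 110 := rd_of hdc1234605_110_0 ec1234605_110_1

theorem rac1234605_111 : RA c1234605 fc1234605 111 := ra_succ rac1234605_110 rdc1234605_110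

theorem hdc1234605_111_0 : HD c1234605 fc1234605 111 [(118, 0x4)] := hd_cons hd_nil ec1234605_111_0

theorem rdc1234605_111 : RD c1234605 fc1234605 111 := rd_of hdc1234605_111_0 ec1234605_111_1

theorem rac1234605_112 : RA c1234605 fc1234605 112 := ra_succ rac1234605_111 rdc1234605_111

theorem hdc1234605_112_0 : HD c1234605 fc1234605 112 [(137, 0x32)] := hd_cons hd_nil ec1234605_112_0

theorem rdc1234605_112 : RD c1234605 fc1234605 112 := rd_of hdc1234605_112_0 ec1234605_112_1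

theorem rac1234605_113 : RA c1234605 fc1234605 113 := ra_succ rac1234605_112 rdc1234605_112

theorem rac1234605_115 : RA c1234605 fc1234605 115 := ra_rng rac1234605_113 ec1234605_113

theorem rac1234605_120 : RA c1234605 fc1234605 120 := ra_rng rac1234605_115 ec1234605_115

theorem rac1234605_124 : RA c1234605 fc1234605 124 := ra_rng rac1234605_120 ec1234605_120

theorem rac1234605_128 : RA c1234605 fc1234605 128 := ra_rng rac1234605_124 ec1234605_124

theorem rac1234605_131 : RA c1234605 fc1234605 131 := ra_rng rac1234605_128 ec1234605_128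

theorem rac1234605_134 : RA c1234605 fc1234605 134 := ra_rng rac1234605_131 ec1234605_131

theorem rac1234605_141 : RA c1234605 fc1234605 141 := ra_rng rac1234605_134 ec1234605_134

theorem rac1234605_161 : RA c1234605 fc1234605 161 := ra_rng rac1234605_141 ec1234605_141

theorem rac1234605_176 : RA c1234605 fc1234605 176 := ra_rng rac1234605_161 ec1234605_161

theorem rac1234605_177 : RA c1234605 fc1234605 177 := ra_rng rac1234605_176 ec1234605_176

theorem rac1234605_178 : RA c1234605 fc1234605 178 := ra_rng rac1234605_177 ec1234605_177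

theorem rac1234605_181 : RA c1234605 fc1234605 181 := ra_rng rac1234605_178 ec1234605_178

theorem rac1234605_189 : RA c1234605 fc1234605 189 := ra_rng rac1234605_181 ec1234605_181

theorem rac1234605_212 : RA c1234605 fc1234605 212 := ra_rng rac1234605_189 ec1234605_189

theorem rac1234605_245 : RA c1234605 fc1234605 245 := ra_rng rac1234605_212 ec1234605_212

theorem kc1234605 : clsOK par7.d c1234605 = true := by decide +kernel

theorem dead_c1234605 : ClsD par7 c1234605 := clsD_of kc1234605 afc1234605 rac1234605_245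

end Pool.Agent.RTX
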