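import Pool.Agent.RTS7.W_1235064_0
import Pool.Agent.RTS7.W_1235064_1
import Pool.Agent.RTS7.E_1235064_0

/-!
# RTS7: class of the permutation 1235064
-/

set_option autoImplicit false
set_option maxRecDepth 100000

namespace Pool.Agent.RTX

theorem afc1235064000 : Tre.All (PceOK par7 c1235064.VT) fc1235064000 := Tre.all_nd (Tre.all_nd (Tre.all_nd (Tre.all_nd (Tre.all_nd (Tre.all_nd (Tre.all_lf (batP_ok par7_ok wc1235064_0)) (Tre.all_lf (batP_ok par7_ok wc1235064_256))) (Tre.all_lf (batP_ok par7_ok wc1235064_128))) (Tre.all_nd (Tre.all_lf (batP_ok par7_ok wc1235064_64)) (Tre.all_lf (batP_ok par7_ok wc1235064_192)))) (Tre.all_nd (Tre.all_nd (Tre.all_nd (Tre.all_lf (batP_ok par7_ok wc1235064_32)) (Tre.all_lf (batP_ok par7_ok wc1235064_288))) (Tre.all_lf (batP_ok par7_ok wc1235064_160))) (Tre.all_nd (Tre.all_lf (batP_ok par7_ok wc1235064_96)) (Tre.all_lf (batP_ok par7_ok wc1235064_224))))) (Tre.all_nd (Tre.all_nd (Tre.all_nd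 (Tre.all_nd (Tre.all_lf (batP_ok par7_ok wc1235064_16)) (Tre.all_lf (batP_ok par7_ok wc1235064_272))) (Tre.all_lf (batP_ok par7_ok wc1235064_144))) (Tre.all_nd (Tre.all_lf (batP_ok par7_ok wc1235064_80)) (Tre.all_lf (batP_ok par7_ok wc1235064_208)))) (Tre.all_nd (Tre.all_nd (Tre.all_nd (Tre.all_lf (batP_ok par7_ok wc1235064_48)) (Tre.all_lf (batP_ok par7_ok wc1235064_304))) (Tre.all_lf (batP_ok par7_ok wc1235064_176))) (Tre.all_nd (Tre.all_lf (batP_ok par7_ok wc1235064_112)) (Tre.all_lf (batP_ok par7_ok wc1235064_240)))))) (Tre.all_nd (Tre.all_nd (Tre.all_nd (Tre.all_nd (Tre.all_nd (Tre.all_lf (batP_ok par7_ok wc1235064_8)) (Tre.all_lf (batP_ok par7_ok wc1235064_264))) (Tre.all_lf (batP_ok par7_ok wc1235064_136))) (Tre.all_nd (Tre.all_lf (batP_ok par7_ok wc1235064_72)) (Tre.all_lf (batP_ok par7_ok wc1235064_200)))) (Tre.all_nd (Tre.all_nd (Tre.all_nd (Tre.all_lf (batP_ok par7_ok wc1235064_40)) (Tre.all_lf (batP_ok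 par7_ok wc1235064_296))) (Tre.all_lf (batP_ok par7_ok wc1235064_168))) (Tre.all_nd (Tre.all_lf (batP_ok par7_ok wc1235064_104)) (Tre.all_lf (batP_ok par7_ok wc1235064_232))))) (Tre.all_nd (Tre.all_nd (Tre.all_nd (Tre.all_nd (Tre.all_lf (batP_ok par7_ok wc1235064_24)) (Tre.all_lf (batP_ok par7_ok wc1235064_280))) (Tre.all_lf (batP_ok par7_ok wc1235064_152))) (Tre.all_nd (Tre.all_lf (batP_ok par7_ok wc1235064_88)) (Tre.all_lf (batP_ok par7_ok wc1235064_216)))) (Tre.all_nd (Tre.all_nd (Tre.all_nd (Tre.all_lf (batP_ok par7_ok wc1235064_56)) (Tre.all_lf (batP_ok par7_ok wc1235064_312))) (Tre.all_lf (batP_ok par7_ok wc1235064_184))) (Tre.all_nd (Tre.all_lf (batP_ok par7_ok wc1235064_120)) (Tre.all_lf (batP_ok par7_ok wc1235064_248))))))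

theorem afc1235064001 : Tre.All (PceOK par7 c1235064.VT) fc1235064001 := Tre.all_nd (Tre.all_nd (Tre.all_nd (Tre.all_nd (Tre.all_nd (Tre.all_nd (Tre.all_lf (batP_ok par7_ok wc1235064_4)) (Tre.all_lf (batP_ok par7_ok wc1235064_260))) (Tre.all_lf (batP_ok par7_ok wc1235064_132))) (Tre.all_nd (Tre.all_lf (batP_ok par7_ok wc1235064_68)) (Tre.all_lf (batP_ok par7_ok wc1235064_196)))) (Tre.all_nd (Tre.all_nd (Tre.all_nd (Tre.all_lf (batP_ok par7_ok wc1235064_36)) (Tre.all_lf (batP_ok par7_ok wc1235064_292))) (Tre.all_lf (batP_ok par7_ok wc1235064_164))) (Tre.all_nd (Tre.all_lf (batP_ok par7_ok wc1235064_100)) (Tre.all_lf (batP_ok par7_ok wc1235064_228))))) (Tre.all_nd (Tre.all_nd (Tre.all_nd (Tre.all_nd (Tre.all_lf (batP_ok par7_ok wc1235064_20)) (Tre.all_lf (batP_ok par7_ok wc1235064_276))) (Tre.all_lf (batP_ok par7_ok wc1235064_148))) (Tre.all_nd (Tre.all_lf (batP_ok par7_ok wc1235064_84)) (Tre.all_lf (batP_ok par7_ok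 wc1235064_212)))) (Tre.all_nd (Tre.all_nd (Tre.all_nd (Tre.all_lf (batP_ok par7_ok wc1235064_52)) (Tre.all_lf (batP_ok par7_ok wc1235064_308))) (Tre.all_lf (batP_ok par7_ok wc1235064_180))) (Tre.all_nd (Tre.all_lf (batP_ok par7_ok wc1235064_116)) (Tre.all_lf (batP_ok par7_ok wc1235064_244)))))) (Tre.all_nd (Tre.all_nd (Tre.all_nd (Tre.all_nd (Tre.all_nd (Tre.all_lf (batP_ok par7_ok wc1235064_12)) (Tre.all_lf (batP_ok par7_ok wc1235064_268))) (Tre.all_lf (batP_ok par7_ok wc1235064_140))) (Tre.all_nd (Tre.all_lf (batP_ok par7_ok wc1235064_76)) (Tre.all_lf (batP_ok par7_ok wc1235064_204)))) (Tre.all_nd (Tre.all_nd (Tre.all_nd (Tre.all_lf (batP_ok par7_ok wc1235064_44)) (Tre.all_lf (batP_ok par7_ok wc1235064_300))) (Tre.all_lf (batP_ok par7_ok wc1235064_172))) (Tre.all_nd (Tre.all_lf (batP_ok par7_ok wc1235064_108)) (Tre.all_lf (batP_ok par7_ok wc1235064_236))))) (Tre.all_nd (Tre.all_nd (Tre.all_nd (Tre.all_nd (Tre.all_lf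 (batP_ok par7_ok wc1235064_28)) (Tre.all_lf (batP_ok par7_ok wc1235064_284))) (Tre.all_lf (batP_ok par7_ok wc1235064_156))) (Tre.all_nd (Tre.all_lf (batP_ok par7_ok wc1235064_92)) (Tre.all_lf (batP_ok par7_ok wc1235064_220)))) (Tre.all_nd (Tre.all_nd (Tre.all_lf (batP_ok par7_ok wc1235064_60)) (Tre.all_lf (batP_ok par7_ok wc1235064_188))) (Tre.all_nd (Tre.all_lf (batP_ok par7_ok wc1235064_124)) (Tre.all_lf (batP_ok par7_ok wc1235064_252))))))

theorem afc123506400 : Tre.All (PceOK par7 c1235064.VT) fc123506400 := Tre.all_nd afc1235064000 afc1235064001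

theorem afc1235064010 : Tre.All (PceOK par7 c1235064.VT) fc1235064010 := Tre.all_nd (Tre.all_nd (Tre.all_nd (Tre.all_nd (Tre.all_nd (Tre.all_nd (Tre.all_lf (batP_ok par7_ok wc1235064_2)) (Tre.all_lf (batP_ok par7_ok wc1235064_258))) (Tre.all_lf (batP_ok par7_ok wc1235064_130))) (Tre.all_nd (Tre.all_lf (batP_ok par7_ok wc1235064_66)) (Tre.all_lf (batP_ok par7_ok wc1235064_194)))) (Tre.all_nd (Tre.all_nd (Tre.all_nd (Tre.all_lf (batP_ok par7_ok wc1235064_34)) (Tre.all_lf (batP_ok par7_ok wc1235064_290))) (Tre.all_lf (batP_ok par7_ok wc1235064_162))) (Tre.all_nd (Tre.all_lf (batP_ok par7_ok wc1235064_98)) (Tre.all_lf (batP_ok par7_ok wc1235064_226))))) (Tre.all_nd (Tre.all_nd (Tre.all_nd (Tre.all_nd (Tre.all_lf (batP_ok par7_ok wc1235064_18)) (Tre.all_lf (batP_ok par7_ok wc1235064_274))) (Tre.all_lf (batP_ok par7_ok wc1235064_146))) (Tre.all_nd (Tre.all_lf (batP_ok par7_ok wc1235064_82)) (Tre.all_lf (batP_ok par7_ok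 wc1235064_210)))) (Tre.all_nd (Tre.all_nd (Tre.all_nd (Tre.all_lf (batP_ok par7_ok wc1235064_50)) (Tre.all_lf (batP_ok par7_ok wc1235064_306))) (Tre.all_lf (batP_ok par7_ok wc1235064_178))) (Tre.all_nd (Tre.all_lf (batP_ok par7_ok wc1235064_114)) (Tre.all_lf (batP_ok par7_ok wc1235064_242)))))) (Tre.all_nd (Tre.all_nd (Tre.all_nd (Tre.all_nd (Tre.all_nd (Tre.all_lf (batP_ok par7_ok wc1235064_10)) (Tre.all_lf (batP_ok par7_ok wc1235064_266))) (Tre.all_lf (batP_ok par7_ok wc1235064_138))) (Tre.all_nd (Tre.all_lf (batP_ok par7_ok wc1235064_74)) (Tre.all_lf (batP_ok par7_ok wc1235064_202)))) (Tre.all_nd (Tre.all_nd (Tre.all_nd (Tre.all_lf (batP_ok par7_ok wc1235064_42)) (Tre.all_lf (batP_ok par7_ok wc1235064_298))) (Tre.all_lf (batP_ok par7_ok wc1235064_170))) (Tre.all_nd (Tre.all_lf (batP_ok par7_ok wc1235064_106)) (Tre.all_lf (batP_ok par7_ok wc1235064_234))))) (Tre.all_nd (Tre.all_nd (Tre.all_nd (Tre.all_nd (Tre.all_lf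 (batP_ok par7_ok wc1235064_26)) (Tre.all_lf (batP_ok par7_ok wc1235064_282))) (Tre.all_lf (batP_ok par7_ok wc1235064_154))) (Tre.all_nd (Tre.all_lf (batP_ok par7_ok wc1235064_90)) (Tre.all_lf (batP_ok par7_ok wc1235064_218)))) (Tre.all_nd (Tre.all_nd (Tre.all_nd (Tre.all_lf (batP_ok par7_ok wc1235064_58)) (Tre.all_lf (batP_ok par7_ok wc1235064_314))) (Tre.all_lf (batP_ok par7_ok wc1235064_186))) (Tre.all_nd (Tre.all_lf (batP_ok par7_ok wc1235064_122)) (Tre.all_lf (batP_ok par7_ok wc1235064_250))))))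

theorem afc1235064011 : Tre.All (PceOK par7 c1235064.VT) fc1235064011 := Tre.all_nd (Tre.all_nd (Tre.all_nd (Tre.all_nd (Tre.all_nd (Tre.all_nd (Tre.all_lf (batP_ok par7_ok wc1235064_6)) (Tre.all_lf (batP_ok par7_ok wc1235064_262))) (Tre.all_lf (batP_ok par7_ok wc1235064_134))) (Tre.all_nd (Tre.all_lf (batP_ok par7_ok wc1235064_70)) (Tre.all_lf (batP_ok par7_ok wc1235064_198)))) (Tre.all_nd (Tre.all_nd (Tre.all_nd (Tre.all_lf (batP_ok par7_ok wc1235064_38)) (Tre.all_lf (batP_ok par7_ok wc1235064_294))) (Tre.all_lf (batP_ok par7_ok wc1235064_166))) (Tre.all_nd (Tre.all_lf (batP_ok par7_ok wc1235064_102)) (Tre.all_lf (batP_ok par7_ok wc1235064_230))))) (Tre.all_nd (Tre.all_nd (Tre.all_nd (Tre.all_nd (Tre.all_lf (batP_ok par7_ok wc1235064_22)) (Tre.all_lf (batP_ok par7_ok wc1235064_278))) (Tre.all_lf (batP_ok par7_ok wc1235064_150))) (Tre.all_nd (Tre.all_lf (batP_ok par7_ok wc1235064_86)) (Tre.all_lf (batP_ok par7_ok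 wc1235064_214)))) (Tre.all_nd (Tre.all_nd (Tre.all_nd (Tre.all_lf (batP_ok par7_ok wc1235064_54)) (Tre.all_lf (batP_ok par7_ok wc1235064_310))) (Tre.all_lf (batP_ok par7_ok wc1235064_182))) (Tre.all_nd (Tre.all_lf (batP_ok par7_ok wc1235064_118)) (Tre.all_lf (batP_ok par7_ok wc1235064_246)))))) (Tre.all_nd (Tre.all_nd (Tre.all_nd (Tre.all_nd (Tre.all_nd (Tre.all_lf (batP_ok par7_ok wc1235064_14)) (Tre.all_lf (batP_ok par7_ok wc1235064_270))) (Tre.all_lf (batP_ok par7_ok wc1235064_142))) (Tre.all_nd (Tre.all_lf (batP_ok par7_ok wc1235064_78)) (Tre.all_lf (batP_ok par7_ok wc1235064_206)))) (Tre.all_nd (Tre.all_nd (Tre.all_nd (Tre.all_lf (batP_ok par7_ok wc1235064_46)) (Tre.all_lf (batP_ok par7_ok wc1235064_302))) (Tre.all_lf (batP_ok par7_ok wc1235064_174))) (Tre.all_nd (Tre.all_lf (batP_ok par7_ok wc1235064_110)) (Tre.all_lf (batP_ok par7_ok wc1235064_238))))) (Tre.all_nd (Tre.all_nd (Tre.all_nd (Tre.all_nd (Tre.all_lf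 (batP_ok par7_ok wc1235064_30)) (Tre.all_lf (batP_ok par7_ok wc1235064_286))) (Tre.all_lf (batP_ok par7_ok wc1235064_158))) (Tre.all_nd (Tre.all_lf (batP_ok par7_ok wc1235064_94)) (Tre.all_lf (batP_ok par7_ok wc1235064_222)))) (Tre.all_nd (Tre.all_nd (Tre.all_lf (batP_ok par7_ok wc1235064_62)) (Tre.all_lf (batP_ok par7_ok wc1235064_190))) (Tre.all_nd (Tre.all_lf (batP_ok par7_ok wc1235064_126)) (Tre.all_lf (batP_ok par7_ok wc1235064_254))))))

theorem afc123506401 : Tre.All (PceOK par7 c1235064.VT) fc123506401 := Tre.all_nd afc1235064010 afc1235064011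

theorem afc12350640 : Tre.All (PceOK par7 c1235064.VT) fc12350640 := Tre.all_nd afc123506400 afc123506401

theorem afc1235064100 : Tre.All (PceOK par7 c1235064.VT) fc1235064100 := Tre.all_nd (Tre.all_nd (Tre.all_nd (Tre.all_nd (Tre.all_nd (Tre.all_nd (Tre.all_lf (batP_ok par7_ok wc1235064_1)) (Tre.all_lf (batP_ok par7_ok wc1235064_257))) (Tre.all_lf (batP_ok par7_ok wc1235064_129))) (Tre.all_nd (Tre.all_lf (batP_ok par7_ok wc1235064_65)) (Tre.all_lf (batP_ok par7_ok wc1235064_193)))) (Tre.all_nd (Tre.all_nd (Tre.all_nd (Tre.all_lf (batP_ok par7_ok wc1235064_33)) (Tre.all_lf (batP_ok par7_ok wc1235064_289))) (Tre.all_lf (batP_ok par7_ok wc1235064_161))) (Tre.all_nd (Tre.all_lf (batP_ok par7_ok wc1235064_97)) (Tre.all_lf (batP_ok par7_ok wc1235064_225))))) (Tre.all_nd (Tre.all_nd (Tre.all_nd (Tre.all_nd (Tre.all_lf (batP_ok par7_ok wc1235064_17)) (Tre.all_lf (batP_ok par7_ok wc1235064_273))) (Tre.all_lf (batP_ok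 par7_ok wc1235064_145))) (Tre.all_nd (Tre.all_lf (batP_ok par7_ok wc1235064_81)) (Tre.all_lf (batP_ok par7_ok wc1235064_209)))) (Tre.all_nd (Tre.all_nd (Tre.all_nd (Tre.all_lf (batP_ok par7_ok wc1235064_49)) (Tre.all_lf (batP_ok par7_ok wc1235064_305))) (Tre.all_lf (batP_ok par7_ok wc1235064_177))) (Tre.all_nd (Tre.all_lf (batP_ok par7_ok wc1235064_113)) (Tre.all_lf (batP_ok par7_ok wc1235064_241)))))) (Tre.all_nd (Tre.all_nd (Tre.all_nd (Tre.all_nd (Tre.all_nd (Tre.all_lf (batP_ok par7_ok wc1235064_9)) (Tre.all_lf (batP_ok par7_ok wc1235064_265))) (Tre.all_lf (batP_ok par7_ok wc1235064_137))) (Tre.all_nd (Tre.all_lf (batP_ok par7_ok wc1235064_73)) (Tre.all_lf (batP_ok par7_ok wc1235064_201)))) (Tre.all_nd (Tre.all_nd (Tre.all_nd (Tre.all_lf (batP_ok par7_ok wc1235064_41)) (Tre.all_lf (batP_ok par7_ok wc1235064_297))) (Tre.all_lf (batP_ok par7_ok wc1235064_169))) (Tre.all_nd (Tre.all_lf (batP_ok par7_ok wc1235064_105))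 (Tre.all_lf (batP_ok par7_ok wc1235064_233))))) (Tre.all_nd (Tre.all_nd (Tre.all_nd (Tre.all_nd (Tre.all_lf (batP_ok par7_ok wc1235064_25)) (Tre.all_lf (batP_ok par7_ok wc1235064_281))) (Tre.all_lf (batP_ok par7_ok wc1235064_153))) (Tre.all_nd (Tre.all_lf (batP_ok par7_ok wc1235064_89)) (Tre.all_lf (batP_ok par7_ok wc1235064_217)))) (Tre.all_nd (Tre.all_nd (Tre.all_nd (Tre.all_lf (batP_ok par7_ok wc1235064_57)) (Tre.all_lf (batP_ok par7_ok wc1235064_313))) (Tre.all_lf (batP_ok par7_ok wc1235064_185))) (Tre.all_nd (Tre.all_lf (batP_ok par7_ok wc1235064_121)) (Tre.all_lf (batP_ok par7_ok wc1235064_249))))))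

theorem afc1235064101 : Tre.All (PceOK par7 c1235064.VT) fc1235064101 := Tre.all_nd (Tre.all_nd (Tre.all_nd (Tre.all_nd (Tre.all_nd (Tre.all_nd (Tre.all_lf (batP_ok par7_ok wc1235064_5)) (Tre.all_lf (batP_ok par7_ok wc1235064_261))) (Tre.all_lf (batP_ok par7_ok wc1235064_133))) (Tre.all_nd (Tre.all_lf (batP_ok par7_ok wc1235064_69)) (Tre.all_lf (batP_ok par7_ok wc1235064_197)))) (Tre.all_nd (Tre.all_nd (Tre.all_nd (Tre.all_lf (batP_ok par7_ok wc1235064_37)) (Tre.all_lf (batP_ok par7_ok wc1235064_293))) (Tre.all_lf (batP_ok par7_ok wc1235064_165))) (Tre.all_nd (Tre.all_lf (batP_ok par7_ok wc1235064_101)) (Tre.all_lf (batP_ok par7_ok wc1235064_229))))) (Tre.all_nd (Tre.all_nd (Tre.all_nd (Tre.all_nd (Tre.all_lf (batP_ok par7_ok wc1235064_21)) (Tre.all_lf (batP_ok par7_ok wc1235064_277))) (Tre.all_lf (batP_ok par7_ok wc1235064_149))) (Tre.all_nd (Tre.all_lf (batP_ok par7_ok wc1235064_85)) (Tre.all_lf (batP_ok par7_ok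 wc1235064_213)))) (Tre.all_nd (Tre.all_nd (Tre.all_nd (Tre.all_lf (batP_ok par7_ok wc1235064_53)) (Tre.all_lf (batP_ok par7_ok wc1235064_309))) (Tre.all_lf (batP_ok par7_ok wc1235064_181))) (Tre.all_nd (Tre.all_lf (batP_ok par7_ok wc1235064_117)) (Tre.all_lf (batP_ok par7_ok wc1235064_245)))))) (Tre.all_nd (Tre.all_nd (Tre.all_nd (Tre.all_nd (Tre.all_nd (Tre.all_lf (batP_ok par7_ok wc1235064_13)) (Tre.all_lf (batP_ok par7_ok wc1235064_269))) (Tre.all_lf (batP_ok par7_ok wc1235064_141))) (Tre.all_nd (Tre.all_lf (batP_ok par7_ok wc1235064_77)) (Tre.all_lf (batP_ok par7_ok wc1235064_205)))) (Tre.all_nd (Tre.all_nd (Tre.all_nd (Tre.all_lf (batP_ok par7_ok wc1235064_45)) (Tre.all_lf (batP_ok par7_ok wc1235064_301))) (Tre.all_lf (batP_ok par7_ok wc1235064_173))) (Tre.all_nd (Tre.all_lf (batP_ok par7_ok wc1235064_109)) (Tre.all_lf (batP_ok par7_ok wc1235064_237))))) (Tre.all_nd (Tre.all_nd (Tre.all_nd (Tre.all_nd (Tre.all_lf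 (batP_ok par7_ok wc1235064_29)) (Tre.all_lf (batP_ok par7_ok wc1235064_285))) (Tre.all_lf (batP_ok par7_ok wc1235064_157))) (Tre.all_nd (Tre.all_lf (batP_ok par7_ok wc1235064_93)) (Tre.all_lf (batP_ok par7_ok wc1235064_221)))) (Tre.all_nd (Tre.all_nd (Tre.all_lf (batP_ok par7_ok wc1235064_61)) (Tre.all_lf (batP_ok par7_ok wc1235064_189))) (Tre.all_nd (Tre.all_lf (batP_ok par7_ok wc1235064_125)) (Tre.all_lf (batP_ok par7_ok wc1235064_253))))))

theorem afc123506410 : Tre.All (PceOK par7 c1235064.VT) fc123506410 := Tre.all_nd afc1235064100 afc1235064101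

theorem afc1235064110 : Tre.All (PceOK par7 c1235064.VT) fc1235064110 := Tre.all_nd (Tre.all_nd (Tre.all_nd (Tre.all_nd (Tre.all_nd (Tre.all_nd (Tre.all_lf (batP_ok par7_ok wc1235064_3)) (Tre.all_lf (batP_ok par7_ok wc1235064_259))) (Tre.all_lf (batP_ok par7_ok wc1235064_131))) (Tre.all_nd (Tre.all_lf (batP_ok par7_ok wc1235064_67)) (Tre.all_lf (batP_ok par7_ok wc1235064_195)))) (Tre.all_nd (Tre.all_nd (Tre.all_nd (Tre.all_lf (batP_ok par7_ok wc1235064_35)) (Tre.all_lf (batP_ok par7_ok wc1235064_291))) (Tre.all_lf (batP_ok par7_ok wc1235064_163))) (Tre.all_nd (Tre.all_lf (batP_ok par7_ok wc1235064_99)) (Tre.all_lf (batP_ok par7_ok wc1235064_227))))) (Tre.all_nd (Tre.all_nd (Tre.all_nd (Tre.all_nd (Tre.all_lf (batP_ok par7_ok wc1235064_19)) (Tre.all_lf (batP_ok par7_ok wc1235064_275))) (Tre.all_lf (batP_ok par7_ok wc1235064_147))) (Tre.all_nd (Tre.all_lf (batP_ok par7_ok wc1235064_83)) (Tre.all_lf (batP_ok par7_ok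 wc1235064_211)))) (Tre.all_nd (Tre.all_nd (Tre.all_nd (Tre.all_lf (batP_ok par7_ok wc1235064_51)) (Tre.all_lf (batP_ok par7_ok wc1235064_307))) (Tre.all_lf (batP_ok par7_ok wc1235064_179))) (Tre.all_nd (Tre.all_lf (batP_ok par7_ok wc1235064_115)) (Tre.all_lf (batP_ok par7_ok wc1235064_243)))))) (Tre.all_nd (Tre.all_nd (Tre.all_nd (Tre.all_nd (Tre.all_nd (Tre.all_lf (batP_ok par7_ok wc1235064_11)) (Tre.all_lf (batP_ok par7_ok wc1235064_267))) (Tre.all_lf (batP_ok par7_ok wc1235064_139))) (Tre.all_nd (Tre.all_lf (batP_ok par7_ok wc1235064_75)) (Tre.all_lf (batP_ok par7_ok wc1235064_203)))) (Tre.all_nd (Tre.all_nd (Tre.all_nd (Tre.all_lf (batP_ok par7_ok wc1235064_43)) (Tre.all_lf (batP_ok par7_ok wc1235064_299))) (Tre.all_lf (batP_ok par7_ok wc1235064_171))) (Tre.all_nd (Tre.all_lf (batP_ok par7_ok wc1235064_107)) (Tre.all_lf (batP_ok par7_ok wc1235064_235))))) (Tre.all_nd (Tre.all_nd (Tre.all_nd (Tre.all_nd (Tre.all_lf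 (batP_ok par7_ok wc1235064_27)) (Tre.all_lf (batP_ok par7_ok wc1235064_283))) (Tre.all_lf (batP_ok par7_ok wc1235064_155))) (Tre.all_nd (Tre.all_lf (batP_ok par7_ok wc1235064_91)) (Tre.all_lf (batP_ok par7_ok wc1235064_219)))) (Tre.all_nd (Tre.all_nd (Tre.all_lf (batP_ok par7_ok wc1235064_59)) (Tre.all_lf (batP_ok par7_ok wc1235064_187))) (Tre.all_nd (Tre.all_lf (batP_ok par7_ok wc1235064_123)) (Tre.all_lf (batP_ok par7_ok wc1235064_251))))))

theorem afc1235064111 : Tre.All (PceOK par7 c1235064.VT) fc1235064111 := Tre.all_nd (Tre.all_nd (Tre.all_nd (Tre.all_nd (Tre.all_nd (Tre.all_nd (Tre.all_lf (batP_ok par7_ok wc1235064_7)) (Tre.all_lf (batP_ok par7_ok wc1235064_263))) (Tre.all_lf (batP_ok par7_ok wc1235064_135))) (Tre.all_nd (Tre.all_lf (batP_ok par7_ok wc1235064_71)) (Tre.all_lf (batP_ok par7_ok wc1235064_199)))) (Tre.all_nd (Tre.all_nd (Tre.all_nd (Tre.all_lf (batP_ok par7_ok wc1235064_39)) (Tre.all_lf (batP_ok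 par7_ok wc1235064_295))) (Tre.all_lf (batP_ok par7_ok wc1235064_167))) (Tre.all_nd (Tre.all_lf (batP_ok par7_ok wc1235064_103)) (Tre.all_lf (batP_ok par7_ok wc1235064_231))))) (Tre.all_nd (Tre.all_nd (Tre.all_nd (Tre.all_nd (Tre.all_lf (batP_ok par7_ok wc1235064_23)) (Tre.all_lf (batP_ok par7_ok wc1235064_279))) (Tre.all_lf (batP_ok par7_ok wc1235064_151))) (Tre.all_nd (Tre.all_lf (batP_ok par7_ok wc1235064_87)) (Tre.all_lf (batP_ok par7_ok wc1235064_215)))) (Tre.all_nd (Tre.all_nd (Tre.all_nd (Tre.all_lf (batP_ok par7_ok wc1235064_55)) (Tre.all_lf (batP_ok par7_ok wc1235064_311))) (Tre.all_lf (batP_ok par7_ok wc1235064_183))) (Tre.all_nd (Tre.all_lf (batP_ok par7_ok wc1235064_119)) (Tre.all_lf (batP_ok par7_ok wc1235064_247)))))) (Tre.all_nd (Tre.all_nd (Tre.all_nd (Tre.all_nd (Tre.all_nd (Tre.all_lf (batP_ok par7_ok wc1235064_15)) (Tre.all_lf (batP_ok par7_ok wc1235064_271))) (Tre.all_lf (batP_ok par7_ok wc1235064_143)))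 (Tre.all_nd (Tre.all_lf (batP_ok par7_ok wc1235064_79)) (Tre.all_lf (batP_ok par7_ok wc1235064_207)))) (Tre.all_nd (Tre.all_nd (Tre.all_nd (Tre.all_lf (batP_ok par7_ok wc1235064_47)) (Tre.all_lf (batP_ok par7_ok wc1235064_303))) (Tre.all_lf (batP_ok par7_ok wc1235064_175))) (Tre.all_nd (Tre.all_lf (batP_ok par7_ok wc1235064_111)) (Tre.all_lf (batP_ok par7_ok wc1235064_239))))) (Tre.all_nd (Tre.all_nd (Tre.all_nd (Tre.all_nd (Tre.all_lf (batP_ok par7_ok wc1235064_31)) (Tre.all_lf (batP_ok par7_ok wc1235064_287))) (Tre.all_lf (batP_ok par7_ok wc1235064_159))) (Tre.all_nd (Tre.all_lf (batP_ok par7_ok wc1235064_95)) (Tre.all_lf (batP_ok par7_ok wc1235064_223)))) (Tre.all_nd (Tre.all_nd (Tre.all_lf (batP_ok par7_ok wc1235064_63)) (Tre.all_lf (batP_ok par7_ok wc1235064_191))) (Tre.all_nd (Tre.all_lf (batP_ok par7_ok wc1235064_127)) (Tre.all_lf (batP_ok par7_ok wc1235064_255))))))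

theorem afc123506411 : Tre.All (PceOK par7 c1235064.VT) fc123506411 := Tre.all_nd afc1235064110 afc1235064111

theorem afc12350641 : Tre.All (PceOK par7 c1235064.VT) fc12350641 := Tre.all_nd afc123506410 afc123506411

theorem afc1235064 : Tre.All (PceOK par7 c1235064.VT) fc1235064 := Tre.all_nd afc12350640 afc12350641

theorem rac1235064_0 : RA c1235064 fc1235064 0 := ra_zero

theorem rac1235064_60 : RA c1235064 fc1235064 60 := ra_rng rac1235064_0 ec1235064_0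

theorem rac1235064_96 : RA c1235064 fc1235064 96 := ra_rng rac1235064_60 ec1235064_60

theorem rac1235064_118 : RA c1235064 fc1235064 118 := ra_rng rac1235064_96 ec1235064_96

theorem rac1235064_153 : RA c1235064 fc1235064 153 := ra_rng rac1235064_118 ec1235064_118

theorem rac1235064_209 : RA c1235064 fc1235064 209 := ra_rng rac1235064_153 ec1235064_153

theorem rac1235064_315 : RA c1235064 fc1235064 315 := ra_rng rac1235064_209 ec1235064_209

theorem kc1235064 : clsOK par7.d c1235064 = true := by decide +kernel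

theorem dead_c1235064 : ClsD par7 c1235064 := clsD_of kc1235064 afc1235064 rac1235064_315

end Pool.Agent.RTX
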