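import Pool.Agent.RTS7.W_1235460_0
import Pool.Agent.RTS7.W_1235460_1
import Pool.Agent.RTS7.W_1235460_2
import Pool.Agent.RTS7.W_1235460_3
import Pool.Agent.RTS7.W_1235460_4
import Pool.Agent.RTS7.W_1235460_5
import Pool.Agent.RTS7.W_1235460_6
import Pool.Agent.RTS7.W_1235460_7
import Pool.Agent.RTS7.W_1235460_8
import Pool.Agent.RTS7.W_1235460_9
import Pool.Agent.RTS7.W_1235460_10
import Pool.Agent.RTS7.W_1235460_11
import Pool.Agent.RTS7.W_1235460_12
import Pool.Agent.RTS7.W_1235460_13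
import Pool.Agent.RTS7.E_1235460_0
import Pool.Agent.RTS7.E_1235460_1
import Pool.Agent.RTS7.E_1235460_2
import Pool.Agent.RTS7.E_1235460_3

/-!
# RTS7: class of the permutation 1235460
-/

set_option autoImplicit false
set_option maxRecDepth 100000

namespace Pool.Agent.RTX

theorem afc12354600000 : Tre.All (PceOK par7 c1235460.VT) fc12354600000 := Tre.all_nd (Tre.all_nd (Tre.all_nd (Tre.all_nd (Tre.all_nd (Tre.all_nd (Tre.all_lf (batP_ok par7_ok wc1235460_0)) (Tre.all_lf (batP_ok par7_ok wc1235460_512))) (Tre.all_lf (batP_ok par7_ok wc1235460_256))) (Tre.all_nd (Tre.all_lf (batP_ok par7_ok wc1235460_128)) (Tre.all_lf (batP_ok par7_ok wc1235460_384)))) (Tre.all_nd (Tre.all_nd (Tre.all_lf (batP_ok par7_ok wc1235460_64)) (Tre.all_lf (batP_ok par7_ok wc1235460_320))) (Tre.all_nd (Tre.all_lf (batP_ok par7_ok wc1235460_192)) (Tre.all_lf (batP_ok par7_ok wc1235460_448))))) (Tre.all_nd (Tre.all_nd (Tre.all_nd (Tre.all_lf (batP_ok par7_ok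 wc1235460_32)) (Tre.all_lf (batP_ok par7_ok wc1235460_288))) (Tre.all_nd (Tre.all_lf (batP_ok par7_ok wc1235460_160)) (Tre.all_lf (batP_ok par7_ok wc1235460_416)))) (Tre.all_nd (Tre.all_nd (Tre.all_lf (batP_ok par7_ok wc1235460_96)) (Tre.all_lf (batP_ok par7_ok wc1235460_352))) (Tre.all_nd (Tre.all_lf (batP_ok par7_ok wc1235460_224)) (Tre.all_lf (batP_ok par7_ok wc1235460_480)))))) (Tre.all_nd (Tre.all_nd (Tre.all_nd (Tre.all_nd (Tre.all_nd (Tre.all_lf (batP_ok par7_ok wc1235460_16)) (Tre.all_lf (batP_ok par7_ok wc1235460_528))) (Tre.all_lf (batP_ok par7_ok wc1235460_272))) (Tre.all_nd (Tre.all_lf (batP_ok par7_ok wc1235460_144)) (Tre.all_lf (batP_ok par7_ok wc1235460_400)))) (Tre.all_nd (Tre.all_nd (Tre.all_lf (batP_ok par7_ok wc1235460_80)) (Tre.all_lf (batP_ok par7_ok wc1235460_336))) (Tre.all_nd (Tre.all_lf (batP_ok par7_ok wc1235460_208)) (Tre.all_lf (batP_ok par7_ok wc1235460_464))))) (Tre.all_nd (Tre.all_nd (Tre.all_nd (Tre.all_lf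 (batP_ok par7_ok wc1235460_48)) (Tre.all_lf (batP_ok par7_ok wc1235460_304))) (Tre.all_nd (Tre.all_lf (batP_ok par7_ok wc1235460_176)) (Tre.all_lf (batP_ok par7_ok wc1235460_432)))) (Tre.all_nd (Tre.all_nd (Tre.all_lf (batP_ok par7_ok wc1235460_112)) (Tre.all_lf (batP_ok par7_ok wc1235460_368))) (Tre.all_nd (Tre.all_lf (batP_ok par7_ok wc1235460_240)) (Tre.all_lf (batP_ok par7_ok wc1235460_496))))))

theorem afc12354600001 : Tre.All (PceOK par7 c1235460.VT) fc12354600001 := Tre.all_nd (Tre.all_nd (Tre.all_nd (Tre.all_nd (Tre.all_nd (Tre.all_nd (Tre.all_lf (batP_ok par7_ok wc1235460_8)) (Tre.all_lf (batP_ok par7_ok wc1235460_520))) (Tre.all_lf (batP_ok par7_ok wc1235460_264))) (Tre.all_nd (Tre.all_lf (batP_ok par7_ok wc1235460_136)) (Tre.all_lf (batP_ok par7_ok wc1235460_392)))) (Tre.all_nd (Tre.all_nd (Tre.all_lf (batP_ok par7_ok wc1235460_72)) (Tre.all_lf (batP_ok par7_ok wc1235460_328))) (Tre.all_nd (Tre.all_lf (batP_ok par7_ok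 wc1235460_200)) (Tre.all_lf (batP_ok par7_ok wc1235460_456))))) (Tre.all_nd (Tre.all_nd (Tre.all_nd (Tre.all_lf (batP_ok par7_ok wc1235460_40)) (Tre.all_lf (batP_ok par7_ok wc1235460_296))) (Tre.all_nd (Tre.all_lf (batP_ok par7_ok wc1235460_168)) (Tre.all_lf (batP_ok par7_ok wc1235460_424)))) (Tre.all_nd (Tre.all_nd (Tre.all_lf (batP_ok par7_ok wc1235460_104)) (Tre.all_lf (batP_ok par7_ok wc1235460_360))) (Tre.all_nd (Tre.all_lf (batP_ok par7_ok wc1235460_232)) (Tre.all_lf (batP_ok par7_ok wc1235460_488)))))) (Tre.all_nd (Tre.all_nd (Tre.all_nd (Tre.all_nd (Tre.all_nd (Tre.all_lf (batP_ok par7_ok wc1235460_24)) (Tre.all_lf (batP_ok par7_ok wc1235460_536))) (Tre.all_lf (batP_ok par7_ok wc1235460_280))) (Tre.all_nd (Tre.all_lf (batP_ok par7_ok wc1235460_152)) (Tre.all_lf (batP_ok par7_ok wc1235460_408)))) (Tre.all_nd (Tre.all_nd (Tre.all_lf (batP_ok par7_ok wc1235460_88)) (Tre.all_lf (batP_ok par7_ok wc1235460_344))) (Tre.all_nd (Tre.all_lf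 (batP_ok par7_ok wc1235460_216)) (Tre.all_lf (batP_ok par7_ok wc1235460_472))))) (Tre.all_nd (Tre.all_nd (Tre.all_nd (Tre.all_lf (batP_ok par7_ok wc1235460_56)) (Tre.all_lf (batP_ok par7_ok wc1235460_312))) (Tre.all_nd (Tre.all_lf (batP_ok par7_ok wc1235460_184)) (Tre.all_lf (batP_ok par7_ok wc1235460_440)))) (Tre.all_nd (Tre.all_nd (Tre.all_lf (batP_ok par7_ok wc1235460_120)) (Tre.all_lf (batP_ok par7_ok wc1235460_376))) (Tre.all_nd (Tre.all_lf (batP_ok par7_ok wc1235460_248)) (Tre.all_lf (batP_ok par7_ok wc1235460_504))))))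

theorem afc1235460000 : Tre.All (PceOK par7 c1235460.VT) fc1235460000 := Tre.all_nd afc12354600000 afc12354600001

theorem afc12354600010 : Tre.All (PceOK par7 c1235460.VT) fc12354600010 := Tre.all_nd (Tre.all_nd (Tre.all_nd (Tre.all_nd (Tre.all_nd (Tre.all_nd (Tre.all_lf (batP_ok par7_ok wc1235460_4)) (Tre.all_lf (batP_ok par7_ok wc1235460_516))) (Tre.all_lf (batP_ok par7_ok wc1235460_260))) (Tre.all_nd (Tre.all_lf (batP_ok par7_ok wc1235460_132)) (Tre.all_lf (batP_ok par7_ok wc1235460_388)))) (Tre.all_nd (Tre.all_nd (Tre.all_lf (batP_ok par7_ok wc1235460_68)) (Tre.all_lf (batP_ok par7_ok wc1235460_324))) (Tre.all_nd (Tre.all_lf (batP_ok par7_ok wc1235460_196)) (Tre.all_lf (batP_ok par7_ok wc1235460_452))))) (Tre.all_nd (Tre.all_nd (Tre.all_nd (Tre.all_lf (batP_ok par7_ok wc1235460_36)) (Tre.all_lf (batP_ok par7_ok wc1235460_292))) (Tre.all_nd (Tre.all_lf (batP_ok par7_ok wc1235460_164)) (Tre.all_lf (batP_ok par7_ok wc1235460_420))))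 (Tre.all_nd (Tre.all_nd (Tre.all_lf (batP_ok par7_ok wc1235460_100)) (Tre.all_lf (batP_ok par7_ok wc1235460_356))) (Tre.all_nd (Tre.all_lf (batP_ok par7_ok wc1235460_228)) (Tre.all_lf (batP_ok par7_ok wc1235460_484)))))) (Tre.all_nd (Tre.all_nd (Tre.all_nd (Tre.all_nd (Tre.all_nd (Tre.all_lf (batP_ok par7_ok wc1235460_20)) (Tre.all_lf (batP_ok par7_ok wc1235460_532))) (Tre.all_lf (batP_ok par7_ok wc1235460_276))) (Tre.all_nd (Tre.all_lf (batP_ok par7_ok wc1235460_148)) (Tre.all_lf (batP_ok par7_ok wc1235460_404)))) (Tre.all_nd (Tre.all_nd (Tre.all_lf (batP_ok par7_ok wc1235460_84)) (Tre.all_lf (batP_ok par7_ok wc1235460_340))) (Tre.all_nd (Tre.all_lf (batP_ok par7_ok wc1235460_212)) (Tre.all_lf (batP_ok par7_ok wc1235460_468))))) (Tre.all_nd (Tre.all_nd (Tre.all_nd (Tre.all_lf (batP_ok par7_ok wc1235460_52)) (Tre.all_lf (batP_ok par7_ok wc1235460_308))) (Tre.all_nd (Tre.all_lf (batP_ok par7_ok wc1235460_180)) (Tre.all_lf (batP_ok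 par7_ok wc1235460_436)))) (Tre.all_nd (Tre.all_nd (Tre.all_lf (batP_ok par7_ok wc1235460_116)) (Tre.all_lf (batP_ok par7_ok wc1235460_372))) (Tre.all_nd (Tre.all_lf (batP_ok par7_ok wc1235460_244)) (Tre.all_lf (batP_ok par7_ok wc1235460_500))))))

theorem afc12354600011 : Tre.All (PceOK par7 c1235460.VT) fc12354600011 := Tre.all_nd (Tre.all_nd (Tre.all_nd (Tre.all_nd (Tre.all_nd (Tre.all_nd (Tre.all_lf (batP_ok par7_ok wc1235460_12)) (Tre.all_lf (batP_ok par7_ok wc1235460_524))) (Tre.all_lf (batP_ok par7_ok wc1235460_268))) (Tre.all_nd (Tre.all_lf (batP_ok par7_ok wc1235460_140)) (Tre.all_lf (batP_ok par7_ok wc1235460_396)))) (Tre.all_nd (Tre.all_nd (Tre.all_lf (batP_ok par7_ok wc1235460_76)) (Tre.all_lf (batP_ok par7_ok wc1235460_332))) (Tre.all_nd (Tre.all_lf (batP_ok par7_ok wc1235460_204)) (Tre.all_lf (batP_ok par7_ok wc1235460_460))))) (Tre.all_nd (Tre.all_nd (Tre.all_nd (Tre.all_lf (batP_ok par7_ok wc1235460_44)) (Tre.all_lf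 (batP_ok par7_ok wc1235460_300))) (Tre.all_nd (Tre.all_lf (batP_ok par7_ok wc1235460_172)) (Tre.all_lf (batP_ok par7_ok wc1235460_428)))) (Tre.all_nd (Tre.all_nd (Tre.all_lf (batP_ok par7_ok wc1235460_108)) (Tre.all_lf (batP_ok par7_ok wc1235460_364))) (Tre.all_nd (Tre.all_lf (batP_ok par7_ok wc1235460_236)) (Tre.all_lf (batP_ok par7_ok wc1235460_492)))))) (Tre.all_nd (Tre.all_nd (Tre.all_nd (Tre.all_nd (Tre.all_lf (batP_ok par7_ok wc1235460_28)) (Tre.all_lf (batP_ok par7_ok wc1235460_284))) (Tre.all_nd (Tre.all_lf (batP_ok par7_ok wc1235460_156)) (Tre.all_lf (batP_ok par7_ok wc1235460_412)))) (Tre.all_nd (Tre.all_nd (Tre.all_lf (batP_ok par7_ok wc1235460_92)) (Tre.all_lf (batP_ok par7_ok wc1235460_348))) (Tre.all_nd (Tre.all_lf (batP_ok par7_ok wc1235460_220)) (Tre.all_lf (batP_ok par7_ok wc1235460_476))))) (Tre.all_nd (Tre.all_nd (Tre.all_nd (Tre.all_lf (batP_ok par7_ok wc1235460_60)) (Tre.all_lf (batP_ok par7_ok wc1235460_316)))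 (Tre.all_nd (Tre.all_lf (batP_ok par7_ok wc1235460_188)) (Tre.all_lf (batP_ok par7_ok wc1235460_444)))) (Tre.all_nd (Tre.all_nd (Tre.all_lf (batP_ok par7_ok wc1235460_124)) (Tre.all_lf (batP_ok par7_ok wc1235460_380))) (Tre.all_nd (Tre.all_lf (batP_ok par7_ok wc1235460_252)) (Tre.all_lf (batP_ok par7_ok wc1235460_508))))))

theorem afc1235460001 : Tre.All (PceOK par7 c1235460.VT) fc1235460001 := Tre.all_nd afc12354600010 afc12354600011

theorem afc123546000 : Tre.All (PceOK par7 c1235460.VT) fc123546000 := Tre.all_nd afc1235460000 afc1235460001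

theorem afc12354600100 : Tre.All (PceOK par7 c1235460.VT) fc12354600100 := Tre.all_nd (Tre.all_nd (Tre.all_nd (Tre.all_nd (Tre.all_nd (Tre.all_nd (Tre.all_lf (batP_ok par7_ok wc1235460_2)) (Tre.all_lf (batP_ok par7_ok wc1235460_514))) (Tre.all_lf (batP_ok par7_ok wc1235460_258))) (Tre.all_nd (Tre.all_lf (batP_ok par7_ok wc1235460_130)) (Tre.all_lf (batP_ok par7_ok wc1235460_386)))) (Tre.all_nd (Tre.all_nd (Tre.all_lf (batP_ok par7_ok wc1235460_66)) (Tre.all_lf (batP_ok par7_ok wc1235460_322))) (Tre.all_nd (Tre.all_lf (batP_ok par7_ok wc1235460_194)) (Tre.all_lf (batP_ok par7_ok wc1235460_450))))) (Tre.all_nd (Tre.all_nd (Tre.all_nd (Tre.all_lf (batP_ok par7_ok wc1235460_34)) (Tre.all_lf (batP_ok par7_ok wc1235460_290))) (Tre.all_nd (Tre.all_lf (batP_ok par7_ok wc1235460_162)) (Tre.all_lf (batP_ok par7_ok wc1235460_418)))) (Tre.all_nd (Tre.all_nd (Tre.all_lf (batP_ok par7_ok wc1235460_98)) (Tre.all_lf (batP_ok par7_ok wc1235460_354)))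 (Tre.all_nd (Tre.all_lf (batP_ok par7_ok wc1235460_226)) (Tre.all_lf (batP_ok par7_ok wc1235460_482)))))) (Tre.all_nd (Tre.all_nd (Tre.all_nd (Tre.all_nd (Tre.all_nd (Tre.all_lf (batP_ok par7_ok wc1235460_18)) (Tre.all_lf (batP_ok par7_ok wc1235460_530))) (Tre.all_lf (batP_ok par7_ok wc1235460_274))) (Tre.all_nd (Tre.all_lf (batP_ok par7_ok wc1235460_146)) (Tre.all_lf (batP_ok par7_ok wc1235460_402)))) (Tre.all_nd (Tre.all_nd (Tre.all_lf (batP_ok par7_ok wc1235460_82)) (Tre.all_lf (batP_ok par7_ok wc1235460_338))) (Tre.all_nd (Tre.all_lf (batP_ok par7_ok wc1235460_210)) (Tre.all_lf (batP_ok par7_ok wc1235460_466))))) (Tre.all_nd (Tre.all_nd (Tre.all_nd (Tre.all_lf (batP_ok par7_ok wc1235460_50)) (Tre.all_lf (batP_ok par7_ok wc1235460_306))) (Tre.all_nd (Tre.all_lf (batP_ok par7_ok wc1235460_178)) (Tre.all_lf (batP_ok par7_ok wc1235460_434)))) (Tre.all_nd (Tre.all_nd (Tre.all_lf (batP_ok par7_ok wc1235460_114)) (Tre.all_lf (batP_ok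 par7_ok wc1235460_370))) (Tre.all_nd (Tre.all_lf (batP_ok par7_ok wc1235460_242)) (Tre.all_lf (batP_ok par7_ok wc1235460_498))))))

theorem afc12354600101 : Tre.All (PceOK par7 c1235460.VT) fc12354600101 := Tre.all_nd (Tre.all_nd (Tre.all_nd (Tre.all_nd (Tre.all_nd (Tre.all_nd (Tre.all_lf (batP_ok par7_ok wc1235460_10)) (Tre.all_lf (batP_ok par7_ok wc1235460_522))) (Tre.all_lf (batP_ok par7_ok wc1235460_266))) (Tre.all_nd (Tre.all_lf (batP_ok par7_ok wc1235460_138)) (Tre.all_lf (batP_ok par7_ok wc1235460_394)))) (Tre.all_nd (Tre.all_nd (Tre.all_lf (batP_ok par7_ok wc1235460_74)) (Tre.all_lf (batP_ok par7_ok wc1235460_330))) (Tre.all_nd (Tre.all_lf (batP_ok par7_ok wc1235460_202)) (Tre.all_lf (batP_ok par7_ok wc1235460_458))))) (Tre.all_nd (Tre.all_nd (Tre.all_nd (Tre.all_lf (batP_ok par7_ok wc1235460_42)) (Tre.all_lf (batP_ok par7_ok wc1235460_298))) (Tre.all_nd (Tre.all_lf (batP_ok par7_ok wc1235460_170)) (Tre.all_lf (batP_ok par7_ok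 wc1235460_426)))) (Tre.all_nd (Tre.all_nd (Tre.all_lf (batP_ok par7_ok wc1235460_106)) (Tre.all_lf (batP_ok par7_ok wc1235460_362))) (Tre.all_nd (Tre.all_lf (batP_ok par7_ok wc1235460_234)) (Tre.all_lf (batP_ok par7_ok wc1235460_490)))))) (Tre.all_nd (Tre.all_nd (Tre.all_nd (Tre.all_nd (Tre.all_lf (batP_ok par7_ok wc1235460_26)) (Tre.all_lf (batP_ok par7_ok wc1235460_282))) (Tre.all_nd (Tre.all_lf (batP_ok par7_ok wc1235460_154)) (Tre.all_lf (batP_ok par7_ok wc1235460_410)))) (Tre.all_nd (Tre.all_nd (Tre.all_lf (batP_ok par7_ok wc1235460_90)) (Tre.all_lf (batP_ok par7_ok wc1235460_346))) (Tre.all_nd (Tre.all_lf (batP_ok par7_ok wc1235460_218)) (Tre.all_lf (batP_ok par7_ok wc1235460_474))))) (Tre.all_nd (Tre.all_nd (Tre.all_nd (Tre.all_lf (batP_ok par7_ok wc1235460_58)) (Tre.all_lf (batP_ok par7_ok wc1235460_314))) (Tre.all_nd (Tre.all_lf (batP_ok par7_ok wc1235460_186)) (Tre.all_lf (batP_ok par7_ok wc1235460_442)))) (Tre.all_nd (Tre.all_nd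 (Tre.all_lf (batP_ok par7_ok wc1235460_122)) (Tre.all_lf (batP_ok par7_ok wc1235460_378))) (Tre.all_nd (Tre.all_lf (batP_ok par7_ok wc1235460_250)) (Tre.all_lf (batP_ok par7_ok wc1235460_506))))))

theorem afc1235460010 : Tre.All (PceOK par7 c1235460.VT) fc1235460010 := Tre.all_nd afc12354600100 afc12354600101

theorem afc12354600110 : Tre.All (PceOK par7 c1235460.VT) fc12354600110 := Tre.all_nd (Tre.all_nd (Tre.all_nd (Tre.all_nd (Tre.all_nd (Tre.all_nd (Tre.all_lf (batP_ok par7_ok wc1235460_6)) (Tre.all_lf (batP_ok par7_ok wc1235460_518))) (Tre.all_lf (batP_ok par7_ok wc1235460_262))) (Tre.all_nd (Tre.all_lf (batP_ok par7_ok wc1235460_134)) (Tre.all_lf (batP_ok par7_ok wc1235460_390)))) (Tre.all_nd (Tre.all_nd (Tre.all_lf (batP_ok par7_ok wc1235460_70)) (Tre.all_lf (batP_ok par7_ok wc1235460_326))) (Tre.all_nd (Tre.all_lf (batP_ok par7_ok wc1235460_198)) (Tre.all_lf (batP_ok par7_ok wc1235460_454))))) (Tre.all_nd (Tre.all_nd (Tre.all_nd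 (Tre.all_lf (batP_ok par7_ok wc1235460_38)) (Tre.all_lf (batP_ok par7_ok wc1235460_294))) (Tre.all_nd (Tre.all_lf (batP_ok par7_ok wc1235460_166)) (Tre.all_lf (batP_ok par7_ok wc1235460_422)))) (Tre.all_nd (Tre.all_nd (Tre.all_lf (batP_ok par7_ok wc1235460_102)) (Tre.all_lf (batP_ok par7_ok wc1235460_358))) (Tre.all_nd (Tre.all_lf (batP_ok par7_ok wc1235460_230)) (Tre.all_lf (batP_ok par7_ok wc1235460_486)))))) (Tre.all_nd (Tre.all_nd (Tre.all_nd (Tre.all_nd (Tre.all_nd (Tre.all_lf (batP_ok par7_ok wc1235460_22)) (Tre.all_lf (batP_ok par7_ok wc1235460_534))) (Tre.all_lf (batP_ok par7_ok wc1235460_278))) (Tre.all_nd (Tre.all_lf (batP_ok par7_ok wc1235460_150)) (Tre.all_lf (batP_ok par7_ok wc1235460_406)))) (Tre.all_nd (Tre.all_nd (Tre.all_lf (batP_ok par7_ok wc1235460_86)) (Tre.all_lf (batP_ok par7_ok wc1235460_342))) (Tre.all_nd (Tre.all_lf (batP_ok par7_ok wc1235460_214)) (Tre.all_lf (batP_ok par7_ok wc1235460_470))))) (Tre.all_nd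 (Tre.all_nd (Tre.all_nd (Tre.all_lf (batP_ok par7_ok wc1235460_54)) (Tre.all_lf (batP_ok par7_ok wc1235460_310))) (Tre.all_nd (Tre.all_lf (batP_ok par7_ok wc1235460_182)) (Tre.all_lf (batP_ok par7_ok wc1235460_438)))) (Tre.all_nd (Tre.all_nd (Tre.all_lf (batP_ok par7_ok wc1235460_118)) (Tre.all_lf (batP_ok par7_ok wc1235460_374))) (Tre.all_nd (Tre.all_lf (batP_ok par7_ok wc1235460_246)) (Tre.all_lf (batP_ok par7_ok wc1235460_502))))))

theorem afc12354600111 : Tre.All (PceOK par7 c1235460.VT) fc12354600111 := Tre.all_nd (Tre.all_nd (Tre.all_nd (Tre.all_nd (Tre.all_nd (Tre.all_nd (Tre.all_lf (batP_ok par7_ok wc1235460_14)) (Tre.all_lf (batP_ok par7_ok wc1235460_526))) (Tre.all_lf (batP_ok par7_ok wc1235460_270))) (Tre.all_nd (Tre.all_lf (batP_ok par7_ok wc1235460_142)) (Tre.all_lf (batP_ok par7_ok wc1235460_398)))) (Tre.all_nd (Tre.all_nd (Tre.all_lf (batP_ok par7_ok wc1235460_78)) (Tre.all_lf (batP_ok par7_ok wc1235460_334))) (Tre.all_nd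 (Tre.all_lf (batP_ok par7_ok wc1235460_206)) (Tre.all_lf (batP_ok par7_ok wc1235460_462))))) (Tre.all_nd (Tre.all_nd (Tre.all_nd (Tre.all_lf (batP_ok par7_ok wc1235460_46)) (Tre.all_lf (batP_ok par7_ok wc1235460_302))) (Tre.all_nd (Tre.all_lf (batP_ok par7_ok wc1235460_174)) (Tre.all_lf (batP_ok par7_ok wc1235460_430)))) (Tre.all_nd (Tre.all_nd (Tre.all_lf (batP_ok par7_ok wc1235460_110)) (Tre.all_lf (batP_ok par7_ok wc1235460_366))) (Tre.all_nd (Tre.all_lf (batP_ok par7_ok wc1235460_238)) (Tre.all_lf (batP_ok par7_ok wc1235460_494)))))) (Tre.all_nd (Tre.all_nd (Tre.all_nd (Tre.all_nd (Tre.all_lf (batP_ok par7_ok wc1235460_30)) (Tre.all_lf (batP_ok par7_ok wc1235460_286))) (Tre.all_nd (Tre.all_lf (batP_ok par7_ok wc1235460_158)) (Tre.all_lf (batP_ok par7_ok wc1235460_414)))) (Tre.all_nd (Tre.all_nd (Tre.all_lf (batP_ok par7_ok wc1235460_94)) (Tre.all_lf (batP_ok par7_ok wc1235460_350))) (Tre.all_nd (Tre.all_lf (batP_ok par7_ok wc1235460_222))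 (Tre.all_lf (batP_ok par7_ok wc1235460_478))))) (Tre.all_nd (Tre.all_nd (Tre.all_nd (Tre.all_lf (batP_ok par7_ok wc1235460_62)) (Tre.all_lf (batP_ok par7_ok wc1235460_318))) (Tre.all_nd (Tre.all_lf (batP_ok par7_ok wc1235460_190)) (Tre.all_lf (batP_ok par7_ok wc1235460_446)))) (Tre.all_nd (Tre.all_nd (Tre.all_lf (batP_ok par7_ok wc1235460_126)) (Tre.all_lf (batP_ok par7_ok wc1235460_382))) (Tre.all_nd (Tre.all_lf (batP_ok par7_ok wc1235460_254)) (Tre.all_lf (batP_ok par7_ok wc1235460_510))))))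

theorem afc1235460011 : Tre.All (PceOK par7 c1235460.VT) fc1235460011 := Tre.all_nd afc12354600110 afc12354600111

theorem afc123546001 : Tre.All (PceOK par7 c1235460.VT) fc123546001 := Tre.all_nd afc1235460010 afc1235460011

theorem afc12354600 : Tre.All (PceOK par7 c1235460.VT) fc12354600 := Tre.all_nd afc123546000 afc123546001

theorem afc12354601000 : Tre.All (PceOK par7 c1235460.VT) fc12354601000 := Tre.all_nd (Tre.all_nd (Tre.all_nd (Tre.all_nd (Tre.all_nd (Tre.all_nd (Tre.all_lf (batP_ok par7_ok wc1235460_1)) (Tre.all_lf (batP_ok par7_ok wc1235460_513))) (Tre.all_lf (batP_ok par7_ok wc1235460_257))) (Tre.all_nd (Tre.all_lf (batP_ok par7_ok wc1235460_129)) (Tre.all_lf (batP_ok par7_ok wc1235460_385)))) (Tre.all_nd (Tre.all_nd (Tre.all_lf (batP_ok par7_ok wc1235460_65)) (Tre.all_lf (batP_ok par7_ok wc1235460_321))) (Tre.all_nd (Tre.all_lf (batP_ok par7_ok wc1235460_193)) (Tre.all_lf (batP_ok par7_ok wc1235460_449))))) (Tre.all_nd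 (Tre.all_nd (Tre.all_nd (Tre.all_lf (batP_ok par7_ok wc1235460_33)) (Tre.all_lf (batP_ok par7_ok wc1235460_289))) (Tre.all_nd (Tre.all_lf (batP_ok par7_ok wc1235460_161)) (Tre.all_lf (batP_ok par7_ok wc1235460_417)))) (Tre.all_nd (Tre.all_nd (Tre.all_lf (batP_ok par7_ok wc1235460_97)) (Tre.all_lf (batP_ok par7_ok wc1235460_353))) (Tre.all_nd (Tre.all_lf (batP_ok par7_ok wc1235460_225)) (Tre.all_lf (batP_ok par7_ok wc1235460_481)))))) (Tre.all_nd (Tre.all_nd (Tre.all_nd (Tre.all_nd (Tre.all_nd (Tre.all_lf (batP_ok par7_ok wc1235460_17)) (Tre.all_lf (batP_ok par7_ok wc1235460_529))) (Tre.all_lf (batP_ok par7_ok wc1235460_273))) (Tre.all_nd (Tre.all_lf (batP_ok par7_ok wc1235460_145)) (Tre.all_lf (batP_ok par7_ok wc1235460_401)))) (Tre.all_nd (Tre.all_nd (Tre.all_lf (batP_ok par7_ok wc1235460_81)) (Tre.all_lf (batP_ok par7_ok wc1235460_337))) (Tre.all_nd (Tre.all_lf (batP_ok par7_ok wc1235460_209)) (Tre.all_lf (batP_ok par7_ok wc1235460_465)))))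 (Tre.all_nd (Tre.all_nd (Tre.all_nd (Tre.all_lf (batP_ok par7_ok wc1235460_49)) (Tre.all_lf (batP_ok par7_ok wc1235460_305))) (Tre.all_nd (Tre.all_lf (batP_ok par7_ok wc1235460_177)) (Tre.all_lf (batP_ok par7_ok wc1235460_433)))) (Tre.all_nd (Tre.all_nd (Tre.all_lf (batP_ok par7_ok wc1235460_113)) (Tre.all_lf (batP_ok par7_ok wc1235460_369))) (Tre.all_nd (Tre.all_lf (batP_ok par7_ok wc1235460_241)) (Tre.all_lf (batP_ok par7_ok wc1235460_497))))))

theorem afc12354601001 : Tre.All (PceOK par7 c1235460.VT) fc12354601001 := Tre.all_nd (Tre.all_nd (Tre.all_nd (Tre.all_nd (Tre.all_nd (Tre.all_nd (Tre.all_lf (batP_ok par7_ok wc1235460_9)) (Tre.all_lf (batP_ok par7_ok wc1235460_521))) (Tre.all_lf (batP_ok par7_ok wc1235460_265))) (Tre.all_nd (Tre.all_lf (batP_ok par7_ok wc1235460_137)) (Tre.all_lf (batP_ok par7_ok wc1235460_393)))) (Tre.all_nd (Tre.all_nd (Tre.all_lf (batP_ok par7_ok wc1235460_73)) (Tre.all_lf (batP_ok par7_ok wc1235460_329)))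 (Tre.all_nd (Tre.all_lf (batP_ok par7_ok wc1235460_201)) (Tre.all_lf (batP_ok par7_ok wc1235460_457))))) (Tre.all_nd (Tre.all_nd (Tre.all_nd (Tre.all_lf (batP_ok par7_ok wc1235460_41)) (Tre.all_lf (batP_ok par7_ok wc1235460_297))) (Tre.all_nd (Tre.all_lf (batP_ok par7_ok wc1235460_169)) (Tre.all_lf (batP_ok par7_ok wc1235460_425)))) (Tre.all_nd (Tre.all_nd (Tre.all_lf (batP_ok par7_ok wc1235460_105)) (Tre.all_lf (batP_ok par7_ok wc1235460_361))) (Tre.all_nd (Tre.all_lf (batP_ok par7_ok wc1235460_233)) (Tre.all_lf (batP_ok par7_ok wc1235460_489)))))) (Tre.all_nd (Tre.all_nd (Tre.all_nd (Tre.all_nd (Tre.all_lf (batP_ok par7_ok wc1235460_25)) (Tre.all_lf (batP_ok par7_ok wc1235460_281))) (Tre.all_nd (Tre.all_lf (batP_ok par7_ok wc1235460_153)) (Tre.all_lf (batP_ok par7_ok wc1235460_409)))) (Tre.all_nd (Tre.all_nd (Tre.all_lf (batP_ok par7_ok wc1235460_89)) (Tre.all_lf (batP_ok par7_ok wc1235460_345))) (Tre.all_nd (Tre.all_lf (batP_ok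 par7_ok wc1235460_217)) (Tre.all_lf (batP_ok par7_ok wc1235460_473))))) (Tre.all_nd (Tre.all_nd (Tre.all_nd (Tre.all_lf (batP_ok par7_ok wc1235460_57)) (Tre.all_lf (batP_ok par7_ok wc1235460_313))) (Tre.all_nd (Tre.all_lf (batP_ok par7_ok wc1235460_185)) (Tre.all_lf (batP_ok par7_ok wc1235460_441)))) (Tre.all_nd (Tre.all_nd (Tre.all_lf (batP_ok par7_ok wc1235460_121)) (Tre.all_lf (batP_ok par7_ok wc1235460_377))) (Tre.all_nd (Tre.all_lf (batP_ok par7_ok wc1235460_249)) (Tre.all_lf (batP_ok par7_ok wc1235460_505))))))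

theorem afc1235460100 : Tre.All (PceOK par7 c1235460.VT) fc1235460100 := Tre.all_nd afc12354601000 afc12354601001

theorem afc12354601010 : Tre.All (PceOK par7 c1235460.VT) fc12354601010 := Tre.all_nd (Tre.all_nd (Tre.all_nd (Tre.all_nd (Tre.all_nd (Tre.all_nd (Tre.all_lf (batP_ok par7_ok wc1235460_5)) (Tre.all_lf (batP_ok par7_ok wc1235460_517))) (Tre.all_lf (batP_ok par7_ok wc1235460_261))) (Tre.all_nd (Tre.all_lf (batP_ok par7_ok wc1235460_133)) (Tre.all_lf (batP_ok par7_ok wc1235460_389)))) (Tre.all_nd (Tre.all_nd (Tre.all_lf (batP_ok par7_ok wc1235460_69)) (Tre.all_lf (batP_ok par7_ok wc1235460_325))) (Tre.all_nd (Tre.all_lf (batP_ok par7_ok wc1235460_197)) (Tre.all_lf (batP_ok par7_ok wc1235460_453))))) (Tre.all_nd (Tre.all_nd (Tre.all_nd (Tre.all_lf (batP_ok par7_ok wc1235460_37)) (Tre.all_lf (batP_ok par7_ok wc1235460_293))) (Tre.all_nd (Tre.all_lf (batP_ok par7_ok wc1235460_165)) (Tre.all_lf (batP_ok par7_ok wc1235460_421))))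 (Tre.all_nd (Tre.all_nd (Tre.all_lf (batP_ok par7_ok wc1235460_101)) (Tre.all_lf (batP_ok par7_ok wc1235460_357))) (Tre.all_nd (Tre.all_lf (batP_ok par7_ok wc1235460_229)) (Tre.all_lf (batP_ok par7_ok wc1235460_485)))))) (Tre.all_nd (Tre.all_nd (Tre.all_nd (Tre.all_nd (Tre.all_nd (Tre.all_lf (batP_ok par7_ok wc1235460_21)) (Tre.all_lf (batP_ok par7_ok wc1235460_533))) (Tre.all_lf (batP_ok par7_ok wc1235460_277))) (Tre.all_nd (Tre.all_lf (batP_ok par7_ok wc1235460_149)) (Tre.all_lf (batP_ok par7_ok wc1235460_405)))) (Tre.all_nd (Tre.all_nd (Tre.all_lf (batP_ok par7_ok wc1235460_85)) (Tre.all_lf (batP_ok par7_ok wc1235460_341))) (Tre.all_nd (Tre.all_lf (batP_ok par7_ok wc1235460_213)) (Tre.all_lf (batP_ok par7_ok wc1235460_469))))) (Tre.all_nd (Tre.all_nd (Tre.all_nd (Tre.all_lf (batP_ok par7_ok wc1235460_53)) (Tre.all_lf (batP_ok par7_ok wc1235460_309))) (Tre.all_nd (Tre.all_lf (batP_ok par7_ok wc1235460_181)) (Tre.all_lf (batP_ok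 par7_ok wc1235460_437)))) (Tre.all_nd (Tre.all_nd (Tre.all_lf (batP_ok par7_ok wc1235460_117)) (Tre.all_lf (batP_ok par7_ok wc1235460_373))) (Tre.all_nd (Tre.all_lf (batP_ok par7_ok wc1235460_245)) (Tre.all_lf (batP_ok par7_ok wc1235460_501))))))

theorem afc12354601011 : Tre.All (PceOK par7 c1235460.VT) fc12354601011 := Tre.all_nd (Tre.all_nd (Tre.all_nd (Tre.all_nd (Tre.all_nd (Tre.all_nd (Tre.all_lf (batP_ok par7_ok wc1235460_13)) (Tre.all_lf (batP_ok par7_ok wc1235460_525))) (Tre.all_lf (batP_ok par7_ok wc1235460_269))) (Tre.all_nd (Tre.all_lf (batP_ok par7_ok wc1235460_141)) (Tre.all_lf (batP_ok par7_ok wc1235460_397)))) (Tre.all_nd (Tre.all_nd (Tre.all_lf (batP_ok par7_ok wc1235460_77)) (Tre.all_lf (batP_ok par7_ok wc1235460_333))) (Tre.all_nd (Tre.all_lf (batP_ok par7_ok wc1235460_205)) (Tre.all_lf (batP_ok par7_ok wc1235460_461))))) (Tre.all_nd (Tre.all_nd (Tre.all_nd (Tre.all_lf (batP_ok par7_ok wc1235460_45)) (Tre.all_lf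 (batP_ok par7_ok wc1235460_301))) (Tre.all_nd (Tre.all_lf (batP_ok par7_ok wc1235460_173)) (Tre.all_lf (batP_ok par7_ok wc1235460_429)))) (Tre.all_nd (Tre.all_nd (Tre.all_lf (batP_ok par7_ok wc1235460_109)) (Tre.all_lf (batP_ok par7_ok wc1235460_365))) (Tre.all_nd (Tre.all_lf (batP_ok par7_ok wc1235460_237)) (Tre.all_lf (batP_ok par7_ok wc1235460_493)))))) (Tre.all_nd (Tre.all_nd (Tre.all_nd (Tre.all_nd (Tre.all_lf (batP_ok par7_ok wc1235460_29)) (Tre.all_lf (batP_ok par7_ok wc1235460_285))) (Tre.all_nd (Tre.all_lf (batP_ok par7_ok wc1235460_157)) (Tre.all_lf (batP_ok par7_ok wc1235460_413)))) (Tre.all_nd (Tre.all_nd (Tre.all_lf (batP_ok par7_ok wc1235460_93)) (Tre.all_lf (batP_ok par7_ok wc1235460_349))) (Tre.all_nd (Tre.all_lf (batP_ok par7_ok wc1235460_221)) (Tre.all_lf (batP_ok par7_ok wc1235460_477))))) (Tre.all_nd (Tre.all_nd (Tre.all_nd (Tre.all_lf (batP_ok par7_ok wc1235460_61)) (Tre.all_lf (batP_ok par7_ok wc1235460_317)))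 (Tre.all_nd (Tre.all_lf (batP_ok par7_ok wc1235460_189)) (Tre.all_lf (batP_ok par7_ok wc1235460_445)))) (Tre.all_nd (Tre.all_nd (Tre.all_lf (batP_ok par7_ok wc1235460_125)) (Tre.all_lf (batP_ok par7_ok wc1235460_381))) (Tre.all_nd (Tre.all_lf (batP_ok par7_ok wc1235460_253)) (Tre.all_lf (batP_ok par7_ok wc1235460_509))))))

theorem afc1235460101 : Tre.All (PceOK par7 c1235460.VT) fc1235460101 := Tre.all_nd afc12354601010 afc12354601011

theorem afc123546010 : Tre.All (PceOK par7 c1235460.VT) fc123546010 := Tre.all_nd afc1235460100 afc1235460101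

theorem afc12354601100 : Tre.All (PceOK par7 c1235460.VT) fc12354601100 := Tre.all_nd (Tre.all_nd (Tre.all_nd (Tre.all_nd (Tre.all_nd (Tre.all_nd (Tre.all_lf (batP_ok par7_ok wc1235460_3)) (Tre.all_lf (batP_ok par7_ok wc1235460_515))) (Tre.all_lf (batP_ok par7_ok wc1235460_259))) (Tre.all_nd (Tre.all_lf (batP_ok par7_ok wc1235460_131)) (Tre.all_lf (batP_ok par7_ok wc1235460_387)))) (Tre.all_nd (Tre.all_nd (Tre.all_lf (batP_ok par7_ok wc1235460_67)) (Tre.all_lf (batP_ok par7_ok wc1235460_323))) (Tre.all_nd (Tre.all_lf (batP_ok par7_ok wc1235460_195)) (Tre.all_lf (batP_ok par7_ok wc1235460_451))))) (Tre.all_nd (Tre.all_nd (Tre.all_nd (Tre.all_lf (batP_ok par7_ok wc1235460_35)) (Tre.all_lf (batP_ok par7_ok wc1235460_291))) (Tre.all_nd (Tre.all_lf (batP_ok par7_ok wc1235460_163)) (Tre.all_lf (batP_ok par7_ok wc1235460_419)))) (Tre.all_nd (Tre.all_nd (Tre.all_lf (batP_ok par7_ok wc1235460_99)) (Tre.all_lf (batP_ok par7_ok wc1235460_355)))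 (Tre.all_nd (Tre.all_lf (batP_ok par7_ok wc1235460_227)) (Tre.all_lf (batP_ok par7_ok wc1235460_483)))))) (Tre.all_nd (Tre.all_nd (Tre.all_nd (Tre.all_nd (Tre.all_nd (Tre.all_lf (batP_ok par7_ok wc1235460_19)) (Tre.all_lf (batP_ok par7_ok wc1235460_531))) (Tre.all_lf (batP_ok par7_ok wc1235460_275))) (Tre.all_nd (Tre.all_lf (batP_ok par7_ok wc1235460_147)) (Tre.all_lf (batP_ok par7_ok wc1235460_403)))) (Tre.all_nd (Tre.all_nd (Tre.all_lf (batP_ok par7_ok wc1235460_83)) (Tre.all_lf (batP_ok par7_ok wc1235460_339))) (Tre.all_nd (Tre.all_lf (batP_ok par7_ok wc1235460_211)) (Tre.all_lf (batP_ok par7_ok wc1235460_467))))) (Tre.all_nd (Tre.all_nd (Tre.all_nd (Tre.all_lf (batP_ok par7_ok wc1235460_51)) (Tre.all_lf (batP_ok par7_ok wc1235460_307))) (Tre.all_nd (Tre.all_lf (batP_ok par7_ok wc1235460_179)) (Tre.all_lf (batP_ok par7_ok wc1235460_435)))) (Tre.all_nd (Tre.all_nd (Tre.all_lf (batP_ok par7_ok wc1235460_115)) (Tre.all_lf (batP_ok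 par7_ok wc1235460_371))) (Tre.all_nd (Tre.all_lf (batP_ok par7_ok wc1235460_243)) (Tre.all_lf (batP_ok par7_ok wc1235460_499))))))

theorem afc12354601101 : Tre.All (PceOK par7 c1235460.VT) fc12354601101 := Tre.all_nd (Tre.all_nd (Tre.all_nd (Tre.all_nd (Tre.all_nd (Tre.all_nd (Tre.all_lf (batP_ok par7_ok wc1235460_11)) (Tre.all_lf (batP_ok par7_ok wc1235460_523))) (Tre.all_lf (batP_ok par7_ok wc1235460_267))) (Tre.all_nd (Tre.all_lf (batP_ok par7_ok wc1235460_139)) (Tre.all_lf (batP_ok par7_ok wc1235460_395)))) (Tre.all_nd (Tre.all_nd (Tre.all_lf (batP_ok par7_ok wc1235460_75)) (Tre.all_lf (batP_ok par7_ok wc1235460_331))) (Tre.all_nd (Tre.all_lf (batP_ok par7_ok wc1235460_203)) (Tre.all_lf (batP_ok par7_ok wc1235460_459))))) (Tre.all_nd (Tre.all_nd (Tre.all_nd (Tre.all_lf (batP_ok par7_ok wc1235460_43)) (Tre.all_lf (batP_ok par7_ok wc1235460_299))) (Tre.all_nd (Tre.all_lf (batP_ok par7_ok wc1235460_171)) (Tre.all_lf (batP_ok par7_ok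 wc1235460_427)))) (Tre.all_nd (Tre.all_nd (Tre.all_lf (batP_ok par7_ok wc1235460_107)) (Tre.all_lf (batP_ok par7_ok wc1235460_363))) (Tre.all_nd (Tre.all_lf (batP_ok par7_ok wc1235460_235)) (Tre.all_lf (batP_ok par7_ok wc1235460_491)))))) (Tre.all_nd (Tre.all_nd (Tre.all_nd (Tre.all_nd (Tre.all_lf (batP_ok par7_ok wc1235460_27)) (Tre.all_lf (batP_ok par7_ok wc1235460_283))) (Tre.all_nd (Tre.all_lf (batP_ok par7_ok wc1235460_155)) (Tre.all_lf (batP_ok par7_ok wc1235460_411)))) (Tre.all_nd (Tre.all_nd (Tre.all_lf (batP_ok par7_ok wc1235460_91)) (Tre.all_lf (batP_ok par7_ok wc1235460_347))) (Tre.all_nd (Tre.all_lf (batP_ok par7_ok wc1235460_219)) (Tre.all_lf (batP_ok par7_ok wc1235460_475))))) (Tre.all_nd (Tre.all_nd (Tre.all_nd (Tre.all_lf (batP_ok par7_ok wc1235460_59)) (Tre.all_lf (batP_ok par7_ok wc1235460_315))) (Tre.all_nd (Tre.all_lf (batP_ok par7_ok wc1235460_187)) (Tre.all_lf (batP_ok par7_ok wc1235460_443)))) (Tre.all_nd (Tre.all_nd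 (Tre.all_lf (batP_ok par7_ok wc1235460_123)) (Tre.all_lf (batP_ok par7_ok wc1235460_379))) (Tre.all_nd (Tre.all_lf (batP_ok par7_ok wc1235460_251)) (Tre.all_lf (batP_ok par7_ok wc1235460_507))))))

theorem afc1235460110 : Tre.All (PceOK par7 c1235460.VT) fc1235460110 := Tre.all_nd afc12354601100 afc12354601101

theorem afc12354601110 : Tre.All (PceOK par7 c1235460.VT) fc12354601110 := Tre.all_nd (Tre.all_nd (Tre.all_nd (Tre.all_nd (Tre.all_nd (Tre.all_nd (Tre.all_lf (batP_ok par7_ok wc1235460_7)) (Tre.all_lf (batP_ok par7_ok wc1235460_519))) (Tre.all_lf (batP_ok par7_ok wc1235460_263))) (Tre.all_nd (Tre.all_lf (batP_ok par7_ok wc1235460_135)) (Tre.all_lf (batP_ok par7_ok wc1235460_391)))) (Tre.all_nd (Tre.all_nd (Tre.all_lf (batP_ok par7_ok wc1235460_71)) (Tre.all_lf (batP_ok par7_ok wc1235460_327))) (Tre.all_nd (Tre.all_lf (batP_ok par7_ok wc1235460_199)) (Tre.all_lf (batP_ok par7_ok wc1235460_455))))) (Tre.all_nd (Tre.all_nd (Tre.all_nd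 (Tre.all_lf (batP_ok par7_ok wc1235460_39)) (Tre.all_lf (batP_ok par7_ok wc1235460_295))) (Tre.all_nd (Tre.all_lf (batP_ok par7_ok wc1235460_167)) (Tre.all_lf (batP_ok par7_ok wc1235460_423)))) (Tre.all_nd (Tre.all_nd (Tre.all_lf (batP_ok par7_ok wc1235460_103)) (Tre.all_lf (batP_ok par7_ok wc1235460_359))) (Tre.all_nd (Tre.all_lf (batP_ok par7_ok wc1235460_231)) (Tre.all_lf (batP_ok par7_ok wc1235460_487)))))) (Tre.all_nd (Tre.all_nd (Tre.all_nd (Tre.all_nd (Tre.all_nd (Tre.all_lf (batP_ok par7_ok wc1235460_23)) (Tre.all_lf (batP_ok par7_ok wc1235460_535))) (Tre.all_lf (batP_ok par7_ok wc1235460_279))) (Tre.all_nd (Tre.all_lf (batP_ok par7_ok wc1235460_151)) (Tre.all_lf (batP_ok par7_ok wc1235460_407)))) (Tre.all_nd (Tre.all_nd (Tre.all_lf (batP_ok par7_ok wc1235460_87)) (Tre.all_lf (batP_ok par7_ok wc1235460_343))) (Tre.all_nd (Tre.all_lf (batP_ok par7_ok wc1235460_215)) (Tre.all_lf (batP_ok par7_ok wc1235460_471))))) (Tre.all_nd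 (Tre.all_nd (Tre.all_nd (Tre.all_lf (batP_ok par7_ok wc1235460_55)) (Tre.all_lf (batP_ok par7_ok wc1235460_311))) (Tre.all_nd (Tre.all_lf (batP_ok par7_ok wc1235460_183)) (Tre.all_lf (batP_ok par7_ok wc1235460_439)))) (Tre.all_nd (Tre.all_nd (Tre.all_lf (batP_ok par7_ok wc1235460_119)) (Tre.all_lf (batP_ok par7_ok wc1235460_375))) (Tre.all_nd (Tre.all_lf (batP_ok par7_ok wc1235460_247)) (Tre.all_lf (batP_ok par7_ok wc1235460_503))))))

theorem afc12354601111 : Tre.All (PceOK par7 c1235460.VT) fc12354601111 := Tre.all_nd (Tre.all_nd (Tre.all_nd (Tre.all_nd (Tre.all_nd (Tre.all_nd (Tre.all_lf (batP_ok par7_ok wc1235460_15)) (Tre.all_lf (batP_ok par7_ok wc1235460_527))) (Tre.all_lf (batP_ok par7_ok wc1235460_271))) (Tre.all_nd (Tre.all_lf (batP_ok par7_ok wc1235460_143)) (Tre.all_lf (batP_ok par7_ok wc1235460_399)))) (Tre.all_nd (Tre.all_nd (Tre.all_lf (batP_ok par7_ok wc1235460_79)) (Tre.all_lf (batP_ok par7_ok wc1235460_335))) (Tre.all_nd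 (Tre.all_lf (batP_ok par7_ok wc1235460_207)) (Tre.all_lf (batP_ok par7_ok wc1235460_463))))) (Tre.all_nd (Tre.all_nd (Tre.all_nd (Tre.all_lf (batP_ok par7_ok wc1235460_47)) (Tre.all_lf (batP_ok par7_ok wc1235460_303))) (Tre.all_nd (Tre.all_lf (batP_ok par7_ok wc1235460_175)) (Tre.all_lf (batP_ok par7_ok wc1235460_431)))) (Tre.all_nd (Tre.all_nd (Tre.all_lf (batP_ok par7_ok wc1235460_111)) (Tre.all_lf (batP_ok par7_ok wc1235460_367))) (Tre.all_nd (Tre.all_lf (batP_ok par7_ok wc1235460_239)) (Tre.all_lf (batP_ok par7_ok wc1235460_495)))))) (Tre.all_nd (Tre.all_nd (Tre.all_nd (Tre.all_nd (Tre.all_lf (batP_ok par7_ok wc1235460_31)) (Tre.all_lf (batP_ok par7_ok wc1235460_287))) (Tre.all_nd (Tre.all_lf (batP_ok par7_ok wc1235460_159)) (Tre.all_lf (batP_ok par7_ok wc1235460_415)))) (Tre.all_nd (Tre.all_nd (Tre.all_lf (batP_ok par7_ok wc1235460_95)) (Tre.all_lf (batP_ok par7_ok wc1235460_351))) (Tre.all_nd (Tre.all_lf (batP_ok par7_ok wc1235460_223))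 (Tre.all_lf (batP_ok par7_ok wc1235460_479))))) (Tre.all_nd (Tre.all_nd (Tre.all_nd (Tre.all_lf (batP_ok par7_ok wc1235460_63)) (Tre.all_lf (batP_ok par7_ok wc1235460_319))) (Tre.all_nd (Tre.all_lf (batP_ok par7_ok wc1235460_191)) (Tre.all_lf (batP_ok par7_ok wc1235460_447)))) (Tre.all_nd (Tre.all_nd (Tre.all_lf (batP_ok par7_ok wc1235460_127)) (Tre.all_lf (batP_ok par7_ok wc1235460_383))) (Tre.all_nd (Tre.all_lf (batP_ok par7_ok wc1235460_255)) (Tre.all_lf (batP_ok par7_ok wc1235460_511))))))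

theorem afc1235460111 : Tre.All (PceOK par7 c1235460.VT) fc1235460111 := Tre.all_nd afc12354601110 afc12354601111

theorem afc123546011 : Tre.All (PceOK par7 c1235460.VT) fc123546011 := Tre.all_nd afc1235460110 afc1235460111

theorem afc12354601 : Tre.All (PceOK par7 c1235460.VT) fc12354601 := Tre.all_nd afc123546010 afc123546011

theorem afc1235460 : Tre.All (PceOK par7 c1235460.VT) fc1235460 := Tre.all_nd afc12354600 afc12354601

theorem rac1235460_0 : RA c1235460 fc1235460 0 := ra_zero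

theorem hdc1235460_0_0 : HD c1235460 fc1235460 0 [(41, 0x63)] := hd_cons hd_nil ec1235460_0_0

theorem hdc1235460_0_1 : HD c1235460 fc1235460 0 [(5, 0x9), (41, 0x63)] := hd_cons hdc1235460_0_0 ec1235460_0_1

theorem rdc1235460_0 : RD c1235460 fc1235460 0 := rd_of hdc1235460_0_1 ec1235460_0_2

theorem rac1235460_1 : RA c1235460 fc1235460 1 := ra_succ rac1235460_0 rdc1235460_0

theorem hdc1235460_1_0 : HD c1235460 fc1235460 1 [(30, 0x5c)] := hd_cons hd_nil ec1235460_1_0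

theorem hdc1235460_1_1 : HD c1235460 fc1235460 1 [(28, 0xe), (30, 0x5c)] := hd_cons hdc1235460_1_0 ec1235460_1_1

theorem rdc1235460_1 : RD c1235460 fc1235460 1 := rd_of hdc1235460_1_1 ec1235460_1_2

theorem rac1235460_2 : RA c1235460 fc1235460 2 := ra_succ rac1235460_1 rdc1235460_1

theorem hdc1235460_2_0 : HD c1235460 fc1235460 2 [(83, 0x36)] := hd_cons hd_nil ec1235460_2_0

theorem hdc1235460_2_1 : HD c1235460 fc1235460 2 [(14, 0x1e), (83, 0x36)] := hd_cons hdc1235460_2_0 ec1235460_2_1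

theorem hdc1235460_2_2 : HD c1235460 fc1235460 2 [(15, 0xf), (14, 0x1e), (83, 0x36)] := hd_cons hdc1235460_2_1 ec1235460_2_2

theorem rdc1235460_2 : RD c1235460 fc1235460 2 := rd_of hdc1235460_2_2 ec1235460_2_3

theorem rac1235460_3 : RA c1235460 fc1235460 3 := ra_succ rac1235460_2 rdc1235460_2

theorem hdc1235460_3_0 : HD c1235460 fc1235460 3 [(37, 0xd7)] := hd_cons hd_nil ec1235460_3_0

theorem hdc1235460_3_1 : HD c1235460 fc1235460 3 [(14, 0x15), (37, 0xd7)] := hd_cons hdc1235460_3_0 ec1235460_3_1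

theorem rdc1235460_3 : RD c1235460 fc1235460 3 := rd_of hdc1235460_3_1 ec1235460_3_2

theorem rac1235460_4 : RA c1235460 fc1235460 4 := ra_succ rac1235460_3 rdc1235460_3

theorem hdc1235460_4_0 : HD c1235460 fc1235460 4 [(41, 0x1e)] := hd_cons hd_nil ec1235460_4_0

theorem rdc1235460_4 : RD c1235460 fc1235460 4 := rd_of hdc1235460_4_0 ec1235460_4_1

theorem rac1235460_5 : RA c1235460 fc1235460 5 := ra_succ rac1235460_4 rdc1235460_4

theorem rac1235460_6 : RA c1235460 fc1235460 6 := ra_rng rac1235460_5 ec1235460_5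

theorem hdc1235460_6_0 : HD c1235460 fc1235460 6 [(102, 0x5e)] := hd_cons hd_nil ec1235460_6_0

theorem rdc1235460_6 : RD c1235460 fc1235460 6 := rd_of hdc1235460_6_0 ec1235460_6_1

theorem rac1235460_7 : RA c1235460 fc1235460 7 := ra_succ rac1235460_6 rdc1235460_6

theorem rac1235460_8 : RA c1235460 fc1235460 8 := ra_rng rac1235460_7 ec1235460_7

theorem hdc1235460_8_0 : HD c1235460 fc1235460 8 [(88, 0x1a)] := hd_cons hd_nil ec1235460_8_0

theorem hdc1235460_8_1 : HD c1235460 fc1235460 8 [(199, 0xe), (88, 0x1a)] := hd_cons hdc1235460_8_0 ec1235460_8_1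

theorem rdc1235460_8 : RD c1235460 fc1235460 8 := rd_of hdc1235460_8_1 ec1235460_8_2

theorem rac1235460_9 : RA c1235460 fc1235460 9 := ra_succ rac1235460_8 rdc1235460_8

theorem hdc1235460_9_0 : HD c1235460 fc1235460 9 [(127, 0x1b)] := hd_cons hd_nil ec1235460_9_0

theorem rdc1235460_9 : RD c1235460 fc1235460 9 := rd_of hdc1235460_9_0 ec1235460_9_1

theorem rac1235460_10 : RA c1235460 fc1235460 10 := ra_succ rac1235460_9 rdc1235460_9

theorem rac1235460_12 : RA c1235460 fc1235460 12 := ra_rng rac1235460_10 ec1235460_10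

theorem hdc1235460_12_0 : HD c1235460 fc1235460 12 [(12, 0xe)] := hd_cons hd_nil ec1235460_12_0

theorem rdc1235460_12 : RD c1235460 fc1235460 12 := rd_of hdc1235460_12_0 ec1235460_12_1

theorem rac1235460_13 : RA c1235460 fc1235460 13 := ra_succ rac1235460_12 rdc1235460_12

theorem rac1235460_14 : RA c1235460 fc1235460 14 := ra_rng rac1235460_13 ec1235460_13

theorem hdc1235460_14_0 : HD c1235460 fc1235460 14 [(88, 0x6c)] := hd_cons hd_nil ec1235460_14_0

theorem rdc1235460_14 : RD c1235460 fc1235460 14 := rd_of hdc1235460_14_0 ec1235460_14_1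

theorem rac1235460_15 : RA c1235460 fc1235460 15 := ra_succ rac1235460_14 rdc1235460_14

theorem rac1235460_17 : RA c1235460 fc1235460 17 := ra_rng rac1235460_15 ec1235460_15

theorem hdc1235460_17_0 : HD c1235460 fc1235460 17 [(102, 0x2)] := hd_cons hd_nil ec1235460_17_0

theorem rdc1235460_17 : RD c1235460 fc1235460 17 := rd_of hdc1235460_17_0 ec1235460_17_1

theorem rac1235460_18 : RA c1235460 fc1235460 18 := ra_succ rac1235460_17 rdc1235460_17

theorem rac1235460_19 : RA c1235460 fc1235460 19 := ra_rng rac1235460_18 ec1235460_18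

theorem hdc1235460_19_0 : HD c1235460 fc1235460 19 [(118, 0x162)] := hd_cons hd_nil ec1235460_19_0

theorem rdc1235460_19 : RD c1235460 fc1235460 19 := rd_of hdc1235460_19_0 ec1235460_19_1

theorem rac1235460_20 : RA c1235460 fc1235460 20 := ra_succ rac1235460_19 rdc1235460_19

theorem hdc1235460_20_0 : HD c1235460 fc1235460 20 [(118, 0x54)] := hd_cons hd_nil ec1235460_20_0

theorem rdc1235460_20 : RD c1235460 fc1235460 20 := rd_of hdc1235460_20_0 ec1235460_20_1

theorem rac1235460_21 : RA c1235460 fc1235460 21 := ra_succ rac1235460_20 rdc1235460_20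

theorem rac1235460_22 : RA c1235460 fc1235460 22 := ra_rng rac1235460_21 ec1235460_21

theorem hdc1235460_22_0 : HD c1235460 fc1235460 22 [(217, 0x92)] := hd_cons hd_nil ec1235460_22_0

theorem rdc1235460_22 : RD c1235460 fc1235460 22 := rd_of hdc1235460_22_0 ec1235460_22_1

theorem rac1235460_23 : RA c1235460 fc1235460 23 := ra_succ rac1235460_22 rdc1235460_22

theorem hdc1235460_23_0 : HD c1235460 fc1235460 23 [(127, 0x12)] := hd_cons hd_nil ec1235460_23_0

theorem rdc1235460_23 : RD c1235460 fc1235460 23 := rd_of hdc1235460_23_0 ec1235460_23_1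

theorem rac1235460_24 : RA c1235460 fc1235460 24 := ra_succ rac1235460_23 rdc1235460_23

theorem rac1235460_25 : RA c1235460 fc1235460 25 := ra_rng rac1235460_24 ec1235460_24

theorem hdc1235460_25_0 : HD c1235460 fc1235460 25 [(25, 0x8)] := hd_cons hd_nil ec1235460_25_0

theorem rdc1235460_25 : RD c1235460 fc1235460 25 := rd_of hdc1235460_25_0 ec1235460_25_1

theorem rac1235460_26 : RA c1235460 fc1235460 26 := ra_succ rac1235460_25 rdc1235460_25

theorem rac1235460_28 : RA c1235460 fc1235460 28 := ra_rng rac1235460_26 ec1235460_26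

theorem hdc1235460_28_0 : HD c1235460 fc1235460 28 [(30, 0x10)] := hd_cons hd_nil ec1235460_28_0

theorem rdc1235460_28 : RD c1235460 fc1235460 28 := rd_of hdc1235460_28_0 ec1235460_28_1

theorem rac1235460_29 : RA c1235460 fc1235460 29 := ra_succ rac1235460_28 rdc1235460_28

theorem rac1235460_30 : RA c1235460 fc1235460 30 := ra_rng rac1235460_29 ec1235460_29

theorem hdc1235460_30_0 : HD c1235460 fc1235460 30 [(30, 0x6)] := hd_cons hd_nil ec1235460_30_0

theorem rdc1235460_30 : RD c1235460 fc1235460 30 := rd_of hdc1235460_30_0 ec1235460_30_1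

theorem rac1235460_31 : RA c1235460 fc1235460 31 := ra_succ rac1235460_30 rdc1235460_30

theorem rac1235460_32 : RA c1235460 fc1235460 32 := ra_rng rac1235460_31 ec1235460_31

theorem rac1235460_34 : RA c1235460 fc1235460 34 := ra_rng rac1235460_32 ec1235460_32

theorem rac1235460_36 : RA c1235460 fc1235460 36 := ra_rng rac1235460_34 ec1235460_34

theorem rac1235460_37 : RA c1235460 fc1235460 37 := ra_rng rac1235460_36 ec1235460_36

theorem rac1235460_38 : RA c1235460 fc1235460 38 := ra_rng rac1235460_37 ec1235460_37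

theorem rac1235460_39 : RA c1235460 fc1235460 39 := ra_rng rac1235460_38 ec1235460_38

theorem rac1235460_41 : RA c1235460 fc1235460 41 := ra_rng rac1235460_39 ec1235460_39

theorem rac1235460_43 : RA c1235460 fc1235460 43 := ra_rng rac1235460_41 ec1235460_41

theorem rac1235460_45 : RA c1235460 fc1235460 45 := ra_rng rac1235460_43 ec1235460_43

theorem rac1235460_46 : RA c1235460 fc1235460 46 := ra_rng rac1235460_45 ec1235460_45

theorem rac1235460_48 : RA c1235460 fc1235460 48 := ra_rng rac1235460_46 ec1235460_46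

theorem hdc1235460_48_0 : HD c1235460 fc1235460 48 [(50, 0x6)] := hd_cons hd_nil ec1235460_48_0

theorem rdc1235460_48 : RD c1235460 fc1235460 48 := rd_of hdc1235460_48_0 ec1235460_48_1

theorem rac1235460_49 : RA c1235460 fc1235460 49 := ra_succ rac1235460_48 rdc1235460_48

theorem hdc1235460_49_0 : HD c1235460 fc1235460 49 [(50, 0xe)] := hd_cons hd_nil ec1235460_49_0

theorem rdc1235460_49 : RD c1235460 fc1235460 49 := rd_of hdc1235460_49_0 ec1235460_49_1

theorem rac1235460_50 : RA c1235460 fc1235460 50 := ra_succ rac1235460_49 rdc1235460_49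

theorem rac1235460_52 : RA c1235460 fc1235460 52 := ra_rng rac1235460_50 ec1235460_50

theorem rac1235460_54 : RA c1235460 fc1235460 54 := ra_rng rac1235460_52 ec1235460_52

theorem rac1235460_55 : RA c1235460 fc1235460 55 := ra_rng rac1235460_54 ec1235460_54

theorem rac1235460_56 : RA c1235460 fc1235460 56 := ra_rng rac1235460_55 ec1235460_55

theorem rac1235460_59 : RA c1235460 fc1235460 59 := ra_rng rac1235460_56 ec1235460_56

theorem rac1235460_60 : RA c1235460 fc1235460 60 := ra_rng rac1235460_59 ec1235460_59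

theorem rac1235460_64 : RA c1235460 fc1235460 64 := ra_rng rac1235460_60 ec1235460_60

theorem rac1235460_66 : RA c1235460 fc1235460 66 := ra_rng rac1235460_64 ec1235460_64

theorem rac1235460_68 : RA c1235460 fc1235460 68 := ra_rng rac1235460_66 ec1235460_66

theorem rac1235460_73 : RA c1235460 fc1235460 73 := ra_rng rac1235460_68 ec1235460_68

theorem rac1235460_75 : RA c1235460 fc1235460 75 := ra_rng rac1235460_73 ec1235460_73

theorem rac1235460_76 : RA c1235460 fc1235460 76 := ra_rng rac1235460_75 ec1235460_75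

theorem rac1235460_82 : RA c1235460 fc1235460 82 := ra_rng rac1235460_76 ec1235460_76

theorem rac1235460_85 : RA c1235460 fc1235460 85 := ra_rng rac1235460_82 ec1235460_82

theorem rac1235460_87 : RA c1235460 fc1235460 87 := ra_rng rac1235460_85 ec1235460_85

theorem rac1235460_97 : RA c1235460 fc1235460 97 := ra_rng rac1235460_87 ec1235460_87

theorem rac1235460_104 : RA c1235460 fc1235460 104 := ra_rng rac1235460_97 ec1235460_97

theorem rac1235460_109 : RA c1235460 fc1235460 109 := ra_rng rac1235460_104 ec1235460_104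

theorem rac1235460_117 : RA c1235460 fc1235460 117 := ra_rng rac1235460_109 ec1235460_109

theorem rac1235460_126 : RA c1235460 fc1235460 126 := ra_rng rac1235460_117 ec1235460_117

theorem rac1235460_140 : RA c1235460 fc1235460 140 := ra_rng rac1235460_126 ec1235460_126

theorem rac1235460_151 : RA c1235460 fc1235460 151 := ra_rng rac1235460_140 ec1235460_140

theorem rac1235460_187 : RA c1235460 fc1235460 187 := ra_rng rac1235460_151 ec1235460_151

theorem rac1235460_231 : RA c1235460 fc1235460 231 := ra_rng rac1235460_187 ec1235460_187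

theorem kc1235460 : clsOK par7.d c1235460 = true := by decide +kernel

theorem dead_c1235460 : ClsD par7 c1235460 := clsD_of kc1235460 afc1235460 rac1235460_231

end Pool.Agent.RTX
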