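import Pool.Agent.RTS7.W_1240635_0
import Pool.Agent.RTS7.E_1240635_0

/-!
# RTS7: class of the permutation 1240635
-/

set_option autoImplicit false
set_option maxRecDepth 100000

namespace Pool.Agent.RTX

theorem afc124063500 : Tre.All (PceOK par7 c1240635.VT) fc124063500 := Tre.all_nd (Tre.all_nd (Tre.all_nd (Tre.all_nd (Tre.all_nd (Tre.all_nd (Tre.all_lf (batP_ok par7_ok wc1240635_0)) (Tre.all_lf (batP_ok par7_ok wc1240635_128))) (Tre.all_nd (Tre.all_lf (batP_ok par7_ok wc1240635_64)) (Tre.all_lf (batP_ok par7_ok wc1240635_192)))) (Tre.all_nd (Tre.all_nd (Tre.all_lf (batP_ok par7_ok wc1240635_32)) (Tre.all_lf (batP_ok par7_ok wc1240635_160))) (Tre.all_lf (batP_ok par7_ok wc1240635_96)))) (Tre.all_nd (Tre.all_nd (Tre.all_nd (Tre.all_lf (batP_ok par7_ok wc1240635_16)) (Tre.all_lf (batP_ok par7_ok wc1240635_144))) (Tre.all_nd (Tre.all_lf (batP_ok par7_ok wc1240635_80)) (Tre.all_lf (batP_ok par7_ok wc1240635_208))))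 (Tre.all_nd (Tre.all_nd (Tre.all_lf (batP_ok par7_ok wc1240635_48)) (Tre.all_lf (batP_ok par7_ok wc1240635_176))) (Tre.all_lf (batP_ok par7_ok wc1240635_112))))) (Tre.all_nd (Tre.all_nd (Tre.all_nd (Tre.all_nd (Tre.all_lf (batP_ok par7_ok wc1240635_8)) (Tre.all_lf (batP_ok par7_ok wc1240635_136))) (Tre.all_nd (Tre.all_lf (batP_ok par7_ok wc1240635_72)) (Tre.all_lf (batP_ok par7_ok wc1240635_200)))) (Tre.all_nd (Tre.all_nd (Tre.all_lf (batP_ok par7_ok wc1240635_40)) (Tre.all_lf (batP_ok par7_ok wc1240635_168))) (Tre.all_lf (batP_ok par7_ok wc1240635_104)))) (Tre.all_nd (Tre.all_nd (Tre.all_nd (Tre.all_lf (batP_ok par7_ok wc1240635_24)) (Tre.all_lf (batP_ok par7_ok wc1240635_152))) (Tre.all_nd (Tre.all_lf (batP_ok par7_ok wc1240635_88)) (Tre.all_lf (batP_ok par7_ok wc1240635_216)))) (Tre.all_nd (Tre.all_nd (Tre.all_lf (batP_ok par7_ok wc1240635_56)) (Tre.all_lf (batP_ok par7_ok wc1240635_184))) (Tre.all_lf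 (batP_ok par7_ok wc1240635_120)))))) (Tre.all_nd (Tre.all_nd (Tre.all_nd (Tre.all_nd (Tre.all_nd (Tre.all_lf (batP_ok par7_ok wc1240635_4)) (Tre.all_lf (batP_ok par7_ok wc1240635_132))) (Tre.all_nd (Tre.all_lf (batP_ok par7_ok wc1240635_68)) (Tre.all_lf (batP_ok par7_ok wc1240635_196)))) (Tre.all_nd (Tre.all_nd (Tre.all_lf (batP_ok par7_ok wc1240635_36)) (Tre.all_lf (batP_ok par7_ok wc1240635_164))) (Tre.all_lf (batP_ok par7_ok wc1240635_100)))) (Tre.all_nd (Tre.all_nd (Tre.all_nd (Tre.all_lf (batP_ok par7_ok wc1240635_20)) (Tre.all_lf (batP_ok par7_ok wc1240635_148))) (Tre.all_nd (Tre.all_lf (batP_ok par7_ok wc1240635_84)) (Tre.all_lf (batP_ok par7_ok wc1240635_212)))) (Tre.all_nd (Tre.all_nd (Tre.all_lf (batP_ok par7_ok wc1240635_52)) (Tre.all_lf (batP_ok par7_ok wc1240635_180))) (Tre.all_lf (batP_ok par7_ok wc1240635_116))))) (Tre.all_nd (Tre.all_nd (Tre.all_nd (Tre.all_nd (Tre.all_lf (batP_ok par7_ok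 wc1240635_12)) (Tre.all_lf (batP_ok par7_ok wc1240635_140))) (Tre.all_nd (Tre.all_lf (batP_ok par7_ok wc1240635_76)) (Tre.all_lf (batP_ok par7_ok wc1240635_204)))) (Tre.all_nd (Tre.all_nd (Tre.all_lf (batP_ok par7_ok wc1240635_44)) (Tre.all_lf (batP_ok par7_ok wc1240635_172))) (Tre.all_lf (batP_ok par7_ok wc1240635_108)))) (Tre.all_nd (Tre.all_nd (Tre.all_nd (Tre.all_lf (batP_ok par7_ok wc1240635_28)) (Tre.all_lf (batP_ok par7_ok wc1240635_156))) (Tre.all_lf (batP_ok par7_ok wc1240635_92))) (Tre.all_nd (Tre.all_nd (Tre.all_lf (batP_ok par7_ok wc1240635_60)) (Tre.all_lf (batP_ok par7_ok wc1240635_188))) (Tre.all_lf (batP_ok par7_ok wc1240635_124))))))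

theorem afc124063501 : Tre.All (PceOK par7 c1240635.VT) fc124063501 := Tre.all_nd (Tre.all_nd (Tre.all_nd (Tre.all_nd (Tre.all_nd (Tre.all_nd (Tre.all_lf (batP_ok par7_ok wc1240635_2)) (Tre.all_lf (batP_ok par7_ok wc1240635_130))) (Tre.all_nd (Tre.all_lf (batP_ok par7_ok wc1240635_66)) (Tre.all_lf (batP_ok par7_ok wc1240635_194)))) (Tre.all_nd (Tre.all_nd (Tre.all_lf (batP_ok par7_ok wc1240635_34)) (Tre.all_lf (batP_ok par7_ok wc1240635_162))) (Tre.all_lf (batP_ok par7_ok wc1240635_98)))) (Tre.all_nd (Tre.all_nd (Tre.all_nd (Tre.all_lf (batP_ok par7_ok wc1240635_18)) (Tre.all_lf (batP_ok par7_ok wc1240635_146))) (Tre.all_nd (Tre.all_lf (batP_ok par7_ok wc1240635_82)) (Tre.all_lf (batP_ok par7_ok wc1240635_210)))) (Tre.all_nd (Tre.all_nd (Tre.all_lf (batP_ok par7_ok wc1240635_50)) (Tre.all_lf (batP_ok par7_ok wc1240635_178))) (Tre.all_lf (batP_ok par7_ok wc1240635_114))))) (Tre.all_nd (Tre.all_nd (Tre.all_nd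 (Tre.all_nd (Tre.all_lf (batP_ok par7_ok wc1240635_10)) (Tre.all_lf (batP_ok par7_ok wc1240635_138))) (Tre.all_nd (Tre.all_lf (batP_ok par7_ok wc1240635_74)) (Tre.all_lf (batP_ok par7_ok wc1240635_202)))) (Tre.all_nd (Tre.all_nd (Tre.all_lf (batP_ok par7_ok wc1240635_42)) (Tre.all_lf (batP_ok par7_ok wc1240635_170))) (Tre.all_lf (batP_ok par7_ok wc1240635_106)))) (Tre.all_nd (Tre.all_nd (Tre.all_nd (Tre.all_lf (batP_ok par7_ok wc1240635_26)) (Tre.all_lf (batP_ok par7_ok wc1240635_154))) (Tre.all_lf (batP_ok par7_ok wc1240635_90))) (Tre.all_nd (Tre.all_nd (Tre.all_lf (batP_ok par7_ok wc1240635_58)) (Tre.all_lf (batP_ok par7_ok wc1240635_186))) (Tre.all_lf (batP_ok par7_ok wc1240635_122)))))) (Tre.all_nd (Tre.all_nd (Tre.all_nd (Tre.all_nd (Tre.all_nd (Tre.all_lf (batP_ok par7_ok wc1240635_6)) (Tre.all_lf (batP_ok par7_ok wc1240635_134))) (Tre.all_nd (Tre.all_lf (batP_ok par7_ok wc1240635_70)) (Tre.all_lf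 (batP_ok par7_ok wc1240635_198)))) (Tre.all_nd (Tre.all_nd (Tre.all_lf (batP_ok par7_ok wc1240635_38)) (Tre.all_lf (batP_ok par7_ok wc1240635_166))) (Tre.all_lf (batP_ok par7_ok wc1240635_102)))) (Tre.all_nd (Tre.all_nd (Tre.all_nd (Tre.all_lf (batP_ok par7_ok wc1240635_22)) (Tre.all_lf (batP_ok par7_ok wc1240635_150))) (Tre.all_nd (Tre.all_lf (batP_ok par7_ok wc1240635_86)) (Tre.all_lf (batP_ok par7_ok wc1240635_214)))) (Tre.all_nd (Tre.all_nd (Tre.all_lf (batP_ok par7_ok wc1240635_54)) (Tre.all_lf (batP_ok par7_ok wc1240635_182))) (Tre.all_lf (batP_ok par7_ok wc1240635_118))))) (Tre.all_nd (Tre.all_nd (Tre.all_nd (Tre.all_nd (Tre.all_lf (batP_ok par7_ok wc1240635_14)) (Tre.all_lf (batP_ok par7_ok wc1240635_142))) (Tre.all_nd (Tre.all_lf (batP_ok par7_ok wc1240635_78)) (Tre.all_lf (batP_ok par7_ok wc1240635_206)))) (Tre.all_nd (Tre.all_nd (Tre.all_lf (batP_ok par7_ok wc1240635_46)) (Tre.all_lf (batP_ok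 par7_ok wc1240635_174))) (Tre.all_lf (batP_ok par7_ok wc1240635_110)))) (Tre.all_nd (Tre.all_nd (Tre.all_nd (Tre.all_lf (batP_ok par7_ok wc1240635_30)) (Tre.all_lf (batP_ok par7_ok wc1240635_158))) (Tre.all_lf (batP_ok par7_ok wc1240635_94))) (Tre.all_nd (Tre.all_nd (Tre.all_lf (batP_ok par7_ok wc1240635_62)) (Tre.all_lf (batP_ok par7_ok wc1240635_190))) (Tre.all_lf (batP_ok par7_ok wc1240635_126))))))

theorem afc12406350 : Tre.All (PceOK par7 c1240635.VT) fc12406350 := Tre.all_nd afc124063500 afc124063501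

theorem afc124063510 : Tre.All (PceOK par7 c1240635.VT) fc124063510 := Tre.all_nd (Tre.all_nd (Tre.all_nd (Tre.all_nd (Tre.all_nd (Tre.all_nd (Tre.all_lf (batP_ok par7_ok wc1240635_1)) (Tre.all_lf (batP_ok par7_ok wc1240635_129))) (Tre.all_nd (Tre.all_lf (batP_ok par7_ok wc1240635_65)) (Tre.all_lf (batP_ok par7_ok wc1240635_193)))) (Tre.all_nd (Tre.all_nd (Tre.all_lf (batP_ok par7_ok wc1240635_33)) (Tre.all_lf (batP_ok par7_ok wc1240635_161))) (Tre.all_lf (batP_ok par7_ok wc1240635_97)))) (Tre.all_nd (Tre.all_nd (Tre.all_nd (Tre.all_lf (batP_ok par7_ok wc1240635_17)) (Tre.all_lf (batP_ok par7_ok wc1240635_145))) (Tre.all_nd (Tre.all_lf (batP_ok par7_ok wc1240635_81)) (Tre.all_lf (batP_ok par7_ok wc1240635_209)))) (Tre.all_nd (Tre.all_nd (Tre.all_lf (batP_ok par7_ok wc1240635_49)) (Tre.all_lf (batP_ok par7_ok wc1240635_177))) (Tre.all_lf (batP_ok par7_ok wc1240635_113))))) (Tre.all_nd (Tre.all_nd (Tre.all_nd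 (Tre.all_nd (Tre.all_lf (batP_ok par7_ok wc1240635_9)) (Tre.all_lf (batP_ok par7_ok wc1240635_137))) (Tre.all_nd (Tre.all_lf (batP_ok par7_ok wc1240635_73)) (Tre.all_lf (batP_ok par7_ok wc1240635_201)))) (Tre.all_nd (Tre.all_nd (Tre.all_lf (batP_ok par7_ok wc1240635_41)) (Tre.all_lf (batP_ok par7_ok wc1240635_169))) (Tre.all_lf (batP_ok par7_ok wc1240635_105)))) (Tre.all_nd (Tre.all_nd (Tre.all_nd (Tre.all_lf (batP_ok par7_ok wc1240635_25)) (Tre.all_lf (batP_ok par7_ok wc1240635_153))) (Tre.all_lf (batP_ok par7_ok wc1240635_89))) (Tre.all_nd (Tre.all_nd (Tre.all_lf (batP_ok par7_ok wc1240635_57)) (Tre.all_lf (batP_ok par7_ok wc1240635_185))) (Tre.all_lf (batP_ok par7_ok wc1240635_121)))))) (Tre.all_nd (Tre.all_nd (Tre.all_nd (Tre.all_nd (Tre.all_nd (Tre.all_lf (batP_ok par7_ok wc1240635_5)) (Tre.all_lf (batP_ok par7_ok wc1240635_133))) (Tre.all_nd (Tre.all_lf (batP_ok par7_ok wc1240635_69)) (Tre.all_lf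 (batP_ok par7_ok wc1240635_197)))) (Tre.all_nd (Tre.all_nd (Tre.all_lf (batP_ok par7_ok wc1240635_37)) (Tre.all_lf (batP_ok par7_ok wc1240635_165))) (Tre.all_lf (batP_ok par7_ok wc1240635_101)))) (Tre.all_nd (Tre.all_nd (Tre.all_nd (Tre.all_lf (batP_ok par7_ok wc1240635_21)) (Tre.all_lf (batP_ok par7_ok wc1240635_149))) (Tre.all_nd (Tre.all_lf (batP_ok par7_ok wc1240635_85)) (Tre.all_lf (batP_ok par7_ok wc1240635_213)))) (Tre.all_nd (Tre.all_nd (Tre.all_lf (batP_ok par7_ok wc1240635_53)) (Tre.all_lf (batP_ok par7_ok wc1240635_181))) (Tre.all_lf (batP_ok par7_ok wc1240635_117))))) (Tre.all_nd (Tre.all_nd (Tre.all_nd (Tre.all_nd (Tre.all_lf (batP_ok par7_ok wc1240635_13)) (Tre.all_lf (batP_ok par7_ok wc1240635_141))) (Tre.all_nd (Tre.all_lf (batP_ok par7_ok wc1240635_77)) (Tre.all_lf (batP_ok par7_ok wc1240635_205)))) (Tre.all_nd (Tre.all_nd (Tre.all_lf (batP_ok par7_ok wc1240635_45)) (Tre.all_lf (batP_ok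 par7_ok wc1240635_173))) (Tre.all_lf (batP_ok par7_ok wc1240635_109)))) (Tre.all_nd (Tre.all_nd (Tre.all_nd (Tre.all_lf (batP_ok par7_ok wc1240635_29)) (Tre.all_lf (batP_ok par7_ok wc1240635_157))) (Tre.all_lf (batP_ok par7_ok wc1240635_93))) (Tre.all_nd (Tre.all_nd (Tre.all_lf (batP_ok par7_ok wc1240635_61)) (Tre.all_lf (batP_ok par7_ok wc1240635_189))) (Tre.all_lf (batP_ok par7_ok wc1240635_125))))))

theorem afc124063511 : Tre.All (PceOK par7 c1240635.VT) fc124063511 := Tre.all_nd (Tre.all_nd (Tre.all_nd (Tre.all_nd (Tre.all_nd (Tre.all_nd (Tre.all_lf (batP_ok par7_ok wc1240635_3)) (Tre.all_lf (batP_ok par7_ok wc1240635_131))) (Tre.all_nd (Tre.all_lf (batP_ok par7_ok wc1240635_67)) (Tre.all_lf (batP_ok par7_ok wc1240635_195)))) (Tre.all_nd (Tre.all_nd (Tre.all_lf (batP_ok par7_ok wc1240635_35)) (Tre.all_lf (batP_ok par7_ok wc1240635_163))) (Tre.all_lf (batP_ok par7_ok wc1240635_99)))) (Tre.all_nd (Tre.all_nd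 (Tre.all_nd (Tre.all_lf (batP_ok par7_ok wc1240635_19)) (Tre.all_lf (batP_ok par7_ok wc1240635_147))) (Tre.all_nd (Tre.all_lf (batP_ok par7_ok wc1240635_83)) (Tre.all_lf (batP_ok par7_ok wc1240635_211)))) (Tre.all_nd (Tre.all_nd (Tre.all_lf (batP_ok par7_ok wc1240635_51)) (Tre.all_lf (batP_ok par7_ok wc1240635_179))) (Tre.all_lf (batP_ok par7_ok wc1240635_115))))) (Tre.all_nd (Tre.all_nd (Tre.all_nd (Tre.all_nd (Tre.all_lf (batP_ok par7_ok wc1240635_11)) (Tre.all_lf (batP_ok par7_ok wc1240635_139))) (Tre.all_nd (Tre.all_lf (batP_ok par7_ok wc1240635_75)) (Tre.all_lf (batP_ok par7_ok wc1240635_203)))) (Tre.all_nd (Tre.all_nd (Tre.all_lf (batP_ok par7_ok wc1240635_43)) (Tre.all_lf (batP_ok par7_ok wc1240635_171))) (Tre.all_lf (batP_ok par7_ok wc1240635_107)))) (Tre.all_nd (Tre.all_nd (Tre.all_nd (Tre.all_lf (batP_ok par7_ok wc1240635_27)) (Tre.all_lf (batP_ok par7_ok wc1240635_155))) (Tre.all_lf (batP_ok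 par7_ok wc1240635_91))) (Tre.all_nd (Tre.all_nd (Tre.all_lf (batP_ok par7_ok wc1240635_59)) (Tre.all_lf (batP_ok par7_ok wc1240635_187))) (Tre.all_lf (batP_ok par7_ok wc1240635_123)))))) (Tre.all_nd (Tre.all_nd (Tre.all_nd (Tre.all_nd (Tre.all_nd (Tre.all_lf (batP_ok par7_ok wc1240635_7)) (Tre.all_lf (batP_ok par7_ok wc1240635_135))) (Tre.all_nd (Tre.all_lf (batP_ok par7_ok wc1240635_71)) (Tre.all_lf (batP_ok par7_ok wc1240635_199)))) (Tre.all_nd (Tre.all_nd (Tre.all_lf (batP_ok par7_ok wc1240635_39)) (Tre.all_lf (batP_ok par7_ok wc1240635_167))) (Tre.all_lf (batP_ok par7_ok wc1240635_103)))) (Tre.all_nd (Tre.all_nd (Tre.all_nd (Tre.all_lf (batP_ok par7_ok wc1240635_23)) (Tre.all_lf (batP_ok par7_ok wc1240635_151))) (Tre.all_nd (Tre.all_lf (batP_ok par7_ok wc1240635_87)) (Tre.all_lf (batP_ok par7_ok wc1240635_215)))) (Tre.all_nd (Tre.all_nd (Tre.all_lf (batP_ok par7_ok wc1240635_55)) (Tre.all_lf (batP_ok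 par7_ok wc1240635_183))) (Tre.all_lf (batP_ok par7_ok wc1240635_119))))) (Tre.all_nd (Tre.all_nd (Tre.all_nd (Tre.all_nd (Tre.all_lf (batP_ok par7_ok wc1240635_15)) (Tre.all_lf (batP_ok par7_ok wc1240635_143))) (Tre.all_nd (Tre.all_lf (batP_ok par7_ok wc1240635_79)) (Tre.all_lf (batP_ok par7_ok wc1240635_207)))) (Tre.all_nd (Tre.all_nd (Tre.all_lf (batP_ok par7_ok wc1240635_47)) (Tre.all_lf (batP_ok par7_ok wc1240635_175))) (Tre.all_lf (batP_ok par7_ok wc1240635_111)))) (Tre.all_nd (Tre.all_nd (Tre.all_nd (Tre.all_lf (batP_ok par7_ok wc1240635_31)) (Tre.all_lf (batP_ok par7_ok wc1240635_159))) (Tre.all_lf (batP_ok par7_ok wc1240635_95))) (Tre.all_nd (Tre.all_nd (Tre.all_lf (batP_ok par7_ok wc1240635_63)) (Tre.all_lf (batP_ok par7_ok wc1240635_191))) (Tre.all_lf (batP_ok par7_ok wc1240635_127))))))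

theorem afc12406351 : Tre.All (PceOK par7 c1240635.VT) fc12406351 := Tre.all_nd afc124063510 afc124063511

theorem afc1240635 : Tre.All (PceOK par7 c1240635.VT) fc1240635 := Tre.all_nd afc12406350 afc12406351

theorem rac1240635_0 : RA c1240635 fc1240635 0 := ra_zero

theorem rac1240635_217 : RA c1240635 fc1240635 217 := ra_rng rac1240635_0 ec1240635_0

theorem kc1240635 : clsOK par7.d c1240635 = true := by decide +kernel

theorem dead_c1240635 : ClsD par7 c1240635 := clsD_of kc1240635 afc1240635 rac1240635_217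

end Pool.Agent.RTX
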