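import Pool.Agent.RTS7.W_1243605_0
import Pool.Agent.RTS7.W_1243605_1
import Pool.Agent.RTS7.W_1243605_2
import Pool.Agent.RTS7.W_1243605_3
import Pool.Agent.RTS7.W_1243605_4
import Pool.Agent.RTS7.W_1243605_5
import Pool.Agent.RTS7.W_1243605_6
import Pool.Agent.RTS7.W_1243605_7
import Pool.Agent.RTS7.W_1243605_8
import Pool.Agent.RTS7.W_1243605_9
import Pool.Agent.RTS7.E_1243605_0
import Pool.Agent.RTS7.E_1243605_1
import Pool.Agent.RTS7.E_1243605_2

/-!
# RTS7: class of the permutation 1243605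
-/

set_option autoImplicit false
set_option maxRecDepth 100000

namespace Pool.Agent.RTX

theorem afc12436050000 : Tre.All (PceOK par7 c1243605.VT) fc12436050000 := Tre.all_nd (Tre.all_nd (Tre.all_nd (Tre.all_nd (Tre.all_nd (Tre.all_nd (Tre.all_lf (batP_ok par7_ok wc1243605_0)) (Tre.all_lf (batP_ok par7_ok wc1243605_512))) (Tre.all_nd (Tre.all_lf (batP_ok par7_ok wc1243605_256)) (Tre.all_lf (batP_ok par7_ok wc1243605_768)))) (Tre.all_nd (Tre.all_nd (Tre.all_lf (batP_ok par7_ok wc1243605_128)) (Tre.all_lf (batP_ok par7_ok wc1243605_640))) (Tre.all_nd (Tre.all_lf (batP_ok par7_ok wc1243605_384)) (Tre.all_lf (batP_ok par7_ok wc1243605_896))))) (Tre.all_nd (Tre.all_nd (Tre.all_nd (Tre.all_lf (batP_ok par7_ok wc1243605_64)) (Tre.all_lf (batP_ok par7_ok wc1243605_576))) (Tre.all_nd (Tre.all_lf (batP_ok par7_ok wc1243605_320)) (Tre.all_lf (batP_ok par7_ok wc1243605_832)))) (Tre.all_nd (Tre.all_nd (Tre.all_lf (batP_ok par7_ok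 wc1243605_192)) (Tre.all_lf (batP_ok par7_ok wc1243605_704))) (Tre.all_lf (batP_ok par7_ok wc1243605_448))))) (Tre.all_nd (Tre.all_nd (Tre.all_nd (Tre.all_nd (Tre.all_lf (batP_ok par7_ok wc1243605_32)) (Tre.all_lf (batP_ok par7_ok wc1243605_544))) (Tre.all_nd (Tre.all_lf (batP_ok par7_ok wc1243605_288)) (Tre.all_lf (batP_ok par7_ok wc1243605_800)))) (Tre.all_nd (Tre.all_nd (Tre.all_lf (batP_ok par7_ok wc1243605_160)) (Tre.all_lf (batP_ok par7_ok wc1243605_672))) (Tre.all_nd (Tre.all_lf (batP_ok par7_ok wc1243605_416)) (Tre.all_lf (batP_ok par7_ok wc1243605_928))))) (Tre.all_nd (Tre.all_nd (Tre.all_nd (Tre.all_lf (batP_ok par7_ok wc1243605_96)) (Tre.all_lf (batP_ok par7_ok wc1243605_608))) (Tre.all_nd (Tre.all_lf (batP_ok par7_ok wc1243605_352)) (Tre.all_lf (batP_ok par7_ok wc1243605_864)))) (Tre.all_nd (Tre.all_nd (Tre.all_lf (batP_ok par7_ok wc1243605_224)) (Tre.all_lf (batP_ok par7_ok wc1243605_736))) (Tre.all_lf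 (batP_ok par7_ok wc1243605_480)))))) (Tre.all_nd (Tre.all_nd (Tre.all_nd (Tre.all_nd (Tre.all_nd (Tre.all_lf (batP_ok par7_ok wc1243605_16)) (Tre.all_lf (batP_ok par7_ok wc1243605_528))) (Tre.all_nd (Tre.all_lf (batP_ok par7_ok wc1243605_272)) (Tre.all_lf (batP_ok par7_ok wc1243605_784)))) (Tre.all_nd (Tre.all_nd (Tre.all_lf (batP_ok par7_ok wc1243605_144)) (Tre.all_lf (batP_ok par7_ok wc1243605_656))) (Tre.all_nd (Tre.all_lf (batP_ok par7_ok wc1243605_400)) (Tre.all_lf (batP_ok par7_ok wc1243605_912))))) (Tre.all_nd (Tre.all_nd (Tre.all_nd (Tre.all_lf (batP_ok par7_ok wc1243605_80)) (Tre.all_lf (batP_ok par7_ok wc1243605_592))) (Tre.all_nd (Tre.all_lf (batP_ok par7_ok wc1243605_336)) (Tre.all_lf (batP_ok par7_ok wc1243605_848)))) (Tre.all_nd (Tre.all_nd (Tre.all_lf (batP_ok par7_ok wc1243605_208)) (Tre.all_lf (batP_ok par7_ok wc1243605_720))) (Tre.all_lf (batP_ok par7_ok wc1243605_464))))) (Tre.all_nd (Tre.all_nd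 (Tre.all_nd (Tre.all_nd (Tre.all_lf (batP_ok par7_ok wc1243605_48)) (Tre.all_lf (batP_ok par7_ok wc1243605_560))) (Tre.all_nd (Tre.all_lf (batP_ok par7_ok wc1243605_304)) (Tre.all_lf (batP_ok par7_ok wc1243605_816)))) (Tre.all_nd (Tre.all_nd (Tre.all_lf (batP_ok par7_ok wc1243605_176)) (Tre.all_lf (batP_ok par7_ok wc1243605_688))) (Tre.all_lf (batP_ok par7_ok wc1243605_432)))) (Tre.all_nd (Tre.all_nd (Tre.all_nd (Tre.all_lf (batP_ok par7_ok wc1243605_112)) (Tre.all_lf (batP_ok par7_ok wc1243605_624))) (Tre.all_nd (Tre.all_lf (batP_ok par7_ok wc1243605_368)) (Tre.all_lf (batP_ok par7_ok wc1243605_880)))) (Tre.all_nd (Tre.all_nd (Tre.all_lf (batP_ok par7_ok wc1243605_240)) (Tre.all_lf (batP_ok par7_ok wc1243605_752))) (Tre.all_lf (batP_ok par7_ok wc1243605_496))))))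

theorem afc12436050001 : Tre.All (PceOK par7 c1243605.VT) fc12436050001 := Tre.all_nd (Tre.all_nd (Tre.all_nd (Tre.all_nd (Tre.all_nd (Tre.all_nd (Tre.all_lf (batP_ok par7_ok wc1243605_8)) (Tre.all_lf (batP_ok par7_ok wc1243605_520))) (Tre.all_nd (Tre.all_lf (batP_ok par7_ok wc1243605_264)) (Tre.all_lf (batP_ok par7_ok wc1243605_776)))) (Tre.all_nd (Tre.all_nd (Tre.all_lf (batP_ok par7_ok wc1243605_136)) (Tre.all_lf (batP_ok par7_ok wc1243605_648))) (Tre.all_nd (Tre.all_lf (batP_ok par7_ok wc1243605_392)) (Tre.all_lf (batP_ok par7_ok wc1243605_904))))) (Tre.all_nd (Tre.all_nd (Tre.all_nd (Tre.all_lf (batP_ok par7_ok wc1243605_72)) (Tre.all_lf (batP_ok par7_ok wc1243605_584))) (Tre.all_nd (Tre.all_lf (batP_ok par7_ok wc1243605_328)) (Tre.all_lf (batP_ok par7_ok wc1243605_840)))) (Tre.all_nd (Tre.all_nd (Tre.all_lf (batP_ok par7_ok wc1243605_200)) (Tre.all_lf (batP_ok par7_ok wc1243605_712))) (Tre.all_lf (batP_ok par7_ok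 wc1243605_456))))) (Tre.all_nd (Tre.all_nd (Tre.all_nd (Tre.all_nd (Tre.all_lf (batP_ok par7_ok wc1243605_40)) (Tre.all_lf (batP_ok par7_ok wc1243605_552))) (Tre.all_nd (Tre.all_lf (batP_ok par7_ok wc1243605_296)) (Tre.all_lf (batP_ok par7_ok wc1243605_808)))) (Tre.all_nd (Tre.all_nd (Tre.all_lf (batP_ok par7_ok wc1243605_168)) (Tre.all_lf (batP_ok par7_ok wc1243605_680))) (Tre.all_nd (Tre.all_lf (batP_ok par7_ok wc1243605_424)) (Tre.all_lf (batP_ok par7_ok wc1243605_936))))) (Tre.all_nd (Tre.all_nd (Tre.all_nd (Tre.all_lf (batP_ok par7_ok wc1243605_104)) (Tre.all_lf (batP_ok par7_ok wc1243605_616))) (Tre.all_nd (Tre.all_lf (batP_ok par7_ok wc1243605_360)) (Tre.all_lf (batP_ok par7_ok wc1243605_872)))) (Tre.all_nd (Tre.all_nd (Tre.all_lf (batP_ok par7_ok wc1243605_232)) (Tre.all_lf (batP_ok par7_ok wc1243605_744))) (Tre.all_lf (batP_ok par7_ok wc1243605_488)))))) (Tre.all_nd (Tre.all_nd (Tre.all_nd (Tre.all_nd (Tre.all_nd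 (Tre.all_lf (batP_ok par7_ok wc1243605_24)) (Tre.all_lf (batP_ok par7_ok wc1243605_536))) (Tre.all_nd (Tre.all_lf (batP_ok par7_ok wc1243605_280)) (Tre.all_lf (batP_ok par7_ok wc1243605_792)))) (Tre.all_nd (Tre.all_nd (Tre.all_lf (batP_ok par7_ok wc1243605_152)) (Tre.all_lf (batP_ok par7_ok wc1243605_664))) (Tre.all_nd (Tre.all_lf (batP_ok par7_ok wc1243605_408)) (Tre.all_lf (batP_ok par7_ok wc1243605_920))))) (Tre.all_nd (Tre.all_nd (Tre.all_nd (Tre.all_lf (batP_ok par7_ok wc1243605_88)) (Tre.all_lf (batP_ok par7_ok wc1243605_600))) (Tre.all_nd (Tre.all_lf (batP_ok par7_ok wc1243605_344)) (Tre.all_lf (batP_ok par7_ok wc1243605_856)))) (Tre.all_nd (Tre.all_nd (Tre.all_lf (batP_ok par7_ok wc1243605_216)) (Tre.all_lf (batP_ok par7_ok wc1243605_728))) (Tre.all_lf (batP_ok par7_ok wc1243605_472))))) (Tre.all_nd (Tre.all_nd (Tre.all_nd (Tre.all_nd (Tre.all_lf (batP_ok par7_ok wc1243605_56)) (Tre.all_lf (batP_ok par7_ok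 wc1243605_568))) (Tre.all_nd (Tre.all_lf (batP_ok par7_ok wc1243605_312)) (Tre.all_lf (batP_ok par7_ok wc1243605_824)))) (Tre.all_nd (Tre.all_nd (Tre.all_lf (batP_ok par7_ok wc1243605_184)) (Tre.all_lf (batP_ok par7_ok wc1243605_696))) (Tre.all_lf (batP_ok par7_ok wc1243605_440)))) (Tre.all_nd (Tre.all_nd (Tre.all_nd (Tre.all_lf (batP_ok par7_ok wc1243605_120)) (Tre.all_lf (batP_ok par7_ok wc1243605_632))) (Tre.all_nd (Tre.all_lf (batP_ok par7_ok wc1243605_376)) (Tre.all_lf (batP_ok par7_ok wc1243605_888)))) (Tre.all_nd (Tre.all_nd (Tre.all_lf (batP_ok par7_ok wc1243605_248)) (Tre.all_lf (batP_ok par7_ok wc1243605_760))) (Tre.all_lf (batP_ok par7_ok wc1243605_504))))))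

theorem afc1243605000 : Tre.All (PceOK par7 c1243605.VT) fc1243605000 := Tre.all_nd afc12436050000 afc12436050001

theorem afc12436050010 : Tre.All (PceOK par7 c1243605.VT) fc12436050010 := Tre.all_nd (Tre.all_nd (Tre.all_nd (Tre.all_nd (Tre.all_nd (Tre.all_nd (Tre.all_lf (batP_ok par7_ok wc1243605_4)) (Tre.all_lf (batP_ok par7_ok wc1243605_516))) (Tre.all_nd (Tre.all_lf (batP_ok par7_ok wc1243605_260)) (Tre.all_lf (batP_ok par7_ok wc1243605_772)))) (Tre.all_nd (Tre.all_nd (Tre.all_lf (batP_ok par7_ok wc1243605_132)) (Tre.all_lf (batP_ok par7_ok wc1243605_644))) (Tre.all_nd (Tre.all_lf (batP_ok par7_ok wc1243605_388)) (Tre.all_lf (batP_ok par7_ok wc1243605_900))))) (Tre.all_nd (Tre.all_nd (Tre.all_nd (Tre.all_lf (batP_ok par7_ok wc1243605_68)) (Tre.all_lf (batP_ok par7_ok wc1243605_580))) (Tre.all_nd (Tre.all_lf (batP_ok par7_ok wc1243605_324)) (Tre.all_lf (batP_ok par7_ok wc1243605_836)))) (Tre.all_nd (Tre.all_nd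 (Tre.all_lf (batP_ok par7_ok wc1243605_196)) (Tre.all_lf (batP_ok par7_ok wc1243605_708))) (Tre.all_lf (batP_ok par7_ok wc1243605_452))))) (Tre.all_nd (Tre.all_nd (Tre.all_nd (Tre.all_nd (Tre.all_lf (batP_ok par7_ok wc1243605_36)) (Tre.all_lf (batP_ok par7_ok wc1243605_548))) (Tre.all_nd (Tre.all_lf (batP_ok par7_ok wc1243605_292)) (Tre.all_lf (batP_ok par7_ok wc1243605_804)))) (Tre.all_nd (Tre.all_nd (Tre.all_lf (batP_ok par7_ok wc1243605_164)) (Tre.all_lf (batP_ok par7_ok wc1243605_676))) (Tre.all_nd (Tre.all_lf (batP_ok par7_ok wc1243605_420)) (Tre.all_lf (batP_ok par7_ok wc1243605_932))))) (Tre.all_nd (Tre.all_nd (Tre.all_nd (Tre.all_lf (batP_ok par7_ok wc1243605_100)) (Tre.all_lf (batP_ok par7_ok wc1243605_612))) (Tre.all_nd (Tre.all_lf (batP_ok par7_ok wc1243605_356)) (Tre.all_lf (batP_ok par7_ok wc1243605_868)))) (Tre.all_nd (Tre.all_nd (Tre.all_lf (batP_ok par7_ok wc1243605_228)) (Tre.all_lf (batP_ok par7_ok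 wc1243605_740))) (Tre.all_lf (batP_ok par7_ok wc1243605_484)))))) (Tre.all_nd (Tre.all_nd (Tre.all_nd (Tre.all_nd (Tre.all_nd (Tre.all_lf (batP_ok par7_ok wc1243605_20)) (Tre.all_lf (batP_ok par7_ok wc1243605_532))) (Tre.all_nd (Tre.all_lf (batP_ok par7_ok wc1243605_276)) (Tre.all_lf (batP_ok par7_ok wc1243605_788)))) (Tre.all_nd (Tre.all_nd (Tre.all_lf (batP_ok par7_ok wc1243605_148)) (Tre.all_lf (batP_ok par7_ok wc1243605_660))) (Tre.all_nd (Tre.all_lf (batP_ok par7_ok wc1243605_404)) (Tre.all_lf (batP_ok par7_ok wc1243605_916))))) (Tre.all_nd (Tre.all_nd (Tre.all_nd (Tre.all_lf (batP_ok par7_ok wc1243605_84)) (Tre.all_lf (batP_ok par7_ok wc1243605_596))) (Tre.all_nd (Tre.all_lf (batP_ok par7_ok wc1243605_340)) (Tre.all_lf (batP_ok par7_ok wc1243605_852)))) (Tre.all_nd (Tre.all_nd (Tre.all_lf (batP_ok par7_ok wc1243605_212)) (Tre.all_lf (batP_ok par7_ok wc1243605_724))) (Tre.all_lf (batP_ok par7_ok wc1243605_468)))))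 (Tre.all_nd (Tre.all_nd (Tre.all_nd (Tre.all_nd (Tre.all_lf (batP_ok par7_ok wc1243605_52)) (Tre.all_lf (batP_ok par7_ok wc1243605_564))) (Tre.all_nd (Tre.all_lf (batP_ok par7_ok wc1243605_308)) (Tre.all_lf (batP_ok par7_ok wc1243605_820)))) (Tre.all_nd (Tre.all_nd (Tre.all_lf (batP_ok par7_ok wc1243605_180)) (Tre.all_lf (batP_ok par7_ok wc1243605_692))) (Tre.all_lf (batP_ok par7_ok wc1243605_436)))) (Tre.all_nd (Tre.all_nd (Tre.all_nd (Tre.all_lf (batP_ok par7_ok wc1243605_116)) (Tre.all_lf (batP_ok par7_ok wc1243605_628))) (Tre.all_nd (Tre.all_lf (batP_ok par7_ok wc1243605_372)) (Tre.all_lf (batP_ok par7_ok wc1243605_884)))) (Tre.all_nd (Tre.all_nd (Tre.all_lf (batP_ok par7_ok wc1243605_244)) (Tre.all_lf (batP_ok par7_ok wc1243605_756))) (Tre.all_lf (batP_ok par7_ok wc1243605_500))))))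

theorem afc12436050011 : Tre.All (PceOK par7 c1243605.VT) fc12436050011 := Tre.all_nd (Tre.all_nd (Tre.all_nd (Tre.all_nd (Tre.all_nd (Tre.all_nd (Tre.all_lf (batP_ok par7_ok wc1243605_12)) (Tre.all_lf (batP_ok par7_ok wc1243605_524))) (Tre.all_nd (Tre.all_lf (batP_ok par7_ok wc1243605_268)) (Tre.all_lf (batP_ok par7_ok wc1243605_780)))) (Tre.all_nd (Tre.all_nd (Tre.all_lf (batP_ok par7_ok wc1243605_140)) (Tre.all_lf (batP_ok par7_ok wc1243605_652))) (Tre.all_nd (Tre.all_lf (batP_ok par7_ok wc1243605_396)) (Tre.all_lf (batP_ok par7_ok wc1243605_908))))) (Tre.all_nd (Tre.all_nd (Tre.all_nd (Tre.all_lf (batP_ok par7_ok wc1243605_76)) (Tre.all_lf (batP_ok par7_ok wc1243605_588))) (Tre.all_nd (Tre.all_lf (batP_ok par7_ok wc1243605_332)) (Tre.all_lf (batP_ok par7_ok wc1243605_844)))) (Tre.all_nd (Tre.all_nd (Tre.all_lf (batP_ok par7_ok wc1243605_204)) (Tre.all_lf (batP_ok par7_ok wc1243605_716))) (Tre.all_lf (batP_ok par7_ok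 wc1243605_460))))) (Tre.all_nd (Tre.all_nd (Tre.all_nd (Tre.all_nd (Tre.all_lf (batP_ok par7_ok wc1243605_44)) (Tre.all_lf (batP_ok par7_ok wc1243605_556))) (Tre.all_nd (Tre.all_lf (batP_ok par7_ok wc1243605_300)) (Tre.all_lf (batP_ok par7_ok wc1243605_812)))) (Tre.all_nd (Tre.all_nd (Tre.all_lf (batP_ok par7_ok wc1243605_172)) (Tre.all_lf (batP_ok par7_ok wc1243605_684))) (Tre.all_lf (batP_ok par7_ok wc1243605_428)))) (Tre.all_nd (Tre.all_nd (Tre.all_nd (Tre.all_lf (batP_ok par7_ok wc1243605_108)) (Tre.all_lf (batP_ok par7_ok wc1243605_620))) (Tre.all_nd (Tre.all_lf (batP_ok par7_ok wc1243605_364)) (Tre.all_lf (batP_ok par7_ok wc1243605_876)))) (Tre.all_nd (Tre.all_nd (Tre.all_lf (batP_ok par7_ok wc1243605_236)) (Tre.all_lf (batP_ok par7_ok wc1243605_748))) (Tre.all_lf (batP_ok par7_ok wc1243605_492)))))) (Tre.all_nd (Tre.all_nd (Tre.all_nd (Tre.all_nd (Tre.all_nd (Tre.all_lf (batP_ok par7_ok wc1243605_28)) (Tre.all_lf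 (batP_ok par7_ok wc1243605_540))) (Tre.all_nd (Tre.all_lf (batP_ok par7_ok wc1243605_284)) (Tre.all_lf (batP_ok par7_ok wc1243605_796)))) (Tre.all_nd (Tre.all_nd (Tre.all_lf (batP_ok par7_ok wc1243605_156)) (Tre.all_lf (batP_ok par7_ok wc1243605_668))) (Tre.all_nd (Tre.all_lf (batP_ok par7_ok wc1243605_412)) (Tre.all_lf (batP_ok par7_ok wc1243605_924))))) (Tre.all_nd (Tre.all_nd (Tre.all_nd (Tre.all_lf (batP_ok par7_ok wc1243605_92)) (Tre.all_lf (batP_ok par7_ok wc1243605_604))) (Tre.all_nd (Tre.all_lf (batP_ok par7_ok wc1243605_348)) (Tre.all_lf (batP_ok par7_ok wc1243605_860)))) (Tre.all_nd (Tre.all_nd (Tre.all_lf (batP_ok par7_ok wc1243605_220)) (Tre.all_lf (batP_ok par7_ok wc1243605_732))) (Tre.all_lf (batP_ok par7_ok wc1243605_476))))) (Tre.all_nd (Tre.all_nd (Tre.all_nd (Tre.all_nd (Tre.all_lf (batP_ok par7_ok wc1243605_60)) (Tre.all_lf (batP_ok par7_ok wc1243605_572))) (Tre.all_nd (Tre.all_lf (batP_ok par7_ok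 wc1243605_316)) (Tre.all_lf (batP_ok par7_ok wc1243605_828)))) (Tre.all_nd (Tre.all_nd (Tre.all_lf (batP_ok par7_ok wc1243605_188)) (Tre.all_lf (batP_ok par7_ok wc1243605_700))) (Tre.all_lf (batP_ok par7_ok wc1243605_444)))) (Tre.all_nd (Tre.all_nd (Tre.all_nd (Tre.all_lf (batP_ok par7_ok wc1243605_124)) (Tre.all_lf (batP_ok par7_ok wc1243605_636))) (Tre.all_nd (Tre.all_lf (batP_ok par7_ok wc1243605_380)) (Tre.all_lf (batP_ok par7_ok wc1243605_892)))) (Tre.all_nd (Tre.all_nd (Tre.all_lf (batP_ok par7_ok wc1243605_252)) (Tre.all_lf (batP_ok par7_ok wc1243605_764))) (Tre.all_lf (batP_ok par7_ok wc1243605_508))))))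

theorem afc1243605001 : Tre.All (PceOK par7 c1243605.VT) fc1243605001 := Tre.all_nd afc12436050010 afc12436050011

theorem afc124360500 : Tre.All (PceOK par7 c1243605.VT) fc124360500 := Tre.all_nd afc1243605000 afc1243605001

theorem afc12436050100 : Tre.All (PceOK par7 c1243605.VT) fc12436050100 := Tre.all_nd (Tre.all_nd (Tre.all_nd (Tre.all_nd (Tre.all_nd (Tre.all_nd (Tre.all_lf (batP_ok par7_ok wc1243605_2)) (Tre.all_lf (batP_ok par7_ok wc1243605_514))) (Tre.all_nd (Tre.all_lf (batP_ok par7_ok wc1243605_258)) (Tre.all_lf (batP_ok par7_ok wc1243605_770)))) (Tre.all_nd (Tre.all_nd (Tre.all_lf (batP_ok par7_ok wc1243605_130)) (Tre.all_lf (batP_ok par7_ok wc1243605_642))) (Tre.all_nd (Tre.all_lf (batP_ok par7_ok wc1243605_386)) (Tre.all_lf (batP_ok par7_ok wc1243605_898))))) (Tre.all_nd (Tre.all_nd (Tre.all_nd (Tre.all_lf (batP_ok par7_ok wc1243605_66)) (Tre.all_lf (batP_ok par7_ok wc1243605_578))) (Tre.all_nd (Tre.all_lf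 (batP_ok par7_ok wc1243605_322)) (Tre.all_lf (batP_ok par7_ok wc1243605_834)))) (Tre.all_nd (Tre.all_nd (Tre.all_lf (batP_ok par7_ok wc1243605_194)) (Tre.all_lf (batP_ok par7_ok wc1243605_706))) (Tre.all_lf (batP_ok par7_ok wc1243605_450))))) (Tre.all_nd (Tre.all_nd (Tre.all_nd (Tre.all_nd (Tre.all_lf (batP_ok par7_ok wc1243605_34)) (Tre.all_lf (batP_ok par7_ok wc1243605_546))) (Tre.all_nd (Tre.all_lf (batP_ok par7_ok wc1243605_290)) (Tre.all_lf (batP_ok par7_ok wc1243605_802)))) (Tre.all_nd (Tre.all_nd (Tre.all_lf (batP_ok par7_ok wc1243605_162)) (Tre.all_lf (batP_ok par7_ok wc1243605_674))) (Tre.all_nd (Tre.all_lf (batP_ok par7_ok wc1243605_418)) (Tre.all_lf (batP_ok par7_ok wc1243605_930))))) (Tre.all_nd (Tre.all_nd (Tre.all_nd (Tre.all_lf (batP_ok par7_ok wc1243605_98)) (Tre.all_lf (batP_ok par7_ok wc1243605_610))) (Tre.all_nd (Tre.all_lf (batP_ok par7_ok wc1243605_354)) (Tre.all_lf (batP_ok par7_ok wc1243605_866))))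 (Tre.all_nd (Tre.all_nd (Tre.all_lf (batP_ok par7_ok wc1243605_226)) (Tre.all_lf (batP_ok par7_ok wc1243605_738))) (Tre.all_lf (batP_ok par7_ok wc1243605_482)))))) (Tre.all_nd (Tre.all_nd (Tre.all_nd (Tre.all_nd (Tre.all_nd (Tre.all_lf (batP_ok par7_ok wc1243605_18)) (Tre.all_lf (batP_ok par7_ok wc1243605_530))) (Tre.all_nd (Tre.all_lf (batP_ok par7_ok wc1243605_274)) (Tre.all_lf (batP_ok par7_ok wc1243605_786)))) (Tre.all_nd (Tre.all_nd (Tre.all_lf (batP_ok par7_ok wc1243605_146)) (Tre.all_lf (batP_ok par7_ok wc1243605_658))) (Tre.all_nd (Tre.all_lf (batP_ok par7_ok wc1243605_402)) (Tre.all_lf (batP_ok par7_ok wc1243605_914))))) (Tre.all_nd (Tre.all_nd (Tre.all_nd (Tre.all_lf (batP_ok par7_ok wc1243605_82)) (Tre.all_lf (batP_ok par7_ok wc1243605_594))) (Tre.all_nd (Tre.all_lf (batP_ok par7_ok wc1243605_338)) (Tre.all_lf (batP_ok par7_ok wc1243605_850)))) (Tre.all_nd (Tre.all_nd (Tre.all_lf (batP_ok par7_ok wc1243605_210))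 (Tre.all_lf (batP_ok par7_ok wc1243605_722))) (Tre.all_lf (batP_ok par7_ok wc1243605_466))))) (Tre.all_nd (Tre.all_nd (Tre.all_nd (Tre.all_nd (Tre.all_lf (batP_ok par7_ok wc1243605_50)) (Tre.all_lf (batP_ok par7_ok wc1243605_562))) (Tre.all_nd (Tre.all_lf (batP_ok par7_ok wc1243605_306)) (Tre.all_lf (batP_ok par7_ok wc1243605_818)))) (Tre.all_nd (Tre.all_nd (Tre.all_lf (batP_ok par7_ok wc1243605_178)) (Tre.all_lf (batP_ok par7_ok wc1243605_690))) (Tre.all_lf (batP_ok par7_ok wc1243605_434)))) (Tre.all_nd (Tre.all_nd (Tre.all_nd (Tre.all_lf (batP_ok par7_ok wc1243605_114)) (Tre.all_lf (batP_ok par7_ok wc1243605_626))) (Tre.all_nd (Tre.all_lf (batP_ok par7_ok wc1243605_370)) (Tre.all_lf (batP_ok par7_ok wc1243605_882)))) (Tre.all_nd (Tre.all_nd (Tre.all_lf (batP_ok par7_ok wc1243605_242)) (Tre.all_lf (batP_ok par7_ok wc1243605_754))) (Tre.all_lf (batP_ok par7_ok wc1243605_498))))))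

theorem afc12436050101 : Tre.All (PceOK par7 c1243605.VT) fc12436050101 := Tre.all_nd (Tre.all_nd (Tre.all_nd (Tre.all_nd (Tre.all_nd (Tre.all_nd (Tre.all_lf (batP_ok par7_ok wc1243605_10)) (Tre.all_lf (batP_ok par7_ok wc1243605_522))) (Tre.all_nd (Tre.all_lf (batP_ok par7_ok wc1243605_266)) (Tre.all_lf (batP_ok par7_ok wc1243605_778)))) (Tre.all_nd (Tre.all_nd (Tre.all_lf (batP_ok par7_ok wc1243605_138)) (Tre.all_lf (batP_ok par7_ok wc1243605_650))) (Tre.all_nd (Tre.all_lf (batP_ok par7_ok wc1243605_394)) (Tre.all_lf (batP_ok par7_ok wc1243605_906))))) (Tre.all_nd (Tre.all_nd (Tre.all_nd (Tre.all_lf (batP_ok par7_ok wc1243605_74)) (Tre.all_lf (batP_ok par7_ok wc1243605_586))) (Tre.all_nd (Tre.all_lf (batP_ok par7_ok wc1243605_330)) (Tre.all_lf (batP_ok par7_ok wc1243605_842)))) (Tre.all_nd (Tre.all_nd (Tre.all_lf (batP_ok par7_ok wc1243605_202)) (Tre.all_lf (batP_ok par7_ok wc1243605_714))) (Tre.all_lf (batP_ok par7_ok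 wc1243605_458))))) (Tre.all_nd (Tre.all_nd (Tre.all_nd (Tre.all_nd (Tre.all_lf (batP_ok par7_ok wc1243605_42)) (Tre.all_lf (batP_ok par7_ok wc1243605_554))) (Tre.all_nd (Tre.all_lf (batP_ok par7_ok wc1243605_298)) (Tre.all_lf (batP_ok par7_ok wc1243605_810)))) (Tre.all_nd (Tre.all_nd (Tre.all_lf (batP_ok par7_ok wc1243605_170)) (Tre.all_lf (batP_ok par7_ok wc1243605_682))) (Tre.all_lf (batP_ok par7_ok wc1243605_426)))) (Tre.all_nd (Tre.all_nd (Tre.all_nd (Tre.all_lf (batP_ok par7_ok wc1243605_106)) (Tre.all_lf (batP_ok par7_ok wc1243605_618))) (Tre.all_nd (Tre.all_lf (batP_ok par7_ok wc1243605_362)) (Tre.all_lf (batP_ok par7_ok wc1243605_874)))) (Tre.all_nd (Tre.all_nd (Tre.all_lf (batP_ok par7_ok wc1243605_234)) (Tre.all_lf (batP_ok par7_ok wc1243605_746))) (Tre.all_lf (batP_ok par7_ok wc1243605_490)))))) (Tre.all_nd (Tre.all_nd (Tre.all_nd (Tre.all_nd (Tre.all_nd (Tre.all_lf (batP_ok par7_ok wc1243605_26)) (Tre.all_lf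 (batP_ok par7_ok wc1243605_538))) (Tre.all_nd (Tre.all_lf (batP_ok par7_ok wc1243605_282)) (Tre.all_lf (batP_ok par7_ok wc1243605_794)))) (Tre.all_nd (Tre.all_nd (Tre.all_lf (batP_ok par7_ok wc1243605_154)) (Tre.all_lf (batP_ok par7_ok wc1243605_666))) (Tre.all_nd (Tre.all_lf (batP_ok par7_ok wc1243605_410)) (Tre.all_lf (batP_ok par7_ok wc1243605_922))))) (Tre.all_nd (Tre.all_nd (Tre.all_nd (Tre.all_lf (batP_ok par7_ok wc1243605_90)) (Tre.all_lf (batP_ok par7_ok wc1243605_602))) (Tre.all_nd (Tre.all_lf (batP_ok par7_ok wc1243605_346)) (Tre.all_lf (batP_ok par7_ok wc1243605_858)))) (Tre.all_nd (Tre.all_nd (Tre.all_lf (batP_ok par7_ok wc1243605_218)) (Tre.all_lf (batP_ok par7_ok wc1243605_730))) (Tre.all_lf (batP_ok par7_ok wc1243605_474))))) (Tre.all_nd (Tre.all_nd (Tre.all_nd (Tre.all_nd (Tre.all_lf (batP_ok par7_ok wc1243605_58)) (Tre.all_lf (batP_ok par7_ok wc1243605_570))) (Tre.all_nd (Tre.all_lf (batP_ok par7_ok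 wc1243605_314)) (Tre.all_lf (batP_ok par7_ok wc1243605_826)))) (Tre.all_nd (Tre.all_nd (Tre.all_lf (batP_ok par7_ok wc1243605_186)) (Tre.all_lf (batP_ok par7_ok wc1243605_698))) (Tre.all_lf (batP_ok par7_ok wc1243605_442)))) (Tre.all_nd (Tre.all_nd (Tre.all_nd (Tre.all_lf (batP_ok par7_ok wc1243605_122)) (Tre.all_lf (batP_ok par7_ok wc1243605_634))) (Tre.all_nd (Tre.all_lf (batP_ok par7_ok wc1243605_378)) (Tre.all_lf (batP_ok par7_ok wc1243605_890)))) (Tre.all_nd (Tre.all_nd (Tre.all_lf (batP_ok par7_ok wc1243605_250)) (Tre.all_lf (batP_ok par7_ok wc1243605_762))) (Tre.all_lf (batP_ok par7_ok wc1243605_506))))))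

theorem afc1243605010 : Tre.All (PceOK par7 c1243605.VT) fc1243605010 := Tre.all_nd afc12436050100 afc12436050101

theorem afc12436050110 : Tre.All (PceOK par7 c1243605.VT) fc12436050110 := Tre.all_nd (Tre.all_nd (Tre.all_nd (Tre.all_nd (Tre.all_nd (Tre.all_nd (Tre.all_lf (batP_ok par7_ok wc1243605_6)) (Tre.all_lf (batP_ok par7_ok wc1243605_518))) (Tre.all_nd (Tre.all_lf (batP_ok par7_ok wc1243605_262)) (Tre.all_lf (batP_ok par7_ok wc1243605_774)))) (Tre.all_nd (Tre.all_nd (Tre.all_lf (batP_ok par7_ok wc1243605_134)) (Tre.all_lf (batP_ok par7_ok wc1243605_646))) (Tre.all_nd (Tre.all_lf (batP_ok par7_ok wc1243605_390)) (Tre.all_lf (batP_ok par7_ok wc1243605_902))))) (Tre.all_nd (Tre.all_nd (Tre.all_nd (Tre.all_lf (batP_ok par7_ok wc1243605_70)) (Tre.all_lf (batP_ok par7_ok wc1243605_582))) (Tre.all_nd (Tre.all_lf (batP_ok par7_ok wc1243605_326)) (Tre.all_lf (batP_ok par7_ok wc1243605_838)))) (Tre.all_nd (Tre.all_nd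 (Tre.all_lf (batP_ok par7_ok wc1243605_198)) (Tre.all_lf (batP_ok par7_ok wc1243605_710))) (Tre.all_lf (batP_ok par7_ok wc1243605_454))))) (Tre.all_nd (Tre.all_nd (Tre.all_nd (Tre.all_nd (Tre.all_lf (batP_ok par7_ok wc1243605_38)) (Tre.all_lf (batP_ok par7_ok wc1243605_550))) (Tre.all_nd (Tre.all_lf (batP_ok par7_ok wc1243605_294)) (Tre.all_lf (batP_ok par7_ok wc1243605_806)))) (Tre.all_nd (Tre.all_nd (Tre.all_lf (batP_ok par7_ok wc1243605_166)) (Tre.all_lf (batP_ok par7_ok wc1243605_678))) (Tre.all_nd (Tre.all_lf (batP_ok par7_ok wc1243605_422)) (Tre.all_lf (batP_ok par7_ok wc1243605_934))))) (Tre.all_nd (Tre.all_nd (Tre.all_nd (Tre.all_lf (batP_ok par7_ok wc1243605_102)) (Tre.all_lf (batP_ok par7_ok wc1243605_614))) (Tre.all_nd (Tre.all_lf (batP_ok par7_ok wc1243605_358)) (Tre.all_lf (batP_ok par7_ok wc1243605_870)))) (Tre.all_nd (Tre.all_nd (Tre.all_lf (batP_ok par7_ok wc1243605_230)) (Tre.all_lf (batP_ok par7_ok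 wc1243605_742))) (Tre.all_lf (batP_ok par7_ok wc1243605_486)))))) (Tre.all_nd (Tre.all_nd (Tre.all_nd (Tre.all_nd (Tre.all_nd (Tre.all_lf (batP_ok par7_ok wc1243605_22)) (Tre.all_lf (batP_ok par7_ok wc1243605_534))) (Tre.all_nd (Tre.all_lf (batP_ok par7_ok wc1243605_278)) (Tre.all_lf (batP_ok par7_ok wc1243605_790)))) (Tre.all_nd (Tre.all_nd (Tre.all_lf (batP_ok par7_ok wc1243605_150)) (Tre.all_lf (batP_ok par7_ok wc1243605_662))) (Tre.all_nd (Tre.all_lf (batP_ok par7_ok wc1243605_406)) (Tre.all_lf (batP_ok par7_ok wc1243605_918))))) (Tre.all_nd (Tre.all_nd (Tre.all_nd (Tre.all_lf (batP_ok par7_ok wc1243605_86)) (Tre.all_lf (batP_ok par7_ok wc1243605_598))) (Tre.all_nd (Tre.all_lf (batP_ok par7_ok wc1243605_342)) (Tre.all_lf (batP_ok par7_ok wc1243605_854)))) (Tre.all_nd (Tre.all_nd (Tre.all_lf (batP_ok par7_ok wc1243605_214)) (Tre.all_lf (batP_ok par7_ok wc1243605_726))) (Tre.all_lf (batP_ok par7_ok wc1243605_470)))))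 (Tre.all_nd (Tre.all_nd (Tre.all_nd (Tre.all_nd (Tre.all_lf (batP_ok par7_ok wc1243605_54)) (Tre.all_lf (batP_ok par7_ok wc1243605_566))) (Tre.all_nd (Tre.all_lf (batP_ok par7_ok wc1243605_310)) (Tre.all_lf (batP_ok par7_ok wc1243605_822)))) (Tre.all_nd (Tre.all_nd (Tre.all_lf (batP_ok par7_ok wc1243605_182)) (Tre.all_lf (batP_ok par7_ok wc1243605_694))) (Tre.all_lf (batP_ok par7_ok wc1243605_438)))) (Tre.all_nd (Tre.all_nd (Tre.all_nd (Tre.all_lf (batP_ok par7_ok wc1243605_118)) (Tre.all_lf (batP_ok par7_ok wc1243605_630))) (Tre.all_nd (Tre.all_lf (batP_ok par7_ok wc1243605_374)) (Tre.all_lf (batP_ok par7_ok wc1243605_886)))) (Tre.all_nd (Tre.all_nd (Tre.all_lf (batP_ok par7_ok wc1243605_246)) (Tre.all_lf (batP_ok par7_ok wc1243605_758))) (Tre.all_lf (batP_ok par7_ok wc1243605_502))))))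

theorem afc12436050111 : Tre.All (PceOK par7 c1243605.VT) fc12436050111 := Tre.all_nd (Tre.all_nd (Tre.all_nd (Tre.all_nd (Tre.all_nd (Tre.all_nd (Tre.all_lf (batP_ok par7_ok wc1243605_14)) (Tre.all_lf (batP_ok par7_ok wc1243605_526))) (Tre.all_nd (Tre.all_lf (batP_ok par7_ok wc1243605_270)) (Tre.all_lf (batP_ok par7_ok wc1243605_782)))) (Tre.all_nd (Tre.all_nd (Tre.all_lf (batP_ok par7_ok wc1243605_142)) (Tre.all_lf (batP_ok par7_ok wc1243605_654))) (Tre.all_nd (Tre.all_lf (batP_ok par7_ok wc1243605_398)) (Tre.all_lf (batP_ok par7_ok wc1243605_910))))) (Tre.all_nd (Tre.all_nd (Tre.all_nd (Tre.all_lf (batP_ok par7_ok wc1243605_78)) (Tre.all_lf (batP_ok par7_ok wc1243605_590))) (Tre.all_nd (Tre.all_lf (batP_ok par7_ok wc1243605_334)) (Tre.all_lf (batP_ok par7_ok wc1243605_846)))) (Tre.all_nd (Tre.all_nd (Tre.all_lf (batP_ok par7_ok wc1243605_206)) (Tre.all_lf (batP_ok par7_ok wc1243605_718))) (Tre.all_lf (batP_ok par7_ok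 wc1243605_462))))) (Tre.all_nd (Tre.all_nd (Tre.all_nd (Tre.all_nd (Tre.all_lf (batP_ok par7_ok wc1243605_46)) (Tre.all_lf (batP_ok par7_ok wc1243605_558))) (Tre.all_nd (Tre.all_lf (batP_ok par7_ok wc1243605_302)) (Tre.all_lf (batP_ok par7_ok wc1243605_814)))) (Tre.all_nd (Tre.all_nd (Tre.all_lf (batP_ok par7_ok wc1243605_174)) (Tre.all_lf (batP_ok par7_ok wc1243605_686))) (Tre.all_lf (batP_ok par7_ok wc1243605_430)))) (Tre.all_nd (Tre.all_nd (Tre.all_nd (Tre.all_lf (batP_ok par7_ok wc1243605_110)) (Tre.all_lf (batP_ok par7_ok wc1243605_622))) (Tre.all_nd (Tre.all_lf (batP_ok par7_ok wc1243605_366)) (Tre.all_lf (batP_ok par7_ok wc1243605_878)))) (Tre.all_nd (Tre.all_nd (Tre.all_lf (batP_ok par7_ok wc1243605_238)) (Tre.all_lf (batP_ok par7_ok wc1243605_750))) (Tre.all_lf (batP_ok par7_ok wc1243605_494)))))) (Tre.all_nd (Tre.all_nd (Tre.all_nd (Tre.all_nd (Tre.all_nd (Tre.all_lf (batP_ok par7_ok wc1243605_30)) (Tre.all_lf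 (batP_ok par7_ok wc1243605_542))) (Tre.all_nd (Tre.all_lf (batP_ok par7_ok wc1243605_286)) (Tre.all_lf (batP_ok par7_ok wc1243605_798)))) (Tre.all_nd (Tre.all_nd (Tre.all_lf (batP_ok par7_ok wc1243605_158)) (Tre.all_lf (batP_ok par7_ok wc1243605_670))) (Tre.all_nd (Tre.all_lf (batP_ok par7_ok wc1243605_414)) (Tre.all_lf (batP_ok par7_ok wc1243605_926))))) (Tre.all_nd (Tre.all_nd (Tre.all_nd (Tre.all_lf (batP_ok par7_ok wc1243605_94)) (Tre.all_lf (batP_ok par7_ok wc1243605_606))) (Tre.all_nd (Tre.all_lf (batP_ok par7_ok wc1243605_350)) (Tre.all_lf (batP_ok par7_ok wc1243605_862)))) (Tre.all_nd (Tre.all_nd (Tre.all_lf (batP_ok par7_ok wc1243605_222)) (Tre.all_lf (batP_ok par7_ok wc1243605_734))) (Tre.all_lf (batP_ok par7_ok wc1243605_478))))) (Tre.all_nd (Tre.all_nd (Tre.all_nd (Tre.all_nd (Tre.all_lf (batP_ok par7_ok wc1243605_62)) (Tre.all_lf (batP_ok par7_ok wc1243605_574))) (Tre.all_nd (Tre.all_lf (batP_ok par7_ok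 wc1243605_318)) (Tre.all_lf (batP_ok par7_ok wc1243605_830)))) (Tre.all_nd (Tre.all_nd (Tre.all_lf (batP_ok par7_ok wc1243605_190)) (Tre.all_lf (batP_ok par7_ok wc1243605_702))) (Tre.all_lf (batP_ok par7_ok wc1243605_446)))) (Tre.all_nd (Tre.all_nd (Tre.all_nd (Tre.all_lf (batP_ok par7_ok wc1243605_126)) (Tre.all_lf (batP_ok par7_ok wc1243605_638))) (Tre.all_nd (Tre.all_lf (batP_ok par7_ok wc1243605_382)) (Tre.all_lf (batP_ok par7_ok wc1243605_894)))) (Tre.all_nd (Tre.all_nd (Tre.all_lf (batP_ok par7_ok wc1243605_254)) (Tre.all_lf (batP_ok par7_ok wc1243605_766))) (Tre.all_lf (batP_ok par7_ok wc1243605_510))))))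

theorem afc1243605011 : Tre.All (PceOK par7 c1243605.VT) fc1243605011 := Tre.all_nd afc12436050110 afc12436050111

theorem afc124360501 : Tre.All (PceOK par7 c1243605.VT) fc124360501 := Tre.all_nd afc1243605010 afc1243605011

theorem afc12436050 : Tre.All (PceOK par7 c1243605.VT) fc12436050 := Tre.all_nd afc124360500 afc124360501

theorem afc12436051000 : Tre.All (PceOK par7 c1243605.VT) fc12436051000 := Tre.all_nd (Tre.all_nd (Tre.all_nd (Tre.all_nd (Tre.all_nd (Tre.all_nd (Tre.all_lf (batP_ok par7_ok wc1243605_1)) (Tre.all_lf (batP_ok par7_ok wc1243605_513))) (Tre.all_nd (Tre.all_lf (batP_ok par7_ok wc1243605_257)) (Tre.all_lf (batP_ok par7_ok wc1243605_769)))) (Tre.all_nd (Tre.all_nd (Tre.all_lf (batP_ok par7_ok wc1243605_129)) (Tre.all_lf (batP_ok par7_ok wc1243605_641))) (Tre.all_nd (Tre.all_lf (batP_ok par7_ok wc1243605_385)) (Tre.all_lf (batP_ok par7_ok wc1243605_897))))) (Tre.all_nd (Tre.all_nd (Tre.all_nd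 (Tre.all_lf (batP_ok par7_ok wc1243605_65)) (Tre.all_lf (batP_ok par7_ok wc1243605_577))) (Tre.all_nd (Tre.all_lf (batP_ok par7_ok wc1243605_321)) (Tre.all_lf (batP_ok par7_ok wc1243605_833)))) (Tre.all_nd (Tre.all_nd (Tre.all_lf (batP_ok par7_ok wc1243605_193)) (Tre.all_lf (batP_ok par7_ok wc1243605_705))) (Tre.all_lf (batP_ok par7_ok wc1243605_449))))) (Tre.all_nd (Tre.all_nd (Tre.all_nd (Tre.all_nd (Tre.all_lf (batP_ok par7_ok wc1243605_33)) (Tre.all_lf (batP_ok par7_ok wc1243605_545))) (Tre.all_nd (Tre.all_lf (batP_ok par7_ok wc1243605_289)) (Tre.all_lf (batP_ok par7_ok wc1243605_801)))) (Tre.all_nd (Tre.all_nd (Tre.all_lf (batP_ok par7_ok wc1243605_161)) (Tre.all_lf (batP_ok par7_ok wc1243605_673))) (Tre.all_nd (Tre.all_lf (batP_ok par7_ok wc1243605_417)) (Tre.all_lf (batP_ok par7_ok wc1243605_929))))) (Tre.all_nd (Tre.all_nd (Tre.all_nd (Tre.all_lf (batP_ok par7_ok wc1243605_97)) (Tre.all_lf (batP_ok par7_ok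 wc1243605_609))) (Tre.all_nd (Tre.all_lf (batP_ok par7_ok wc1243605_353)) (Tre.all_lf (batP_ok par7_ok wc1243605_865)))) (Tre.all_nd (Tre.all_nd (Tre.all_lf (batP_ok par7_ok wc1243605_225)) (Tre.all_lf (batP_ok par7_ok wc1243605_737))) (Tre.all_lf (batP_ok par7_ok wc1243605_481)))))) (Tre.all_nd (Tre.all_nd (Tre.all_nd (Tre.all_nd (Tre.all_nd (Tre.all_lf (batP_ok par7_ok wc1243605_17)) (Tre.all_lf (batP_ok par7_ok wc1243605_529))) (Tre.all_nd (Tre.all_lf (batP_ok par7_ok wc1243605_273)) (Tre.all_lf (batP_ok par7_ok wc1243605_785)))) (Tre.all_nd (Tre.all_nd (Tre.all_lf (batP_ok par7_ok wc1243605_145)) (Tre.all_lf (batP_ok par7_ok wc1243605_657))) (Tre.all_nd (Tre.all_lf (batP_ok par7_ok wc1243605_401)) (Tre.all_lf (batP_ok par7_ok wc1243605_913))))) (Tre.all_nd (Tre.all_nd (Tre.all_nd (Tre.all_lf (batP_ok par7_ok wc1243605_81)) (Tre.all_lf (batP_ok par7_ok wc1243605_593))) (Tre.all_nd (Tre.all_lf (batP_ok par7_ok wc1243605_337))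 (Tre.all_lf (batP_ok par7_ok wc1243605_849)))) (Tre.all_nd (Tre.all_nd (Tre.all_lf (batP_ok par7_ok wc1243605_209)) (Tre.all_lf (batP_ok par7_ok wc1243605_721))) (Tre.all_lf (batP_ok par7_ok wc1243605_465))))) (Tre.all_nd (Tre.all_nd (Tre.all_nd (Tre.all_nd (Tre.all_lf (batP_ok par7_ok wc1243605_49)) (Tre.all_lf (batP_ok par7_ok wc1243605_561))) (Tre.all_nd (Tre.all_lf (batP_ok par7_ok wc1243605_305)) (Tre.all_lf (batP_ok par7_ok wc1243605_817)))) (Tre.all_nd (Tre.all_nd (Tre.all_lf (batP_ok par7_ok wc1243605_177)) (Tre.all_lf (batP_ok par7_ok wc1243605_689))) (Tre.all_lf (batP_ok par7_ok wc1243605_433)))) (Tre.all_nd (Tre.all_nd (Tre.all_nd (Tre.all_lf (batP_ok par7_ok wc1243605_113)) (Tre.all_lf (batP_ok par7_ok wc1243605_625))) (Tre.all_nd (Tre.all_lf (batP_ok par7_ok wc1243605_369)) (Tre.all_lf (batP_ok par7_ok wc1243605_881)))) (Tre.all_nd (Tre.all_nd (Tre.all_lf (batP_ok par7_ok wc1243605_241)) (Tre.all_lf (batP_ok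 par7_ok wc1243605_753))) (Tre.all_lf (batP_ok par7_ok wc1243605_497))))))

theorem afc12436051001 : Tre.All (PceOK par7 c1243605.VT) fc12436051001 := Tre.all_nd (Tre.all_nd (Tre.all_nd (Tre.all_nd (Tre.all_nd (Tre.all_nd (Tre.all_lf (batP_ok par7_ok wc1243605_9)) (Tre.all_lf (batP_ok par7_ok wc1243605_521))) (Tre.all_nd (Tre.all_lf (batP_ok par7_ok wc1243605_265)) (Tre.all_lf (batP_ok par7_ok wc1243605_777)))) (Tre.all_nd (Tre.all_nd (Tre.all_lf (batP_ok par7_ok wc1243605_137)) (Tre.all_lf (batP_ok par7_ok wc1243605_649))) (Tre.all_nd (Tre.all_lf (batP_ok par7_ok wc1243605_393)) (Tre.all_lf (batP_ok par7_ok wc1243605_905))))) (Tre.all_nd (Tre.all_nd (Tre.all_nd (Tre.all_lf (batP_ok par7_ok wc1243605_73)) (Tre.all_lf (batP_ok par7_ok wc1243605_585))) (Tre.all_nd (Tre.all_lf (batP_ok par7_ok wc1243605_329)) (Tre.all_lf (batP_ok par7_ok wc1243605_841)))) (Tre.all_nd (Tre.all_nd (Tre.all_lf (batP_ok par7_ok wc1243605_201))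 (Tre.all_lf (batP_ok par7_ok wc1243605_713))) (Tre.all_lf (batP_ok par7_ok wc1243605_457))))) (Tre.all_nd (Tre.all_nd (Tre.all_nd (Tre.all_nd (Tre.all_lf (batP_ok par7_ok wc1243605_41)) (Tre.all_lf (batP_ok par7_ok wc1243605_553))) (Tre.all_nd (Tre.all_lf (batP_ok par7_ok wc1243605_297)) (Tre.all_lf (batP_ok par7_ok wc1243605_809)))) (Tre.all_nd (Tre.all_nd (Tre.all_lf (batP_ok par7_ok wc1243605_169)) (Tre.all_lf (batP_ok par7_ok wc1243605_681))) (Tre.all_nd (Tre.all_lf (batP_ok par7_ok wc1243605_425)) (Tre.all_lf (batP_ok par7_ok wc1243605_937))))) (Tre.all_nd (Tre.all_nd (Tre.all_nd (Tre.all_lf (batP_ok par7_ok wc1243605_105)) (Tre.all_lf (batP_ok par7_ok wc1243605_617))) (Tre.all_nd (Tre.all_lf (batP_ok par7_ok wc1243605_361)) (Tre.all_lf (batP_ok par7_ok wc1243605_873)))) (Tre.all_nd (Tre.all_nd (Tre.all_lf (batP_ok par7_ok wc1243605_233)) (Tre.all_lf (batP_ok par7_ok wc1243605_745))) (Tre.all_lf (batP_ok par7_ok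 wc1243605_489)))))) (Tre.all_nd (Tre.all_nd (Tre.all_nd (Tre.all_nd (Tre.all_nd (Tre.all_lf (batP_ok par7_ok wc1243605_25)) (Tre.all_lf (batP_ok par7_ok wc1243605_537))) (Tre.all_nd (Tre.all_lf (batP_ok par7_ok wc1243605_281)) (Tre.all_lf (batP_ok par7_ok wc1243605_793)))) (Tre.all_nd (Tre.all_nd (Tre.all_lf (batP_ok par7_ok wc1243605_153)) (Tre.all_lf (batP_ok par7_ok wc1243605_665))) (Tre.all_nd (Tre.all_lf (batP_ok par7_ok wc1243605_409)) (Tre.all_lf (batP_ok par7_ok wc1243605_921))))) (Tre.all_nd (Tre.all_nd (Tre.all_nd (Tre.all_lf (batP_ok par7_ok wc1243605_89)) (Tre.all_lf (batP_ok par7_ok wc1243605_601))) (Tre.all_nd (Tre.all_lf (batP_ok par7_ok wc1243605_345)) (Tre.all_lf (batP_ok par7_ok wc1243605_857)))) (Tre.all_nd (Tre.all_nd (Tre.all_lf (batP_ok par7_ok wc1243605_217)) (Tre.all_lf (batP_ok par7_ok wc1243605_729))) (Tre.all_lf (batP_ok par7_ok wc1243605_473))))) (Tre.all_nd (Tre.all_nd (Tre.all_nd (Tre.all_nd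 (Tre.all_lf (batP_ok par7_ok wc1243605_57)) (Tre.all_lf (batP_ok par7_ok wc1243605_569))) (Tre.all_nd (Tre.all_lf (batP_ok par7_ok wc1243605_313)) (Tre.all_lf (batP_ok par7_ok wc1243605_825)))) (Tre.all_nd (Tre.all_nd (Tre.all_lf (batP_ok par7_ok wc1243605_185)) (Tre.all_lf (batP_ok par7_ok wc1243605_697))) (Tre.all_lf (batP_ok par7_ok wc1243605_441)))) (Tre.all_nd (Tre.all_nd (Tre.all_nd (Tre.all_lf (batP_ok par7_ok wc1243605_121)) (Tre.all_lf (batP_ok par7_ok wc1243605_633))) (Tre.all_nd (Tre.all_lf (batP_ok par7_ok wc1243605_377)) (Tre.all_lf (batP_ok par7_ok wc1243605_889)))) (Tre.all_nd (Tre.all_nd (Tre.all_lf (batP_ok par7_ok wc1243605_249)) (Tre.all_lf (batP_ok par7_ok wc1243605_761))) (Tre.all_lf (batP_ok par7_ok wc1243605_505))))))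

theorem afc1243605100 : Tre.All (PceOK par7 c1243605.VT) fc1243605100 := Tre.all_nd afc12436051000 afc12436051001

theorem afc12436051010 : Tre.All (PceOK par7 c1243605.VT) fc12436051010 := Tre.all_nd (Tre.all_nd (Tre.all_nd (Tre.all_nd (Tre.all_nd (Tre.all_nd (Tre.all_lf (batP_ok par7_ok wc1243605_5)) (Tre.all_lf (batP_ok par7_ok wc1243605_517))) (Tre.all_nd (Tre.all_lf (batP_ok par7_ok wc1243605_261)) (Tre.all_lf (batP_ok par7_ok wc1243605_773)))) (Tre.all_nd (Tre.all_nd (Tre.all_lf (batP_ok par7_ok wc1243605_133)) (Tre.all_lf (batP_ok par7_ok wc1243605_645))) (Tre.all_nd (Tre.all_lf (batP_ok par7_ok wc1243605_389)) (Tre.all_lf (batP_ok par7_ok wc1243605_901))))) (Tre.all_nd (Tre.all_nd (Tre.all_nd (Tre.all_lf (batP_ok par7_ok wc1243605_69)) (Tre.all_lf (batP_ok par7_ok wc1243605_581))) (Tre.all_nd (Tre.all_lf (batP_ok par7_ok wc1243605_325)) (Tre.all_lf (batP_ok par7_ok wc1243605_837)))) (Tre.all_nd (Tre.all_nd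 (Tre.all_lf (batP_ok par7_ok wc1243605_197)) (Tre.all_lf (batP_ok par7_ok wc1243605_709))) (Tre.all_lf (batP_ok par7_ok wc1243605_453))))) (Tre.all_nd (Tre.all_nd (Tre.all_nd (Tre.all_nd (Tre.all_lf (batP_ok par7_ok wc1243605_37)) (Tre.all_lf (batP_ok par7_ok wc1243605_549))) (Tre.all_nd (Tre.all_lf (batP_ok par7_ok wc1243605_293)) (Tre.all_lf (batP_ok par7_ok wc1243605_805)))) (Tre.all_nd (Tre.all_nd (Tre.all_lf (batP_ok par7_ok wc1243605_165)) (Tre.all_lf (batP_ok par7_ok wc1243605_677))) (Tre.all_nd (Tre.all_lf (batP_ok par7_ok wc1243605_421)) (Tre.all_lf (batP_ok par7_ok wc1243605_933))))) (Tre.all_nd (Tre.all_nd (Tre.all_nd (Tre.all_lf (batP_ok par7_ok wc1243605_101)) (Tre.all_lf (batP_ok par7_ok wc1243605_613))) (Tre.all_nd (Tre.all_lf (batP_ok par7_ok wc1243605_357)) (Tre.all_lf (batP_ok par7_ok wc1243605_869)))) (Tre.all_nd (Tre.all_nd (Tre.all_lf (batP_ok par7_ok wc1243605_229)) (Tre.all_lf (batP_ok par7_ok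 wc1243605_741))) (Tre.all_lf (batP_ok par7_ok wc1243605_485)))))) (Tre.all_nd (Tre.all_nd (Tre.all_nd (Tre.all_nd (Tre.all_nd (Tre.all_lf (batP_ok par7_ok wc1243605_21)) (Tre.all_lf (batP_ok par7_ok wc1243605_533))) (Tre.all_nd (Tre.all_lf (batP_ok par7_ok wc1243605_277)) (Tre.all_lf (batP_ok par7_ok wc1243605_789)))) (Tre.all_nd (Tre.all_nd (Tre.all_lf (batP_ok par7_ok wc1243605_149)) (Tre.all_lf (batP_ok par7_ok wc1243605_661))) (Tre.all_nd (Tre.all_lf (batP_ok par7_ok wc1243605_405)) (Tre.all_lf (batP_ok par7_ok wc1243605_917))))) (Tre.all_nd (Tre.all_nd (Tre.all_nd (Tre.all_lf (batP_ok par7_ok wc1243605_85)) (Tre.all_lf (batP_ok par7_ok wc1243605_597))) (Tre.all_nd (Tre.all_lf (batP_ok par7_ok wc1243605_341)) (Tre.all_lf (batP_ok par7_ok wc1243605_853)))) (Tre.all_nd (Tre.all_nd (Tre.all_lf (batP_ok par7_ok wc1243605_213)) (Tre.all_lf (batP_ok par7_ok wc1243605_725))) (Tre.all_lf (batP_ok par7_ok wc1243605_469)))))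 (Tre.all_nd (Tre.all_nd (Tre.all_nd (Tre.all_nd (Tre.all_lf (batP_ok par7_ok wc1243605_53)) (Tre.all_lf (batP_ok par7_ok wc1243605_565))) (Tre.all_nd (Tre.all_lf (batP_ok par7_ok wc1243605_309)) (Tre.all_lf (batP_ok par7_ok wc1243605_821)))) (Tre.all_nd (Tre.all_nd (Tre.all_lf (batP_ok par7_ok wc1243605_181)) (Tre.all_lf (batP_ok par7_ok wc1243605_693))) (Tre.all_lf (batP_ok par7_ok wc1243605_437)))) (Tre.all_nd (Tre.all_nd (Tre.all_nd (Tre.all_lf (batP_ok par7_ok wc1243605_117)) (Tre.all_lf (batP_ok par7_ok wc1243605_629))) (Tre.all_nd (Tre.all_lf (batP_ok par7_ok wc1243605_373)) (Tre.all_lf (batP_ok par7_ok wc1243605_885)))) (Tre.all_nd (Tre.all_nd (Tre.all_lf (batP_ok par7_ok wc1243605_245)) (Tre.all_lf (batP_ok par7_ok wc1243605_757))) (Tre.all_lf (batP_ok par7_ok wc1243605_501))))))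

theorem afc12436051011 : Tre.All (PceOK par7 c1243605.VT) fc12436051011 := Tre.all_nd (Tre.all_nd (Tre.all_nd (Tre.all_nd (Tre.all_nd (Tre.all_nd (Tre.all_lf (batP_ok par7_ok wc1243605_13)) (Tre.all_lf (batP_ok par7_ok wc1243605_525))) (Tre.all_nd (Tre.all_lf (batP_ok par7_ok wc1243605_269)) (Tre.all_lf (batP_ok par7_ok wc1243605_781)))) (Tre.all_nd (Tre.all_nd (Tre.all_lf (batP_ok par7_ok wc1243605_141)) (Tre.all_lf (batP_ok par7_ok wc1243605_653))) (Tre.all_nd (Tre.all_lf (batP_ok par7_ok wc1243605_397)) (Tre.all_lf (batP_ok par7_ok wc1243605_909))))) (Tre.all_nd (Tre.all_nd (Tre.all_nd (Tre.all_lf (batP_ok par7_ok wc1243605_77)) (Tre.all_lf (batP_ok par7_ok wc1243605_589))) (Tre.all_nd (Tre.all_lf (batP_ok par7_ok wc1243605_333)) (Tre.all_lf (batP_ok par7_ok wc1243605_845)))) (Tre.all_nd (Tre.all_nd (Tre.all_lf (batP_ok par7_ok wc1243605_205)) (Tre.all_lf (batP_ok par7_ok wc1243605_717))) (Tre.all_lf (batP_ok par7_ok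 wc1243605_461))))) (Tre.all_nd (Tre.all_nd (Tre.all_nd (Tre.all_nd (Tre.all_lf (batP_ok par7_ok wc1243605_45)) (Tre.all_lf (batP_ok par7_ok wc1243605_557))) (Tre.all_nd (Tre.all_lf (batP_ok par7_ok wc1243605_301)) (Tre.all_lf (batP_ok par7_ok wc1243605_813)))) (Tre.all_nd (Tre.all_nd (Tre.all_lf (batP_ok par7_ok wc1243605_173)) (Tre.all_lf (batP_ok par7_ok wc1243605_685))) (Tre.all_lf (batP_ok par7_ok wc1243605_429)))) (Tre.all_nd (Tre.all_nd (Tre.all_nd (Tre.all_lf (batP_ok par7_ok wc1243605_109)) (Tre.all_lf (batP_ok par7_ok wc1243605_621))) (Tre.all_nd (Tre.all_lf (batP_ok par7_ok wc1243605_365)) (Tre.all_lf (batP_ok par7_ok wc1243605_877)))) (Tre.all_nd (Tre.all_nd (Tre.all_lf (batP_ok par7_ok wc1243605_237)) (Tre.all_lf (batP_ok par7_ok wc1243605_749))) (Tre.all_lf (batP_ok par7_ok wc1243605_493)))))) (Tre.all_nd (Tre.all_nd (Tre.all_nd (Tre.all_nd (Tre.all_nd (Tre.all_lf (batP_ok par7_ok wc1243605_29)) (Tre.all_lf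 (batP_ok par7_ok wc1243605_541))) (Tre.all_nd (Tre.all_lf (batP_ok par7_ok wc1243605_285)) (Tre.all_lf (batP_ok par7_ok wc1243605_797)))) (Tre.all_nd (Tre.all_nd (Tre.all_lf (batP_ok par7_ok wc1243605_157)) (Tre.all_lf (batP_ok par7_ok wc1243605_669))) (Tre.all_nd (Tre.all_lf (batP_ok par7_ok wc1243605_413)) (Tre.all_lf (batP_ok par7_ok wc1243605_925))))) (Tre.all_nd (Tre.all_nd (Tre.all_nd (Tre.all_lf (batP_ok par7_ok wc1243605_93)) (Tre.all_lf (batP_ok par7_ok wc1243605_605))) (Tre.all_nd (Tre.all_lf (batP_ok par7_ok wc1243605_349)) (Tre.all_lf (batP_ok par7_ok wc1243605_861)))) (Tre.all_nd (Tre.all_nd (Tre.all_lf (batP_ok par7_ok wc1243605_221)) (Tre.all_lf (batP_ok par7_ok wc1243605_733))) (Tre.all_lf (batP_ok par7_ok wc1243605_477))))) (Tre.all_nd (Tre.all_nd (Tre.all_nd (Tre.all_nd (Tre.all_lf (batP_ok par7_ok wc1243605_61)) (Tre.all_lf (batP_ok par7_ok wc1243605_573))) (Tre.all_nd (Tre.all_lf (batP_ok par7_ok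 wc1243605_317)) (Tre.all_lf (batP_ok par7_ok wc1243605_829)))) (Tre.all_nd (Tre.all_nd (Tre.all_lf (batP_ok par7_ok wc1243605_189)) (Tre.all_lf (batP_ok par7_ok wc1243605_701))) (Tre.all_lf (batP_ok par7_ok wc1243605_445)))) (Tre.all_nd (Tre.all_nd (Tre.all_nd (Tre.all_lf (batP_ok par7_ok wc1243605_125)) (Tre.all_lf (batP_ok par7_ok wc1243605_637))) (Tre.all_nd (Tre.all_lf (batP_ok par7_ok wc1243605_381)) (Tre.all_lf (batP_ok par7_ok wc1243605_893)))) (Tre.all_nd (Tre.all_nd (Tre.all_lf (batP_ok par7_ok wc1243605_253)) (Tre.all_lf (batP_ok par7_ok wc1243605_765))) (Tre.all_lf (batP_ok par7_ok wc1243605_509))))))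

theorem afc1243605101 : Tre.All (PceOK par7 c1243605.VT) fc1243605101 := Tre.all_nd afc12436051010 afc12436051011

theorem afc124360510 : Tre.All (PceOK par7 c1243605.VT) fc124360510 := Tre.all_nd afc1243605100 afc1243605101

theorem afc12436051100 : Tre.All (PceOK par7 c1243605.VT) fc12436051100 := Tre.all_nd (Tre.all_nd (Tre.all_nd (Tre.all_nd (Tre.all_nd (Tre.all_nd (Tre.all_lf (batP_ok par7_ok wc1243605_3)) (Tre.all_lf (batP_ok par7_ok wc1243605_515))) (Tre.all_nd (Tre.all_lf (batP_ok par7_ok wc1243605_259)) (Tre.all_lf (batP_ok par7_ok wc1243605_771)))) (Tre.all_nd (Tre.all_nd (Tre.all_lf (batP_ok par7_ok wc1243605_131)) (Tre.all_lf (batP_ok par7_ok wc1243605_643))) (Tre.all_nd (Tre.all_lf (batP_ok par7_ok wc1243605_387)) (Tre.all_lf (batP_ok par7_ok wc1243605_899))))) (Tre.all_nd (Tre.all_nd (Tre.all_nd (Tre.all_lf (batP_ok par7_ok wc1243605_67)) (Tre.all_lf (batP_ok par7_ok wc1243605_579))) (Tre.all_nd (Tre.all_lf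 (batP_ok par7_ok wc1243605_323)) (Tre.all_lf (batP_ok par7_ok wc1243605_835)))) (Tre.all_nd (Tre.all_nd (Tre.all_lf (batP_ok par7_ok wc1243605_195)) (Tre.all_lf (batP_ok par7_ok wc1243605_707))) (Tre.all_lf (batP_ok par7_ok wc1243605_451))))) (Tre.all_nd (Tre.all_nd (Tre.all_nd (Tre.all_nd (Tre.all_lf (batP_ok par7_ok wc1243605_35)) (Tre.all_lf (batP_ok par7_ok wc1243605_547))) (Tre.all_nd (Tre.all_lf (batP_ok par7_ok wc1243605_291)) (Tre.all_lf (batP_ok par7_ok wc1243605_803)))) (Tre.all_nd (Tre.all_nd (Tre.all_lf (batP_ok par7_ok wc1243605_163)) (Tre.all_lf (batP_ok par7_ok wc1243605_675))) (Tre.all_nd (Tre.all_lf (batP_ok par7_ok wc1243605_419)) (Tre.all_lf (batP_ok par7_ok wc1243605_931))))) (Tre.all_nd (Tre.all_nd (Tre.all_nd (Tre.all_lf (batP_ok par7_ok wc1243605_99)) (Tre.all_lf (batP_ok par7_ok wc1243605_611))) (Tre.all_nd (Tre.all_lf (batP_ok par7_ok wc1243605_355)) (Tre.all_lf (batP_ok par7_ok wc1243605_867))))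 (Tre.all_nd (Tre.all_nd (Tre.all_lf (batP_ok par7_ok wc1243605_227)) (Tre.all_lf (batP_ok par7_ok wc1243605_739))) (Tre.all_lf (batP_ok par7_ok wc1243605_483)))))) (Tre.all_nd (Tre.all_nd (Tre.all_nd (Tre.all_nd (Tre.all_nd (Tre.all_lf (batP_ok par7_ok wc1243605_19)) (Tre.all_lf (batP_ok par7_ok wc1243605_531))) (Tre.all_nd (Tre.all_lf (batP_ok par7_ok wc1243605_275)) (Tre.all_lf (batP_ok par7_ok wc1243605_787)))) (Tre.all_nd (Tre.all_nd (Tre.all_lf (batP_ok par7_ok wc1243605_147)) (Tre.all_lf (batP_ok par7_ok wc1243605_659))) (Tre.all_nd (Tre.all_lf (batP_ok par7_ok wc1243605_403)) (Tre.all_lf (batP_ok par7_ok wc1243605_915))))) (Tre.all_nd (Tre.all_nd (Tre.all_nd (Tre.all_lf (batP_ok par7_ok wc1243605_83)) (Tre.all_lf (batP_ok par7_ok wc1243605_595))) (Tre.all_nd (Tre.all_lf (batP_ok par7_ok wc1243605_339)) (Tre.all_lf (batP_ok par7_ok wc1243605_851)))) (Tre.all_nd (Tre.all_nd (Tre.all_lf (batP_ok par7_ok wc1243605_211))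 (Tre.all_lf (batP_ok par7_ok wc1243605_723))) (Tre.all_lf (batP_ok par7_ok wc1243605_467))))) (Tre.all_nd (Tre.all_nd (Tre.all_nd (Tre.all_nd (Tre.all_lf (batP_ok par7_ok wc1243605_51)) (Tre.all_lf (batP_ok par7_ok wc1243605_563))) (Tre.all_nd (Tre.all_lf (batP_ok par7_ok wc1243605_307)) (Tre.all_lf (batP_ok par7_ok wc1243605_819)))) (Tre.all_nd (Tre.all_nd (Tre.all_lf (batP_ok par7_ok wc1243605_179)) (Tre.all_lf (batP_ok par7_ok wc1243605_691))) (Tre.all_lf (batP_ok par7_ok wc1243605_435)))) (Tre.all_nd (Tre.all_nd (Tre.all_nd (Tre.all_lf (batP_ok par7_ok wc1243605_115)) (Tre.all_lf (batP_ok par7_ok wc1243605_627))) (Tre.all_nd (Tre.all_lf (batP_ok par7_ok wc1243605_371)) (Tre.all_lf (batP_ok par7_ok wc1243605_883)))) (Tre.all_nd (Tre.all_nd (Tre.all_lf (batP_ok par7_ok wc1243605_243)) (Tre.all_lf (batP_ok par7_ok wc1243605_755))) (Tre.all_lf (batP_ok par7_ok wc1243605_499))))))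

theorem afc12436051101 : Tre.All (PceOK par7 c1243605.VT) fc12436051101 := Tre.all_nd (Tre.all_nd (Tre.all_nd (Tre.all_nd (Tre.all_nd (Tre.all_nd (Tre.all_lf (batP_ok par7_ok wc1243605_11)) (Tre.all_lf (batP_ok par7_ok wc1243605_523))) (Tre.all_nd (Tre.all_lf (batP_ok par7_ok wc1243605_267)) (Tre.all_lf (batP_ok par7_ok wc1243605_779)))) (Tre.all_nd (Tre.all_nd (Tre.all_lf (batP_ok par7_ok wc1243605_139)) (Tre.all_lf (batP_ok par7_ok wc1243605_651))) (Tre.all_nd (Tre.all_lf (batP_ok par7_ok wc1243605_395)) (Tre.all_lf (batP_ok par7_ok wc1243605_907))))) (Tre.all_nd (Tre.all_nd (Tre.all_nd (Tre.all_lf (batP_ok par7_ok wc1243605_75)) (Tre.all_lf (batP_ok par7_ok wc1243605_587))) (Tre.all_nd (Tre.all_lf (batP_ok par7_ok wc1243605_331)) (Tre.all_lf (batP_ok par7_ok wc1243605_843)))) (Tre.all_nd (Tre.all_nd (Tre.all_lf (batP_ok par7_ok wc1243605_203)) (Tre.all_lf (batP_ok par7_ok wc1243605_715))) (Tre.all_lf (batP_ok par7_ok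 wc1243605_459))))) (Tre.all_nd (Tre.all_nd (Tre.all_nd (Tre.all_nd (Tre.all_lf (batP_ok par7_ok wc1243605_43)) (Tre.all_lf (batP_ok par7_ok wc1243605_555))) (Tre.all_nd (Tre.all_lf (batP_ok par7_ok wc1243605_299)) (Tre.all_lf (batP_ok par7_ok wc1243605_811)))) (Tre.all_nd (Tre.all_nd (Tre.all_lf (batP_ok par7_ok wc1243605_171)) (Tre.all_lf (batP_ok par7_ok wc1243605_683))) (Tre.all_lf (batP_ok par7_ok wc1243605_427)))) (Tre.all_nd (Tre.all_nd (Tre.all_nd (Tre.all_lf (batP_ok par7_ok wc1243605_107)) (Tre.all_lf (batP_ok par7_ok wc1243605_619))) (Tre.all_nd (Tre.all_lf (batP_ok par7_ok wc1243605_363)) (Tre.all_lf (batP_ok par7_ok wc1243605_875)))) (Tre.all_nd (Tre.all_nd (Tre.all_lf (batP_ok par7_ok wc1243605_235)) (Tre.all_lf (batP_ok par7_ok wc1243605_747))) (Tre.all_lf (batP_ok par7_ok wc1243605_491)))))) (Tre.all_nd (Tre.all_nd (Tre.all_nd (Tre.all_nd (Tre.all_nd (Tre.all_lf (batP_ok par7_ok wc1243605_27)) (Tre.all_lf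 (batP_ok par7_ok wc1243605_539))) (Tre.all_nd (Tre.all_lf (batP_ok par7_ok wc1243605_283)) (Tre.all_lf (batP_ok par7_ok wc1243605_795)))) (Tre.all_nd (Tre.all_nd (Tre.all_lf (batP_ok par7_ok wc1243605_155)) (Tre.all_lf (batP_ok par7_ok wc1243605_667))) (Tre.all_nd (Tre.all_lf (batP_ok par7_ok wc1243605_411)) (Tre.all_lf (batP_ok par7_ok wc1243605_923))))) (Tre.all_nd (Tre.all_nd (Tre.all_nd (Tre.all_lf (batP_ok par7_ok wc1243605_91)) (Tre.all_lf (batP_ok par7_ok wc1243605_603))) (Tre.all_nd (Tre.all_lf (batP_ok par7_ok wc1243605_347)) (Tre.all_lf (batP_ok par7_ok wc1243605_859)))) (Tre.all_nd (Tre.all_nd (Tre.all_lf (batP_ok par7_ok wc1243605_219)) (Tre.all_lf (batP_ok par7_ok wc1243605_731))) (Tre.all_lf (batP_ok par7_ok wc1243605_475))))) (Tre.all_nd (Tre.all_nd (Tre.all_nd (Tre.all_nd (Tre.all_lf (batP_ok par7_ok wc1243605_59)) (Tre.all_lf (batP_ok par7_ok wc1243605_571))) (Tre.all_nd (Tre.all_lf (batP_ok par7_ok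 wc1243605_315)) (Tre.all_lf (batP_ok par7_ok wc1243605_827)))) (Tre.all_nd (Tre.all_nd (Tre.all_lf (batP_ok par7_ok wc1243605_187)) (Tre.all_lf (batP_ok par7_ok wc1243605_699))) (Tre.all_lf (batP_ok par7_ok wc1243605_443)))) (Tre.all_nd (Tre.all_nd (Tre.all_nd (Tre.all_lf (batP_ok par7_ok wc1243605_123)) (Tre.all_lf (batP_ok par7_ok wc1243605_635))) (Tre.all_nd (Tre.all_lf (batP_ok par7_ok wc1243605_379)) (Tre.all_lf (batP_ok par7_ok wc1243605_891)))) (Tre.all_nd (Tre.all_nd (Tre.all_lf (batP_ok par7_ok wc1243605_251)) (Tre.all_lf (batP_ok par7_ok wc1243605_763))) (Tre.all_lf (batP_ok par7_ok wc1243605_507))))))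

theorem afc1243605110 : Tre.All (PceOK par7 c1243605.VT) fc1243605110 := Tre.all_nd afc12436051100 afc12436051101

theorem afc12436051110 : Tre.All (PceOK par7 c1243605.VT) fc12436051110 := Tre.all_nd (Tre.all_nd (Tre.all_nd (Tre.all_nd (Tre.all_nd (Tre.all_nd (Tre.all_lf (batP_ok par7_ok wc1243605_7)) (Tre.all_lf (batP_ok par7_ok wc1243605_519))) (Tre.all_nd (Tre.all_lf (batP_ok par7_ok wc1243605_263)) (Tre.all_lf (batP_ok par7_ok wc1243605_775)))) (Tre.all_nd (Tre.all_nd (Tre.all_lf (batP_ok par7_ok wc1243605_135)) (Tre.all_lf (batP_ok par7_ok wc1243605_647))) (Tre.all_nd (Tre.all_lf (batP_ok par7_ok wc1243605_391)) (Tre.all_lf (batP_ok par7_ok wc1243605_903))))) (Tre.all_nd (Tre.all_nd (Tre.all_nd (Tre.all_lf (batP_ok par7_ok wc1243605_71)) (Tre.all_lf (batP_ok par7_ok wc1243605_583))) (Tre.all_nd (Tre.all_lf (batP_ok par7_ok wc1243605_327)) (Tre.all_lf (batP_ok par7_ok wc1243605_839)))) (Tre.all_nd (Tre.all_nd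 (Tre.all_lf (batP_ok par7_ok wc1243605_199)) (Tre.all_lf (batP_ok par7_ok wc1243605_711))) (Tre.all_lf (batP_ok par7_ok wc1243605_455))))) (Tre.all_nd (Tre.all_nd (Tre.all_nd (Tre.all_nd (Tre.all_lf (batP_ok par7_ok wc1243605_39)) (Tre.all_lf (batP_ok par7_ok wc1243605_551))) (Tre.all_nd (Tre.all_lf (batP_ok par7_ok wc1243605_295)) (Tre.all_lf (batP_ok par7_ok wc1243605_807)))) (Tre.all_nd (Tre.all_nd (Tre.all_lf (batP_ok par7_ok wc1243605_167)) (Tre.all_lf (batP_ok par7_ok wc1243605_679))) (Tre.all_nd (Tre.all_lf (batP_ok par7_ok wc1243605_423)) (Tre.all_lf (batP_ok par7_ok wc1243605_935))))) (Tre.all_nd (Tre.all_nd (Tre.all_nd (Tre.all_lf (batP_ok par7_ok wc1243605_103)) (Tre.all_lf (batP_ok par7_ok wc1243605_615))) (Tre.all_nd (Tre.all_lf (batP_ok par7_ok wc1243605_359)) (Tre.all_lf (batP_ok par7_ok wc1243605_871)))) (Tre.all_nd (Tre.all_nd (Tre.all_lf (batP_ok par7_ok wc1243605_231)) (Tre.all_lf (batP_ok par7_ok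 wc1243605_743))) (Tre.all_lf (batP_ok par7_ok wc1243605_487)))))) (Tre.all_nd (Tre.all_nd (Tre.all_nd (Tre.all_nd (Tre.all_nd (Tre.all_lf (batP_ok par7_ok wc1243605_23)) (Tre.all_lf (batP_ok par7_ok wc1243605_535))) (Tre.all_nd (Tre.all_lf (batP_ok par7_ok wc1243605_279)) (Tre.all_lf (batP_ok par7_ok wc1243605_791)))) (Tre.all_nd (Tre.all_nd (Tre.all_lf (batP_ok par7_ok wc1243605_151)) (Tre.all_lf (batP_ok par7_ok wc1243605_663))) (Tre.all_nd (Tre.all_lf (batP_ok par7_ok wc1243605_407)) (Tre.all_lf (batP_ok par7_ok wc1243605_919))))) (Tre.all_nd (Tre.all_nd (Tre.all_nd (Tre.all_lf (batP_ok par7_ok wc1243605_87)) (Tre.all_lf (batP_ok par7_ok wc1243605_599))) (Tre.all_nd (Tre.all_lf (batP_ok par7_ok wc1243605_343)) (Tre.all_lf (batP_ok par7_ok wc1243605_855)))) (Tre.all_nd (Tre.all_nd (Tre.all_lf (batP_ok par7_ok wc1243605_215)) (Tre.all_lf (batP_ok par7_ok wc1243605_727))) (Tre.all_lf (batP_ok par7_ok wc1243605_471)))))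 (Tre.all_nd (Tre.all_nd (Tre.all_nd (Tre.all_nd (Tre.all_lf (batP_ok par7_ok wc1243605_55)) (Tre.all_lf (batP_ok par7_ok wc1243605_567))) (Tre.all_nd (Tre.all_lf (batP_ok par7_ok wc1243605_311)) (Tre.all_lf (batP_ok par7_ok wc1243605_823)))) (Tre.all_nd (Tre.all_nd (Tre.all_lf (batP_ok par7_ok wc1243605_183)) (Tre.all_lf (batP_ok par7_ok wc1243605_695))) (Tre.all_lf (batP_ok par7_ok wc1243605_439)))) (Tre.all_nd (Tre.all_nd (Tre.all_nd (Tre.all_lf (batP_ok par7_ok wc1243605_119)) (Tre.all_lf (batP_ok par7_ok wc1243605_631))) (Tre.all_nd (Tre.all_lf (batP_ok par7_ok wc1243605_375)) (Tre.all_lf (batP_ok par7_ok wc1243605_887)))) (Tre.all_nd (Tre.all_nd (Tre.all_lf (batP_ok par7_ok wc1243605_247)) (Tre.all_lf (batP_ok par7_ok wc1243605_759))) (Tre.all_lf (batP_ok par7_ok wc1243605_503))))))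

theorem afc12436051111 : Tre.All (PceOK par7 c1243605.VT) fc12436051111 := Tre.all_nd (Tre.all_nd (Tre.all_nd (Tre.all_nd (Tre.all_nd (Tre.all_nd (Tre.all_lf (batP_ok par7_ok wc1243605_15)) (Tre.all_lf (batP_ok par7_ok wc1243605_527))) (Tre.all_nd (Tre.all_lf (batP_ok par7_ok wc1243605_271)) (Tre.all_lf (batP_ok par7_ok wc1243605_783)))) (Tre.all_nd (Tre.all_nd (Tre.all_lf (batP_ok par7_ok wc1243605_143)) (Tre.all_lf (batP_ok par7_ok wc1243605_655))) (Tre.all_nd (Tre.all_lf (batP_ok par7_ok wc1243605_399)) (Tre.all_lf (batP_ok par7_ok wc1243605_911))))) (Tre.all_nd (Tre.all_nd (Tre.all_nd (Tre.all_lf (batP_ok par7_ok wc1243605_79)) (Tre.all_lf (batP_ok par7_ok wc1243605_591))) (Tre.all_nd (Tre.all_lf (batP_ok par7_ok wc1243605_335)) (Tre.all_lf (batP_ok par7_ok wc1243605_847)))) (Tre.all_nd (Tre.all_nd (Tre.all_lf (batP_ok par7_ok wc1243605_207)) (Tre.all_lf (batP_ok par7_ok wc1243605_719))) (Tre.all_lf (batP_ok par7_ok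 wc1243605_463))))) (Tre.all_nd (Tre.all_nd (Tre.all_nd (Tre.all_nd (Tre.all_lf (batP_ok par7_ok wc1243605_47)) (Tre.all_lf (batP_ok par7_ok wc1243605_559))) (Tre.all_nd (Tre.all_lf (batP_ok par7_ok wc1243605_303)) (Tre.all_lf (batP_ok par7_ok wc1243605_815)))) (Tre.all_nd (Tre.all_nd (Tre.all_lf (batP_ok par7_ok wc1243605_175)) (Tre.all_lf (batP_ok par7_ok wc1243605_687))) (Tre.all_lf (batP_ok par7_ok wc1243605_431)))) (Tre.all_nd (Tre.all_nd (Tre.all_nd (Tre.all_lf (batP_ok par7_ok wc1243605_111)) (Tre.all_lf (batP_ok par7_ok wc1243605_623))) (Tre.all_nd (Tre.all_lf (batP_ok par7_ok wc1243605_367)) (Tre.all_lf (batP_ok par7_ok wc1243605_879)))) (Tre.all_nd (Tre.all_nd (Tre.all_lf (batP_ok par7_ok wc1243605_239)) (Tre.all_lf (batP_ok par7_ok wc1243605_751))) (Tre.all_lf (batP_ok par7_ok wc1243605_495)))))) (Tre.all_nd (Tre.all_nd (Tre.all_nd (Tre.all_nd (Tre.all_nd (Tre.all_lf (batP_ok par7_ok wc1243605_31)) (Tre.all_lf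 (batP_ok par7_ok wc1243605_543))) (Tre.all_nd (Tre.all_lf (batP_ok par7_ok wc1243605_287)) (Tre.all_lf (batP_ok par7_ok wc1243605_799)))) (Tre.all_nd (Tre.all_nd (Tre.all_lf (batP_ok par7_ok wc1243605_159)) (Tre.all_lf (batP_ok par7_ok wc1243605_671))) (Tre.all_nd (Tre.all_lf (batP_ok par7_ok wc1243605_415)) (Tre.all_lf (batP_ok par7_ok wc1243605_927))))) (Tre.all_nd (Tre.all_nd (Tre.all_nd (Tre.all_lf (batP_ok par7_ok wc1243605_95)) (Tre.all_lf (batP_ok par7_ok wc1243605_607))) (Tre.all_nd (Tre.all_lf (batP_ok par7_ok wc1243605_351)) (Tre.all_lf (batP_ok par7_ok wc1243605_863)))) (Tre.all_nd (Tre.all_nd (Tre.all_lf (batP_ok par7_ok wc1243605_223)) (Tre.all_lf (batP_ok par7_ok wc1243605_735))) (Tre.all_lf (batP_ok par7_ok wc1243605_479))))) (Tre.all_nd (Tre.all_nd (Tre.all_nd (Tre.all_nd (Tre.all_lf (batP_ok par7_ok wc1243605_63)) (Tre.all_lf (batP_ok par7_ok wc1243605_575))) (Tre.all_nd (Tre.all_lf (batP_ok par7_ok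 wc1243605_319)) (Tre.all_lf (batP_ok par7_ok wc1243605_831)))) (Tre.all_nd (Tre.all_nd (Tre.all_lf (batP_ok par7_ok wc1243605_191)) (Tre.all_lf (batP_ok par7_ok wc1243605_703))) (Tre.all_lf (batP_ok par7_ok wc1243605_447)))) (Tre.all_nd (Tre.all_nd (Tre.all_nd (Tre.all_lf (batP_ok par7_ok wc1243605_127)) (Tre.all_lf (batP_ok par7_ok wc1243605_639))) (Tre.all_nd (Tre.all_lf (batP_ok par7_ok wc1243605_383)) (Tre.all_lf (batP_ok par7_ok wc1243605_895)))) (Tre.all_nd (Tre.all_nd (Tre.all_lf (batP_ok par7_ok wc1243605_255)) (Tre.all_lf (batP_ok par7_ok wc1243605_767))) (Tre.all_lf (batP_ok par7_ok wc1243605_511))))))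

theorem afc1243605111 : Tre.All (PceOK par7 c1243605.VT) fc1243605111 := Tre.all_nd afc12436051110 afc12436051111

theorem afc124360511 : Tre.All (PceOK par7 c1243605.VT) fc124360511 := Tre.all_nd afc1243605110 afc1243605111

theorem afc12436051 : Tre.All (PceOK par7 c1243605.VT) fc12436051 := Tre.all_nd afc124360510 afc124360511

theorem afc1243605 : Tre.All (PceOK par7 c1243605.VT) fc1243605 := Tre.all_nd afc12436050 afc12436051

theorem rac1243605_0 : RA c1243605 fc1243605 0 := ra_zero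

theorem rac1243605_32 : RA c1243605 fc1243605 32 := ra_rng rac1243605_0 ec1243605_0

theorem rac1243605_66 : RA c1243605 fc1243605 66 := ra_rng rac1243605_32 ec1243605_32

theorem rac1243605_71 : RA c1243605 fc1243605 71 := ra_rng rac1243605_66 ec1243605_66

theorem rac1243605_74 : RA c1243605 fc1243605 74 := ra_rng rac1243605_71 ec1243605_71

theorem rac1243605_81 : RA c1243605 fc1243605 81 := ra_rng rac1243605_74 ec1243605_74

theorem rac1243605_83 : RA c1243605 fc1243605 83 := ra_rng rac1243605_81 ec1243605_81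

theorem rac1243605_89 : RA c1243605 fc1243605 89 := ra_rng rac1243605_83 ec1243605_83

theorem rac1243605_98 : RA c1243605 fc1243605 98 := ra_rng rac1243605_89 ec1243605_89

theorem rac1243605_104 : RA c1243605 fc1243605 104 := ra_rng rac1243605_98 ec1243605_98

theorem rac1243605_110 : RA c1243605 fc1243605 110 := ra_rng rac1243605_104 ec1243605_104

theorem rac1243605_116 : RA c1243605 fc1243605 116 := ra_rng rac1243605_110 ec1243605_110

theorem rac1243605_122 : RA c1243605 fc1243605 122 := ra_rng rac1243605_116 ec1243605_116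

theorem rac1243605_128 : RA c1243605 fc1243605 128 := ra_rng rac1243605_122 ec1243605_122

theorem rac1243605_138 : RA c1243605 fc1243605 138 := ra_rng rac1243605_128 ec1243605_128

theorem rac1243605_147 : RA c1243605 fc1243605 147 := ra_rng rac1243605_138 ec1243605_138

theorem rac1243605_160 : RA c1243605 fc1243605 160 := ra_rng rac1243605_147 ec1243605_147

theorem rac1243605_165 : RA c1243605 fc1243605 165 := ra_rng rac1243605_160 ec1243605_160

theorem rac1243605_175 : RA c1243605 fc1243605 175 := ra_rng rac1243605_165 ec1243605_165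

theorem rac1243605_181 : RA c1243605 fc1243605 181 := ra_rng rac1243605_175 ec1243605_175

theorem rac1243605_187 : RA c1243605 fc1243605 187 := ra_rng rac1243605_181 ec1243605_181

theorem rac1243605_194 : RA c1243605 fc1243605 194 := ra_rng rac1243605_187 ec1243605_187

theorem rac1243605_200 : RA c1243605 fc1243605 200 := ra_rng rac1243605_194 ec1243605_194

theorem rac1243605_207 : RA c1243605 fc1243605 207 := ra_rng rac1243605_200 ec1243605_200

theorem rac1243605_217 : RA c1243605 fc1243605 217 := ra_rng rac1243605_207 ec1243605_207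

theorem rac1243605_228 : RA c1243605 fc1243605 228 := ra_rng rac1243605_217 ec1243605_217

theorem rac1243605_234 : RA c1243605 fc1243605 234 := ra_rng rac1243605_228 ec1243605_228

theorem rac1243605_249 : RA c1243605 fc1243605 249 := ra_rng rac1243605_234 ec1243605_234

theorem rac1243605_258 : RA c1243605 fc1243605 258 := ra_rng rac1243605_249 ec1243605_249

theorem rac1243605_273 : RA c1243605 fc1243605 273 := ra_rng rac1243605_258 ec1243605_258

theorem rac1243605_294 : RA c1243605 fc1243605 294 := ra_rng rac1243605_273 ec1243605_273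

theorem rac1243605_314 : RA c1243605 fc1243605 314 := ra_rng rac1243605_294 ec1243605_294

theorem rac1243605_331 : RA c1243605 fc1243605 331 := ra_rng rac1243605_314 ec1243605_314

theorem rac1243605_347 : RA c1243605 fc1243605 347 := ra_rng rac1243605_331 ec1243605_331

theorem rac1243605_364 : RA c1243605 fc1243605 364 := ra_rng rac1243605_347 ec1243605_347

theorem rac1243605_389 : RA c1243605 fc1243605 389 := ra_rng rac1243605_364 ec1243605_364

theorem rac1243605_429 : RA c1243605 fc1243605 429 := ra_rng rac1243605_389 ec1243605_389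

theorem rac1243605_448 : RA c1243605 fc1243605 448 := ra_rng rac1243605_429 ec1243605_429

theorem rac1243605_463 : RA c1243605 fc1243605 463 := ra_rng rac1243605_448 ec1243605_448

theorem rac1243605_491 : RA c1243605 fc1243605 491 := ra_rng rac1243605_463 ec1243605_463

theorem rac1243605_544 : RA c1243605 fc1243605 544 := ra_rng rac1243605_491 ec1243605_491

theorem rac1243605_570 : RA c1243605 fc1243605 570 := ra_rng rac1243605_544 ec1243605_544

theorem rac1243605_594 : RA c1243605 fc1243605 594 := ra_rng rac1243605_570 ec1243605_570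

theorem rac1243605_636 : RA c1243605 fc1243605 636 := ra_rng rac1243605_594 ec1243605_594

theorem rac1243605_712 : RA c1243605 fc1243605 712 := ra_rng rac1243605_636 ec1243605_636

theorem rac1243605_869 : RA c1243605 fc1243605 869 := ra_rng rac1243605_712 ec1243605_712

theorem rac1243605_938 : RA c1243605 fc1243605 938 := ra_rng rac1243605_869 ec1243605_869

theorem kc1243605 : clsOK par7.d c1243605 = true := by decide +kernel

theorem dead_c1243605 : ClsD par7 c1243605 := clsD_of kc1243605 afc1243605 rac1243605_938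

end Pool.Agent.RTX
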