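import Pool.Agent.RTS7.W_1254360_0
import Pool.Agent.RTS7.E_1254360_0

/-!
# RTS7: class of the permutation 1254360
-/

set_option autoImplicit false
set_option maxRecDepth 100000

namespace Pool.Agent.RTX

theorem afc125436000 : Tre.All (PceOK par7 c1254360.VT) fc125436000 := Tre.all_nd (Tre.all_nd (Tre.all_nd (Tre.all_nd (Tre.all_nd (Tre.all_nd (Tre.all_lf (batP_ok par7_ok wc1254360_0)) (Tre.all_lf (batP_ok par7_ok wc1254360_128))) (Tre.all_lf (batP_ok par7_ok wc1254360_64))) (Tre.all_nd (Tre.all_lf (batP_ok par7_ok wc1254360_32)) (Tre.all_lf (batP_ok par7_ok wc1254360_96)))) (Tre.all_nd (Tre.all_nd (Tre.all_lf (batP_ok par7_ok wc1254360_16)) (Tre.all_lf (batP_ok par7_ok wc1254360_80))) (Tre.all_nd (Tre.all_lf (batP_ok par7_ok wc1254360_48)) (Tre.all_lf (batP_ok par7_ok wc1254360_112))))) (Tre.all_nd (Tre.all_nd (Tre.all_nd (Tre.all_nd (Tre.all_lf (batP_ok par7_ok wc1254360_8)) (Tre.all_lf (batP_ok par7_ok wc1254360_136)))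 (Tre.all_lf (batP_ok par7_ok wc1254360_72))) (Tre.all_nd (Tre.all_lf (batP_ok par7_ok wc1254360_40)) (Tre.all_lf (batP_ok par7_ok wc1254360_104)))) (Tre.all_nd (Tre.all_nd (Tre.all_lf (batP_ok par7_ok wc1254360_24)) (Tre.all_lf (batP_ok par7_ok wc1254360_88))) (Tre.all_nd (Tre.all_lf (batP_ok par7_ok wc1254360_56)) (Tre.all_lf (batP_ok par7_ok wc1254360_120)))))) (Tre.all_nd (Tre.all_nd (Tre.all_nd (Tre.all_nd (Tre.all_nd (Tre.all_lf (batP_ok par7_ok wc1254360_4)) (Tre.all_lf (batP_ok par7_ok wc1254360_132))) (Tre.all_lf (batP_ok par7_ok wc1254360_68))) (Tre.all_nd (Tre.all_lf (batP_ok par7_ok wc1254360_36)) (Tre.all_lf (batP_ok par7_ok wc1254360_100)))) (Tre.all_nd (Tre.all_nd (Tre.all_lf (batP_ok par7_ok wc1254360_20)) (Tre.all_lf (batP_ok par7_ok wc1254360_84))) (Tre.all_nd (Tre.all_lf (batP_ok par7_ok wc1254360_52)) (Tre.all_lf (batP_ok par7_ok wc1254360_116))))) (Tre.all_nd (Tre.all_nd (Tre.all_nd (Tre.all_lf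 (batP_ok par7_ok wc1254360_12)) (Tre.all_lf (batP_ok par7_ok wc1254360_76))) (Tre.all_nd (Tre.all_lf (batP_ok par7_ok wc1254360_44)) (Tre.all_lf (batP_ok par7_ok wc1254360_108)))) (Tre.all_nd (Tre.all_nd (Tre.all_lf (batP_ok par7_ok wc1254360_28)) (Tre.all_lf (batP_ok par7_ok wc1254360_92))) (Tre.all_nd (Tre.all_lf (batP_ok par7_ok wc1254360_60)) (Tre.all_lf (batP_ok par7_ok wc1254360_124))))))

theorem afc125436001 : Tre.All (PceOK par7 c1254360.VT) fc125436001 := Tre.all_nd (Tre.all_nd (Tre.all_nd (Tre.all_nd (Tre.all_nd (Tre.all_nd (Tre.all_lf (batP_ok par7_ok wc1254360_2)) (Tre.all_lf (batP_ok par7_ok wc1254360_130))) (Tre.all_lf (batP_ok par7_ok wc1254360_66))) (Tre.all_nd (Tre.all_lf (batP_ok par7_ok wc1254360_34)) (Tre.all_lf (batP_ok par7_ok wc1254360_98)))) (Tre.all_nd (Tre.all_nd (Tre.all_lf (batP_ok par7_ok wc1254360_18)) (Tre.all_lf (batP_ok par7_ok wc1254360_82))) (Tre.all_nd (Tre.all_lf (batP_ok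 par7_ok wc1254360_50)) (Tre.all_lf (batP_ok par7_ok wc1254360_114))))) (Tre.all_nd (Tre.all_nd (Tre.all_nd (Tre.all_nd (Tre.all_lf (batP_ok par7_ok wc1254360_10)) (Tre.all_lf (batP_ok par7_ok wc1254360_138))) (Tre.all_lf (batP_ok par7_ok wc1254360_74))) (Tre.all_nd (Tre.all_lf (batP_ok par7_ok wc1254360_42)) (Tre.all_lf (batP_ok par7_ok wc1254360_106)))) (Tre.all_nd (Tre.all_nd (Tre.all_lf (batP_ok par7_ok wc1254360_26)) (Tre.all_lf (batP_ok par7_ok wc1254360_90))) (Tre.all_nd (Tre.all_lf (batP_ok par7_ok wc1254360_58)) (Tre.all_lf (batP_ok par7_ok wc1254360_122)))))) (Tre.all_nd (Tre.all_nd (Tre.all_nd (Tre.all_nd (Tre.all_nd (Tre.all_lf (batP_ok par7_ok wc1254360_6)) (Tre.all_lf (batP_ok par7_ok wc1254360_134))) (Tre.all_lf (batP_ok par7_ok wc1254360_70))) (Tre.all_nd (Tre.all_lf (batP_ok par7_ok wc1254360_38)) (Tre.all_lf (batP_ok par7_ok wc1254360_102)))) (Tre.all_nd (Tre.all_nd (Tre.all_lf (batP_ok par7_ok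 wc1254360_22)) (Tre.all_lf (batP_ok par7_ok wc1254360_86))) (Tre.all_nd (Tre.all_lf (batP_ok par7_ok wc1254360_54)) (Tre.all_lf (batP_ok par7_ok wc1254360_118))))) (Tre.all_nd (Tre.all_nd (Tre.all_nd (Tre.all_lf (batP_ok par7_ok wc1254360_14)) (Tre.all_lf (batP_ok par7_ok wc1254360_78))) (Tre.all_nd (Tre.all_lf (batP_ok par7_ok wc1254360_46)) (Tre.all_lf (batP_ok par7_ok wc1254360_110)))) (Tre.all_nd (Tre.all_nd (Tre.all_lf (batP_ok par7_ok wc1254360_30)) (Tre.all_lf (batP_ok par7_ok wc1254360_94))) (Tre.all_nd (Tre.all_lf (batP_ok par7_ok wc1254360_62)) (Tre.all_lf (batP_ok par7_ok wc1254360_126))))))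

theorem afc12543600 : Tre.All (PceOK par7 c1254360.VT) fc12543600 := Tre.all_nd afc125436000 afc125436001

theorem afc125436010 : Tre.All (PceOK par7 c1254360.VT) fc125436010 := Tre.all_nd (Tre.all_nd (Tre.all_nd (Tre.all_nd (Tre.all_nd (Tre.all_nd (Tre.all_lf (batP_ok par7_ok wc1254360_1)) (Tre.all_lf (batP_ok par7_ok wc1254360_129))) (Tre.all_lf (batP_ok par7_ok wc1254360_65))) (Tre.all_nd (Tre.all_lf (batP_ok par7_ok wc1254360_33)) (Tre.all_lf (batP_ok par7_ok wc1254360_97)))) (Tre.all_nd (Tre.all_nd (Tre.all_lf (batP_ok par7_ok wc1254360_17)) (Tre.all_lf (batP_ok par7_ok wc1254360_81))) (Tre.all_nd (Tre.all_lf (batP_ok par7_ok wc1254360_49)) (Tre.all_lf (batP_ok par7_ok wc1254360_113))))) (Tre.all_nd (Tre.all_nd (Tre.all_nd (Tre.all_nd (Tre.all_lf (batP_ok par7_ok wc1254360_9)) (Tre.all_lf (batP_ok par7_ok wc1254360_137))) (Tre.all_lf (batP_ok par7_ok wc1254360_73))) (Tre.all_nd (Tre.all_lf (batP_ok par7_ok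 wc1254360_41)) (Tre.all_lf (batP_ok par7_ok wc1254360_105)))) (Tre.all_nd (Tre.all_nd (Tre.all_lf (batP_ok par7_ok wc1254360_25)) (Tre.all_lf (batP_ok par7_ok wc1254360_89))) (Tre.all_nd (Tre.all_lf (batP_ok par7_ok wc1254360_57)) (Tre.all_lf (batP_ok par7_ok wc1254360_121)))))) (Tre.all_nd (Tre.all_nd (Tre.all_nd (Tre.all_nd (Tre.all_nd (Tre.all_lf (batP_ok par7_ok wc1254360_5)) (Tre.all_lf (batP_ok par7_ok wc1254360_133))) (Tre.all_lf (batP_ok par7_ok wc1254360_69))) (Tre.all_nd (Tre.all_lf (batP_ok par7_ok wc1254360_37)) (Tre.all_lf (batP_ok par7_ok wc1254360_101)))) (Tre.all_nd (Tre.all_nd (Tre.all_lf (batP_ok par7_ok wc1254360_21)) (Tre.all_lf (batP_ok par7_ok wc1254360_85))) (Tre.all_nd (Tre.all_lf (batP_ok par7_ok wc1254360_53)) (Tre.all_lf (batP_ok par7_ok wc1254360_117))))) (Tre.all_nd (Tre.all_nd (Tre.all_nd (Tre.all_lf (batP_ok par7_ok wc1254360_13)) (Tre.all_lf (batP_ok par7_ok wc1254360_77))) (Tre.all_nd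 (Tre.all_lf (batP_ok par7_ok wc1254360_45)) (Tre.all_lf (batP_ok par7_ok wc1254360_109)))) (Tre.all_nd (Tre.all_nd (Tre.all_lf (batP_ok par7_ok wc1254360_29)) (Tre.all_lf (batP_ok par7_ok wc1254360_93))) (Tre.all_nd (Tre.all_lf (batP_ok par7_ok wc1254360_61)) (Tre.all_lf (batP_ok par7_ok wc1254360_125))))))

theorem afc125436011 : Tre.All (PceOK par7 c1254360.VT) fc125436011 := Tre.all_nd (Tre.all_nd (Tre.all_nd (Tre.all_nd (Tre.all_nd (Tre.all_nd (Tre.all_lf (batP_ok par7_ok wc1254360_3)) (Tre.all_lf (batP_ok par7_ok wc1254360_131))) (Tre.all_lf (batP_ok par7_ok wc1254360_67))) (Tre.all_nd (Tre.all_lf (batP_ok par7_ok wc1254360_35)) (Tre.all_lf (batP_ok par7_ok wc1254360_99)))) (Tre.all_nd (Tre.all_nd (Tre.all_lf (batP_ok par7_ok wc1254360_19)) (Tre.all_lf (batP_ok par7_ok wc1254360_83))) (Tre.all_nd (Tre.all_lf (batP_ok par7_ok wc1254360_51)) (Tre.all_lf (batP_ok par7_ok wc1254360_115))))) (Tre.all_nd (Tre.all_nd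 (Tre.all_nd (Tre.all_nd (Tre.all_lf (batP_ok par7_ok wc1254360_11)) (Tre.all_lf (batP_ok par7_ok wc1254360_139))) (Tre.all_lf (batP_ok par7_ok wc1254360_75))) (Tre.all_nd (Tre.all_lf (batP_ok par7_ok wc1254360_43)) (Tre.all_lf (batP_ok par7_ok wc1254360_107)))) (Tre.all_nd (Tre.all_nd (Tre.all_lf (batP_ok par7_ok wc1254360_27)) (Tre.all_lf (batP_ok par7_ok wc1254360_91))) (Tre.all_nd (Tre.all_lf (batP_ok par7_ok wc1254360_59)) (Tre.all_lf (batP_ok par7_ok wc1254360_123)))))) (Tre.all_nd (Tre.all_nd (Tre.all_nd (Tre.all_nd (Tre.all_nd (Tre.all_lf (batP_ok par7_ok wc1254360_7)) (Tre.all_lf (batP_ok par7_ok wc1254360_135))) (Tre.all_lf (batP_ok par7_ok wc1254360_71))) (Tre.all_nd (Tre.all_lf (batP_ok par7_ok wc1254360_39)) (Tre.all_lf (batP_ok par7_ok wc1254360_103)))) (Tre.all_nd (Tre.all_nd (Tre.all_lf (batP_ok par7_ok wc1254360_23)) (Tre.all_lf (batP_ok par7_ok wc1254360_87))) (Tre.all_nd (Tre.all_lf (batP_ok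 par7_ok wc1254360_55)) (Tre.all_lf (batP_ok par7_ok wc1254360_119))))) (Tre.all_nd (Tre.all_nd (Tre.all_nd (Tre.all_lf (batP_ok par7_ok wc1254360_15)) (Tre.all_lf (batP_ok par7_ok wc1254360_79))) (Tre.all_nd (Tre.all_lf (batP_ok par7_ok wc1254360_47)) (Tre.all_lf (batP_ok par7_ok wc1254360_111)))) (Tre.all_nd (Tre.all_nd (Tre.all_lf (batP_ok par7_ok wc1254360_31)) (Tre.all_lf (batP_ok par7_ok wc1254360_95))) (Tre.all_nd (Tre.all_lf (batP_ok par7_ok wc1254360_63)) (Tre.all_lf (batP_ok par7_ok wc1254360_127))))))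

theorem afc12543601 : Tre.All (PceOK par7 c1254360.VT) fc12543601 := Tre.all_nd afc125436010 afc125436011

theorem afc1254360 : Tre.All (PceOK par7 c1254360.VT) fc1254360 := Tre.all_nd afc12543600 afc12543601

theorem rac1254360_0 : RA c1254360 fc1254360 0 := ra_zero

theorem rac1254360_28 : RA c1254360 fc1254360 28 := ra_rng rac1254360_0 ec1254360_0

theorem rac1254360_78 : RA c1254360 fc1254360 78 := ra_rng rac1254360_28 ec1254360_28

theorem rac1254360_140 : RA c1254360 fc1254360 140 := ra_rng rac1254360_78 ec1254360_78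

theorem kc1254360 : clsOK par7.d c1254360 = true := by decide +kernel

theorem dead_c1254360 : ClsD par7 c1254360 := clsD_of kc1254360 afc1254360 rac1254360_140

end Pool.Agent.RTX
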