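import Pool.Agent.RTS7.W_1304625_0
import Pool.Agent.RTS7.E_1304625_0

/-!
# RTS7: class of the permutation 1304625
-/

set_option autoImplicit false
set_option maxRecDepth 100000

namespace Pool.Agent.RTX

theorem afc1304625000 : Tre.All (PceOK par7 c1304625.VT) fc1304625000 := Tre.all_nd (Tre.all_nd (Tre.all_nd (Tre.all_nd (Tre.all_nd (Tre.all_nd (Tre.all_lf (batP_ok par7_ok wc1304625_0)) (Tre.all_lf (batP_ok par7_ok wc1304625_256))) (Tre.all_lf (batP_ok par7_ok wc1304625_128))) (Tre.all_nd (Tre.all_lf (batP_ok par7_ok wc1304625_64)) (Tre.all_lf (batP_ok par7_ok wc1304625_192)))) (Tre.all_nd (Tre.all_nd (Tre.all_lf (batP_ok par7_ok wc1304625_32)) (Tre.all_lf (batP_ok par7_ok wc1304625_160))) (Tre.all_nd (Tre.all_lf (batP_ok par7_ok wc1304625_96)) (Tre.all_lf (batP_ok par7_ok wc1304625_224))))) (Tre.all_nd (Tre.all_nd (Tre.all_nd (Tre.all_lf (batP_ok par7_ok wc1304625_16)) (Tre.all_lf (batP_ok par7_ok wc1304625_144)))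 (Tre.all_nd (Tre.all_lf (batP_ok par7_ok wc1304625_80)) (Tre.all_lf (batP_ok par7_ok wc1304625_208)))) (Tre.all_nd (Tre.all_nd (Tre.all_lf (batP_ok par7_ok wc1304625_48)) (Tre.all_lf (batP_ok par7_ok wc1304625_176))) (Tre.all_nd (Tre.all_lf (batP_ok par7_ok wc1304625_112)) (Tre.all_lf (batP_ok par7_ok wc1304625_240)))))) (Tre.all_nd (Tre.all_nd (Tre.all_nd (Tre.all_nd (Tre.all_lf (batP_ok par7_ok wc1304625_8)) (Tre.all_lf (batP_ok par7_ok wc1304625_136))) (Tre.all_nd (Tre.all_lf (batP_ok par7_ok wc1304625_72)) (Tre.all_lf (batP_ok par7_ok wc1304625_200)))) (Tre.all_nd (Tre.all_nd (Tre.all_lf (batP_ok par7_ok wc1304625_40)) (Tre.all_lf (batP_ok par7_ok wc1304625_168))) (Tre.all_nd (Tre.all_lf (batP_ok par7_ok wc1304625_104)) (Tre.all_lf (batP_ok par7_ok wc1304625_232))))) (Tre.all_nd (Tre.all_nd (Tre.all_nd (Tre.all_lf (batP_ok par7_ok wc1304625_24)) (Tre.all_lf (batP_ok par7_ok wc1304625_152))) (Tre.all_nd (Tre.all_lf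 (batP_ok par7_ok wc1304625_88)) (Tre.all_lf (batP_ok par7_ok wc1304625_216)))) (Tre.all_nd (Tre.all_nd (Tre.all_lf (batP_ok par7_ok wc1304625_56)) (Tre.all_lf (batP_ok par7_ok wc1304625_184))) (Tre.all_nd (Tre.all_lf (batP_ok par7_ok wc1304625_120)) (Tre.all_lf (batP_ok par7_ok wc1304625_248))))))

theorem afc1304625001 : Tre.All (PceOK par7 c1304625.VT) fc1304625001 := Tre.all_nd (Tre.all_nd (Tre.all_nd (Tre.all_nd (Tre.all_nd (Tre.all_nd (Tre.all_lf (batP_ok par7_ok wc1304625_4)) (Tre.all_lf (batP_ok par7_ok wc1304625_260))) (Tre.all_lf (batP_ok par7_ok wc1304625_132))) (Tre.all_nd (Tre.all_lf (batP_ok par7_ok wc1304625_68)) (Tre.all_lf (batP_ok par7_ok wc1304625_196)))) (Tre.all_nd (Tre.all_nd (Tre.all_lf (batP_ok par7_ok wc1304625_36)) (Tre.all_lf (batP_ok par7_ok wc1304625_164))) (Tre.all_nd (Tre.all_lf (batP_ok par7_ok wc1304625_100)) (Tre.all_lf (batP_ok par7_ok wc1304625_228))))) (Tre.all_nd (Tre.all_nd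 (Tre.all_nd (Tre.all_lf (batP_ok par7_ok wc1304625_20)) (Tre.all_lf (batP_ok par7_ok wc1304625_148))) (Tre.all_nd (Tre.all_lf (batP_ok par7_ok wc1304625_84)) (Tre.all_lf (batP_ok par7_ok wc1304625_212)))) (Tre.all_nd (Tre.all_nd (Tre.all_lf (batP_ok par7_ok wc1304625_52)) (Tre.all_lf (batP_ok par7_ok wc1304625_180))) (Tre.all_nd (Tre.all_lf (batP_ok par7_ok wc1304625_116)) (Tre.all_lf (batP_ok par7_ok wc1304625_244)))))) (Tre.all_nd (Tre.all_nd (Tre.all_nd (Tre.all_nd (Tre.all_lf (batP_ok par7_ok wc1304625_12)) (Tre.all_lf (batP_ok par7_ok wc1304625_140))) (Tre.all_nd (Tre.all_lf (batP_ok par7_ok wc1304625_76)) (Tre.all_lf (batP_ok par7_ok wc1304625_204)))) (Tre.all_nd (Tre.all_nd (Tre.all_lf (batP_ok par7_ok wc1304625_44)) (Tre.all_lf (batP_ok par7_ok wc1304625_172))) (Tre.all_nd (Tre.all_lf (batP_ok par7_ok wc1304625_108)) (Tre.all_lf (batP_ok par7_ok wc1304625_236))))) (Tre.all_nd (Tre.all_nd (Tre.all_nd (Tre.all_lf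 (batP_ok par7_ok wc1304625_28)) (Tre.all_lf (batP_ok par7_ok wc1304625_156))) (Tre.all_nd (Tre.all_lf (batP_ok par7_ok wc1304625_92)) (Tre.all_lf (batP_ok par7_ok wc1304625_220)))) (Tre.all_nd (Tre.all_nd (Tre.all_lf (batP_ok par7_ok wc1304625_60)) (Tre.all_lf (batP_ok par7_ok wc1304625_188))) (Tre.all_nd (Tre.all_lf (batP_ok par7_ok wc1304625_124)) (Tre.all_lf (batP_ok par7_ok wc1304625_252))))))

theorem afc130462500 : Tre.All (PceOK par7 c1304625.VT) fc130462500 := Tre.all_nd afc1304625000 afc1304625001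

theorem afc1304625010 : Tre.All (PceOK par7 c1304625.VT) fc1304625010 := Tre.all_nd (Tre.all_nd (Tre.all_nd (Tre.all_nd (Tre.all_nd (Tre.all_nd (Tre.all_lf (batP_ok par7_ok wc1304625_2)) (Tre.all_lf (batP_ok par7_ok wc1304625_258))) (Tre.all_lf (batP_ok par7_ok wc1304625_130))) (Tre.all_nd (Tre.all_lf (batP_ok par7_ok wc1304625_66)) (Tre.all_lf (batP_ok par7_ok wc1304625_194)))) (Tre.all_nd (Tre.all_nd (Tre.all_lf (batP_ok par7_ok wc1304625_34)) (Tre.all_lf (batP_ok par7_ok wc1304625_162))) (Tre.all_nd (Tre.all_lf (batP_ok par7_ok wc1304625_98)) (Tre.all_lf (batP_ok par7_ok wc1304625_226))))) (Tre.all_nd (Tre.all_nd (Tre.all_nd (Tre.all_lf (batP_ok par7_ok wc1304625_18)) (Tre.all_lf (batP_ok par7_ok wc1304625_146))) (Tre.all_nd (Tre.all_lf (batP_ok par7_ok wc1304625_82)) (Tre.all_lf (batP_ok par7_ok wc1304625_210)))) (Tre.all_nd (Tre.all_nd (Tre.all_lf (batP_ok par7_ok wc1304625_50)) (Tre.all_lf (batP_ok par7_ok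 wc1304625_178))) (Tre.all_nd (Tre.all_lf (batP_ok par7_ok wc1304625_114)) (Tre.all_lf (batP_ok par7_ok wc1304625_242)))))) (Tre.all_nd (Tre.all_nd (Tre.all_nd (Tre.all_nd (Tre.all_lf (batP_ok par7_ok wc1304625_10)) (Tre.all_lf (batP_ok par7_ok wc1304625_138))) (Tre.all_nd (Tre.all_lf (batP_ok par7_ok wc1304625_74)) (Tre.all_lf (batP_ok par7_ok wc1304625_202)))) (Tre.all_nd (Tre.all_nd (Tre.all_lf (batP_ok par7_ok wc1304625_42)) (Tre.all_lf (batP_ok par7_ok wc1304625_170))) (Tre.all_nd (Tre.all_lf (batP_ok par7_ok wc1304625_106)) (Tre.all_lf (batP_ok par7_ok wc1304625_234))))) (Tre.all_nd (Tre.all_nd (Tre.all_nd (Tre.all_lf (batP_ok par7_ok wc1304625_26)) (Tre.all_lf (batP_ok par7_ok wc1304625_154))) (Tre.all_nd (Tre.all_lf (batP_ok par7_ok wc1304625_90)) (Tre.all_lf (batP_ok par7_ok wc1304625_218)))) (Tre.all_nd (Tre.all_nd (Tre.all_lf (batP_ok par7_ok wc1304625_58)) (Tre.all_lf (batP_ok par7_ok wc1304625_186)))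 (Tre.all_nd (Tre.all_lf (batP_ok par7_ok wc1304625_122)) (Tre.all_lf (batP_ok par7_ok wc1304625_250))))))

theorem afc1304625011 : Tre.All (PceOK par7 c1304625.VT) fc1304625011 := Tre.all_nd (Tre.all_nd (Tre.all_nd (Tre.all_nd (Tre.all_nd (Tre.all_lf (batP_ok par7_ok wc1304625_6)) (Tre.all_lf (batP_ok par7_ok wc1304625_134))) (Tre.all_nd (Tre.all_lf (batP_ok par7_ok wc1304625_70)) (Tre.all_lf (batP_ok par7_ok wc1304625_198)))) (Tre.all_nd (Tre.all_nd (Tre.all_lf (batP_ok par7_ok wc1304625_38)) (Tre.all_lf (batP_ok par7_ok wc1304625_166))) (Tre.all_nd (Tre.all_lf (batP_ok par7_ok wc1304625_102)) (Tre.all_lf (batP_ok par7_ok wc1304625_230))))) (Tre.all_nd (Tre.all_nd (Tre.all_nd (Tre.all_lf (batP_ok par7_ok wc1304625_22)) (Tre.all_lf (batP_ok par7_ok wc1304625_150))) (Tre.all_nd (Tre.all_lf (batP_ok par7_ok wc1304625_86)) (Tre.all_lf (batP_ok par7_ok wc1304625_214)))) (Tre.all_nd (Tre.all_nd (Tre.all_lf (batP_ok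 par7_ok wc1304625_54)) (Tre.all_lf (batP_ok par7_ok wc1304625_182))) (Tre.all_nd (Tre.all_lf (batP_ok par7_ok wc1304625_118)) (Tre.all_lf (batP_ok par7_ok wc1304625_246)))))) (Tre.all_nd (Tre.all_nd (Tre.all_nd (Tre.all_nd (Tre.all_lf (batP_ok par7_ok wc1304625_14)) (Tre.all_lf (batP_ok par7_ok wc1304625_142))) (Tre.all_nd (Tre.all_lf (batP_ok par7_ok wc1304625_78)) (Tre.all_lf (batP_ok par7_ok wc1304625_206)))) (Tre.all_nd (Tre.all_nd (Tre.all_lf (batP_ok par7_ok wc1304625_46)) (Tre.all_lf (batP_ok par7_ok wc1304625_174))) (Tre.all_nd (Tre.all_lf (batP_ok par7_ok wc1304625_110)) (Tre.all_lf (batP_ok par7_ok wc1304625_238))))) (Tre.all_nd (Tre.all_nd (Tre.all_nd (Tre.all_lf (batP_ok par7_ok wc1304625_30)) (Tre.all_lf (batP_ok par7_ok wc1304625_158))) (Tre.all_nd (Tre.all_lf (batP_ok par7_ok wc1304625_94)) (Tre.all_lf (batP_ok par7_ok wc1304625_222)))) (Tre.all_nd (Tre.all_nd (Tre.all_lf (batP_ok par7_ok wc1304625_62))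 (Tre.all_lf (batP_ok par7_ok wc1304625_190))) (Tre.all_nd (Tre.all_lf (batP_ok par7_ok wc1304625_126)) (Tre.all_lf (batP_ok par7_ok wc1304625_254))))))

theorem afc130462501 : Tre.All (PceOK par7 c1304625.VT) fc130462501 := Tre.all_nd afc1304625010 afc1304625011

theorem afc13046250 : Tre.All (PceOK par7 c1304625.VT) fc13046250 := Tre.all_nd afc130462500 afc130462501

theorem afc1304625100 : Tre.All (PceOK par7 c1304625.VT) fc1304625100 := Tre.all_nd (Tre.all_nd (Tre.all_nd (Tre.all_nd (Tre.all_nd (Tre.all_nd (Tre.all_lf (batP_ok par7_ok wc1304625_1)) (Tre.all_lf (batP_ok par7_ok wc1304625_257))) (Tre.all_lf (batP_ok par7_ok wc1304625_129))) (Tre.all_nd (Tre.all_lf (batP_ok par7_ok wc1304625_65)) (Tre.all_lf (batP_ok par7_ok wc1304625_193)))) (Tre.all_nd (Tre.all_nd (Tre.all_lf (batP_ok par7_ok wc1304625_33)) (Tre.all_lf (batP_ok par7_ok wc1304625_161))) (Tre.all_nd (Tre.all_lf (batP_ok par7_ok wc1304625_97))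 (Tre.all_lf (batP_ok par7_ok wc1304625_225))))) (Tre.all_nd (Tre.all_nd (Tre.all_nd (Tre.all_lf (batP_ok par7_ok wc1304625_17)) (Tre.all_lf (batP_ok par7_ok wc1304625_145))) (Tre.all_nd (Tre.all_lf (batP_ok par7_ok wc1304625_81)) (Tre.all_lf (batP_ok par7_ok wc1304625_209)))) (Tre.all_nd (Tre.all_nd (Tre.all_lf (batP_ok par7_ok wc1304625_49)) (Tre.all_lf (batP_ok par7_ok wc1304625_177))) (Tre.all_nd (Tre.all_lf (batP_ok par7_ok wc1304625_113)) (Tre.all_lf (batP_ok par7_ok wc1304625_241)))))) (Tre.all_nd (Tre.all_nd (Tre.all_nd (Tre.all_nd (Tre.all_lf (batP_ok par7_ok wc1304625_9)) (Tre.all_lf (batP_ok par7_ok wc1304625_137))) (Tre.all_nd (Tre.all_lf (batP_ok par7_ok wc1304625_73)) (Tre.all_lf (batP_ok par7_ok wc1304625_201)))) (Tre.all_nd (Tre.all_nd (Tre.all_lf (batP_ok par7_ok wc1304625_41)) (Tre.all_lf (batP_ok par7_ok wc1304625_169))) (Tre.all_nd (Tre.all_lf (batP_ok par7_ok wc1304625_105)) (Tre.all_lf (batP_ok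 par7_ok wc1304625_233))))) (Tre.all_nd (Tre.all_nd (Tre.all_nd (Tre.all_lf (batP_ok par7_ok wc1304625_25)) (Tre.all_lf (batP_ok par7_ok wc1304625_153))) (Tre.all_nd (Tre.all_lf (batP_ok par7_ok wc1304625_89)) (Tre.all_lf (batP_ok par7_ok wc1304625_217)))) (Tre.all_nd (Tre.all_nd (Tre.all_lf (batP_ok par7_ok wc1304625_57)) (Tre.all_lf (batP_ok par7_ok wc1304625_185))) (Tre.all_nd (Tre.all_lf (batP_ok par7_ok wc1304625_121)) (Tre.all_lf (batP_ok par7_ok wc1304625_249))))))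

theorem afc1304625101 : Tre.All (PceOK par7 c1304625.VT) fc1304625101 := Tre.all_nd (Tre.all_nd (Tre.all_nd (Tre.all_nd (Tre.all_nd (Tre.all_lf (batP_ok par7_ok wc1304625_5)) (Tre.all_lf (batP_ok par7_ok wc1304625_133))) (Tre.all_nd (Tre.all_lf (batP_ok par7_ok wc1304625_69)) (Tre.all_lf (batP_ok par7_ok wc1304625_197)))) (Tre.all_nd (Tre.all_nd (Tre.all_lf (batP_ok par7_ok wc1304625_37)) (Tre.all_lf (batP_ok par7_ok wc1304625_165))) (Tre.all_nd (Tre.all_lf (batP_ok par7_ok wc1304625_101)) (Tre.all_lf (batP_ok par7_ok wc1304625_229))))) (Tre.all_nd (Tre.all_nd (Tre.all_nd (Tre.all_lf (batP_ok par7_ok wc1304625_21)) (Tre.all_lf (batP_ok par7_ok wc1304625_149))) (Tre.all_nd (Tre.all_lf (batP_ok par7_ok wc1304625_85)) (Tre.all_lf (batP_ok par7_ok wc1304625_213)))) (Tre.all_nd (Tre.all_nd (Tre.all_lf (batP_ok par7_ok wc1304625_53)) (Tre.all_lf (batP_ok par7_ok wc1304625_181))) (Tre.all_nd (Tre.all_lf (batP_ok par7_ok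 wc1304625_117)) (Tre.all_lf (batP_ok par7_ok wc1304625_245)))))) (Tre.all_nd (Tre.all_nd (Tre.all_nd (Tre.all_nd (Tre.all_lf (batP_ok par7_ok wc1304625_13)) (Tre.all_lf (batP_ok par7_ok wc1304625_141))) (Tre.all_nd (Tre.all_lf (batP_ok par7_ok wc1304625_77)) (Tre.all_lf (batP_ok par7_ok wc1304625_205)))) (Tre.all_nd (Tre.all_nd (Tre.all_lf (batP_ok par7_ok wc1304625_45)) (Tre.all_lf (batP_ok par7_ok wc1304625_173))) (Tre.all_nd (Tre.all_lf (batP_ok par7_ok wc1304625_109)) (Tre.all_lf (batP_ok par7_ok wc1304625_237))))) (Tre.all_nd (Tre.all_nd (Tre.all_nd (Tre.all_lf (batP_ok par7_ok wc1304625_29)) (Tre.all_lf (batP_ok par7_ok wc1304625_157))) (Tre.all_nd (Tre.all_lf (batP_ok par7_ok wc1304625_93)) (Tre.all_lf (batP_ok par7_ok wc1304625_221)))) (Tre.all_nd (Tre.all_nd (Tre.all_lf (batP_ok par7_ok wc1304625_61)) (Tre.all_lf (batP_ok par7_ok wc1304625_189))) (Tre.all_nd (Tre.all_lf (batP_ok par7_ok wc1304625_125))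 (Tre.all_lf (batP_ok par7_ok wc1304625_253))))))

theorem afc130462510 : Tre.All (PceOK par7 c1304625.VT) fc130462510 := Tre.all_nd afc1304625100 afc1304625101

theorem afc1304625110 : Tre.All (PceOK par7 c1304625.VT) fc1304625110 := Tre.all_nd (Tre.all_nd (Tre.all_nd (Tre.all_nd (Tre.all_nd (Tre.all_nd (Tre.all_lf (batP_ok par7_ok wc1304625_3)) (Tre.all_lf (batP_ok par7_ok wc1304625_259))) (Tre.all_lf (batP_ok par7_ok wc1304625_131))) (Tre.all_nd (Tre.all_lf (batP_ok par7_ok wc1304625_67)) (Tre.all_lf (batP_ok par7_ok wc1304625_195)))) (Tre.all_nd (Tre.all_nd (Tre.all_lf (batP_ok par7_ok wc1304625_35)) (Tre.all_lf (batP_ok par7_ok wc1304625_163))) (Tre.all_nd (Tre.all_lf (batP_ok par7_ok wc1304625_99)) (Tre.all_lf (batP_ok par7_ok wc1304625_227))))) (Tre.all_nd (Tre.all_nd (Tre.all_nd (Tre.all_lf (batP_ok par7_ok wc1304625_19)) (Tre.all_lf (batP_ok par7_ok wc1304625_147))) (Tre.all_nd (Tre.all_lf (batP_ok par7_ok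 wc1304625_83)) (Tre.all_lf (batP_ok par7_ok wc1304625_211)))) (Tre.all_nd (Tre.all_nd (Tre.all_lf (batP_ok par7_ok wc1304625_51)) (Tre.all_lf (batP_ok par7_ok wc1304625_179))) (Tre.all_nd (Tre.all_lf (batP_ok par7_ok wc1304625_115)) (Tre.all_lf (batP_ok par7_ok wc1304625_243)))))) (Tre.all_nd (Tre.all_nd (Tre.all_nd (Tre.all_nd (Tre.all_lf (batP_ok par7_ok wc1304625_11)) (Tre.all_lf (batP_ok par7_ok wc1304625_139))) (Tre.all_nd (Tre.all_lf (batP_ok par7_ok wc1304625_75)) (Tre.all_lf (batP_ok par7_ok wc1304625_203)))) (Tre.all_nd (Tre.all_nd (Tre.all_lf (batP_ok par7_ok wc1304625_43)) (Tre.all_lf (batP_ok par7_ok wc1304625_171))) (Tre.all_nd (Tre.all_lf (batP_ok par7_ok wc1304625_107)) (Tre.all_lf (batP_ok par7_ok wc1304625_235))))) (Tre.all_nd (Tre.all_nd (Tre.all_nd (Tre.all_lf (batP_ok par7_ok wc1304625_27)) (Tre.all_lf (batP_ok par7_ok wc1304625_155))) (Tre.all_nd (Tre.all_lf (batP_ok par7_ok wc1304625_91))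 (Tre.all_lf (batP_ok par7_ok wc1304625_219)))) (Tre.all_nd (Tre.all_nd (Tre.all_lf (batP_ok par7_ok wc1304625_59)) (Tre.all_lf (batP_ok par7_ok wc1304625_187))) (Tre.all_nd (Tre.all_lf (batP_ok par7_ok wc1304625_123)) (Tre.all_lf (batP_ok par7_ok wc1304625_251))))))

theorem afc1304625111 : Tre.All (PceOK par7 c1304625.VT) fc1304625111 := Tre.all_nd (Tre.all_nd (Tre.all_nd (Tre.all_nd (Tre.all_nd (Tre.all_lf (batP_ok par7_ok wc1304625_7)) (Tre.all_lf (batP_ok par7_ok wc1304625_135))) (Tre.all_nd (Tre.all_lf (batP_ok par7_ok wc1304625_71)) (Tre.all_lf (batP_ok par7_ok wc1304625_199)))) (Tre.all_nd (Tre.all_nd (Tre.all_lf (batP_ok par7_ok wc1304625_39)) (Tre.all_lf (batP_ok par7_ok wc1304625_167))) (Tre.all_nd (Tre.all_lf (batP_ok par7_ok wc1304625_103)) (Tre.all_lf (batP_ok par7_ok wc1304625_231))))) (Tre.all_nd (Tre.all_nd (Tre.all_nd (Tre.all_lf (batP_ok par7_ok wc1304625_23)) (Tre.all_lf (batP_ok par7_ok wc1304625_151)))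 (Tre.all_nd (Tre.all_lf (batP_ok par7_ok wc1304625_87)) (Tre.all_lf (batP_ok par7_ok wc1304625_215)))) (Tre.all_nd (Tre.all_nd (Tre.all_lf (batP_ok par7_ok wc1304625_55)) (Tre.all_lf (batP_ok par7_ok wc1304625_183))) (Tre.all_nd (Tre.all_lf (batP_ok par7_ok wc1304625_119)) (Tre.all_lf (batP_ok par7_ok wc1304625_247)))))) (Tre.all_nd (Tre.all_nd (Tre.all_nd (Tre.all_nd (Tre.all_lf (batP_ok par7_ok wc1304625_15)) (Tre.all_lf (batP_ok par7_ok wc1304625_143))) (Tre.all_nd (Tre.all_lf (batP_ok par7_ok wc1304625_79)) (Tre.all_lf (batP_ok par7_ok wc1304625_207)))) (Tre.all_nd (Tre.all_nd (Tre.all_lf (batP_ok par7_ok wc1304625_47)) (Tre.all_lf (batP_ok par7_ok wc1304625_175))) (Tre.all_nd (Tre.all_lf (batP_ok par7_ok wc1304625_111)) (Tre.all_lf (batP_ok par7_ok wc1304625_239))))) (Tre.all_nd (Tre.all_nd (Tre.all_nd (Tre.all_lf (batP_ok par7_ok wc1304625_31)) (Tre.all_lf (batP_ok par7_ok wc1304625_159))) (Tre.all_nd (Tre.all_lf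 (batP_ok par7_ok wc1304625_95)) (Tre.all_lf (batP_ok par7_ok wc1304625_223)))) (Tre.all_nd (Tre.all_nd (Tre.all_lf (batP_ok par7_ok wc1304625_63)) (Tre.all_lf (batP_ok par7_ok wc1304625_191))) (Tre.all_nd (Tre.all_lf (batP_ok par7_ok wc1304625_127)) (Tre.all_lf (batP_ok par7_ok wc1304625_255))))))

theorem afc130462511 : Tre.All (PceOK par7 c1304625.VT) fc130462511 := Tre.all_nd afc1304625110 afc1304625111

theorem afc13046251 : Tre.All (PceOK par7 c1304625.VT) fc13046251 := Tre.all_nd afc130462510 afc130462511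

theorem afc1304625 : Tre.All (PceOK par7 c1304625.VT) fc1304625 := Tre.all_nd afc13046250 afc13046251

theorem rac1304625_0 : RA c1304625 fc1304625 0 := ra_zero

theorem rac1304625_70 : RA c1304625 fc1304625 70 := ra_rng rac1304625_0 ec1304625_0

theorem rac1304625_160 : RA c1304625 fc1304625 160 := ra_rng rac1304625_70 ec1304625_70

theorem rac1304625_261 : RA c1304625 fc1304625 261 := ra_rng rac1304625_160 ec1304625_160

theorem kc1304625 : clsOK par7.d c1304625 = true := by decide +kernel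

theorem dead_c1304625 : ClsD par7 c1304625 := clsD_of kc1304625 afc1304625 rac1304625_261

end Pool.Agent.RTX
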