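import Pool.Agent.RTS7.W_1305264_0
import Pool.Agent.RTS7.E_1305264_0

/-!
# RTS7: class of the permutation 1305264
-/

set_option autoImplicit false
set_option maxRecDepth 100000

namespace Pool.Agent.RTX

theorem afc1305264 : Tre.All (PceOK par7 c1305264.VT) fc1305264 := Tre.all_nd (Tre.all_nd (Tre.all_nd (Tre.all_nd (Tre.all_nd (Tre.all_nd (Tre.all_lf (batP_ok par7_ok wc1305264_0)) (Tre.all_lf (batP_ok par7_ok wc1305264_32))) (Tre.all_nd (Tre.all_lf (batP_ok par7_ok wc1305264_16)) (Tre.all_lf (batP_ok par7_ok wc1305264_48)))) (Tre.all_nd (Tre.all_nd (Tre.all_lf (batP_ok par7_ok wc1305264_8)) (Tre.all_lf (batP_ok par7_ok wc1305264_40))) (Tre.all_nd (Tre.all_lf (batP_ok par7_ok wc1305264_24)) (Tre.all_lf (batP_ok par7_ok wc1305264_56))))) (Tre.all_nd (Tre.all_nd (Tre.all_nd (Tre.all_lf (batP_ok par7_ok wc1305264_4)) (Tre.all_lf (batP_ok par7_ok wc1305264_36))) (Tre.all_nd (Tre.all_lf (batP_ok par7_ok wc1305264_20))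 (Tre.all_lf (batP_ok par7_ok wc1305264_52)))) (Tre.all_nd (Tre.all_nd (Tre.all_lf (batP_ok par7_ok wc1305264_12)) (Tre.all_lf (batP_ok par7_ok wc1305264_44))) (Tre.all_nd (Tre.all_lf (batP_ok par7_ok wc1305264_28)) (Tre.all_lf (batP_ok par7_ok wc1305264_60)))))) (Tre.all_nd (Tre.all_nd (Tre.all_nd (Tre.all_nd (Tre.all_lf (batP_ok par7_ok wc1305264_2)) (Tre.all_lf (batP_ok par7_ok wc1305264_34))) (Tre.all_nd (Tre.all_lf (batP_ok par7_ok wc1305264_18)) (Tre.all_lf (batP_ok par7_ok wc1305264_50)))) (Tre.all_nd (Tre.all_nd (Tre.all_lf (batP_ok par7_ok wc1305264_10)) (Tre.all_lf (batP_ok par7_ok wc1305264_42))) (Tre.all_nd (Tre.all_lf (batP_ok par7_ok wc1305264_26)) (Tre.all_lf (batP_ok par7_ok wc1305264_58))))) (Tre.all_nd (Tre.all_nd (Tre.all_nd (Tre.all_lf (batP_ok par7_ok wc1305264_6)) (Tre.all_lf (batP_ok par7_ok wc1305264_38))) (Tre.all_nd (Tre.all_lf (batP_ok par7_ok wc1305264_22)) (Tre.all_lf (batP_ok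 par7_ok wc1305264_54)))) (Tre.all_nd (Tre.all_nd (Tre.all_lf (batP_ok par7_ok wc1305264_14)) (Tre.all_lf (batP_ok par7_ok wc1305264_46))) (Tre.all_nd (Tre.all_lf (batP_ok par7_ok wc1305264_30)) (Tre.all_lf (batP_ok par7_ok wc1305264_62))))))) (Tre.all_nd (Tre.all_nd (Tre.all_nd (Tre.all_nd (Tre.all_nd (Tre.all_lf (batP_ok par7_ok wc1305264_1)) (Tre.all_lf (batP_ok par7_ok wc1305264_33))) (Tre.all_nd (Tre.all_lf (batP_ok par7_ok wc1305264_17)) (Tre.all_lf (batP_ok par7_ok wc1305264_49)))) (Tre.all_nd (Tre.all_nd (Tre.all_lf (batP_ok par7_ok wc1305264_9)) (Tre.all_lf (batP_ok par7_ok wc1305264_41))) (Tre.all_nd (Tre.all_lf (batP_ok par7_ok wc1305264_25)) (Tre.all_lf (batP_ok par7_ok wc1305264_57))))) (Tre.all_nd (Tre.all_nd (Tre.all_nd (Tre.all_lf (batP_ok par7_ok wc1305264_5)) (Tre.all_lf (batP_ok par7_ok wc1305264_37))) (Tre.all_nd (Tre.all_lf (batP_ok par7_ok wc1305264_21)) (Tre.all_lf (batP_ok par7_ok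 wc1305264_53)))) (Tre.all_nd (Tre.all_nd (Tre.all_lf (batP_ok par7_ok wc1305264_13)) (Tre.all_lf (batP_ok par7_ok wc1305264_45))) (Tre.all_nd (Tre.all_lf (batP_ok par7_ok wc1305264_29)) (Tre.all_lf (batP_ok par7_ok wc1305264_61)))))) (Tre.all_nd (Tre.all_nd (Tre.all_nd (Tre.all_nd (Tre.all_lf (batP_ok par7_ok wc1305264_3)) (Tre.all_lf (batP_ok par7_ok wc1305264_35))) (Tre.all_nd (Tre.all_lf (batP_ok par7_ok wc1305264_19)) (Tre.all_lf (batP_ok par7_ok wc1305264_51)))) (Tre.all_nd (Tre.all_nd (Tre.all_lf (batP_ok par7_ok wc1305264_11)) (Tre.all_lf (batP_ok par7_ok wc1305264_43))) (Tre.all_nd (Tre.all_lf (batP_ok par7_ok wc1305264_27)) (Tre.all_lf (batP_ok par7_ok wc1305264_59))))) (Tre.all_nd (Tre.all_nd (Tre.all_nd (Tre.all_lf (batP_ok par7_ok wc1305264_7)) (Tre.all_lf (batP_ok par7_ok wc1305264_39))) (Tre.all_nd (Tre.all_lf (batP_ok par7_ok wc1305264_23)) (Tre.all_lf (batP_ok par7_ok wc1305264_55)))) (Tre.all_nd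 (Tre.all_nd (Tre.all_lf (batP_ok par7_ok wc1305264_15)) (Tre.all_lf (batP_ok par7_ok wc1305264_47))) (Tre.all_lf (batP_ok par7_ok wc1305264_31))))))

theorem rac1305264_0 : RA c1305264 fc1305264 0 := ra_zero

theorem rac1305264_63 : RA c1305264 fc1305264 63 := ra_rng rac1305264_0 ec1305264_0

theorem kc1305264 : clsOK par7.d c1305264 = true := by decide +kernel

theorem dead_c1305264 : ClsD par7 c1305264 := clsD_of kc1305264 afc1305264 rac1305264_63

end Pool.Agent.RTX
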