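import Pool.Agent.RTS7.W_1305462_0
import Pool.Agent.RTS7.E_1305462_0

/-!
# RTS7: class of the permutation 1305462
-/

set_option autoImplicit false
set_option maxRecDepth 100000

namespace Pool.Agent.RTX

theorem afc1305462000 : Tre.All (PceOK par7 c1305462.VT) fc1305462000 := Tre.all_nd (Tre.all_nd (Tre.all_nd (Tre.all_nd (Tre.all_nd (Tre.all_nd (Tre.all_lf (batP_ok par7_ok wc1305462_0)) (Tre.all_lf (batP_ok par7_ok wc1305462_256))) (Tre.all_nd (Tre.all_lf (batP_ok par7_ok wc1305462_128)) (Tre.all_lf (batP_ok par7_ok wc1305462_384)))) (Tre.all_nd (Tre.all_nd (Tre.all_lf (batP_ok par7_ok wc1305462_64)) (Tre.all_lf (batP_ok par7_ok wc1305462_320))) (Tre.all_nd (Tre.all_lf (batP_ok par7_ok wc1305462_192)) (Tre.all_lf (batP_ok par7_ok wc1305462_448))))) (Tre.all_nd (Tre.all_nd (Tre.all_nd (Tre.all_lf (batP_ok par7_ok wc1305462_32)) (Tre.all_lf (batP_ok par7_ok wc1305462_288))) (Tre.all_nd (Tre.all_lf (batP_ok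 par7_ok wc1305462_160)) (Tre.all_lf (batP_ok par7_ok wc1305462_416)))) (Tre.all_nd (Tre.all_nd (Tre.all_lf (batP_ok par7_ok wc1305462_96)) (Tre.all_lf (batP_ok par7_ok wc1305462_352))) (Tre.all_nd (Tre.all_lf (batP_ok par7_ok wc1305462_224)) (Tre.all_lf (batP_ok par7_ok wc1305462_480)))))) (Tre.all_nd (Tre.all_nd (Tre.all_nd (Tre.all_nd (Tre.all_lf (batP_ok par7_ok wc1305462_16)) (Tre.all_lf (batP_ok par7_ok wc1305462_272))) (Tre.all_nd (Tre.all_lf (batP_ok par7_ok wc1305462_144)) (Tre.all_lf (batP_ok par7_ok wc1305462_400)))) (Tre.all_nd (Tre.all_nd (Tre.all_lf (batP_ok par7_ok wc1305462_80)) (Tre.all_lf (batP_ok par7_ok wc1305462_336))) (Tre.all_nd (Tre.all_lf (batP_ok par7_ok wc1305462_208)) (Tre.all_lf (batP_ok par7_ok wc1305462_464))))) (Tre.all_nd (Tre.all_nd (Tre.all_nd (Tre.all_lf (batP_ok par7_ok wc1305462_48)) (Tre.all_lf (batP_ok par7_ok wc1305462_304))) (Tre.all_nd (Tre.all_lf (batP_ok par7_ok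 wc1305462_176)) (Tre.all_lf (batP_ok par7_ok wc1305462_432)))) (Tre.all_nd (Tre.all_nd (Tre.all_lf (batP_ok par7_ok wc1305462_112)) (Tre.all_lf (batP_ok par7_ok wc1305462_368))) (Tre.all_nd (Tre.all_lf (batP_ok par7_ok wc1305462_240)) (Tre.all_lf (batP_ok par7_ok wc1305462_496))))))) (Tre.all_nd (Tre.all_nd (Tre.all_nd (Tre.all_nd (Tre.all_nd (Tre.all_lf (batP_ok par7_ok wc1305462_8)) (Tre.all_lf (batP_ok par7_ok wc1305462_264))) (Tre.all_nd (Tre.all_lf (batP_ok par7_ok wc1305462_136)) (Tre.all_lf (batP_ok par7_ok wc1305462_392)))) (Tre.all_nd (Tre.all_nd (Tre.all_lf (batP_ok par7_ok wc1305462_72)) (Tre.all_lf (batP_ok par7_ok wc1305462_328))) (Tre.all_nd (Tre.all_lf (batP_ok par7_ok wc1305462_200)) (Tre.all_lf (batP_ok par7_ok wc1305462_456))))) (Tre.all_nd (Tre.all_nd (Tre.all_nd (Tre.all_lf (batP_ok par7_ok wc1305462_40)) (Tre.all_lf (batP_ok par7_ok wc1305462_296))) (Tre.all_nd (Tre.all_lf (batP_ok par7_ok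 wc1305462_168)) (Tre.all_lf (batP_ok par7_ok wc1305462_424)))) (Tre.all_nd (Tre.all_nd (Tre.all_lf (batP_ok par7_ok wc1305462_104)) (Tre.all_lf (batP_ok par7_ok wc1305462_360))) (Tre.all_nd (Tre.all_lf (batP_ok par7_ok wc1305462_232)) (Tre.all_lf (batP_ok par7_ok wc1305462_488)))))) (Tre.all_nd (Tre.all_nd (Tre.all_nd (Tre.all_nd (Tre.all_lf (batP_ok par7_ok wc1305462_24)) (Tre.all_lf (batP_ok par7_ok wc1305462_280))) (Tre.all_nd (Tre.all_lf (batP_ok par7_ok wc1305462_152)) (Tre.all_lf (batP_ok par7_ok wc1305462_408)))) (Tre.all_nd (Tre.all_nd (Tre.all_lf (batP_ok par7_ok wc1305462_88)) (Tre.all_lf (batP_ok par7_ok wc1305462_344))) (Tre.all_nd (Tre.all_lf (batP_ok par7_ok wc1305462_216)) (Tre.all_lf (batP_ok par7_ok wc1305462_472))))) (Tre.all_nd (Tre.all_nd (Tre.all_nd (Tre.all_lf (batP_ok par7_ok wc1305462_56)) (Tre.all_lf (batP_ok par7_ok wc1305462_312))) (Tre.all_nd (Tre.all_lf (batP_ok par7_ok wc1305462_184))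 (Tre.all_lf (batP_ok par7_ok wc1305462_440)))) (Tre.all_nd (Tre.all_nd (Tre.all_lf (batP_ok par7_ok wc1305462_120)) (Tre.all_lf (batP_ok par7_ok wc1305462_376))) (Tre.all_nd (Tre.all_lf (batP_ok par7_ok wc1305462_248)) (Tre.all_lf (batP_ok par7_ok wc1305462_504)))))))

theorem afc1305462001 : Tre.All (PceOK par7 c1305462.VT) fc1305462001 := Tre.all_nd (Tre.all_nd (Tre.all_nd (Tre.all_nd (Tre.all_nd (Tre.all_nd (Tre.all_lf (batP_ok par7_ok wc1305462_4)) (Tre.all_lf (batP_ok par7_ok wc1305462_260))) (Tre.all_nd (Tre.all_lf (batP_ok par7_ok wc1305462_132)) (Tre.all_lf (batP_ok par7_ok wc1305462_388)))) (Tre.all_nd (Tre.all_nd (Tre.all_lf (batP_ok par7_ok wc1305462_68)) (Tre.all_lf (batP_ok par7_ok wc1305462_324))) (Tre.all_nd (Tre.all_lf (batP_ok par7_ok wc1305462_196)) (Tre.all_lf (batP_ok par7_ok wc1305462_452))))) (Tre.all_nd (Tre.all_nd (Tre.all_nd (Tre.all_lf (batP_ok par7_ok wc1305462_36)) (Tre.all_lf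 (batP_ok par7_ok wc1305462_292))) (Tre.all_nd (Tre.all_lf (batP_ok par7_ok wc1305462_164)) (Tre.all_lf (batP_ok par7_ok wc1305462_420)))) (Tre.all_nd (Tre.all_nd (Tre.all_lf (batP_ok par7_ok wc1305462_100)) (Tre.all_lf (batP_ok par7_ok wc1305462_356))) (Tre.all_nd (Tre.all_lf (batP_ok par7_ok wc1305462_228)) (Tre.all_lf (batP_ok par7_ok wc1305462_484)))))) (Tre.all_nd (Tre.all_nd (Tre.all_nd (Tre.all_nd (Tre.all_lf (batP_ok par7_ok wc1305462_20)) (Tre.all_lf (batP_ok par7_ok wc1305462_276))) (Tre.all_nd (Tre.all_lf (batP_ok par7_ok wc1305462_148)) (Tre.all_lf (batP_ok par7_ok wc1305462_404)))) (Tre.all_nd (Tre.all_nd (Tre.all_lf (batP_ok par7_ok wc1305462_84)) (Tre.all_lf (batP_ok par7_ok wc1305462_340))) (Tre.all_nd (Tre.all_lf (batP_ok par7_ok wc1305462_212)) (Tre.all_lf (batP_ok par7_ok wc1305462_468))))) (Tre.all_nd (Tre.all_nd (Tre.all_nd (Tre.all_lf (batP_ok par7_ok wc1305462_52)) (Tre.all_lf (batP_ok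 par7_ok wc1305462_308))) (Tre.all_nd (Tre.all_lf (batP_ok par7_ok wc1305462_180)) (Tre.all_lf (batP_ok par7_ok wc1305462_436)))) (Tre.all_nd (Tre.all_nd (Tre.all_lf (batP_ok par7_ok wc1305462_116)) (Tre.all_lf (batP_ok par7_ok wc1305462_372))) (Tre.all_nd (Tre.all_lf (batP_ok par7_ok wc1305462_244)) (Tre.all_lf (batP_ok par7_ok wc1305462_500))))))) (Tre.all_nd (Tre.all_nd (Tre.all_nd (Tre.all_nd (Tre.all_nd (Tre.all_lf (batP_ok par7_ok wc1305462_12)) (Tre.all_lf (batP_ok par7_ok wc1305462_268))) (Tre.all_nd (Tre.all_lf (batP_ok par7_ok wc1305462_140)) (Tre.all_lf (batP_ok par7_ok wc1305462_396)))) (Tre.all_nd (Tre.all_nd (Tre.all_lf (batP_ok par7_ok wc1305462_76)) (Tre.all_lf (batP_ok par7_ok wc1305462_332))) (Tre.all_nd (Tre.all_lf (batP_ok par7_ok wc1305462_204)) (Tre.all_lf (batP_ok par7_ok wc1305462_460))))) (Tre.all_nd (Tre.all_nd (Tre.all_nd (Tre.all_lf (batP_ok par7_ok wc1305462_44)) (Tre.all_lf (batP_ok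 par7_ok wc1305462_300))) (Tre.all_nd (Tre.all_lf (batP_ok par7_ok wc1305462_172)) (Tre.all_lf (batP_ok par7_ok wc1305462_428)))) (Tre.all_nd (Tre.all_nd (Tre.all_lf (batP_ok par7_ok wc1305462_108)) (Tre.all_lf (batP_ok par7_ok wc1305462_364))) (Tre.all_nd (Tre.all_lf (batP_ok par7_ok wc1305462_236)) (Tre.all_lf (batP_ok par7_ok wc1305462_492)))))) (Tre.all_nd (Tre.all_nd (Tre.all_nd (Tre.all_nd (Tre.all_lf (batP_ok par7_ok wc1305462_28)) (Tre.all_lf (batP_ok par7_ok wc1305462_284))) (Tre.all_nd (Tre.all_lf (batP_ok par7_ok wc1305462_156)) (Tre.all_lf (batP_ok par7_ok wc1305462_412)))) (Tre.all_nd (Tre.all_nd (Tre.all_lf (batP_ok par7_ok wc1305462_92)) (Tre.all_lf (batP_ok par7_ok wc1305462_348))) (Tre.all_nd (Tre.all_lf (batP_ok par7_ok wc1305462_220)) (Tre.all_lf (batP_ok par7_ok wc1305462_476))))) (Tre.all_nd (Tre.all_nd (Tre.all_nd (Tre.all_lf (batP_ok par7_ok wc1305462_60)) (Tre.all_lf (batP_ok par7_ok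 wc1305462_316))) (Tre.all_nd (Tre.all_lf (batP_ok par7_ok wc1305462_188)) (Tre.all_lf (batP_ok par7_ok wc1305462_444)))) (Tre.all_nd (Tre.all_nd (Tre.all_lf (batP_ok par7_ok wc1305462_124)) (Tre.all_lf (batP_ok par7_ok wc1305462_380))) (Tre.all_nd (Tre.all_lf (batP_ok par7_ok wc1305462_252)) (Tre.all_lf (batP_ok par7_ok wc1305462_508)))))))

theorem afc130546200 : Tre.All (PceOK par7 c1305462.VT) fc130546200 := Tre.all_nd afc1305462000 afc1305462001

theorem afc1305462010 : Tre.All (PceOK par7 c1305462.VT) fc1305462010 := Tre.all_nd (Tre.all_nd (Tre.all_nd (Tre.all_nd (Tre.all_nd (Tre.all_nd (Tre.all_lf (batP_ok par7_ok wc1305462_2)) (Tre.all_lf (batP_ok par7_ok wc1305462_258))) (Tre.all_nd (Tre.all_lf (batP_ok par7_ok wc1305462_130)) (Tre.all_lf (batP_ok par7_ok wc1305462_386)))) (Tre.all_nd (Tre.all_nd (Tre.all_lf (batP_ok par7_ok wc1305462_66)) (Tre.all_lf (batP_ok par7_ok wc1305462_322))) (Tre.all_nd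 (Tre.all_lf (batP_ok par7_ok wc1305462_194)) (Tre.all_lf (batP_ok par7_ok wc1305462_450))))) (Tre.all_nd (Tre.all_nd (Tre.all_nd (Tre.all_lf (batP_ok par7_ok wc1305462_34)) (Tre.all_lf (batP_ok par7_ok wc1305462_290))) (Tre.all_nd (Tre.all_lf (batP_ok par7_ok wc1305462_162)) (Tre.all_lf (batP_ok par7_ok wc1305462_418)))) (Tre.all_nd (Tre.all_nd (Tre.all_lf (batP_ok par7_ok wc1305462_98)) (Tre.all_lf (batP_ok par7_ok wc1305462_354))) (Tre.all_nd (Tre.all_lf (batP_ok par7_ok wc1305462_226)) (Tre.all_lf (batP_ok par7_ok wc1305462_482)))))) (Tre.all_nd (Tre.all_nd (Tre.all_nd (Tre.all_nd (Tre.all_lf (batP_ok par7_ok wc1305462_18)) (Tre.all_lf (batP_ok par7_ok wc1305462_274))) (Tre.all_nd (Tre.all_lf (batP_ok par7_ok wc1305462_146)) (Tre.all_lf (batP_ok par7_ok wc1305462_402)))) (Tre.all_nd (Tre.all_nd (Tre.all_lf (batP_ok par7_ok wc1305462_82)) (Tre.all_lf (batP_ok par7_ok wc1305462_338))) (Tre.all_nd (Tre.all_lf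 (batP_ok par7_ok wc1305462_210)) (Tre.all_lf (batP_ok par7_ok wc1305462_466))))) (Tre.all_nd (Tre.all_nd (Tre.all_nd (Tre.all_lf (batP_ok par7_ok wc1305462_50)) (Tre.all_lf (batP_ok par7_ok wc1305462_306))) (Tre.all_nd (Tre.all_lf (batP_ok par7_ok wc1305462_178)) (Tre.all_lf (batP_ok par7_ok wc1305462_434)))) (Tre.all_nd (Tre.all_nd (Tre.all_lf (batP_ok par7_ok wc1305462_114)) (Tre.all_lf (batP_ok par7_ok wc1305462_370))) (Tre.all_nd (Tre.all_lf (batP_ok par7_ok wc1305462_242)) (Tre.all_lf (batP_ok par7_ok wc1305462_498))))))) (Tre.all_nd (Tre.all_nd (Tre.all_nd (Tre.all_nd (Tre.all_nd (Tre.all_lf (batP_ok par7_ok wc1305462_10)) (Tre.all_lf (batP_ok par7_ok wc1305462_266))) (Tre.all_nd (Tre.all_lf (batP_ok par7_ok wc1305462_138)) (Tre.all_lf (batP_ok par7_ok wc1305462_394)))) (Tre.all_nd (Tre.all_nd (Tre.all_lf (batP_ok par7_ok wc1305462_74)) (Tre.all_lf (batP_ok par7_ok wc1305462_330))) (Tre.all_nd (Tre.all_lf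 (batP_ok par7_ok wc1305462_202)) (Tre.all_lf (batP_ok par7_ok wc1305462_458))))) (Tre.all_nd (Tre.all_nd (Tre.all_nd (Tre.all_lf (batP_ok par7_ok wc1305462_42)) (Tre.all_lf (batP_ok par7_ok wc1305462_298))) (Tre.all_nd (Tre.all_lf (batP_ok par7_ok wc1305462_170)) (Tre.all_lf (batP_ok par7_ok wc1305462_426)))) (Tre.all_nd (Tre.all_nd (Tre.all_lf (batP_ok par7_ok wc1305462_106)) (Tre.all_lf (batP_ok par7_ok wc1305462_362))) (Tre.all_nd (Tre.all_lf (batP_ok par7_ok wc1305462_234)) (Tre.all_lf (batP_ok par7_ok wc1305462_490)))))) (Tre.all_nd (Tre.all_nd (Tre.all_nd (Tre.all_nd (Tre.all_lf (batP_ok par7_ok wc1305462_26)) (Tre.all_lf (batP_ok par7_ok wc1305462_282))) (Tre.all_nd (Tre.all_lf (batP_ok par7_ok wc1305462_154)) (Tre.all_lf (batP_ok par7_ok wc1305462_410)))) (Tre.all_nd (Tre.all_nd (Tre.all_lf (batP_ok par7_ok wc1305462_90)) (Tre.all_lf (batP_ok par7_ok wc1305462_346))) (Tre.all_nd (Tre.all_lf (batP_ok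 par7_ok wc1305462_218)) (Tre.all_lf (batP_ok par7_ok wc1305462_474))))) (Tre.all_nd (Tre.all_nd (Tre.all_nd (Tre.all_lf (batP_ok par7_ok wc1305462_58)) (Tre.all_lf (batP_ok par7_ok wc1305462_314))) (Tre.all_nd (Tre.all_lf (batP_ok par7_ok wc1305462_186)) (Tre.all_lf (batP_ok par7_ok wc1305462_442)))) (Tre.all_nd (Tre.all_nd (Tre.all_lf (batP_ok par7_ok wc1305462_122)) (Tre.all_lf (batP_ok par7_ok wc1305462_378))) (Tre.all_nd (Tre.all_lf (batP_ok par7_ok wc1305462_250)) (Tre.all_lf (batP_ok par7_ok wc1305462_506)))))))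

theorem afc1305462011 : Tre.All (PceOK par7 c1305462.VT) fc1305462011 := Tre.all_nd (Tre.all_nd (Tre.all_nd (Tre.all_nd (Tre.all_nd (Tre.all_nd (Tre.all_lf (batP_ok par7_ok wc1305462_6)) (Tre.all_lf (batP_ok par7_ok wc1305462_262))) (Tre.all_nd (Tre.all_lf (batP_ok par7_ok wc1305462_134)) (Tre.all_lf (batP_ok par7_ok wc1305462_390)))) (Tre.all_nd (Tre.all_nd (Tre.all_lf (batP_ok par7_ok wc1305462_70)) (Tre.all_lf (batP_ok par7_ok wc1305462_326))) (Tre.all_nd (Tre.all_lf (batP_ok par7_ok wc1305462_198)) (Tre.all_lf (batP_ok par7_ok wc1305462_454))))) (Tre.all_nd (Tre.all_nd (Tre.all_nd (Tre.all_lf (batP_ok par7_ok wc1305462_38)) (Tre.all_lf (batP_ok par7_ok wc1305462_294))) (Tre.all_nd (Tre.all_lf (batP_ok par7_ok wc1305462_166)) (Tre.all_lf (batP_ok par7_ok wc1305462_422)))) (Tre.all_nd (Tre.all_nd (Tre.all_lf (batP_ok par7_ok wc1305462_102)) (Tre.all_lf (batP_ok par7_ok wc1305462_358))) (Tre.all_nd (Tre.all_lf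 (batP_ok par7_ok wc1305462_230)) (Tre.all_lf (batP_ok par7_ok wc1305462_486)))))) (Tre.all_nd (Tre.all_nd (Tre.all_nd (Tre.all_nd (Tre.all_lf (batP_ok par7_ok wc1305462_22)) (Tre.all_lf (batP_ok par7_ok wc1305462_278))) (Tre.all_nd (Tre.all_lf (batP_ok par7_ok wc1305462_150)) (Tre.all_lf (batP_ok par7_ok wc1305462_406)))) (Tre.all_nd (Tre.all_nd (Tre.all_lf (batP_ok par7_ok wc1305462_86)) (Tre.all_lf (batP_ok par7_ok wc1305462_342))) (Tre.all_nd (Tre.all_lf (batP_ok par7_ok wc1305462_214)) (Tre.all_lf (batP_ok par7_ok wc1305462_470))))) (Tre.all_nd (Tre.all_nd (Tre.all_nd (Tre.all_lf (batP_ok par7_ok wc1305462_54)) (Tre.all_lf (batP_ok par7_ok wc1305462_310))) (Tre.all_nd (Tre.all_lf (batP_ok par7_ok wc1305462_182)) (Tre.all_lf (batP_ok par7_ok wc1305462_438)))) (Tre.all_nd (Tre.all_nd (Tre.all_lf (batP_ok par7_ok wc1305462_118)) (Tre.all_lf (batP_ok par7_ok wc1305462_374))) (Tre.all_nd (Tre.all_lf (batP_ok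 par7_ok wc1305462_246)) (Tre.all_lf (batP_ok par7_ok wc1305462_502))))))) (Tre.all_nd (Tre.all_nd (Tre.all_nd (Tre.all_nd (Tre.all_nd (Tre.all_lf (batP_ok par7_ok wc1305462_14)) (Tre.all_lf (batP_ok par7_ok wc1305462_270))) (Tre.all_nd (Tre.all_lf (batP_ok par7_ok wc1305462_142)) (Tre.all_lf (batP_ok par7_ok wc1305462_398)))) (Tre.all_nd (Tre.all_nd (Tre.all_lf (batP_ok par7_ok wc1305462_78)) (Tre.all_lf (batP_ok par7_ok wc1305462_334))) (Tre.all_nd (Tre.all_lf (batP_ok par7_ok wc1305462_206)) (Tre.all_lf (batP_ok par7_ok wc1305462_462))))) (Tre.all_nd (Tre.all_nd (Tre.all_nd (Tre.all_lf (batP_ok par7_ok wc1305462_46)) (Tre.all_lf (batP_ok par7_ok wc1305462_302))) (Tre.all_nd (Tre.all_lf (batP_ok par7_ok wc1305462_174)) (Tre.all_lf (batP_ok par7_ok wc1305462_430)))) (Tre.all_nd (Tre.all_nd (Tre.all_lf (batP_ok par7_ok wc1305462_110)) (Tre.all_lf (batP_ok par7_ok wc1305462_366))) (Tre.all_nd (Tre.all_lf (batP_ok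 par7_ok wc1305462_238)) (Tre.all_lf (batP_ok par7_ok wc1305462_494)))))) (Tre.all_nd (Tre.all_nd (Tre.all_nd (Tre.all_nd (Tre.all_lf (batP_ok par7_ok wc1305462_30)) (Tre.all_lf (batP_ok par7_ok wc1305462_286))) (Tre.all_nd (Tre.all_lf (batP_ok par7_ok wc1305462_158)) (Tre.all_lf (batP_ok par7_ok wc1305462_414)))) (Tre.all_nd (Tre.all_nd (Tre.all_lf (batP_ok par7_ok wc1305462_94)) (Tre.all_lf (batP_ok par7_ok wc1305462_350))) (Tre.all_nd (Tre.all_lf (batP_ok par7_ok wc1305462_222)) (Tre.all_lf (batP_ok par7_ok wc1305462_478))))) (Tre.all_nd (Tre.all_nd (Tre.all_nd (Tre.all_lf (batP_ok par7_ok wc1305462_62)) (Tre.all_lf (batP_ok par7_ok wc1305462_318))) (Tre.all_nd (Tre.all_lf (batP_ok par7_ok wc1305462_190)) (Tre.all_lf (batP_ok par7_ok wc1305462_446)))) (Tre.all_nd (Tre.all_nd (Tre.all_lf (batP_ok par7_ok wc1305462_126)) (Tre.all_lf (batP_ok par7_ok wc1305462_382))) (Tre.all_lf (batP_ok par7_ok wc1305462_254))))))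

theorem afc130546201 : Tre.All (PceOK par7 c1305462.VT) fc130546201 := Tre.all_nd afc1305462010 afc1305462011

theorem afc13054620 : Tre.All (PceOK par7 c1305462.VT) fc13054620 := Tre.all_nd afc130546200 afc130546201

theorem afc1305462100 : Tre.All (PceOK par7 c1305462.VT) fc1305462100 := Tre.all_nd (Tre.all_nd (Tre.all_nd (Tre.all_nd (Tre.all_nd (Tre.all_nd (Tre.all_lf (batP_ok par7_ok wc1305462_1)) (Tre.all_lf (batP_ok par7_ok wc1305462_257))) (Tre.all_nd (Tre.all_lf (batP_ok par7_ok wc1305462_129)) (Tre.all_lf (batP_ok par7_ok wc1305462_385)))) (Tre.all_nd (Tre.all_nd (Tre.all_lf (batP_ok par7_ok wc1305462_65)) (Tre.all_lf (batP_ok par7_ok wc1305462_321))) (Tre.all_nd (Tre.all_lf (batP_ok par7_ok wc1305462_193)) (Tre.all_lf (batP_ok par7_ok wc1305462_449))))) (Tre.all_nd (Tre.all_nd (Tre.all_nd (Tre.all_lf (batP_ok par7_ok wc1305462_33)) (Tre.all_lf (batP_ok par7_ok wc1305462_289))) (Tre.all_nd (Tre.all_lf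 (batP_ok par7_ok wc1305462_161)) (Tre.all_lf (batP_ok par7_ok wc1305462_417)))) (Tre.all_nd (Tre.all_nd (Tre.all_lf (batP_ok par7_ok wc1305462_97)) (Tre.all_lf (batP_ok par7_ok wc1305462_353))) (Tre.all_nd (Tre.all_lf (batP_ok par7_ok wc1305462_225)) (Tre.all_lf (batP_ok par7_ok wc1305462_481)))))) (Tre.all_nd (Tre.all_nd (Tre.all_nd (Tre.all_nd (Tre.all_lf (batP_ok par7_ok wc1305462_17)) (Tre.all_lf (batP_ok par7_ok wc1305462_273))) (Tre.all_nd (Tre.all_lf (batP_ok par7_ok wc1305462_145)) (Tre.all_lf (batP_ok par7_ok wc1305462_401)))) (Tre.all_nd (Tre.all_nd (Tre.all_lf (batP_ok par7_ok wc1305462_81)) (Tre.all_lf (batP_ok par7_ok wc1305462_337))) (Tre.all_nd (Tre.all_lf (batP_ok par7_ok wc1305462_209)) (Tre.all_lf (batP_ok par7_ok wc1305462_465))))) (Tre.all_nd (Tre.all_nd (Tre.all_nd (Tre.all_lf (batP_ok par7_ok wc1305462_49)) (Tre.all_lf (batP_ok par7_ok wc1305462_305))) (Tre.all_nd (Tre.all_lf (batP_ok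 par7_ok wc1305462_177)) (Tre.all_lf (batP_ok par7_ok wc1305462_433)))) (Tre.all_nd (Tre.all_nd (Tre.all_lf (batP_ok par7_ok wc1305462_113)) (Tre.all_lf (batP_ok par7_ok wc1305462_369))) (Tre.all_nd (Tre.all_lf (batP_ok par7_ok wc1305462_241)) (Tre.all_lf (batP_ok par7_ok wc1305462_497))))))) (Tre.all_nd (Tre.all_nd (Tre.all_nd (Tre.all_nd (Tre.all_nd (Tre.all_lf (batP_ok par7_ok wc1305462_9)) (Tre.all_lf (batP_ok par7_ok wc1305462_265))) (Tre.all_nd (Tre.all_lf (batP_ok par7_ok wc1305462_137)) (Tre.all_lf (batP_ok par7_ok wc1305462_393)))) (Tre.all_nd (Tre.all_nd (Tre.all_lf (batP_ok par7_ok wc1305462_73)) (Tre.all_lf (batP_ok par7_ok wc1305462_329))) (Tre.all_nd (Tre.all_lf (batP_ok par7_ok wc1305462_201)) (Tre.all_lf (batP_ok par7_ok wc1305462_457))))) (Tre.all_nd (Tre.all_nd (Tre.all_nd (Tre.all_lf (batP_ok par7_ok wc1305462_41)) (Tre.all_lf (batP_ok par7_ok wc1305462_297))) (Tre.all_nd (Tre.all_lf (batP_ok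 par7_ok wc1305462_169)) (Tre.all_lf (batP_ok par7_ok wc1305462_425)))) (Tre.all_nd (Tre.all_nd (Tre.all_lf (batP_ok par7_ok wc1305462_105)) (Tre.all_lf (batP_ok par7_ok wc1305462_361))) (Tre.all_nd (Tre.all_lf (batP_ok par7_ok wc1305462_233)) (Tre.all_lf (batP_ok par7_ok wc1305462_489)))))) (Tre.all_nd (Tre.all_nd (Tre.all_nd (Tre.all_nd (Tre.all_lf (batP_ok par7_ok wc1305462_25)) (Tre.all_lf (batP_ok par7_ok wc1305462_281))) (Tre.all_nd (Tre.all_lf (batP_ok par7_ok wc1305462_153)) (Tre.all_lf (batP_ok par7_ok wc1305462_409)))) (Tre.all_nd (Tre.all_nd (Tre.all_lf (batP_ok par7_ok wc1305462_89)) (Tre.all_lf (batP_ok par7_ok wc1305462_345))) (Tre.all_nd (Tre.all_lf (batP_ok par7_ok wc1305462_217)) (Tre.all_lf (batP_ok par7_ok wc1305462_473))))) (Tre.all_nd (Tre.all_nd (Tre.all_nd (Tre.all_lf (batP_ok par7_ok wc1305462_57)) (Tre.all_lf (batP_ok par7_ok wc1305462_313))) (Tre.all_nd (Tre.all_lf (batP_ok par7_ok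 wc1305462_185)) (Tre.all_lf (batP_ok par7_ok wc1305462_441)))) (Tre.all_nd (Tre.all_nd (Tre.all_lf (batP_ok par7_ok wc1305462_121)) (Tre.all_lf (batP_ok par7_ok wc1305462_377))) (Tre.all_nd (Tre.all_lf (batP_ok par7_ok wc1305462_249)) (Tre.all_lf (batP_ok par7_ok wc1305462_505)))))))

theorem afc1305462101 : Tre.All (PceOK par7 c1305462.VT) fc1305462101 := Tre.all_nd (Tre.all_nd (Tre.all_nd (Tre.all_nd (Tre.all_nd (Tre.all_nd (Tre.all_lf (batP_ok par7_ok wc1305462_5)) (Tre.all_lf (batP_ok par7_ok wc1305462_261))) (Tre.all_nd (Tre.all_lf (batP_ok par7_ok wc1305462_133)) (Tre.all_lf (batP_ok par7_ok wc1305462_389)))) (Tre.all_nd (Tre.all_nd (Tre.all_lf (batP_ok par7_ok wc1305462_69)) (Tre.all_lf (batP_ok par7_ok wc1305462_325))) (Tre.all_nd (Tre.all_lf (batP_ok par7_ok wc1305462_197)) (Tre.all_lf (batP_ok par7_ok wc1305462_453))))) (Tre.all_nd (Tre.all_nd (Tre.all_nd (Tre.all_lf (batP_ok par7_ok wc1305462_37))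 (Tre.all_lf (batP_ok par7_ok wc1305462_293))) (Tre.all_nd (Tre.all_lf (batP_ok par7_ok wc1305462_165)) (Tre.all_lf (batP_ok par7_ok wc1305462_421)))) (Tre.all_nd (Tre.all_nd (Tre.all_lf (batP_ok par7_ok wc1305462_101)) (Tre.all_lf (batP_ok par7_ok wc1305462_357))) (Tre.all_nd (Tre.all_lf (batP_ok par7_ok wc1305462_229)) (Tre.all_lf (batP_ok par7_ok wc1305462_485)))))) (Tre.all_nd (Tre.all_nd (Tre.all_nd (Tre.all_nd (Tre.all_lf (batP_ok par7_ok wc1305462_21)) (Tre.all_lf (batP_ok par7_ok wc1305462_277))) (Tre.all_nd (Tre.all_lf (batP_ok par7_ok wc1305462_149)) (Tre.all_lf (batP_ok par7_ok wc1305462_405)))) (Tre.all_nd (Tre.all_nd (Tre.all_lf (batP_ok par7_ok wc1305462_85)) (Tre.all_lf (batP_ok par7_ok wc1305462_341))) (Tre.all_nd (Tre.all_lf (batP_ok par7_ok wc1305462_213)) (Tre.all_lf (batP_ok par7_ok wc1305462_469))))) (Tre.all_nd (Tre.all_nd (Tre.all_nd (Tre.all_lf (batP_ok par7_ok wc1305462_53)) (Tre.all_lf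 (batP_ok par7_ok wc1305462_309))) (Tre.all_nd (Tre.all_lf (batP_ok par7_ok wc1305462_181)) (Tre.all_lf (batP_ok par7_ok wc1305462_437)))) (Tre.all_nd (Tre.all_nd (Tre.all_lf (batP_ok par7_ok wc1305462_117)) (Tre.all_lf (batP_ok par7_ok wc1305462_373))) (Tre.all_nd (Tre.all_lf (batP_ok par7_ok wc1305462_245)) (Tre.all_lf (batP_ok par7_ok wc1305462_501))))))) (Tre.all_nd (Tre.all_nd (Tre.all_nd (Tre.all_nd (Tre.all_nd (Tre.all_lf (batP_ok par7_ok wc1305462_13)) (Tre.all_lf (batP_ok par7_ok wc1305462_269))) (Tre.all_nd (Tre.all_lf (batP_ok par7_ok wc1305462_141)) (Tre.all_lf (batP_ok par7_ok wc1305462_397)))) (Tre.all_nd (Tre.all_nd (Tre.all_lf (batP_ok par7_ok wc1305462_77)) (Tre.all_lf (batP_ok par7_ok wc1305462_333))) (Tre.all_nd (Tre.all_lf (batP_ok par7_ok wc1305462_205)) (Tre.all_lf (batP_ok par7_ok wc1305462_461))))) (Tre.all_nd (Tre.all_nd (Tre.all_nd (Tre.all_lf (batP_ok par7_ok wc1305462_45)) (Tre.all_lf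 (batP_ok par7_ok wc1305462_301))) (Tre.all_nd (Tre.all_lf (batP_ok par7_ok wc1305462_173)) (Tre.all_lf (batP_ok par7_ok wc1305462_429)))) (Tre.all_nd (Tre.all_nd (Tre.all_lf (batP_ok par7_ok wc1305462_109)) (Tre.all_lf (batP_ok par7_ok wc1305462_365))) (Tre.all_nd (Tre.all_lf (batP_ok par7_ok wc1305462_237)) (Tre.all_lf (batP_ok par7_ok wc1305462_493)))))) (Tre.all_nd (Tre.all_nd (Tre.all_nd (Tre.all_nd (Tre.all_lf (batP_ok par7_ok wc1305462_29)) (Tre.all_lf (batP_ok par7_ok wc1305462_285))) (Tre.all_nd (Tre.all_lf (batP_ok par7_ok wc1305462_157)) (Tre.all_lf (batP_ok par7_ok wc1305462_413)))) (Tre.all_nd (Tre.all_nd (Tre.all_lf (batP_ok par7_ok wc1305462_93)) (Tre.all_lf (batP_ok par7_ok wc1305462_349))) (Tre.all_nd (Tre.all_lf (batP_ok par7_ok wc1305462_221)) (Tre.all_lf (batP_ok par7_ok wc1305462_477))))) (Tre.all_nd (Tre.all_nd (Tre.all_nd (Tre.all_lf (batP_ok par7_ok wc1305462_61)) (Tre.all_lf (batP_ok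 par7_ok wc1305462_317))) (Tre.all_nd (Tre.all_lf (batP_ok par7_ok wc1305462_189)) (Tre.all_lf (batP_ok par7_ok wc1305462_445)))) (Tre.all_nd (Tre.all_nd (Tre.all_lf (batP_ok par7_ok wc1305462_125)) (Tre.all_lf (batP_ok par7_ok wc1305462_381))) (Tre.all_lf (batP_ok par7_ok wc1305462_253))))))

theorem afc130546210 : Tre.All (PceOK par7 c1305462.VT) fc130546210 := Tre.all_nd afc1305462100 afc1305462101

theorem afc1305462110 : Tre.All (PceOK par7 c1305462.VT) fc1305462110 := Tre.all_nd (Tre.all_nd (Tre.all_nd (Tre.all_nd (Tre.all_nd (Tre.all_nd (Tre.all_lf (batP_ok par7_ok wc1305462_3)) (Tre.all_lf (batP_ok par7_ok wc1305462_259))) (Tre.all_nd (Tre.all_lf (batP_ok par7_ok wc1305462_131)) (Tre.all_lf (batP_ok par7_ok wc1305462_387)))) (Tre.all_nd (Tre.all_nd (Tre.all_lf (batP_ok par7_ok wc1305462_67)) (Tre.all_lf (batP_ok par7_ok wc1305462_323))) (Tre.all_nd (Tre.all_lf (batP_ok par7_ok wc1305462_195)) (Tre.all_lf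 (batP_ok par7_ok wc1305462_451))))) (Tre.all_nd (Tre.all_nd (Tre.all_nd (Tre.all_lf (batP_ok par7_ok wc1305462_35)) (Tre.all_lf (batP_ok par7_ok wc1305462_291))) (Tre.all_nd (Tre.all_lf (batP_ok par7_ok wc1305462_163)) (Tre.all_lf (batP_ok par7_ok wc1305462_419)))) (Tre.all_nd (Tre.all_nd (Tre.all_lf (batP_ok par7_ok wc1305462_99)) (Tre.all_lf (batP_ok par7_ok wc1305462_355))) (Tre.all_nd (Tre.all_lf (batP_ok par7_ok wc1305462_227)) (Tre.all_lf (batP_ok par7_ok wc1305462_483)))))) (Tre.all_nd (Tre.all_nd (Tre.all_nd (Tre.all_nd (Tre.all_lf (batP_ok par7_ok wc1305462_19)) (Tre.all_lf (batP_ok par7_ok wc1305462_275))) (Tre.all_nd (Tre.all_lf (batP_ok par7_ok wc1305462_147)) (Tre.all_lf (batP_ok par7_ok wc1305462_403)))) (Tre.all_nd (Tre.all_nd (Tre.all_lf (batP_ok par7_ok wc1305462_83)) (Tre.all_lf (batP_ok par7_ok wc1305462_339))) (Tre.all_nd (Tre.all_lf (batP_ok par7_ok wc1305462_211)) (Tre.all_lf (batP_ok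 par7_ok wc1305462_467))))) (Tre.all_nd (Tre.all_nd (Tre.all_nd (Tre.all_lf (batP_ok par7_ok wc1305462_51)) (Tre.all_lf (batP_ok par7_ok wc1305462_307))) (Tre.all_nd (Tre.all_lf (batP_ok par7_ok wc1305462_179)) (Tre.all_lf (batP_ok par7_ok wc1305462_435)))) (Tre.all_nd (Tre.all_nd (Tre.all_lf (batP_ok par7_ok wc1305462_115)) (Tre.all_lf (batP_ok par7_ok wc1305462_371))) (Tre.all_nd (Tre.all_lf (batP_ok par7_ok wc1305462_243)) (Tre.all_lf (batP_ok par7_ok wc1305462_499))))))) (Tre.all_nd (Tre.all_nd (Tre.all_nd (Tre.all_nd (Tre.all_nd (Tre.all_lf (batP_ok par7_ok wc1305462_11)) (Tre.all_lf (batP_ok par7_ok wc1305462_267))) (Tre.all_nd (Tre.all_lf (batP_ok par7_ok wc1305462_139)) (Tre.all_lf (batP_ok par7_ok wc1305462_395)))) (Tre.all_nd (Tre.all_nd (Tre.all_lf (batP_ok par7_ok wc1305462_75)) (Tre.all_lf (batP_ok par7_ok wc1305462_331))) (Tre.all_nd (Tre.all_lf (batP_ok par7_ok wc1305462_203)) (Tre.all_lf (batP_ok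 par7_ok wc1305462_459))))) (Tre.all_nd (Tre.all_nd (Tre.all_nd (Tre.all_lf (batP_ok par7_ok wc1305462_43)) (Tre.all_lf (batP_ok par7_ok wc1305462_299))) (Tre.all_nd (Tre.all_lf (batP_ok par7_ok wc1305462_171)) (Tre.all_lf (batP_ok par7_ok wc1305462_427)))) (Tre.all_nd (Tre.all_nd (Tre.all_lf (batP_ok par7_ok wc1305462_107)) (Tre.all_lf (batP_ok par7_ok wc1305462_363))) (Tre.all_nd (Tre.all_lf (batP_ok par7_ok wc1305462_235)) (Tre.all_lf (batP_ok par7_ok wc1305462_491)))))) (Tre.all_nd (Tre.all_nd (Tre.all_nd (Tre.all_nd (Tre.all_lf (batP_ok par7_ok wc1305462_27)) (Tre.all_lf (batP_ok par7_ok wc1305462_283))) (Tre.all_nd (Tre.all_lf (batP_ok par7_ok wc1305462_155)) (Tre.all_lf (batP_ok par7_ok wc1305462_411)))) (Tre.all_nd (Tre.all_nd (Tre.all_lf (batP_ok par7_ok wc1305462_91)) (Tre.all_lf (batP_ok par7_ok wc1305462_347))) (Tre.all_nd (Tre.all_lf (batP_ok par7_ok wc1305462_219)) (Tre.all_lf (batP_ok par7_ok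 wc1305462_475))))) (Tre.all_nd (Tre.all_nd (Tre.all_nd (Tre.all_lf (batP_ok par7_ok wc1305462_59)) (Tre.all_lf (batP_ok par7_ok wc1305462_315))) (Tre.all_nd (Tre.all_lf (batP_ok par7_ok wc1305462_187)) (Tre.all_lf (batP_ok par7_ok wc1305462_443)))) (Tre.all_nd (Tre.all_nd (Tre.all_lf (batP_ok par7_ok wc1305462_123)) (Tre.all_lf (batP_ok par7_ok wc1305462_379))) (Tre.all_nd (Tre.all_lf (batP_ok par7_ok wc1305462_251)) (Tre.all_lf (batP_ok par7_ok wc1305462_507)))))))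

theorem afc1305462111 : Tre.All (PceOK par7 c1305462.VT) fc1305462111 := Tre.all_nd (Tre.all_nd (Tre.all_nd (Tre.all_nd (Tre.all_nd (Tre.all_nd (Tre.all_lf (batP_ok par7_ok wc1305462_7)) (Tre.all_lf (batP_ok par7_ok wc1305462_263))) (Tre.all_nd (Tre.all_lf (batP_ok par7_ok wc1305462_135)) (Tre.all_lf (batP_ok par7_ok wc1305462_391)))) (Tre.all_nd (Tre.all_nd (Tre.all_lf (batP_ok par7_ok wc1305462_71)) (Tre.all_lf (batP_ok par7_ok wc1305462_327))) (Tre.all_nd (Tre.all_lf (batP_ok par7_ok wc1305462_199)) (Tre.all_lf (batP_ok par7_ok wc1305462_455))))) (Tre.all_nd (Tre.all_nd (Tre.all_nd (Tre.all_lf (batP_ok par7_ok wc1305462_39)) (Tre.all_lf (batP_ok par7_ok wc1305462_295))) (Tre.all_nd (Tre.all_lf (batP_ok par7_ok wc1305462_167)) (Tre.all_lf (batP_ok par7_ok wc1305462_423)))) (Tre.all_nd (Tre.all_nd (Tre.all_lf (batP_ok par7_ok wc1305462_103)) (Tre.all_lf (batP_ok par7_ok wc1305462_359))) (Tre.all_nd (Tre.all_lf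 (batP_ok par7_ok wc1305462_231)) (Tre.all_lf (batP_ok par7_ok wc1305462_487)))))) (Tre.all_nd (Tre.all_nd (Tre.all_nd (Tre.all_nd (Tre.all_lf (batP_ok par7_ok wc1305462_23)) (Tre.all_lf (batP_ok par7_ok wc1305462_279))) (Tre.all_nd (Tre.all_lf (batP_ok par7_ok wc1305462_151)) (Tre.all_lf (batP_ok par7_ok wc1305462_407)))) (Tre.all_nd (Tre.all_nd (Tre.all_lf (batP_ok par7_ok wc1305462_87)) (Tre.all_lf (batP_ok par7_ok wc1305462_343))) (Tre.all_nd (Tre.all_lf (batP_ok par7_ok wc1305462_215)) (Tre.all_lf (batP_ok par7_ok wc1305462_471))))) (Tre.all_nd (Tre.all_nd (Tre.all_nd (Tre.all_lf (batP_ok par7_ok wc1305462_55)) (Tre.all_lf (batP_ok par7_ok wc1305462_311))) (Tre.all_nd (Tre.all_lf (batP_ok par7_ok wc1305462_183)) (Tre.all_lf (batP_ok par7_ok wc1305462_439)))) (Tre.all_nd (Tre.all_nd (Tre.all_lf (batP_ok par7_ok wc1305462_119)) (Tre.all_lf (batP_ok par7_ok wc1305462_375))) (Tre.all_nd (Tre.all_lf (batP_ok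 par7_ok wc1305462_247)) (Tre.all_lf (batP_ok par7_ok wc1305462_503))))))) (Tre.all_nd (Tre.all_nd (Tre.all_nd (Tre.all_nd (Tre.all_nd (Tre.all_lf (batP_ok par7_ok wc1305462_15)) (Tre.all_lf (batP_ok par7_ok wc1305462_271))) (Tre.all_nd (Tre.all_lf (batP_ok par7_ok wc1305462_143)) (Tre.all_lf (batP_ok par7_ok wc1305462_399)))) (Tre.all_nd (Tre.all_nd (Tre.all_lf (batP_ok par7_ok wc1305462_79)) (Tre.all_lf (batP_ok par7_ok wc1305462_335))) (Tre.all_nd (Tre.all_lf (batP_ok par7_ok wc1305462_207)) (Tre.all_lf (batP_ok par7_ok wc1305462_463))))) (Tre.all_nd (Tre.all_nd (Tre.all_nd (Tre.all_lf (batP_ok par7_ok wc1305462_47)) (Tre.all_lf (batP_ok par7_ok wc1305462_303))) (Tre.all_nd (Tre.all_lf (batP_ok par7_ok wc1305462_175)) (Tre.all_lf (batP_ok par7_ok wc1305462_431)))) (Tre.all_nd (Tre.all_nd (Tre.all_lf (batP_ok par7_ok wc1305462_111)) (Tre.all_lf (batP_ok par7_ok wc1305462_367))) (Tre.all_nd (Tre.all_lf (batP_ok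 par7_ok wc1305462_239)) (Tre.all_lf (batP_ok par7_ok wc1305462_495)))))) (Tre.all_nd (Tre.all_nd (Tre.all_nd (Tre.all_nd (Tre.all_lf (batP_ok par7_ok wc1305462_31)) (Tre.all_lf (batP_ok par7_ok wc1305462_287))) (Tre.all_nd (Tre.all_lf (batP_ok par7_ok wc1305462_159)) (Tre.all_lf (batP_ok par7_ok wc1305462_415)))) (Tre.all_nd (Tre.all_nd (Tre.all_lf (batP_ok par7_ok wc1305462_95)) (Tre.all_lf (batP_ok par7_ok wc1305462_351))) (Tre.all_nd (Tre.all_lf (batP_ok par7_ok wc1305462_223)) (Tre.all_lf (batP_ok par7_ok wc1305462_479))))) (Tre.all_nd (Tre.all_nd (Tre.all_nd (Tre.all_lf (batP_ok par7_ok wc1305462_63)) (Tre.all_lf (batP_ok par7_ok wc1305462_319))) (Tre.all_nd (Tre.all_lf (batP_ok par7_ok wc1305462_191)) (Tre.all_lf (batP_ok par7_ok wc1305462_447)))) (Tre.all_nd (Tre.all_nd (Tre.all_lf (batP_ok par7_ok wc1305462_127)) (Tre.all_lf (batP_ok par7_ok wc1305462_383))) (Tre.all_lf (batP_ok par7_ok wc1305462_255))))))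

theorem afc130546211 : Tre.All (PceOK par7 c1305462.VT) fc130546211 := Tre.all_nd afc1305462110 afc1305462111

theorem afc13054621 : Tre.All (PceOK par7 c1305462.VT) fc13054621 := Tre.all_nd afc130546210 afc130546211

theorem afc1305462 : Tre.All (PceOK par7 c1305462.VT) fc1305462 := Tre.all_nd afc13054620 afc13054621

theorem rac1305462_0 : RA c1305462 fc1305462 0 := ra_zero

theorem rac1305462_103 : RA c1305462 fc1305462 103 := ra_rng rac1305462_0 ec1305462_0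

theorem rac1305462_187 : RA c1305462 fc1305462 187 := ra_rng rac1305462_103 ec1305462_103

theorem rac1305462_301 : RA c1305462 fc1305462 301 := ra_rng rac1305462_187 ec1305462_187

theorem rac1305462_509 : RA c1305462 fc1305462 509 := ra_rng rac1305462_301 ec1305462_301

theorem kc1305462 : clsOK par7.d c1305462 = true := by decide +kernel

theorem dead_c1305462 : ClsD par7 c1305462 := clsD_of kc1305462 afc1305462 rac1305462_509

end Pool.Agent.RTX
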