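import Pool.Agent.RTS7.W_1324605_0
import Pool.Agent.RTS7.W_1324605_1
import Pool.Agent.RTS7.W_1324605_2
import Pool.Agent.RTS7.E_1324605_0

/-!
# RTS7: class of the permutation 1324605
-/

set_option autoImplicit false
set_option maxRecDepth 100000

namespace Pool.Agent.RTX

theorem afc1324605000 : Tre.All (PceOK par7 c1324605.VT) fc1324605000 := Tre.all_nd (Tre.all_nd (Tre.all_nd (Tre.all_nd (Tre.all_nd (Tre.all_nd (Tre.all_lf (batP_ok par7_ok wc1324605_0)) (Tre.all_lf (batP_ok par7_ok wc1324605_256))) (Tre.all_lf (batP_ok par7_ok wc1324605_128))) (Tre.all_nd (Tre.all_lf (batP_ok par7_ok wc1324605_64)) (Tre.all_lf (batP_ok par7_ok wc1324605_192)))) (Tre.all_nd (Tre.all_nd (Tre.all_nd (Tre.all_lf (batP_ok par7_ok wc1324605_32)) (Tre.all_lf (batP_ok par7_ok wc1324605_288))) (Tre.all_lf (batP_ok par7_ok wc1324605_160))) (Tre.all_nd (Tre.all_lf (batP_ok par7_ok wc1324605_96)) (Tre.all_lf (batP_ok par7_ok wc1324605_224)))))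 (Tre.all_nd (Tre.all_nd (Tre.all_nd (Tre.all_nd (Tre.all_lf (batP_ok par7_ok wc1324605_16)) (Tre.all_lf (batP_ok par7_ok wc1324605_272))) (Tre.all_lf (batP_ok par7_ok wc1324605_144))) (Tre.all_nd (Tre.all_lf (batP_ok par7_ok wc1324605_80)) (Tre.all_lf (batP_ok par7_ok wc1324605_208)))) (Tre.all_nd (Tre.all_nd (Tre.all_lf (batP_ok par7_ok wc1324605_48)) (Tre.all_lf (batP_ok par7_ok wc1324605_176))) (Tre.all_nd (Tre.all_lf (batP_ok par7_ok wc1324605_112)) (Tre.all_lf (batP_ok par7_ok wc1324605_240)))))) (Tre.all_nd (Tre.all_nd (Tre.all_nd (Tre.all_nd (Tre.all_nd (Tre.all_lf (batP_ok par7_ok wc1324605_8)) (Tre.all_lf (batP_ok par7_ok wc1324605_264))) (Tre.all_lf (batP_ok par7_ok wc1324605_136))) (Tre.all_nd (Tre.all_lf (batP_ok par7_ok wc1324605_72)) (Tre.all_lf (batP_ok par7_ok wc1324605_200)))) (Tre.all_nd (Tre.all_nd (Tre.all_lf (batP_ok par7_ok wc1324605_40)) (Tre.all_lf (batP_ok par7_ok wc1324605_168))) (Tre.all_nd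 (Tre.all_lf (batP_ok par7_ok wc1324605_104)) (Tre.all_lf (batP_ok par7_ok wc1324605_232))))) (Tre.all_nd (Tre.all_nd (Tre.all_nd (Tre.all_nd (Tre.all_lf (batP_ok par7_ok wc1324605_24)) (Tre.all_lf (batP_ok par7_ok wc1324605_280))) (Tre.all_lf (batP_ok par7_ok wc1324605_152))) (Tre.all_nd (Tre.all_lf (batP_ok par7_ok wc1324605_88)) (Tre.all_lf (batP_ok par7_ok wc1324605_216)))) (Tre.all_nd (Tre.all_nd (Tre.all_lf (batP_ok par7_ok wc1324605_56)) (Tre.all_lf (batP_ok par7_ok wc1324605_184))) (Tre.all_nd (Tre.all_lf (batP_ok par7_ok wc1324605_120)) (Tre.all_lf (batP_ok par7_ok wc1324605_248))))))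

theorem afc1324605001 : Tre.All (PceOK par7 c1324605.VT) fc1324605001 := Tre.all_nd (Tre.all_nd (Tre.all_nd (Tre.all_nd (Tre.all_nd (Tre.all_nd (Tre.all_lf (batP_ok par7_ok wc1324605_4)) (Tre.all_lf (batP_ok par7_ok wc1324605_260))) (Tre.all_lf (batP_ok par7_ok wc1324605_132))) (Tre.all_nd (Tre.all_lf (batP_ok par7_ok wc1324605_68)) (Tre.all_lf (batP_ok par7_ok wc1324605_196)))) (Tre.all_nd (Tre.all_nd (Tre.all_nd (Tre.all_lf (batP_ok par7_ok wc1324605_36)) (Tre.all_lf (batP_ok par7_ok wc1324605_292))) (Tre.all_lf (batP_ok par7_ok wc1324605_164))) (Tre.all_nd (Tre.all_lf (batP_ok par7_ok wc1324605_100)) (Tre.all_lf (batP_ok par7_ok wc1324605_228))))) (Tre.all_nd (Tre.all_nd (Tre.all_nd (Tre.all_nd (Tre.all_lf (batP_ok par7_ok wc1324605_20)) (Tre.all_lf (batP_ok par7_ok wc1324605_276))) (Tre.all_lf (batP_ok par7_ok wc1324605_148))) (Tre.all_nd (Tre.all_lf (batP_ok par7_ok wc1324605_84)) (Tre.all_lf (batP_ok par7_ok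 wc1324605_212)))) (Tre.all_nd (Tre.all_nd (Tre.all_lf (batP_ok par7_ok wc1324605_52)) (Tre.all_lf (batP_ok par7_ok wc1324605_180))) (Tre.all_nd (Tre.all_lf (batP_ok par7_ok wc1324605_116)) (Tre.all_lf (batP_ok par7_ok wc1324605_244)))))) (Tre.all_nd (Tre.all_nd (Tre.all_nd (Tre.all_nd (Tre.all_nd (Tre.all_lf (batP_ok par7_ok wc1324605_12)) (Tre.all_lf (batP_ok par7_ok wc1324605_268))) (Tre.all_lf (batP_ok par7_ok wc1324605_140))) (Tre.all_nd (Tre.all_lf (batP_ok par7_ok wc1324605_76)) (Tre.all_lf (batP_ok par7_ok wc1324605_204)))) (Tre.all_nd (Tre.all_nd (Tre.all_lf (batP_ok par7_ok wc1324605_44)) (Tre.all_lf (batP_ok par7_ok wc1324605_172))) (Tre.all_nd (Tre.all_lf (batP_ok par7_ok wc1324605_108)) (Tre.all_lf (batP_ok par7_ok wc1324605_236))))) (Tre.all_nd (Tre.all_nd (Tre.all_nd (Tre.all_nd (Tre.all_lf (batP_ok par7_ok wc1324605_28)) (Tre.all_lf (batP_ok par7_ok wc1324605_284))) (Tre.all_lf (batP_ok par7_ok wc1324605_156)))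 (Tre.all_nd (Tre.all_lf (batP_ok par7_ok wc1324605_92)) (Tre.all_lf (batP_ok par7_ok wc1324605_220)))) (Tre.all_nd (Tre.all_nd (Tre.all_lf (batP_ok par7_ok wc1324605_60)) (Tre.all_lf (batP_ok par7_ok wc1324605_188))) (Tre.all_nd (Tre.all_lf (batP_ok par7_ok wc1324605_124)) (Tre.all_lf (batP_ok par7_ok wc1324605_252))))))

theorem afc132460500 : Tre.All (PceOK par7 c1324605.VT) fc132460500 := Tre.all_nd afc1324605000 afc1324605001

theorem afc1324605010 : Tre.All (PceOK par7 c1324605.VT) fc1324605010 := Tre.all_nd (Tre.all_nd (Tre.all_nd (Tre.all_nd (Tre.all_nd (Tre.all_nd (Tre.all_lf (batP_ok par7_ok wc1324605_2)) (Tre.all_lf (batP_ok par7_ok wc1324605_258))) (Tre.all_lf (batP_ok par7_ok wc1324605_130))) (Tre.all_nd (Tre.all_lf (batP_ok par7_ok wc1324605_66)) (Tre.all_lf (batP_ok par7_ok wc1324605_194)))) (Tre.all_nd (Tre.all_nd (Tre.all_nd (Tre.all_lf (batP_ok par7_ok wc1324605_34)) (Tre.all_lf (batP_ok par7_ok wc1324605_290)))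 (Tre.all_lf (batP_ok par7_ok wc1324605_162))) (Tre.all_nd (Tre.all_lf (batP_ok par7_ok wc1324605_98)) (Tre.all_lf (batP_ok par7_ok wc1324605_226))))) (Tre.all_nd (Tre.all_nd (Tre.all_nd (Tre.all_nd (Tre.all_lf (batP_ok par7_ok wc1324605_18)) (Tre.all_lf (batP_ok par7_ok wc1324605_274))) (Tre.all_lf (batP_ok par7_ok wc1324605_146))) (Tre.all_nd (Tre.all_lf (batP_ok par7_ok wc1324605_82)) (Tre.all_lf (batP_ok par7_ok wc1324605_210)))) (Tre.all_nd (Tre.all_nd (Tre.all_lf (batP_ok par7_ok wc1324605_50)) (Tre.all_lf (batP_ok par7_ok wc1324605_178))) (Tre.all_nd (Tre.all_lf (batP_ok par7_ok wc1324605_114)) (Tre.all_lf (batP_ok par7_ok wc1324605_242)))))) (Tre.all_nd (Tre.all_nd (Tre.all_nd (Tre.all_nd (Tre.all_nd (Tre.all_lf (batP_ok par7_ok wc1324605_10)) (Tre.all_lf (batP_ok par7_ok wc1324605_266))) (Tre.all_lf (batP_ok par7_ok wc1324605_138))) (Tre.all_nd (Tre.all_lf (batP_ok par7_ok wc1324605_74)) (Tre.all_lf (batP_ok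 par7_ok wc1324605_202)))) (Tre.all_nd (Tre.all_nd (Tre.all_lf (batP_ok par7_ok wc1324605_42)) (Tre.all_lf (batP_ok par7_ok wc1324605_170))) (Tre.all_nd (Tre.all_lf (batP_ok par7_ok wc1324605_106)) (Tre.all_lf (batP_ok par7_ok wc1324605_234))))) (Tre.all_nd (Tre.all_nd (Tre.all_nd (Tre.all_nd (Tre.all_lf (batP_ok par7_ok wc1324605_26)) (Tre.all_lf (batP_ok par7_ok wc1324605_282))) (Tre.all_lf (batP_ok par7_ok wc1324605_154))) (Tre.all_nd (Tre.all_lf (batP_ok par7_ok wc1324605_90)) (Tre.all_lf (batP_ok par7_ok wc1324605_218)))) (Tre.all_nd (Tre.all_nd (Tre.all_lf (batP_ok par7_ok wc1324605_58)) (Tre.all_lf (batP_ok par7_ok wc1324605_186))) (Tre.all_nd (Tre.all_lf (batP_ok par7_ok wc1324605_122)) (Tre.all_lf (batP_ok par7_ok wc1324605_250))))))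

theorem afc1324605011 : Tre.All (PceOK par7 c1324605.VT) fc1324605011 := Tre.all_nd (Tre.all_nd (Tre.all_nd (Tre.all_nd (Tre.all_nd (Tre.all_nd (Tre.all_lf (batP_ok par7_ok wc1324605_6)) (Tre.all_lf (batP_ok par7_ok wc1324605_262))) (Tre.all_lf (batP_ok par7_ok wc1324605_134))) (Tre.all_nd (Tre.all_lf (batP_ok par7_ok wc1324605_70)) (Tre.all_lf (batP_ok par7_ok wc1324605_198)))) (Tre.all_nd (Tre.all_nd (Tre.all_lf (batP_ok par7_ok wc1324605_38)) (Tre.all_lf (batP_ok par7_ok wc1324605_166))) (Tre.all_nd (Tre.all_lf (batP_ok par7_ok wc1324605_102)) (Tre.all_lf (batP_ok par7_ok wc1324605_230))))) (Tre.all_nd (Tre.all_nd (Tre.all_nd (Tre.all_nd (Tre.all_lf (batP_ok par7_ok wc1324605_22)) (Tre.all_lf (batP_ok par7_ok wc1324605_278))) (Tre.all_lf (batP_ok par7_ok wc1324605_150))) (Tre.all_nd (Tre.all_lf (batP_ok par7_ok wc1324605_86)) (Tre.all_lf (batP_ok par7_ok wc1324605_214)))) (Tre.all_nd (Tre.all_nd (Tre.all_lf (batP_ok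 par7_ok wc1324605_54)) (Tre.all_lf (batP_ok par7_ok wc1324605_182))) (Tre.all_nd (Tre.all_lf (batP_ok par7_ok wc1324605_118)) (Tre.all_lf (batP_ok par7_ok wc1324605_246)))))) (Tre.all_nd (Tre.all_nd (Tre.all_nd (Tre.all_nd (Tre.all_nd (Tre.all_lf (batP_ok par7_ok wc1324605_14)) (Tre.all_lf (batP_ok par7_ok wc1324605_270))) (Tre.all_lf (batP_ok par7_ok wc1324605_142))) (Tre.all_nd (Tre.all_lf (batP_ok par7_ok wc1324605_78)) (Tre.all_lf (batP_ok par7_ok wc1324605_206)))) (Tre.all_nd (Tre.all_nd (Tre.all_lf (batP_ok par7_ok wc1324605_46)) (Tre.all_lf (batP_ok par7_ok wc1324605_174))) (Tre.all_nd (Tre.all_lf (batP_ok par7_ok wc1324605_110)) (Tre.all_lf (batP_ok par7_ok wc1324605_238))))) (Tre.all_nd (Tre.all_nd (Tre.all_nd (Tre.all_nd (Tre.all_lf (batP_ok par7_ok wc1324605_30)) (Tre.all_lf (batP_ok par7_ok wc1324605_286))) (Tre.all_lf (batP_ok par7_ok wc1324605_158))) (Tre.all_nd (Tre.all_lf (batP_ok par7_ok wc1324605_94))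 (Tre.all_lf (batP_ok par7_ok wc1324605_222)))) (Tre.all_nd (Tre.all_nd (Tre.all_lf (batP_ok par7_ok wc1324605_62)) (Tre.all_lf (batP_ok par7_ok wc1324605_190))) (Tre.all_nd (Tre.all_lf (batP_ok par7_ok wc1324605_126)) (Tre.all_lf (batP_ok par7_ok wc1324605_254))))))

theorem afc132460501 : Tre.All (PceOK par7 c1324605.VT) fc132460501 := Tre.all_nd afc1324605010 afc1324605011

theorem afc13246050 : Tre.All (PceOK par7 c1324605.VT) fc13246050 := Tre.all_nd afc132460500 afc132460501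

theorem afc1324605100 : Tre.All (PceOK par7 c1324605.VT) fc1324605100 := Tre.all_nd (Tre.all_nd (Tre.all_nd (Tre.all_nd (Tre.all_nd (Tre.all_nd (Tre.all_lf (batP_ok par7_ok wc1324605_1)) (Tre.all_lf (batP_ok par7_ok wc1324605_257))) (Tre.all_lf (batP_ok par7_ok wc1324605_129))) (Tre.all_nd (Tre.all_lf (batP_ok par7_ok wc1324605_65)) (Tre.all_lf (batP_ok par7_ok wc1324605_193)))) (Tre.all_nd (Tre.all_nd (Tre.all_nd (Tre.all_lf (batP_ok par7_ok wc1324605_33)) (Tre.all_lf (batP_ok par7_ok wc1324605_289))) (Tre.all_lf (batP_ok par7_ok wc1324605_161))) (Tre.all_nd (Tre.all_lf (batP_ok par7_ok wc1324605_97)) (Tre.all_lf (batP_ok par7_ok wc1324605_225))))) (Tre.all_nd (Tre.all_nd (Tre.all_nd (Tre.all_nd (Tre.all_lf (batP_ok par7_ok wc1324605_17)) (Tre.all_lf (batP_ok par7_ok wc1324605_273))) (Tre.all_lf (batP_ok par7_ok wc1324605_145))) (Tre.all_nd (Tre.all_lf (batP_ok par7_ok wc1324605_81)) (Tre.all_lf (batP_ok par7_ok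 wc1324605_209)))) (Tre.all_nd (Tre.all_nd (Tre.all_lf (batP_ok par7_ok wc1324605_49)) (Tre.all_lf (batP_ok par7_ok wc1324605_177))) (Tre.all_nd (Tre.all_lf (batP_ok par7_ok wc1324605_113)) (Tre.all_lf (batP_ok par7_ok wc1324605_241)))))) (Tre.all_nd (Tre.all_nd (Tre.all_nd (Tre.all_nd (Tre.all_nd (Tre.all_lf (batP_ok par7_ok wc1324605_9)) (Tre.all_lf (batP_ok par7_ok wc1324605_265))) (Tre.all_lf (batP_ok par7_ok wc1324605_137))) (Tre.all_nd (Tre.all_lf (batP_ok par7_ok wc1324605_73)) (Tre.all_lf (batP_ok par7_ok wc1324605_201)))) (Tre.all_nd (Tre.all_nd (Tre.all_lf (batP_ok par7_ok wc1324605_41)) (Tre.all_lf (batP_ok par7_ok wc1324605_169))) (Tre.all_nd (Tre.all_lf (batP_ok par7_ok wc1324605_105)) (Tre.all_lf (batP_ok par7_ok wc1324605_233))))) (Tre.all_nd (Tre.all_nd (Tre.all_nd (Tre.all_nd (Tre.all_lf (batP_ok par7_ok wc1324605_25)) (Tre.all_lf (batP_ok par7_ok wc1324605_281))) (Tre.all_lf (batP_ok par7_ok wc1324605_153)))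 (Tre.all_nd (Tre.all_lf (batP_ok par7_ok wc1324605_89)) (Tre.all_lf (batP_ok par7_ok wc1324605_217)))) (Tre.all_nd (Tre.all_nd (Tre.all_lf (batP_ok par7_ok wc1324605_57)) (Tre.all_lf (batP_ok par7_ok wc1324605_185))) (Tre.all_nd (Tre.all_lf (batP_ok par7_ok wc1324605_121)) (Tre.all_lf (batP_ok par7_ok wc1324605_249))))))

theorem afc1324605101 : Tre.All (PceOK par7 c1324605.VT) fc1324605101 := Tre.all_nd (Tre.all_nd (Tre.all_nd (Tre.all_nd (Tre.all_nd (Tre.all_nd (Tre.all_lf (batP_ok par7_ok wc1324605_5)) (Tre.all_lf (batP_ok par7_ok wc1324605_261))) (Tre.all_lf (batP_ok par7_ok wc1324605_133))) (Tre.all_nd (Tre.all_lf (batP_ok par7_ok wc1324605_69)) (Tre.all_lf (batP_ok par7_ok wc1324605_197)))) (Tre.all_nd (Tre.all_nd (Tre.all_nd (Tre.all_lf (batP_ok par7_ok wc1324605_37)) (Tre.all_lf (batP_ok par7_ok wc1324605_293))) (Tre.all_lf (batP_ok par7_ok wc1324605_165))) (Tre.all_nd (Tre.all_lf (batP_ok par7_ok wc1324605_101))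 (Tre.all_lf (batP_ok par7_ok wc1324605_229))))) (Tre.all_nd (Tre.all_nd (Tre.all_nd (Tre.all_nd (Tre.all_lf (batP_ok par7_ok wc1324605_21)) (Tre.all_lf (batP_ok par7_ok wc1324605_277))) (Tre.all_lf (batP_ok par7_ok wc1324605_149))) (Tre.all_nd (Tre.all_lf (batP_ok par7_ok wc1324605_85)) (Tre.all_lf (batP_ok par7_ok wc1324605_213)))) (Tre.all_nd (Tre.all_nd (Tre.all_lf (batP_ok par7_ok wc1324605_53)) (Tre.all_lf (batP_ok par7_ok wc1324605_181))) (Tre.all_nd (Tre.all_lf (batP_ok par7_ok wc1324605_117)) (Tre.all_lf (batP_ok par7_ok wc1324605_245)))))) (Tre.all_nd (Tre.all_nd (Tre.all_nd (Tre.all_nd (Tre.all_nd (Tre.all_lf (batP_ok par7_ok wc1324605_13)) (Tre.all_lf (batP_ok par7_ok wc1324605_269))) (Tre.all_lf (batP_ok par7_ok wc1324605_141))) (Tre.all_nd (Tre.all_lf (batP_ok par7_ok wc1324605_77)) (Tre.all_lf (batP_ok par7_ok wc1324605_205)))) (Tre.all_nd (Tre.all_nd (Tre.all_lf (batP_ok par7_ok wc1324605_45)) (Tre.all_lf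 (batP_ok par7_ok wc1324605_173))) (Tre.all_nd (Tre.all_lf (batP_ok par7_ok wc1324605_109)) (Tre.all_lf (batP_ok par7_ok wc1324605_237))))) (Tre.all_nd (Tre.all_nd (Tre.all_nd (Tre.all_nd (Tre.all_lf (batP_ok par7_ok wc1324605_29)) (Tre.all_lf (batP_ok par7_ok wc1324605_285))) (Tre.all_lf (batP_ok par7_ok wc1324605_157))) (Tre.all_nd (Tre.all_lf (batP_ok par7_ok wc1324605_93)) (Tre.all_lf (batP_ok par7_ok wc1324605_221)))) (Tre.all_nd (Tre.all_nd (Tre.all_lf (batP_ok par7_ok wc1324605_61)) (Tre.all_lf (batP_ok par7_ok wc1324605_189))) (Tre.all_nd (Tre.all_lf (batP_ok par7_ok wc1324605_125)) (Tre.all_lf (batP_ok par7_ok wc1324605_253))))))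

theorem afc132460510 : Tre.All (PceOK par7 c1324605.VT) fc132460510 := Tre.all_nd afc1324605100 afc1324605101

theorem afc1324605110 : Tre.All (PceOK par7 c1324605.VT) fc1324605110 := Tre.all_nd (Tre.all_nd (Tre.all_nd (Tre.all_nd (Tre.all_nd (Tre.all_nd (Tre.all_lf (batP_ok par7_ok wc1324605_3)) (Tre.all_lf (batP_ok par7_ok wc1324605_259))) (Tre.all_lf (batP_ok par7_ok wc1324605_131))) (Tre.all_nd (Tre.all_lf (batP_ok par7_ok wc1324605_67)) (Tre.all_lf (batP_ok par7_ok wc1324605_195)))) (Tre.all_nd (Tre.all_nd (Tre.all_nd (Tre.all_lf (batP_ok par7_ok wc1324605_35)) (Tre.all_lf (batP_ok par7_ok wc1324605_291))) (Tre.all_lf (batP_ok par7_ok wc1324605_163))) (Tre.all_nd (Tre.all_lf (batP_ok par7_ok wc1324605_99)) (Tre.all_lf (batP_ok par7_ok wc1324605_227))))) (Tre.all_nd (Tre.all_nd (Tre.all_nd (Tre.all_nd (Tre.all_lf (batP_ok par7_ok wc1324605_19)) (Tre.all_lf (batP_ok par7_ok wc1324605_275))) (Tre.all_lf (batP_ok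 par7_ok wc1324605_147))) (Tre.all_nd (Tre.all_lf (batP_ok par7_ok wc1324605_83)) (Tre.all_lf (batP_ok par7_ok wc1324605_211)))) (Tre.all_nd (Tre.all_nd (Tre.all_lf (batP_ok par7_ok wc1324605_51)) (Tre.all_lf (batP_ok par7_ok wc1324605_179))) (Tre.all_nd (Tre.all_lf (batP_ok par7_ok wc1324605_115)) (Tre.all_lf (batP_ok par7_ok wc1324605_243)))))) (Tre.all_nd (Tre.all_nd (Tre.all_nd (Tre.all_nd (Tre.all_nd (Tre.all_lf (batP_ok par7_ok wc1324605_11)) (Tre.all_lf (batP_ok par7_ok wc1324605_267))) (Tre.all_lf (batP_ok par7_ok wc1324605_139))) (Tre.all_nd (Tre.all_lf (batP_ok par7_ok wc1324605_75)) (Tre.all_lf (batP_ok par7_ok wc1324605_203)))) (Tre.all_nd (Tre.all_nd (Tre.all_lf (batP_ok par7_ok wc1324605_43)) (Tre.all_lf (batP_ok par7_ok wc1324605_171))) (Tre.all_nd (Tre.all_lf (batP_ok par7_ok wc1324605_107)) (Tre.all_lf (batP_ok par7_ok wc1324605_235))))) (Tre.all_nd (Tre.all_nd (Tre.all_nd (Tre.all_nd (Tre.all_lf (batP_ok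 par7_ok wc1324605_27)) (Tre.all_lf (batP_ok par7_ok wc1324605_283))) (Tre.all_lf (batP_ok par7_ok wc1324605_155))) (Tre.all_nd (Tre.all_lf (batP_ok par7_ok wc1324605_91)) (Tre.all_lf (batP_ok par7_ok wc1324605_219)))) (Tre.all_nd (Tre.all_nd (Tre.all_lf (batP_ok par7_ok wc1324605_59)) (Tre.all_lf (batP_ok par7_ok wc1324605_187))) (Tre.all_nd (Tre.all_lf (batP_ok par7_ok wc1324605_123)) (Tre.all_lf (batP_ok par7_ok wc1324605_251))))))

theorem afc1324605111 : Tre.All (PceOK par7 c1324605.VT) fc1324605111 := Tre.all_nd (Tre.all_nd (Tre.all_nd (Tre.all_nd (Tre.all_nd (Tre.all_nd (Tre.all_lf (batP_ok par7_ok wc1324605_7)) (Tre.all_lf (batP_ok par7_ok wc1324605_263))) (Tre.all_lf (batP_ok par7_ok wc1324605_135))) (Tre.all_nd (Tre.all_lf (batP_ok par7_ok wc1324605_71)) (Tre.all_lf (batP_ok par7_ok wc1324605_199)))) (Tre.all_nd (Tre.all_nd (Tre.all_lf (batP_ok par7_ok wc1324605_39)) (Tre.all_lf (batP_ok par7_ok wc1324605_167)))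 (Tre.all_nd (Tre.all_lf (batP_ok par7_ok wc1324605_103)) (Tre.all_lf (batP_ok par7_ok wc1324605_231))))) (Tre.all_nd (Tre.all_nd (Tre.all_nd (Tre.all_nd (Tre.all_lf (batP_ok par7_ok wc1324605_23)) (Tre.all_lf (batP_ok par7_ok wc1324605_279))) (Tre.all_lf (batP_ok par7_ok wc1324605_151))) (Tre.all_nd (Tre.all_lf (batP_ok par7_ok wc1324605_87)) (Tre.all_lf (batP_ok par7_ok wc1324605_215)))) (Tre.all_nd (Tre.all_nd (Tre.all_lf (batP_ok par7_ok wc1324605_55)) (Tre.all_lf (batP_ok par7_ok wc1324605_183))) (Tre.all_nd (Tre.all_lf (batP_ok par7_ok wc1324605_119)) (Tre.all_lf (batP_ok par7_ok wc1324605_247)))))) (Tre.all_nd (Tre.all_nd (Tre.all_nd (Tre.all_nd (Tre.all_nd (Tre.all_lf (batP_ok par7_ok wc1324605_15)) (Tre.all_lf (batP_ok par7_ok wc1324605_271))) (Tre.all_lf (batP_ok par7_ok wc1324605_143))) (Tre.all_nd (Tre.all_lf (batP_ok par7_ok wc1324605_79)) (Tre.all_lf (batP_ok par7_ok wc1324605_207)))) (Tre.all_nd (Tre.all_nd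 (Tre.all_lf (batP_ok par7_ok wc1324605_47)) (Tre.all_lf (batP_ok par7_ok wc1324605_175))) (Tre.all_nd (Tre.all_lf (batP_ok par7_ok wc1324605_111)) (Tre.all_lf (batP_ok par7_ok wc1324605_239))))) (Tre.all_nd (Tre.all_nd (Tre.all_nd (Tre.all_nd (Tre.all_lf (batP_ok par7_ok wc1324605_31)) (Tre.all_lf (batP_ok par7_ok wc1324605_287))) (Tre.all_lf (batP_ok par7_ok wc1324605_159))) (Tre.all_nd (Tre.all_lf (batP_ok par7_ok wc1324605_95)) (Tre.all_lf (batP_ok par7_ok wc1324605_223)))) (Tre.all_nd (Tre.all_nd (Tre.all_lf (batP_ok par7_ok wc1324605_63)) (Tre.all_lf (batP_ok par7_ok wc1324605_191))) (Tre.all_nd (Tre.all_lf (batP_ok par7_ok wc1324605_127)) (Tre.all_lf (batP_ok par7_ok wc1324605_255))))))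

theorem afc132460511 : Tre.All (PceOK par7 c1324605.VT) fc132460511 := Tre.all_nd afc1324605110 afc1324605111

theorem afc13246051 : Tre.All (PceOK par7 c1324605.VT) fc13246051 := Tre.all_nd afc132460510 afc132460511

theorem afc1324605 : Tre.All (PceOK par7 c1324605.VT) fc1324605 := Tre.all_nd afc13246050 afc13246051

theorem rac1324605_0 : RA c1324605 fc1324605 0 := ra_zero

theorem rac1324605_37 : RA c1324605 fc1324605 37 := ra_rng rac1324605_0 ec1324605_0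

theorem rac1324605_49 : RA c1324605 fc1324605 49 := ra_rng rac1324605_37 ec1324605_37

theorem rac1324605_60 : RA c1324605 fc1324605 60 := ra_rng rac1324605_49 ec1324605_49

theorem rac1324605_73 : RA c1324605 fc1324605 73 := ra_rng rac1324605_60 ec1324605_60

theorem rac1324605_90 : RA c1324605 fc1324605 90 := ra_rng rac1324605_73 ec1324605_73

theorem rac1324605_102 : RA c1324605 fc1324605 102 := ra_rng rac1324605_90 ec1324605_90

theorem rac1324605_141 : RA c1324605 fc1324605 141 := ra_rng rac1324605_102 ec1324605_102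

theorem rac1324605_157 : RA c1324605 fc1324605 157 := ra_rng rac1324605_141 ec1324605_141

theorem rac1324605_199 : RA c1324605 fc1324605 199 := ra_rng rac1324605_157 ec1324605_157

theorem rac1324605_294 : RA c1324605 fc1324605 294 := ra_rng rac1324605_199 ec1324605_199

theorem kc1324605 : clsOK par7.d c1324605 = true := by decide +kernel

theorem dead_c1324605 : ClsD par7 c1324605 := clsD_of kc1324605 afc1324605 rac1324605_294

end Pool.Agent.RTX
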