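import Pool.Agent.RTS7.W_1325460_0
import Pool.Agent.RTS7.W_1325460_1
import Pool.Agent.RTS7.E_1325460_0

/-!
# RTS7: class of the permutation 1325460
-/

set_option autoImplicit false
set_option maxRecDepth 100000

namespace Pool.Agent.RTX

theorem afc132546000 : Tre.All (PceOK par7 c1325460.VT) fc132546000 := Tre.all_nd (Tre.all_nd (Tre.all_nd (Tre.all_nd (Tre.all_nd (Tre.all_nd (Tre.all_lf (batP_ok par7_ok wc1325460_0)) (Tre.all_lf (batP_ok par7_ok wc1325460_128))) (Tre.all_lf (batP_ok par7_ok wc1325460_64))) (Tre.all_nd (Tre.all_nd (Tre.all_lf (batP_ok par7_ok wc1325460_32)) (Tre.all_lf (batP_ok par7_ok wc1325460_160))) (Tre.all_lf (batP_ok par7_ok wc1325460_96)))) (Tre.all_nd (Tre.all_nd (Tre.all_nd (Tre.all_lf (batP_ok par7_ok wc1325460_16)) (Tre.all_lf (batP_ok par7_ok wc1325460_144))) (Tre.all_lf (batP_ok par7_ok wc1325460_80))) (Tre.all_nd (Tre.all_lf (batP_ok par7_ok wc1325460_48)) (Tre.all_lf (batP_ok par7_ok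 wc1325460_112))))) (Tre.all_nd (Tre.all_nd (Tre.all_nd (Tre.all_nd (Tre.all_lf (batP_ok par7_ok wc1325460_8)) (Tre.all_lf (batP_ok par7_ok wc1325460_136))) (Tre.all_lf (batP_ok par7_ok wc1325460_72))) (Tre.all_nd (Tre.all_nd (Tre.all_lf (batP_ok par7_ok wc1325460_40)) (Tre.all_lf (batP_ok par7_ok wc1325460_168))) (Tre.all_lf (batP_ok par7_ok wc1325460_104)))) (Tre.all_nd (Tre.all_nd (Tre.all_nd (Tre.all_lf (batP_ok par7_ok wc1325460_24)) (Tre.all_lf (batP_ok par7_ok wc1325460_152))) (Tre.all_lf (batP_ok par7_ok wc1325460_88))) (Tre.all_nd (Tre.all_lf (batP_ok par7_ok wc1325460_56)) (Tre.all_lf (batP_ok par7_ok wc1325460_120)))))) (Tre.all_nd (Tre.all_nd (Tre.all_nd (Tre.all_nd (Tre.all_nd (Tre.all_lf (batP_ok par7_ok wc1325460_4)) (Tre.all_lf (batP_ok par7_ok wc1325460_132))) (Tre.all_lf (batP_ok par7_ok wc1325460_68))) (Tre.all_nd (Tre.all_nd (Tre.all_lf (batP_ok par7_ok wc1325460_36)) (Tre.all_lf (batP_ok par7_ok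 wc1325460_164))) (Tre.all_lf (batP_ok par7_ok wc1325460_100)))) (Tre.all_nd (Tre.all_nd (Tre.all_nd (Tre.all_lf (batP_ok par7_ok wc1325460_20)) (Tre.all_lf (batP_ok par7_ok wc1325460_148))) (Tre.all_lf (batP_ok par7_ok wc1325460_84))) (Tre.all_nd (Tre.all_lf (batP_ok par7_ok wc1325460_52)) (Tre.all_lf (batP_ok par7_ok wc1325460_116))))) (Tre.all_nd (Tre.all_nd (Tre.all_nd (Tre.all_nd (Tre.all_lf (batP_ok par7_ok wc1325460_12)) (Tre.all_lf (batP_ok par7_ok wc1325460_140))) (Tre.all_lf (batP_ok par7_ok wc1325460_76))) (Tre.all_nd (Tre.all_nd (Tre.all_lf (batP_ok par7_ok wc1325460_44)) (Tre.all_lf (batP_ok par7_ok wc1325460_172))) (Tre.all_lf (batP_ok par7_ok wc1325460_108)))) (Tre.all_nd (Tre.all_nd (Tre.all_nd (Tre.all_lf (batP_ok par7_ok wc1325460_28)) (Tre.all_lf (batP_ok par7_ok wc1325460_156))) (Tre.all_lf (batP_ok par7_ok wc1325460_92))) (Tre.all_nd (Tre.all_lf (batP_ok par7_ok wc1325460_60)) (Tre.all_lf (batP_ok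 par7_ok wc1325460_124))))))

theorem afc132546001 : Tre.All (PceOK par7 c1325460.VT) fc132546001 := Tre.all_nd (Tre.all_nd (Tre.all_nd (Tre.all_nd (Tre.all_nd (Tre.all_nd (Tre.all_lf (batP_ok par7_ok wc1325460_2)) (Tre.all_lf (batP_ok par7_ok wc1325460_130))) (Tre.all_lf (batP_ok par7_ok wc1325460_66))) (Tre.all_nd (Tre.all_nd (Tre.all_lf (batP_ok par7_ok wc1325460_34)) (Tre.all_lf (batP_ok par7_ok wc1325460_162))) (Tre.all_lf (batP_ok par7_ok wc1325460_98)))) (Tre.all_nd (Tre.all_nd (Tre.all_nd (Tre.all_lf (batP_ok par7_ok wc1325460_18)) (Tre.all_lf (batP_ok par7_ok wc1325460_146))) (Tre.all_lf (batP_ok par7_ok wc1325460_82))) (Tre.all_nd (Tre.all_lf (batP_ok par7_ok wc1325460_50)) (Tre.all_lf (batP_ok par7_ok wc1325460_114))))) (Tre.all_nd (Tre.all_nd (Tre.all_nd (Tre.all_nd (Tre.all_lf (batP_ok par7_ok wc1325460_10)) (Tre.all_lf (batP_ok par7_ok wc1325460_138))) (Tre.all_lf (batP_ok par7_ok wc1325460_74))) (Tre.all_nd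 (Tre.all_nd (Tre.all_lf (batP_ok par7_ok wc1325460_42)) (Tre.all_lf (batP_ok par7_ok wc1325460_170))) (Tre.all_lf (batP_ok par7_ok wc1325460_106)))) (Tre.all_nd (Tre.all_nd (Tre.all_nd (Tre.all_lf (batP_ok par7_ok wc1325460_26)) (Tre.all_lf (batP_ok par7_ok wc1325460_154))) (Tre.all_lf (batP_ok par7_ok wc1325460_90))) (Tre.all_nd (Tre.all_lf (batP_ok par7_ok wc1325460_58)) (Tre.all_lf (batP_ok par7_ok wc1325460_122)))))) (Tre.all_nd (Tre.all_nd (Tre.all_nd (Tre.all_nd (Tre.all_nd (Tre.all_lf (batP_ok par7_ok wc1325460_6)) (Tre.all_lf (batP_ok par7_ok wc1325460_134))) (Tre.all_lf (batP_ok par7_ok wc1325460_70))) (Tre.all_nd (Tre.all_nd (Tre.all_lf (batP_ok par7_ok wc1325460_38)) (Tre.all_lf (batP_ok par7_ok wc1325460_166))) (Tre.all_lf (batP_ok par7_ok wc1325460_102)))) (Tre.all_nd (Tre.all_nd (Tre.all_nd (Tre.all_lf (batP_ok par7_ok wc1325460_22)) (Tre.all_lf (batP_ok par7_ok wc1325460_150))) (Tre.all_lf (batP_ok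 par7_ok wc1325460_86))) (Tre.all_nd (Tre.all_lf (batP_ok par7_ok wc1325460_54)) (Tre.all_lf (batP_ok par7_ok wc1325460_118))))) (Tre.all_nd (Tre.all_nd (Tre.all_nd (Tre.all_nd (Tre.all_lf (batP_ok par7_ok wc1325460_14)) (Tre.all_lf (batP_ok par7_ok wc1325460_142))) (Tre.all_lf (batP_ok par7_ok wc1325460_78))) (Tre.all_nd (Tre.all_nd (Tre.all_lf (batP_ok par7_ok wc1325460_46)) (Tre.all_lf (batP_ok par7_ok wc1325460_174))) (Tre.all_lf (batP_ok par7_ok wc1325460_110)))) (Tre.all_nd (Tre.all_nd (Tre.all_nd (Tre.all_lf (batP_ok par7_ok wc1325460_30)) (Tre.all_lf (batP_ok par7_ok wc1325460_158))) (Tre.all_lf (batP_ok par7_ok wc1325460_94))) (Tre.all_nd (Tre.all_lf (batP_ok par7_ok wc1325460_62)) (Tre.all_lf (batP_ok par7_ok wc1325460_126))))))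

theorem afc13254600 : Tre.All (PceOK par7 c1325460.VT) fc13254600 := Tre.all_nd afc132546000 afc132546001

theorem afc132546010 : Tre.All (PceOK par7 c1325460.VT) fc132546010 := Tre.all_nd (Tre.all_nd (Tre.all_nd (Tre.all_nd (Tre.all_nd (Tre.all_nd (Tre.all_lf (batP_ok par7_ok wc1325460_1)) (Tre.all_lf (batP_ok par7_ok wc1325460_129))) (Tre.all_lf (batP_ok par7_ok wc1325460_65))) (Tre.all_nd (Tre.all_nd (Tre.all_lf (batP_ok par7_ok wc1325460_33)) (Tre.all_lf (batP_ok par7_ok wc1325460_161))) (Tre.all_lf (batP_ok par7_ok wc1325460_97)))) (Tre.all_nd (Tre.all_nd (Tre.all_nd (Tre.all_lf (batP_ok par7_ok wc1325460_17)) (Tre.all_lf (batP_ok par7_ok wc1325460_145))) (Tre.all_lf (batP_ok par7_ok wc1325460_81))) (Tre.all_nd (Tre.all_lf (batP_ok par7_ok wc1325460_49)) (Tre.all_lf (batP_ok par7_ok wc1325460_113))))) (Tre.all_nd (Tre.all_nd (Tre.all_nd (Tre.all_nd (Tre.all_lf (batP_ok par7_ok wc1325460_9)) (Tre.all_lf (batP_ok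 par7_ok wc1325460_137))) (Tre.all_lf (batP_ok par7_ok wc1325460_73))) (Tre.all_nd (Tre.all_nd (Tre.all_lf (batP_ok par7_ok wc1325460_41)) (Tre.all_lf (batP_ok par7_ok wc1325460_169))) (Tre.all_lf (batP_ok par7_ok wc1325460_105)))) (Tre.all_nd (Tre.all_nd (Tre.all_nd (Tre.all_lf (batP_ok par7_ok wc1325460_25)) (Tre.all_lf (batP_ok par7_ok wc1325460_153))) (Tre.all_lf (batP_ok par7_ok wc1325460_89))) (Tre.all_nd (Tre.all_lf (batP_ok par7_ok wc1325460_57)) (Tre.all_lf (batP_ok par7_ok wc1325460_121)))))) (Tre.all_nd (Tre.all_nd (Tre.all_nd (Tre.all_nd (Tre.all_nd (Tre.all_lf (batP_ok par7_ok wc1325460_5)) (Tre.all_lf (batP_ok par7_ok wc1325460_133))) (Tre.all_lf (batP_ok par7_ok wc1325460_69))) (Tre.all_nd (Tre.all_nd (Tre.all_lf (batP_ok par7_ok wc1325460_37)) (Tre.all_lf (batP_ok par7_ok wc1325460_165))) (Tre.all_lf (batP_ok par7_ok wc1325460_101)))) (Tre.all_nd (Tre.all_nd (Tre.all_nd (Tre.all_lf (batP_ok par7_ok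 wc1325460_21)) (Tre.all_lf (batP_ok par7_ok wc1325460_149))) (Tre.all_lf (batP_ok par7_ok wc1325460_85))) (Tre.all_nd (Tre.all_lf (batP_ok par7_ok wc1325460_53)) (Tre.all_lf (batP_ok par7_ok wc1325460_117))))) (Tre.all_nd (Tre.all_nd (Tre.all_nd (Tre.all_nd (Tre.all_lf (batP_ok par7_ok wc1325460_13)) (Tre.all_lf (batP_ok par7_ok wc1325460_141))) (Tre.all_lf (batP_ok par7_ok wc1325460_77))) (Tre.all_nd (Tre.all_nd (Tre.all_lf (batP_ok par7_ok wc1325460_45)) (Tre.all_lf (batP_ok par7_ok wc1325460_173))) (Tre.all_lf (batP_ok par7_ok wc1325460_109)))) (Tre.all_nd (Tre.all_nd (Tre.all_nd (Tre.all_lf (batP_ok par7_ok wc1325460_29)) (Tre.all_lf (batP_ok par7_ok wc1325460_157))) (Tre.all_lf (batP_ok par7_ok wc1325460_93))) (Tre.all_nd (Tre.all_lf (batP_ok par7_ok wc1325460_61)) (Tre.all_lf (batP_ok par7_ok wc1325460_125))))))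

theorem afc132546011 : Tre.All (PceOK par7 c1325460.VT) fc132546011 := Tre.all_nd (Tre.all_nd (Tre.all_nd (Tre.all_nd (Tre.all_nd (Tre.all_nd (Tre.all_lf (batP_ok par7_ok wc1325460_3)) (Tre.all_lf (batP_ok par7_ok wc1325460_131))) (Tre.all_lf (batP_ok par7_ok wc1325460_67))) (Tre.all_nd (Tre.all_nd (Tre.all_lf (batP_ok par7_ok wc1325460_35)) (Tre.all_lf (batP_ok par7_ok wc1325460_163))) (Tre.all_lf (batP_ok par7_ok wc1325460_99)))) (Tre.all_nd (Tre.all_nd (Tre.all_nd (Tre.all_lf (batP_ok par7_ok wc1325460_19)) (Tre.all_lf (batP_ok par7_ok wc1325460_147))) (Tre.all_lf (batP_ok par7_ok wc1325460_83))) (Tre.all_nd (Tre.all_lf (batP_ok par7_ok wc1325460_51)) (Tre.all_lf (batP_ok par7_ok wc1325460_115))))) (Tre.all_nd (Tre.all_nd (Tre.all_nd (Tre.all_nd (Tre.all_lf (batP_ok par7_ok wc1325460_11)) (Tre.all_lf (batP_ok par7_ok wc1325460_139))) (Tre.all_lf (batP_ok par7_ok wc1325460_75))) (Tre.all_nd (Tre.all_nd (Tre.all_lf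 (batP_ok par7_ok wc1325460_43)) (Tre.all_lf (batP_ok par7_ok wc1325460_171))) (Tre.all_lf (batP_ok par7_ok wc1325460_107)))) (Tre.all_nd (Tre.all_nd (Tre.all_nd (Tre.all_lf (batP_ok par7_ok wc1325460_27)) (Tre.all_lf (batP_ok par7_ok wc1325460_155))) (Tre.all_lf (batP_ok par7_ok wc1325460_91))) (Tre.all_nd (Tre.all_lf (batP_ok par7_ok wc1325460_59)) (Tre.all_lf (batP_ok par7_ok wc1325460_123)))))) (Tre.all_nd (Tre.all_nd (Tre.all_nd (Tre.all_nd (Tre.all_nd (Tre.all_lf (batP_ok par7_ok wc1325460_7)) (Tre.all_lf (batP_ok par7_ok wc1325460_135))) (Tre.all_lf (batP_ok par7_ok wc1325460_71))) (Tre.all_nd (Tre.all_nd (Tre.all_lf (batP_ok par7_ok wc1325460_39)) (Tre.all_lf (batP_ok par7_ok wc1325460_167))) (Tre.all_lf (batP_ok par7_ok wc1325460_103)))) (Tre.all_nd (Tre.all_nd (Tre.all_nd (Tre.all_lf (batP_ok par7_ok wc1325460_23)) (Tre.all_lf (batP_ok par7_ok wc1325460_151))) (Tre.all_lf (batP_ok par7_ok wc1325460_87)))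 (Tre.all_nd (Tre.all_lf (batP_ok par7_ok wc1325460_55)) (Tre.all_lf (batP_ok par7_ok wc1325460_119))))) (Tre.all_nd (Tre.all_nd (Tre.all_nd (Tre.all_nd (Tre.all_lf (batP_ok par7_ok wc1325460_15)) (Tre.all_lf (batP_ok par7_ok wc1325460_143))) (Tre.all_lf (batP_ok par7_ok wc1325460_79))) (Tre.all_nd (Tre.all_nd (Tre.all_lf (batP_ok par7_ok wc1325460_47)) (Tre.all_lf (batP_ok par7_ok wc1325460_175))) (Tre.all_lf (batP_ok par7_ok wc1325460_111)))) (Tre.all_nd (Tre.all_nd (Tre.all_nd (Tre.all_lf (batP_ok par7_ok wc1325460_31)) (Tre.all_lf (batP_ok par7_ok wc1325460_159))) (Tre.all_lf (batP_ok par7_ok wc1325460_95))) (Tre.all_nd (Tre.all_lf (batP_ok par7_ok wc1325460_63)) (Tre.all_lf (batP_ok par7_ok wc1325460_127))))))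

theorem afc13254601 : Tre.All (PceOK par7 c1325460.VT) fc13254601 := Tre.all_nd afc132546010 afc132546011

theorem afc1325460 : Tre.All (PceOK par7 c1325460.VT) fc1325460 := Tre.all_nd afc13254600 afc13254601

theorem rac1325460_0 : RA c1325460 fc1325460 0 := ra_zero

theorem rac1325460_6 : RA c1325460 fc1325460 6 := ra_rng rac1325460_0 ec1325460_0

theorem rac1325460_11 : RA c1325460 fc1325460 11 := ra_rng rac1325460_6 ec1325460_6

theorem rac1325460_18 : RA c1325460 fc1325460 18 := ra_rng rac1325460_11 ec1325460_11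

theorem rac1325460_26 : RA c1325460 fc1325460 26 := ra_rng rac1325460_18 ec1325460_18

theorem rac1325460_36 : RA c1325460 fc1325460 36 := ra_rng rac1325460_26 ec1325460_26

theorem rac1325460_49 : RA c1325460 fc1325460 49 := ra_rng rac1325460_36 ec1325460_36

theorem rac1325460_66 : RA c1325460 fc1325460 66 := ra_rng rac1325460_49 ec1325460_49

theorem rac1325460_85 : RA c1325460 fc1325460 85 := ra_rng rac1325460_66 ec1325460_66

theorem rac1325460_176 : RA c1325460 fc1325460 176 := ra_rng rac1325460_85 ec1325460_85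

theorem kc1325460 : clsOK par7.d c1325460 = true := by decide +kernel

theorem dead_c1325460 : ClsD par7 c1325460 := clsD_of kc1325460 afc1325460 rac1325460_176

end Pool.Agent.RTX
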