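import Pool.Agent.RTS7.W_1543260_0
import Pool.Agent.RTS7.E_1543260_0

/-!
# RTS7: class of the permutation 1543260
-/

set_option autoImplicit false
set_option maxRecDepth 100000

namespace Pool.Agent.RTX

theorem afc1543260 : Tre.All (PceOK par7 c1543260.VT) fc1543260 := Tre.all_nd (Tre.all_nd (Tre.all_nd (Tre.all_nd (Tre.all_nd (Tre.all_nd (Tre.all_lf (batP_ok par7_ok wc1543260_0)) (Tre.all_lf (batP_ok par7_ok wc1543260_32))) (Tre.all_lf (batP_ok par7_ok wc1543260_16))) (Tre.all_nd (Tre.all_lf (batP_ok par7_ok wc1543260_8)) (Tre.all_lf (batP_ok par7_ok wc1543260_24)))) (Tre.all_nd (Tre.all_nd (Tre.all_nd (Tre.all_lf (batP_ok par7_ok wc1543260_4)) (Tre.all_lf (batP_ok par7_ok wc1543260_36))) (Tre.all_lf (batP_ok par7_ok wc1543260_20))) (Tre.all_nd (Tre.all_lf (batP_ok par7_ok wc1543260_12)) (Tre.all_lf (batP_ok par7_ok wc1543260_28))))) (Tre.all_nd (Tre.all_nd (Tre.all_nd (Tre.all_nd (Tre.all_lf (batP_ok par7_ok wc1543260_2))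 (Tre.all_lf (batP_ok par7_ok wc1543260_34))) (Tre.all_lf (batP_ok par7_ok wc1543260_18))) (Tre.all_nd (Tre.all_lf (batP_ok par7_ok wc1543260_10)) (Tre.all_lf (batP_ok par7_ok wc1543260_26)))) (Tre.all_nd (Tre.all_nd (Tre.all_lf (batP_ok par7_ok wc1543260_6)) (Tre.all_lf (batP_ok par7_ok wc1543260_22))) (Tre.all_nd (Tre.all_lf (batP_ok par7_ok wc1543260_14)) (Tre.all_lf (batP_ok par7_ok wc1543260_30)))))) (Tre.all_nd (Tre.all_nd (Tre.all_nd (Tre.all_nd (Tre.all_nd (Tre.all_lf (batP_ok par7_ok wc1543260_1)) (Tre.all_lf (batP_ok par7_ok wc1543260_33))) (Tre.all_lf (batP_ok par7_ok wc1543260_17))) (Tre.all_nd (Tre.all_lf (batP_ok par7_ok wc1543260_9)) (Tre.all_lf (batP_ok par7_ok wc1543260_25)))) (Tre.all_nd (Tre.all_nd (Tre.all_lf (batP_ok par7_ok wc1543260_5)) (Tre.all_lf (batP_ok par7_ok wc1543260_21))) (Tre.all_nd (Tre.all_lf (batP_ok par7_ok wc1543260_13)) (Tre.all_lf (batP_ok par7_ok wc1543260_29))))) (Tre.all_nd (Tre.all_nd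 (Tre.all_nd (Tre.all_nd (Tre.all_lf (batP_ok par7_ok wc1543260_3)) (Tre.all_lf (batP_ok par7_ok wc1543260_35))) (Tre.all_lf (batP_ok par7_ok wc1543260_19))) (Tre.all_nd (Tre.all_lf (batP_ok par7_ok wc1543260_11)) (Tre.all_lf (batP_ok par7_ok wc1543260_27)))) (Tre.all_nd (Tre.all_nd (Tre.all_lf (batP_ok par7_ok wc1543260_7)) (Tre.all_lf (batP_ok par7_ok wc1543260_23))) (Tre.all_nd (Tre.all_lf (batP_ok par7_ok wc1543260_15)) (Tre.all_lf (batP_ok par7_ok wc1543260_31))))))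

theorem rac1543260_0 : RA c1543260 fc1543260 0 := ra_zero

theorem rac1543260_37 : RA c1543260 fc1543260 37 := ra_rng rac1543260_0 ec1543260_0

theorem kc1543260 : clsOK par7.d c1543260 = true := by decide +kernel

theorem dead_c1543260 : ClsD par7 c1543260 := clsD_of kc1543260 afc1543260 rac1543260_37

end Pool.Agent.RTX
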