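import Pool.Agent.RTS7.Cov7
import Pool.Agent.RTS7.GoldD7
import Pool.Agent.RTS7.T_1234560
import Pool.Agent.RTS7.T_1234605
import Pool.Agent.RTS7.T_1235064
import Pool.Agent.RTS7.T_1235460
import Pool.Agent.RTS7.T_1240635
import Pool.Agent.RTS7.T_1243605
import Pool.Agent.RTS7.T_1254360
import Pool.Agent.RTS7.T_1304625
import Pool.Agent.RTS7.T_1305264
import Pool.Agent.RTS7.T_1305462
import Pool.Agent.RTS7.T_1324605
import Pool.Agent.RTS7.T_1325460
import Pool.Agent.RTS7.T_1543260

/-!
# RTS7/Fin7: seven intervals, the lower bound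
-/

set_option autoImplicit false

namespace Pool.Agent.RTX

open Pool.Agent.Helper44.IET Pool.Agent.Helper28.IET3

theorem all7 : ∀ C ∈ cl7, ClsG par7 C := by
  intro C hC
  unfold cl7 at hC
  simp only [List.mem_cons, List.not_mem_nil, or_false] at hC
  rcases hC with rfl | rfl | rfl | rfl | rfl | rfl | rfl | rfl | rfl | rfl | rfl | rfl | rfl
  · exact gold_c1234560
  · exact clsG_of dead_c1234605
  · exact clsG_of dead_c1235064
  · exact clsG_of dead_c1235460
  · exact clsG_of dead_c1240635
  · exact clsG_of dead_c1243605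
  · exact clsG_of dead_c1254360
  · exact clsG_of dead_c1304625
  · exact clsG_of dead_c1305264
  · exact clsG_of dead_c1305462
  · exact clsG_of dead_c1324605
  · exact clsG_of dead_c1325460
  · exact clsG_of dead_c1543260

/-- Every coding of an irreducible exchange of seven intervals with Keane's condition has critical exponent and asymptotic
critical exponent at least `(7 + √10) / 6`. -/
theorem low7 {u : ℕ → Fin 7} (hu : u ∈ Codings 7) :
    (((7 + Real.sqrt 10) / 6 : ℝ) : EReal) ≤ critExp u ∧ (((7 + Real.sqrt 10) / 6 : ℝ) : EReal) ≤ asympCritExp u := by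
  have h10 : Real.sqrt 10 ^ 2 = 10 := Real.sq_sqrt (by norm_num)
  have hlo : 3.16 < Real.sqrt 10 := by
    rw [show (3.16 : ℝ) = Real.sqrt (3.16 ^ 2) by rw [Real.sqrt_sq (by norm_num)]]
    exact Real.sqrt_lt_sqrt (by norm_num) (by norm_num)
  have hhi : Real.sqrt 10 < 3.1632 := by
    rw [show (3.1632 : ℝ) = Real.sqrt (3.1632 ^ 2) by rw [Real.sqrt_sq (by norm_num)]]
    exact Real.sqrt_lt_sqrt (by norm_num) (by norm_num)
  refine low_cod (A := par7) (L := cl7) (t := bt7) (D := gd7) (n := 1) (lam := 19 + 6 * Real.sqrt 10) cov7 all7 gd7_ok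
    (by decide) (by decide) (by decide) ?_ ?_ ?_ ?_ (by decide) hu
  · have : ((gd7.c : ℤ) : ℝ) = 38 := by norm_num [gd7]
    rw [this]
    nlinarith
  · linarith
  · have h1 : ((par7.P : ℤ) : ℝ) = 34 := by norm_num [par7]
    have h2 : ((par7.Q : ℤ) : ℝ) = 49 := by norm_num [par7]
    rw [h1, h2]
    linarith
  · have h1 : ((gd7.A : ℤ) : ℝ) = 36 := by norm_num [gd7]
    have h2 : ((gd7.B : ℤ) : ℝ) = -13 := by norm_num [gd7]
    rw [h1, h2]
    linarith

end Pool.Agent.RTX
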