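import Pool.Agent.RTS7.Cls

/-!
# RTS7/Gld: a class with a golden loop
-/

set_option autoImplicit false

namespace Pool.Agent.RTX

/-- The golden windows `GW`, in cyclic order, have length `L`; each one followed by the wrong step is in the list `HL`. -/
def gnOK (C : Cls) (L : ℕ) (GW HL : List (ℕ × ℕ)) : Bool :=
  (List.range GW.length).all fun s =>
    decide ((GW.getD s (0, 0)).2 >>> L = 1) &&
    decide ((GW.getD ((s + 1) % GW.length) (0, 0)).1 =
      tb (if (GW.getD s (0, 0)).2 >>> (L - 1) % 2 = 0 then C.X0 else C.X1) (GW.getD s (0, 0)).1) &&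
    decide ((GW.getD ((s + 1) % GW.length) (0, 0)).2 =
      (2 * (GW.getD s (0, 0)).2 + (GW.getD s (0, 0)).2 >>> (L - 1) % 2) % 2 ^ L + 2 ^ L) &&
    decide (((GW.getD s (0, 0)).1, 2 * (GW.getD s (0, 0)).2 + (1 - (GW.getD s (0, 0)).2 >>> (L - 1) % 2)) ∈ HL)

/-- The entries of the tree are golden windows. -/
def gtB (GW : List (ℕ × ℕ)) : Tre → Bool
  | .lf P => decide ((P % 18446744073709551616, P / 18446744073709551616) ∈ GW) &&
      decide (P < 340282366920938463463374607431768211456)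
  | .nd l r => gtB GW l && gtB GW r

/-- All the windows of the list eventually do not occur, from the same time on. -/
theorem dd_unif {v : ℕ → ℕ} {c : ℕ → Bool} : ∀ {HL : List (ℕ × ℕ)}, (∀ x ∈ HL, Dd v c x.1 x.2) →
    ∃ T, ∀ x ∈ HL, ∀ t, T ≤ t → ∀ n, v t = x.1 → cd c t n ≠ x.2
  | [], _ => ⟨0, by simp⟩
  | y :: HL, h => by
    obtain ⟨T, hT⟩ := dd_unif (HL := HL) fun x hx => h x (List.mem_cons_of_mem _ hx)
    obtain ⟨T', hT'⟩ := h y List.mem_cons_self
    refine ⟨max T T', fun x hx t ht => ?_⟩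
    rcases List.mem_cons.1 hx with rfl | hx
    · exact hT' t (le_trans (le_max_right _ _) ht)
    · exact hT x hx t (le_trans (le_max_left _ _) ht)

theorem gn_one {C : Cls} {L : ℕ} {GW HL : List (ℕ × ℕ)} (h : gnOK C L GW HL = true) {s : ℕ} (hs : s < GW.length) :
    (GW.getD s (0, 0)).2 >>> L = 1 ∧
    (GW.getD ((s + 1) % GW.length) (0, 0)).1 =
      tb (if (GW.getD s (0, 0)).2 >>> (L - 1) % 2 = 0 then C.X0 else C.X1) (GW.getD s (0, 0)).1 ∧
    (GW.getD ((s + 1) % GW.length) (0, 0)).2 =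
      (2 * (GW.getD s (0, 0)).2 + (GW.getD s (0, 0)).2 >>> (L - 1) % 2) % 2 ^ L + 2 ^ L ∧
    ((GW.getD s (0, 0)).1, 2 * (GW.getD s (0, 0)).2 + (1 - (GW.getD s (0, 0)).2 >>> (L - 1) % 2)) ∈ HL := by
  unfold gnOK at h
  rw [List.all_eq_true] at h
  have h1 := h s (List.mem_range.2 hs)
  simp only [Bool.and_eq_true, decide_eq_true_eq] at h1
  exact ⟨h1.1.1.1, h1.1.1.2, h1.1.2, h1.2⟩

theorem gold_next {C : Cls} {L : ℕ} (hL : 0 < L) {GW HL : List (ℕ × ℕ)} (h : gnOK C L GW HL = true) {v : ℕ → ℕ}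
    {c : ℕ → Bool} (hP : CP C v c) {T : ℕ} (hT : ∀ x ∈ HL, ∀ t, T ≤ t → ∀ n, v t = x.1 → cd c t n ≠ x.2) {t s : ℕ}
    (ht : T ≤ t) (hs : s < GW.length) (h1 : v t = (GW.getD s (0, 0)).1) (h2 : cd c t L = (GW.getD s (0, 0)).2) :
    v (t + 1) = (GW.getD ((s + 1) % GW.length) (0, 0)).1 ∧ cd c (t + 1) L = (GW.getD ((s + 1) % GW.length) (0, 0)).2 := by
  obtain ⟨-, e1, e2, e3⟩ := gn_one h hs
  obtain ⟨n, rfl⟩ : ∃ n, L = 1 + n := ⟨L - 1, by omega⟩
  have e4 : 1 + n - 1 = n := by omega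
  rw [e4] at e1 e2 e3
  rw [← h1, ← h2] at e1
  rw [← h2] at e2
  rw [← h1, ← h2] at e3
  have e5 : cd c t (1 + n) >>> n = cd c t 1 := cd_shr c t 1 n
  have e6 : cd c t 1 = 2 * 1 + (c t).toNat := rfl
  rw [e5, e6] at e1 e2 e3
  have e7 : (2 * 1 + (c t).toNat) % 2 = (c t).toNat := by
    have := Bool.toNat_le (c t)
    omega
  rw [e7] at e1 e2 e3
  have e8 : cd c t (1 + n + 1) = 2 * cd c t (1 + n) + (c (t + (1 + n))).toNat := rfl
  have e9 : (c (t + (1 + n))).toNat = (c t).toNat := by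
    by_contra hne
    have h3 := Bool.toNat_le (c t)
    have h4 := Bool.toNat_le (c (t + (1 + n)))
    have h5 : (c (t + (1 + n))).toNat = 1 - (c t).toNat := by omega
    rw [h5] at e8
    exact hT _ e3 t ht _ rfl e8
  constructor
  · rw [e1, hP.x t]
    cases c t <;> rfl
  · have e10 := cd_mod c t 1 (1 + n)
    rw [Nat.add_comm 1 (1 + n), e8, e9] at e10
    rw [e2, ← e10]

theorem gold_inf {C : Cls} {L : ℕ} (hL : 0 < L) {GW HL : List (ℕ × ℕ)} (h : gnOK C L GW HL = true) {v : ℕ → ℕ}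
    {c : ℕ → Bool} (hP : CP C v c) (hH : ∀ x ∈ HL, Dd v c x.1 x.2) (hG : ¬ ∀ x ∈ GW, Dd v c x.1 x.2) :
    ∃ t0, ∀ k, v (t0 + k * GW.length) = (GW.getD 0 (0, 0)).1 ∧ cd c (t0 + k * GW.length) L = (GW.getD 0 (0, 0)).2 := by
  obtain ⟨T, hT⟩ := dd_unif hH
  push Not at hG
  obtain ⟨x, hx, hD⟩ := hG
  unfold Dd at hD
  push Not at hD
  obtain ⟨t1, ht1, n, hv, hc⟩ := hD T
  obtain ⟨s, hs, hsx⟩ := List.getElem_of_mem hx
  have hsx' : GW.getD s (0, 0) = x := by rw [List.getD_eq_getElem _ _ hs, hsx]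
  obtain ⟨e0, -⟩ := gn_one h hs
  rw [hsx'] at e0
  have hn : n = L := by
    have h1 := cd_lt c t1 n
    rw [hc] at h1
    rw [Nat.shiftRight_eq_div_pow] at e0
    have h5 : 2 ^ L ≤ x.2 := by
      by_contra hcon
      rw [Nat.div_eq_of_lt (by omega)] at e0
      omega
    have h6 : x.2 < 2 ^ (L + 1) := by
      have h7 := Nat.lt_mul_div_succ x.2 (b := 2 ^ L) (by positivity)
      rw [e0] at h7
      rw [pow_succ]
      omega
    have h9 := (Nat.pow_lt_pow_iff_right (by norm_num : 1 < 2)).1 (lt_of_le_of_lt h1.1 h6)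
    have h10 := (Nat.pow_lt_pow_iff_right (by norm_num : 1 < 2)).1 (lt_of_le_of_lt h5 h1.2)
    omega
  subst hn
  have hpos : 0 < GW.length := by omega
  have key : ∀ m, v (t1 + m) = (GW.getD ((s + m) % GW.length) (0, 0)).1 ∧
      cd c (t1 + m) n = (GW.getD ((s + m) % GW.length) (0, 0)).2 := by
    intro m
    induction m with
    | zero =>
      rw [Nat.add_zero, Nat.add_zero, Nat.mod_eq_of_lt hs, hsx']
      exact ⟨hv, hc⟩
    | succ m ih =>
      have h1 := gold_next hL h hP hT (t := t1 + m) (s := (s + m) % GW.length) (by omega) (Nat.mod_lt _ hpos) ih.1 ih.2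
      have h2 : ((s + m) % GW.length + 1) % GW.length = (s + (m + 1)) % GW.length := by
        rw [Nat.mod_add_mod, Nat.add_assoc]
      rw [h2] at h1
      exact h1
  refine ⟨t1 + (GW.length - s), fun k => ?_⟩
  have h1 := key (GW.length - s + k * GW.length)
  have h2 : (s + (GW.length - s + k * GW.length)) % GW.length = 0 := by
    have h3 : s + (GW.length - s + k * GW.length) = (k + 1) * GW.length := by
      rw [Nat.add_mul]
      omega
    rw [h3, Nat.mul_mod_left]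
  rw [h2, ← Nat.add_assoc] at h1
  exact h1

theorem td_gold {FT GT : Tre} {GW : List (ℕ × ℕ)} (hg : gtB GW GT = true) {v : ℕ → ℕ} {c : ℕ → Bool} (h : TD FT v c)
    (hG : ∀ x ∈ GW, Dd v c x.1 x.2) : TD (Tre.nd FT GT) v c := by
  have h0 : ∀ i, Dd v c i 0 := by
    intro i
    refine ⟨0, fun t _ n _ hc => ?_⟩
    have h1 := (cd_lt c t n).1
    rw [hc] at h1
    have h2 : 0 < 2 ^ n := by positivity
    omega
  have key : ∀ {t : Tre}, gtB GW t = true → t.All fun P => ∀ e, Dd v c (slP P 0) (slP P (e + 1)) := by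
    intro t
    induction t with
    | lf P =>
      intro ht e
      simp only [gtB, Bool.and_eq_true, decide_eq_true_eq] at ht
      obtain ⟨h1, h2⟩ := ht
      have e0 : slP P 0 = P % 18446744073709551616 := by
        unfold slP
        simp
      rw [e0]
      cases e with
      | zero =>
        have e1 : slP P (0 + 1) = P / 18446744073709551616 := by
          unfold slP
          rw [Nat.shiftRight_eq_div_pow]
          norm_num
          omega
        rw [e1]
        exact hG _ h1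
      | succ e =>
        have e1 : slP P (e + 1 + 1) = 0 := by
          unfold slP
          have h3 : P >>> (64 * (e + 1 + 1)) = 0 := by
            rw [Nat.shiftRight_eq_div_pow]
            apply Nat.div_eq_of_lt
            refine lt_of_lt_of_le h2 ?_
            calc 340282366920938463463374607431768211456 = 2 ^ 128 := by norm_num
              _ ≤ 2 ^ (64 * (e + 1 + 1)) := Nat.pow_le_pow_right (by norm_num) (by omega)
          rw [h3]
        rw [e1]
        exact h0 _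
    | nd l r hl hr =>
      intro ht
      simp only [gtB, Bool.and_eq_true] at ht
      exact ⟨hl ht.1, hr ht.2⟩
  intro q
  have e : (Tre.nd FT GT).get q = gz (q / 2) fun q' => ifB (Nat.beq (q % 2) 0) (FT.get q') (GT.get q') := rfl
  rw [e, gz_eq, ifB_eq]
  split
  · exact h _
  · exact Tre.get_all (key hg) _

theorem hd_cons0 {C : Cls} {FT : Tre} {k : ℕ} {HL : List (ℕ × ℕ)} (h : HD C FT k HL) {i p m s : ℕ}
    (e : subOK C FT [] k i p m s = true) : HD C FT k ((i, p) :: HL) := by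
  intro v c hP hT hk x hx
  rcases List.mem_cons.1 hx with rfl | hx
  · exact sub_ok e hP hT hk (by simp)
  · exact h v c hP hT hk x hx

/-- Every system that starts in the class has powers at infinitely many levels or is golden for ever. -/
def ClsG (A : Par) (C : Cls) : Prop :=
  ∀ (u : ℕ → ℕ) (𝒮 : Sys A.d u) (i : ℕ), i < C.N → canon (𝒮.R 0) = vxL A.d C.VT i →
    (∀ t0, ∃ t, t0 ≤ t ∧ 𝒮.fb A t) ∨ ∃ t0, ∀ n, 𝒮.gold A (t0 + n * A.gp.length)

theorem clsG_of {A : Par} {C : Cls} (h : ClsD A C) : ClsG A C := fun u 𝒮 i hi h0 => Or.inl (h u 𝒮 i hi h0)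

/-- In a class with a golden loop: powers at infinitely many levels, or golden for ever. -/
theorem cls_gold {A : Par} {C : Cls} (hC : clsOK A.d C = true) {FT GT : Tre} (hFT : FT.All (PceOK A C.VT))
    (hR : RA C (Tre.nd FT GT) C.N) {GW HL : List (ℕ × ℕ)} (hg : gtB GW GT = true) (hH : HD C FT 0 HL)
    (hn : gnOK C A.gp.length GW HL = true) (hlen : GW.length = A.gp.length) (hpos : 0 < A.gp.length)
    (h0v : vxL A.d C.VT (GW.getD 0 (0, 0)).1 = A.g0) (h0c : (GW.getD 0 (0, 0)).2 = encG A.gp.reverse) {u : ℕ → ℕ}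
    (𝒮 : Sys A.d u) {i : ℕ} (hi : i < C.N) (h0 : canon (𝒮.R 0) = vxL A.d C.VT i) :
    (∀ t0, ∃ t, t0 ≤ t ∧ 𝒮.fb A t) ∨ ∃ t0, ∀ n, 𝒮.gold A (t0 + n * A.gp.length) := by
  by_cases hfb : ∀ t0, ∃ t, t0 ≤ t ∧ 𝒮.fb A t
  · exact Or.inl hfb
  · right
    push Not at hfb
    obtain ⟨t0, ht0⟩ := hfb
    obtain ⟨v, hP, hlt, hv⟩ := sys_pth hC 𝒮 hi h0
    have hT := td_of hFT 𝒮 hv ht0
    have hG : ¬ ∀ x ∈ GW, Dd v 𝒮.c x.1 x.2 := fun hG => no_path hR hP (td_gold hg hT hG) hlt
    obtain ⟨s0, hs0⟩ := gold_inf hpos hn hP (hH v 𝒮.c hP hT fun j hj => by omega) hG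
    refine ⟨s0, fun n => ?_⟩
    obtain ⟨h1, h2⟩ := hs0 n
    rw [hlen] at h1 h2
    refine ⟨by rw [hv, h1, h0v], ?_⟩
    rw [h0c, ← cd_enc] at h2
    have h3 := encG_inj h2
    have h4 : pth 𝒮.c (s0 + n * A.gp.length) A.gp.length = A.gp := List.reverse_injective h3
    have h5 := (fol_pth 𝒮.c (s0 + n * A.gp.length) A.gp.length).1
    rw [h4] at h5
    exact h5

end Pool.Agent.RTX
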