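import Pool.Agent.RTS7.Bat

/-!
# RTS7/Pce: pieces of the table of forbidden windows

A piece is a number with slots of 64 bits: the lowest slot is the number of a vertex, the other slots are codes of windows that start at this vertex.
The vertices of a class are packed in the table `VT`, with `3 d` bits each.
-/

set_option autoImplicit false

namespace Pool.Agent.RTX

/-- Digits in base 8, lowest first. -/
noncomputable def digs (n : ℕ) : ℕ → List ℕ :=
  Nat.rec (motive := fun _ => ℕ → List ℕ) (fun _ => []) (fun _ ih w => Nat.mod w (nat_lit 8) :: ih (Nat.div w (nat_lit 8))) n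

/-- The vertex number `i`. -/
noncomputable def vxL (d VT i : ℕ) : List ℕ := digs d (Nat.shiftRight VT (Nat.mul (Nat.mul (nat_lit 3) d) i))

/-- Slot `e` of a piece. -/
def slP (P e : ℕ) : ℕ := (P >>> (64 * e)) % 18446744073709551616

/-- Check of a piece. -/
noncomputable def batP (A : Par) (VT P : ℕ) (gr : List Bool) (c : ℕ) : Bool :=
  Nat.beq (frc (fun π => fz (Nat.shiftRight P (nat_lit 64)) fun F => ifB (batOK A π gr c F) (nat_lit 1) (nat_lit 0))
    (vxL A.d VT (Nat.mod P (nat_lit 18446744073709551616))).reverse []) 1

/-- All the windows of a piece force a power. -/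
def PceOK (A : Par) (VT P : ℕ) : Prop :=
  ∀ e g, encG g = slP P (e + 1) → Lf A (vxL A.d VT (slP P 0)) g

theorem batP_ok {A : Par} (hA : ParOK A) {VT P : ℕ} {gr : List Bool} {c : ℕ} (h : batP A VT P gr c = true) :
    PceOK A VT P := by
  unfold batP at h
  rw [Nat.beq_eq, frc_eq] at h
  simp only [fz_eq, ifB_eq] at h
  change (if batOK A (vxL A.d VT (P % 18446744073709551616)) gr c (P >>> 64) = true then 1 else 0) = 1 at h
  have h1 : batOK A (vxL A.d VT (P % 18446744073709551616)) gr c (P >>> 64) = true := by
    by_contra hc
    rw [if_neg hc] at h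
    exact absurd h (by decide)
  intro e g hg
  have e0 : slP P 0 = P % 18446744073709551616 := by
    unfold slP
    simp
  have e1 : slP P (e + 1) = ((P >>> 64) >>> (64 * e)) % 18446744073709551616 := by
    unfold slP
    rw [← Nat.shiftRight_add, show 64 + 64 * e = 64 * (e + 1) by ring]
  rw [e0]
  rw [e1] at hg
  have h2 := encG_pos g
  exact bat_ok hA h1 e (by omega) g hg

end Pool.Agent.RTX
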