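import Pool.Agent.RTS7.D_1305264

/-!
# RTS7: class of the permutation 1305264, forbidden windows
-/

set_option autoImplicit false
set_option linter.defProp false
set_option maxRecDepth 100000

namespace Pool.Agent.RTX

def wc1305264_0 : batP par7 c1305264.VT pc1305264_0 []
    0x210801ccdef7bdc0000000000000000000000000000840007336b5ad6b4 = true := by decide +kernel

def wc1305264_1 : batP par7 c1305264.VT pc1305264_1 []
    0x8420070a3 = true := by decide +kernel

def wc1305264_2 : batP par7 c1305264.VT pc1305264_2 []
    0x108400e24e7 = true := by decide +kernel

def wc1305264_3 : batP par7 c1305264.VT pc1305264_3 []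
    0x8400070a2 = true := by decide +kernel

def wc1305264_4 : batP par7 c1305264.VT pc1305264_4 []
    0x8420070a3 = true := by decide +kernel

def wc1305264_5 : batP par7 c1305264.VT pc1305264_5 []
    0x210001c6a94a = true := by decide +kernel

def wc1305264_6 : batP par7 c1305264.VT pc1305264_6 []
    0x108000e24c6 = true := by decide +kernel

def wc1305264_7 : batP par7 c1305264.VT pc1305264_7 []
    0x8420070a3 = true := by decide +kernel

def wc1305264_8 : batP par7 c1305264.VT pc1305264_8 []
    0x8400070a2 = true := by decide +kernel

def wc1305264_9 : batP par7 c1305264.VT pc1305264_9 []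
    0x421003917bde00000000000000000000000000004200039594a5270 = true := by decide +kernel

def wc1305264_10 : batP par7 c1305264.VT pc1305264_10 []
    0x210801c6ad6b = true := by decide +kernel

def wc1305264_11 : batP par7 c1305264.VT pc1305264_11 []
    0x4210038938000000000000000000000000000210001eb5ce9daf7bdef230 = true := by decide +kernel

def wc1305264_12 : batP par7 c1305264.VT pc1305264_12 []
    0x108000e24c6 = true := by decide +kernel

def wc1305264_13 : batP par7 c1305264.VT pc1305264_13 []
    0x8400070a2 = true := by decide +kernel

def wc1305264_14 : batP par7 c1305264.VT pc1305264_14 []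
    0x8420070a3 = true := by decide +kernel

def wc1305264_15 : batP par7 c1305264.VT pc1305264_15 []
    0x8400070a2 = true := by decide +kernel

def wc1305264_16 : batP par7 c1305264.VT pc1305264_16 []
    0x108400e66f7bdef7 = true := by decide +kernel

def wc1305264_17 : batP par7 c1305264.VT pc1305264_17 []
    0x42000391739ce = true := by decide +kernel

def wc1305264_18 : batP par7 c1305264.VT pc1305264_18 []
    0x210801c6ad6b = true := by decide +kernel

def wc1305264_19 : batP par7 c1305264.VT pc1305264_19 []
    0x210001c6a94a = true := by decide +kernel

def wc1305264_20 : batP par7 c1305264.VT pc1305264_20 []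
    0x108400e24e7 = true := by decide +kernel

def wc1305264_21 : batP par7 c1305264.VT pc1305264_21 []
    0x108000e24c6 = true := by decide +kernel

def wc1305264_22 : batP par7 c1305264.VT pc1305264_22 []
    0x108400e24e7 = true := by decide +kernel

def wc1305264_23 : batP par7 c1305264.VT pc1305264_23 []
    0x108000e24c6 = true := by decide +kernel

def wc1305264_24 : batP par7 c1305264.VT pc1305264_24 []
    0x8420070a3 = true := by decide +kernel

def wc1305264_25 : batP par7 c1305264.VT pc1305264_25 []
    0x8400070a2 = true := by decide +kernel

def wc1305264_26 : batP par7 c1305264.VT pc1305264_26 []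
    0x8420070a3 = true := by decide +kernel

def wc1305264_27 : batP par7 c1305264.VT pc1305264_27 []
    0x8400070a2 = true := by decide +kernel

def wc1305264_28 : batP par7 c1305264.VT pc1305264_28 []
    0x8420070a3 = true := by decide +kernel

def wc1305264_29 : batP par7 c1305264.VT pc1305264_29 []
    0x8400070a2 = true := by decide +kernel

def wc1305264_30 : batP par7 c1305264.VT pc1305264_30 []
    0x8420070a3 = true := by decide +kernel

def wc1305264_31 : batP par7 c1305264.VT pc1305264_31 []
    0x8400070a2 = true := by decide +kernel

def wc1305264_32 : batP par7 c1305264.VT pc1305264_32 []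
    0x108400e56739cc0000000000000000000000000000840007336b5ad694 = true := by decide +kernel

def wc1305264_33 : batP par7 c1305264.VT pc1305264_33 []
    0x421003917bdef = true := by decide +kernel

def wc1305264_34 : batP par7 c1305264.VT pc1305264_34 []
    0x210801ca8000000000000000000000000000210820eb657b5ad6949ce73 = true := by decide +kernel

def wc1305264_35 : batP par7 c1305264.VT pc1305264_35 []
    0x210801c6ad6b = true := by decide +kernel

def wc1305264_36 : batP par7 c1305264.VT pc1305264_36 []
    0x210001c6a94a = true := by decide +kernel

def wc1305264_37 : batP par7 c1305264.VT pc1305264_37 []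
    0x210801c6ad6b = true := by decide +kernel

def wc1305264_38 : batP par7 c1305264.VT pc1305264_38 []
    0x10841075aebded6b5ad398000000000000000000000000000108000e354a88 = true := by decide +kernel

def wc1305264_39 : batP par7 c1305264.VT pc1305264_39 []
    0x108400e24e7 = true := by decide +kernel

def wc1305264_40 : batP par7 c1305264.VT pc1305264_40 []
    0x108000e24c6 = true := by decide +kernel

def wc1305264_41 : batP par7 c1305264.VT pc1305264_41 []
    0x108400e24e7 = true := by decide +kernel

def wc1305264_42 : batP par7 c1305264.VT pc1305264_42 []
    0x108000e24c6 = true := by decide +kernel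

def wc1305264_43 : batP par7 c1305264.VT pc1305264_43 []
    0x8420071270000000000000000000000000000210001c8b9ce2c = true := by decide +kernel

def wc1305264_44 : batP par7 c1305264.VT pc1305264_44 []
    0x108000e24c6 = true := by decide +kernel

def wc1305264_45 : batP par7 c1305264.VT pc1305264_45 []
    0x108400e24e7 = true := by decide +kernel

def wc1305264_46 : batP par7 c1305264.VT pc1305264_46 []
    0x842083ad55ef7b5ad6b4c000000000000000000000000000084000712684 = true := by decide +kernel

def wc1305264_47 : batP par7 c1305264.VT pc1305264_47 []
    0x8420070a3 = true := by decide +kernel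

def wc1305264_48 : batP par7 c1305264.VT pc1305264_48 []
    0x8400070a2 = true := by decide +kernel

def wc1305264_49 : batP par7 c1305264.VT pc1305264_49 []
    0x8420070a3 = true := by decide +kernel

def wc1305264_50 : batP par7 c1305264.VT pc1305264_50 []
    0x8400070a2 = true := by decide +kernel

def wc1305264_51 : batP par7 c1305264.VT pc1305264_51 []
    0x8420070a3 = true := by decide +kernel

def wc1305264_52 : batP par7 c1305264.VT pc1305264_52 []
    0x8400070a2 = true := by decide +kernel

def wc1305264_53 : batP par7 c1305264.VT pc1305264_53 []
    0x8420070a3 = true := by decide +kernel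

def wc1305264_54 : batP par7 c1305264.VT pc1305264_54 []
    0x8400070a2 = true := by decide +kernel

def wc1305264_55 : batP par7 c1305264.VT pc1305264_55 []
    0x8420070a3 = true := by decide +kernel

def wc1305264_56 : batP par7 c1305264.VT pc1305264_56 []
    0x8400070a2 = true := by decide +kernel

def wc1305264_57 : batP par7 c1305264.VT pc1305264_57 []
    0x8420070a3 = true := by decide +kernel

def wc1305264_58 : batP par7 c1305264.VT pc1305264_58 []
    0x8400070a2 = true := by decide +kernel

def wc1305264_59 : batP par7 c1305264.VT pc1305264_59 []
    0x8420070a3 = true := by decide +kernel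

def wc1305264_60 : batP par7 c1305264.VT pc1305264_60 []
    0x8400070a2 = true := by decide +kernel

def wc1305264_61 : batP par7 c1305264.VT pc1305264_61 []
    0x8420070a3 = true := by decide +kernel

def wc1305264_62 : batP par7 c1305264.VT pc1305264_62 []
    0x4421041d69af7bded6b5ac00000000000000000000000000004200038580 = true := by decide +kernel

end Pool.Agent.RTX
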