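import Pool.Agent.RTS7.D_1543260

/-!
# RTS7: class of the permutation 1543260, forbidden windows
-/

set_option autoImplicit false
set_option linter.defProp false
set_option maxRecDepth 100000

namespace Pool.Agent.RTX

def wc1543260_0 : batP par7 c1543260.VT pc1543260_0 []
    0x8420070a3 = true := by decide +kernel

def wc1543260_1 : batP par7 c1543260.VT pc1543260_1 []
    0x8400070a2 = true := by decide +kernel

def wc1543260_2 : batP par7 c1543260.VT pc1543260_2 []
    0x108000e24c6 = true := by decide +kernel

def wc1543260_3 : batP par7 c1543260.VT pc1543260_3 []
    0x8400070a2 = true := by decide +kernel

def wc1543260_4 : batP par7 c1543260.VT pc1543260_4 []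
    0x108400e24e7 = true := by decide +kernel

def wc1543260_5 : batP par7 c1543260.VT pc1543260_5 []
    0x8420070a3 = true := by decide +kernel

def wc1543260_6 : batP par7 c1543260.VT pc1543260_6 []
    0x8400070a2 = true := by decide +kernel

def wc1543260_7 : batP par7 c1543260.VT pc1543260_7 []
    0x8420070a3 = true := by decide +kernel

def wc1543260_8 : batP par7 c1543260.VT pc1543260_8 []
    0x8420070a3 = true := by decide +kernel

def wc1543260_9 : batP par7 c1543260.VT pc1543260_9 []
    0x210801c6ad6b = true := by decide +kernel

def wc1543260_10 : batP par7 c1543260.VT pc1543260_10 []
    0x108400e24e7 = true := by decide +kernel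

def wc1543260_11 : batP par7 c1543260.VT pc1543260_11 []
    0x8420072b39ce600000000000000000000000000004200039594a5290 = true := by decide +kernel

def wc1543260_12 : batP par7 c1543260.VT pc1543260_12 []
    0x210001c6a94a = true := by decide +kernel

def wc1543260_13 : batP par7 c1543260.VT pc1543260_13 []
    0x108000e24c6 = true := by decide +kernel

def wc1543260_14 : batP par7 c1543260.VT pc1543260_14 []
    0x8400070a2 = true := by decide +kernel

def wc1543260_15 : batP par7 c1543260.VT pc1543260_15 []
    0x8400070a2 = true := by decide +kernel

def wc1543260_16 : batP par7 c1543260.VT pc1543260_16 []
    0x8420070a3 = true := by decide +kernel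

def wc1543260_17 : batP par7 c1543260.VT pc1543260_17 []
    0x108400e24e7 = true := by decide +kernel

def wc1543260_18 : batP par7 c1543260.VT pc1543260_18 []
    0x8420070a3 = true := by decide +kernel

def wc1543260_19 : batP par7 c1543260.VT pc1543260_19 []
    0x108000e24c6 = true := by decide +kernel

def wc1543260_20 : batP par7 c1543260.VT pc1543260_20 []
    0x210801c88000000000000000000000000000210820ea653b5ad6747bc000000000000000000000000000108000f53395ef7bddce6c = true := by decide +kernel

def wc1543260_21 : batP par7 c1543260.VT pc1543260_21 []
    0x8400070a2 = true := by decide +kernel

def wc1543260_22 : batP par7 c1543260.VT pc1543260_22 []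
    0x8420070a3 = true := by decide +kernel

def wc1543260_23 : batP par7 c1543260.VT pc1543260_23 []
    0x8420072b39ce60000000000000000000000000000840007b1b4e739cae000000000000000000000000000042000399b5a5ad694 = true := by decide +kernel

def wc1543260_24 : batP par7 c1543260.VT pc1543260_24 []
    0x108400e45ef0000000000000000000000000084420801d48000000000000000000000000002210400eb5f296b5ef7739b00000000000000000000000000000840007336b5ad674 = true := by decide +kernel

def wc1543260_25 : batP par7 c1543260.VT pc1543260_25 []
    0x421003850000000000000000000000000000420003d8bdef75ef7b5ad614 = true := by decide +kernel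

def wc1543260_26 : batP par7 c1543260.VT pc1543260_26 []
    0x108400e3560000000000000000000000000108841003a10000000000000000000000000004420801d28000000000000000000000000004110c00ec54a5ba4a5ad7ba9200000000000000000000000000000840007336b5ad654 = true := by decide +kernel

def wc1543260_27 : batP par7 c1543260.VT pc1543260_27 []
    0x8420071a0000000000000000000000000000842083a594800000000000000000000000000010841074ae7ca5ad65458000000000000000000000000000210001e95ee0000000000000000000000000000420003d2ce7617bdeea48 = true := by decide +kernel

def wc1543260_28 : batP par7 c1543260.VT pc1543260_28 []
    0x8400070a2 = true := by decide +kernel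

def wc1543260_29 : batP par7 c1543260.VT pc1543260_29 []
    0x8420073370000000000000000000000000000421841d8de5294a76b4bdee00000000000000000000000000004200039594a52b0 = true := by decide +kernel

def wc1543260_30 : batP par7 c1543260.VT pc1543260_30 []
    0x421041d8b9ce0000000000000000000000000000421041d8a94b74b5ad7bdee000000000000000000000000000042000385a0 = true := by decide +kernel

def wc1543260_31 : batP par7 c1543260.VT pc1543260_31 []
    0x108400e66f7bdee0000000000000000000000000200842003ad70000000000000000000000000084210800ea6c2f7b5acf78000000000000000000000000000108000e45ce6cac = true := by decide +kernel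

def wc1543260_32 : batP par7 c1543260.VT pc1543260_32 []
    0x108400e66f7bdee0000000000000000000000000100441003b15ad40000000000000000000000000200841003a5ac0000000000000000000000000108421001d0d85ef6b2c00000000000000000000000000008400071aa48a8 = true := by decide +kernel

def wc1543260_33 : batP par7 c1543260.VT pc1543260_33 []
    0x42100399bdef7b8000000000000000000000000040110400ea4e60000000000000000000000000080220801d4ad7500000000000000000000000000100441003a97bdf58000000000000000000000000021084100399b0bdec00000000000000000000000000004200038924a4 = true := by decide +kernel

def wc1543260_34 : batP par7 c1543260.VT pc1543260_34 []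
    0x11084107432948000000000000000000000000001108410742e70000000000000000000000000002210820e854b7494b5ac0000000000000000000000000200840007a15a8000000000000000000000000040108000f42f7d60000000000000000000000000080210001e86739d85ee000000000000000000000000000042000389a424 = true := by decide +kernel

def wc1543260_35 : batP par7 c1543260.VT pc1543260_35 []
    0x210801ccdef7bdc0000000000000000000000000000840007336b5ad6b4 = true := by decide +kernel

def wc1543260_36 : batP par7 c1543260.VT pc1543260_36 []
    0x421003890000000000000000000000000084420801cc8000000000000000000000000004110c00ea5ce70000000000000000000000000004110c00ea54a0000000000000000000000000008221801d498ea8e9296b5c900000000000000000000000000000840007336b5ad634 = true := by decide +kernel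

end Pool.Agent.RTX
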